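import Pool.Agent.EH60.Transfer

noncomputable section

namespace EH60

open Finset Filter

/-- The number of blocks between `N^a` and `N^b`. -/
def nb (N : ℕ) (a b : ℝ) : ℕ := ⌊(b - a) * Real.log N / Real.log 4⌋₊

theorem log4_pos : 0 < Real.log 4 := Real.log_pos (by norm_num)

theorem nb_ge (a b : ℝ) (hab : a < b) : ∀ᶠ N : ℕ in atTop,
    (b - a) / (2 * Real.log 4) * Real.log N ≤ nb N a b := by
  have h0 : Tendsto (fun N : ℕ => Real.log (N : ℝ)) atTop atTop :=
    Real.tendsto_log_atTop.comp tendsto_natCast_atTop_atTop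
  filter_upwards [h0.eventually_ge_atTop (2 * Real.log 4 / (b - a))] with N h1
  have hba : 0 < b - a := by linarith
  have h4 := log4_pos
  have h2 : (b - a) * Real.log N / Real.log 4 - 1 < nb N a b := Nat.sub_one_lt_floor _
  have h3 : 1 ≤ (b - a) / (2 * Real.log 4) * Real.log N := by
    rw [div_le_iff₀ hba] at h1
    rw [div_mul_eq_mul_div, le_div_iff₀ (by positivity)]
    linarith
  have h5 : (b - a) * Real.log N / Real.log 4 = 2 * ((b - a) / (2 * Real.log 4) * Real.log N) := by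
    field_simp
  rw [h5] at h2
  linarith

/-- all blocks lie between `N^a` and `N^b` -/
theorem pow_nb_le (N : ℕ) (hN : 1 < N) (a b : ℝ) (hab : a < b) (j : ℕ) (hj : j ≤ nb N a b) :
    (N : ℝ) ^ a ≤ (N : ℝ) ^ b / 4 ^ j := by
  have hN0 : (0 : ℝ) < N := by exact_mod_cast (by omega : 0 < N)
  have hlog : 0 < Real.log N := Real.log_pos (by exact_mod_cast hN)
  rw [le_div_iff₀ (by positivity)]
  have h1 : (j : ℝ) ≤ (b - a) * Real.log N / Real.log 4 := by
    have h2 : ((nb N a b : ℕ) : ℝ) ≤ (b - a) * Real.log N / Real.log 4 :=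
      Nat.floor_le (div_nonneg (mul_nonneg (by linarith) hlog.le) log4_pos.le)
    exact (by exact_mod_cast hj : (j : ℝ) ≤ (nb N a b : ℕ)).trans h2
  rw [le_div_iff₀ log4_pos] at h1
  have h3 : Real.log ((N : ℝ) ^ a * 4 ^ j) ≤ Real.log ((N : ℝ) ^ b) := by
    rw [Real.log_mul (by positivity) (by positivity), Real.log_rpow hN0, Real.log_rpow hN0,
      Real.log_pow]
    linarith
  exact (Real.log_le_log_iff (by positivity) (by positivity)).1 h3

/-- the primes in `(N^a, N^b]` -/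
def Qs (N : ℕ) (a b : ℝ) : Finset ℕ :=
  (Finset.range (N + 1)).filter (fun q : ℕ => q.Prime ∧ (N : ℝ) ^ a < q ∧ (q : ℝ) ≤ (N : ℝ) ^ b)

theorem block_disj {x : ℝ} {j j' : ℕ} {t : ℝ} (hx : 0 < x) (h1 : x / 4 ^ j / 4 < t) (h2 : t ≤ x / 4 ^ j)
    (h1' : x / 4 ^ j' / 4 < t) (h2' : t ≤ x / 4 ^ j') : j = j' := by
  have key : ∀ i i' : ℕ, x / 4 ^ i / 4 < t → t ≤ x / 4 ^ i' → i' ≤ i := by
    intro i i' hi hi'
    by_contra hne
    push Not at hne
    have h3 : x / 4 ^ i' ≤ x / 4 ^ i / 4 := by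
      rw [div_div, ← pow_succ]
      apply div_le_div_of_nonneg_left hx.le (by positivity)
      exact pow_le_pow_right₀ (by norm_num) hne
    linarith
  exact le_antisymm (key j' j h1' h2) (key j j' h1 h2')

theorem share_prime {q : ℕ} (hq : q.Prime) : share q = 3 / ((q : ℝ) + 2) := by
  rw [share, hq.primeFactors, Finset.prod_singleton]

theorem sum_share_ge (a b : ℝ) (ha : 0 < a) (hab : a < b) (hb : b ≤ 1) : ∃ c : ℝ, 0 < c ∧
    ∀ᶠ N : ℕ in atTop, c ≤ ∑ q ∈ Qs N a b, share q := by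
  obtain ⟨x₀, hx₀⟩ := card_Pb
  have hc0 : 0 < 3 / 10 * ((b - a) / (2 * Real.log 4)) := by
    have h4 := log4_pos
    have hba : 0 < b - a := by linarith
    positivity
  refine ⟨3 / 10 * ((b - a) / (2 * Real.log 4)), hc0, ?_⟩
  filter_upwards [nb_ge a b hab, eventually_gt_atTop 1,
    (tendsto_natpow a ha).eventually_ge_atTop (max x₀ 2)] with N h1 h2 h3
  have hN1 : (1 : ℝ) < N := by exact_mod_cast h2
  have hN0 : (0 : ℝ) < N := by linarith
  have hlog : 0 < Real.log N := Real.log_pos hN1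
  set x : ℝ := (N : ℝ) ^ b with hx
  have hx0 : 0 < x := Real.rpow_pos_of_pos hN0 _
  have hxN : x ≤ N := by
    calc x = (N : ℝ) ^ b := rfl
      _ ≤ (N : ℝ) ^ (1 : ℝ) := Real.rpow_le_rpow_of_exponent_le hN1.le hb
      _ = N := Real.rpow_one _
  have hblock : ∀ j ∈ Finset.range (nb N a b), 3 / 10 / Real.log N ≤
      ∑ q ∈ Pb (x / 4 ^ j), share q := by
    intro j hj
    rw [Finset.mem_range] at hj
    have hz := pow_nb_le N h2 a b hab j hj.le
    rw [← hx] at hz
    set z : ℝ := x / 4 ^ j with hzdef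
    have hz2 : 2 ≤ z := ((le_max_right _ _).trans h3).trans hz
    have hz0 : x₀ ≤ z := ((le_max_left _ _).trans h3).trans hz
    have hzpos : 0 < z := by linarith
    have hzN : z ≤ N := by
      refine le_trans ?_ hxN
      exact div_le_self hx0.le (one_le_pow₀ (by norm_num))
    have hlz : 0 < Real.log z := Real.log_pos (by linarith)
    have h5 := hx₀ z hz0
    calc 3 / 10 / Real.log N ≤ 3 / 10 / Real.log z := by
          have := Real.log_le_log hzpos hzN
          gcongr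
      _ ≤ (Pb z).card / z := by rw [div_le_div_iff₀ hlz hzpos]; exact h5
      _ = ∑ _q ∈ Pb z, 1 / z := by rw [Finset.sum_const, nsmul_eq_mul]; ring
      _ ≤ ∑ q ∈ Pb z, share q := by
          apply Finset.sum_le_sum
          intro q hq
          rw [mem_Pb hzpos.le] at hq
          have hq2 : (2 : ℝ) ≤ q := by exact_mod_cast hq.2.two_le
          rw [share_prime hq.2, div_le_div_iff₀ hzpos (by linarith)]
          linarith [hq.1.2]
  have hdisj : ∀ j ∈ Finset.range (nb N a b), ∀ j' ∈ Finset.range (nb N a b), j ≠ j' →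
      Disjoint (Pb (x / 4 ^ j)) (Pb (x / 4 ^ j')) := by
    intro j _ j' _ hne
    rw [Finset.disjoint_left]
    intro q hq hq'
    rw [mem_Pb (by positivity)] at hq hq'
    exact hne (block_disj hx0 hq.1.1 hq.1.2 hq'.1.1 hq'.1.2)
  have hsub : (Finset.range (nb N a b)).biUnion (fun j => Pb (x / 4 ^ j)) ⊆ Qs N a b := by
    intro q hq
    rw [Finset.mem_biUnion] at hq
    obtain ⟨j, hj, hq⟩ := hq
    rw [Finset.mem_range] at hj
    rw [mem_Pb (by positivity)] at hq
    have hz := pow_nb_le N h2 a b hab (j + 1) hj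
    rw [← hx, pow_succ, ← div_div] at hz
    have hqx : (q : ℝ) ≤ x := hq.1.2.trans (div_le_self hx0.le (one_le_pow₀ (by norm_num)))
    rw [Qs, Finset.mem_filter, Finset.mem_range]
    refine ⟨?_, hq.2, lt_of_le_of_lt hz hq.1.1, hqx⟩
    have : (q : ℝ) ≤ N := hqx.trans hxN
    have : q ≤ N := by exact_mod_cast this
    omega
  calc 3 / 10 * ((b - a) / (2 * Real.log 4)) =
        ((b - a) / (2 * Real.log 4) * Real.log N) * (3 / 10 / Real.log N) := by field_simp
    _ ≤ (nb N a b) * (3 / 10 / Real.log N) := by gcongr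
    _ = ∑ _j ∈ Finset.range (nb N a b), 3 / 10 / Real.log N := by
        rw [Finset.sum_const, Finset.card_range, nsmul_eq_mul]
    _ ≤ ∑ j ∈ Finset.range (nb N a b), ∑ q ∈ Pb (x / 4 ^ j), share q := Finset.sum_le_sum hblock
    _ = ∑ q ∈ (Finset.range (nb N a b)).biUnion (fun j => Pb (x / 4 ^ j)), share q :=
        (Finset.sum_biUnion (fun j hj j' hj' hne => hdisj j hj j' hj' hne)).symm
    _ ≤ ∑ q ∈ Qs N a b, share q :=
        Finset.sum_le_sum_of_subset_of_nonneg hsub (fun q _ _ => (share_pos q).le)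

/-- If `β'` is admissible, then for `β < β'` every large `N` has a block `(Q/4, Q]`, `N^β ≤ Q ≤ N^β'`,
and a prime `q` in `(N^a, N^b]` whose multiples in the block have at most their natural share. -/
theorem converse (β β' a b : ℝ) (hβ : 0 < β) (hββ' : β < β') (hβ' : β' ≤ 1) (ha : 0 < a)
    (hab : a < b) (hb : b ≤ 1) (hadm : Admissible β') :
    ∃ K : ℝ, ∀ᶠ N : ℕ in atTop, ∃ (q : ℕ) (Q : ℝ), q.Prime ∧ (N : ℝ) ^ a < q ∧
      (q : ℝ) ≤ (N : ℝ) ^ b ∧ (N : ℝ) ^ β ≤ Q ∧ Q ≤ (N : ℝ) ^ β' ∧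
      ∑ n ∈ block N Q q, wt n * E N n ≤ K * share q * N / Real.log N ^ 4 := by
  obtain ⟨C₁, K, hK⟩ := hadm
  obtain ⟨c, hc0, hc⟩ := sum_share_ge a b ha hab hb
  set γ : ℝ := (β + β') / 2 with hγ
  have hβγ : β < γ := by rw [hγ]; linarith
  have hγβ' : γ < β' := by rw [hγ]; linarith
  set c₁ : ℝ := (γ - β) / (2 * Real.log 4) with hc₁
  have hc₁0 : 0 < c₁ := by
    have h4 := log4_pos
    have hba : 0 < γ - β := by linarith
    rw [hc₁]
    positivity
  refine ⟨(2 / a * |K|) / (c * c₁) + 1, ?_⟩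
  -- `N^γ < N^β' / log^C₁ N`
  have e1 : ∀ᶠ N : ℕ in atTop, (N : ℝ) ^ γ < (N : ℝ) ^ β' / Real.log N ^ C₁ := by
    have h1 : (fun x : ℝ => Real.log x ^ C₁) =o[atTop] fun x : ℝ => x ^ (β' - γ) :=
      isLittleO_log_rpow_rpow_atTop C₁ (by linarith)
    have h2 := h1.bound (show (0 : ℝ) < 1 / 2 by norm_num)
    filter_upwards [tendsto_natCast_atTop_atTop.eventually h2, eventually_gt_atTop 1] with N h3 h4
    have hN1 : (1 : ℝ) < N := by exact_mod_cast h4
    have hN0 : (0 : ℝ) < N := by linarith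
    have hlog : 0 < Real.log N := Real.log_pos hN1
    rw [Real.norm_of_nonneg (Real.rpow_nonneg hlog.le _),
      Real.norm_of_nonneg (Real.rpow_nonneg hN0.le _)] at h3
    have hp : 0 < (N : ℝ) ^ (β' - γ) := Real.rpow_pos_of_pos hN0 _
    rw [lt_div_iff₀ (Real.rpow_pos_of_pos hlog _)]
    calc (N : ℝ) ^ γ * Real.log N ^ C₁ ≤ (N : ℝ) ^ γ * (1 / 2 * (N : ℝ) ^ (β' - γ)) := by gcongr
      _ = 1 / 2 * ((N : ℝ) ^ γ * (N : ℝ) ^ (β' - γ)) := by ring
      _ = 1 / 2 * (N : ℝ) ^ β' := by rw [← Real.rpow_add hN0]; congr 2; ring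
      _ < (N : ℝ) ^ β' := by
          have := Real.rpow_pos_of_pos hN0 β'
          linarith
  filter_upwards [hK, hc, e1, nb_ge β γ hβγ, card_large' a ha, eventually_gt_atTop 1]
    with N h1 h2 h3 h4 h5 h6
  have hN1 : (1 : ℝ) < N := by exact_mod_cast h6
  have hN0 : (0 : ℝ) < N := by linarith
  have hlog : 0 < Real.log N := Real.log_pos hN1
  set x : ℝ := (N : ℝ) ^ γ with hx
  have hx0 : 0 < x := Real.rpow_pos_of_pos hN0 _
  have hxN : x ≤ N := by
    calc x = (N : ℝ) ^ γ := rfl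
      _ ≤ (N : ℝ) ^ (1 : ℝ) := Real.rpow_le_rpow_of_exponent_le hN1.le (by linarith)
      _ = N := Real.rpow_one _
  set T := (Finset.Icc (1 : ℕ) N).filter (fun d : ℕ => (d : ℝ) < (N : ℝ) ^ β' / Real.log N ^ C₁)
    with hT
  set f : ℕ → ℝ := fun n => wt n * E N n with hf
  have hf0 : ∀ n, 0 ≤ f n := fun n => mul_nonneg (wt_nonneg n) (E_nonneg N n)
  by_contra hcon
  push Not at hcon
  set K' : ℝ := (2 / a * |K|) / (c * c₁) + 1 with hK'
  -- lower bound
  have hlow : c₁ * Real.log N * c * (K' * N / Real.log N ^ 4) ≤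
      ∑ q ∈ Qs N a b, ∑ j ∈ Finset.range (nb N β γ), ∑ n ∈ block N (x / 4 ^ j) q, f n := by
    have hb1 : ∀ q ∈ Qs N a b, ∀ j ∈ Finset.range (nb N β γ),
        share q * (K' * N / Real.log N ^ 4) ≤ ∑ n ∈ block N (x / 4 ^ j) q, f n := by
      intro q hq j hj
      rw [Qs, Finset.mem_filter, Finset.mem_range] at hq
      rw [Finset.mem_range] at hj
      have hz := pow_nb_le N h6 β γ hβγ j hj.le
      rw [← hx] at hz
      have hz2 : x / 4 ^ j ≤ (N : ℝ) ^ β' := by
        refine (div_le_self hx0.le (one_le_pow₀ (by norm_num))).trans ?_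
        exact Real.rpow_le_rpow_of_exponent_le hN1.le hγβ'.le
      have := hcon q (x / 4 ^ j) hq.2.1 hq.2.2.1 hq.2.2.2 hz hz2
      calc share q * (K' * N / Real.log N ^ 4) = K' * share q * N / Real.log N ^ 4 := by ring
        _ ≤ _ := this.le
    have hK'0 : 0 ≤ K' := by rw [hK']; positivity
    calc c₁ * Real.log N * c * (K' * N / Real.log N ^ 4)
        ≤ (nb N β γ) * (∑ q ∈ Qs N a b, share q) * (K' * N / Real.log N ^ 4) := by
          have : 0 ≤ K' * N / Real.log N ^ 4 := by positivity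
          gcongr
      _ = ∑ q ∈ Qs N a b, ∑ _j ∈ Finset.range (nb N β γ), share q * (K' * N / Real.log N ^ 4) := by
          simp only [Finset.sum_const, Finset.card_range, nsmul_eq_mul]
          rw [← Finset.mul_sum, ← Finset.sum_mul]
          ring
      _ ≤ _ := Finset.sum_le_sum fun q hq => Finset.sum_le_sum fun j hj => hb1 q hq j hj
  -- upper bound
  have hup : ∑ q ∈ Qs N a b, ∑ j ∈ Finset.range (nb N β γ), ∑ n ∈ block N (x / 4 ^ j) q, f n ≤
      2 / a * ∑ n ∈ T, f n := by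
    have hq1 : ∀ q ∈ Qs N a b, ∑ j ∈ Finset.range (nb N β γ), ∑ n ∈ block N (x / 4 ^ j) q, f n ≤
        ∑ n ∈ T.filter (fun n => q ∣ n), f n := by
      intro q _
      rw [← Finset.sum_biUnion]
      · apply Finset.sum_le_sum_of_subset_of_nonneg _ (fun n _ _ => hf0 n)
        intro n hn
        rw [Finset.mem_biUnion] at hn
        obtain ⟨j, _, hn⟩ := hn
        rw [block, Finset.mem_filter] at hn
        rw [Finset.mem_filter, hT, Finset.mem_filter]
        refine ⟨⟨hn.1, ?_⟩, hn.2.2⟩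
        refine lt_of_le_of_lt (hn.2.1.2.trans ?_) h3
        exact div_le_self hx0.le (one_le_pow₀ (by norm_num))
      · intro j _ j' _ hne
        rw [Function.onFun, Finset.disjoint_left]
        intro n hn hn'
        rw [block, Finset.mem_filter] at hn hn'
        exact hne (block_disj hx0 hn.2.1.1 hn.2.1.2 hn'.2.1.1 hn'.2.1.2)
    refine (Finset.sum_le_sum hq1).trans ?_
    simp only [Finset.sum_filter]
    rw [Finset.sum_comm, Finset.mul_sum]
    apply Finset.sum_le_sum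
    intro n hn
    rw [hT, Finset.mem_filter, Finset.mem_Icc] at hn
    have hn0 : 0 < n := by omega
    rw [← Finset.sum_filter, Finset.sum_const, nsmul_eq_mul]
    apply mul_le_mul_of_nonneg_right _ (hf0 n)
    refine le_trans ?_ (h5 n hn0 hn.1.2 ((N : ℝ) ^ a) (by
      have := Real.rpow_pos_of_pos hN0 a; linarith))
    have : (Qs N a b).filter (fun q => q ∣ n) ⊆
        n.primeFactors.filter (fun p : ℕ => (N : ℝ) ^ a < (p : ℝ)) := by
      intro q hq
      rw [Finset.mem_filter, Qs, Finset.mem_filter] at hq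
      rw [Finset.mem_filter, Nat.mem_primeFactors]
      exact ⟨⟨hq.1.2.1, hq.2, hn0.ne'⟩, hq.1.2.2.1⟩
    exact_mod_cast Finset.card_le_card this
  have h7 : c₁ * Real.log N * c * (K' * N / Real.log N ^ 4) ≤ 2 / a * (K * N / Real.log N ^ 3) :=
    (hlow.trans hup).trans (mul_le_mul_of_nonneg_left h1 (by positivity))
  have h8 : c₁ * Real.log N * c * (K' * N / Real.log N ^ 4) =
      (2 / a * |K| + c * c₁) * (N / Real.log N ^ 3) := by
    rw [hK']
    field_simp
  have h9 : 2 / a * (K * N / Real.log N ^ 3) = (2 / a * K) * (N / Real.log N ^ 3) := by ring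
  rw [h8, h9] at h7
  have h10 : 0 < (N : ℝ) / Real.log N ^ 3 := by positivity
  have h11 := le_of_mul_le_mul_right h7 h10
  have h12 : 2 / a * K ≤ 2 / a * |K| := by
    have := le_abs_self K
    gcongr
  have h13 : 0 < c * c₁ := by positivity
  linarith

end EH60
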