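import Pool.Agent.EH60.Defs

noncomputable section

namespace EH60

open Finset Filter

theorem count_split (Y D M l : ℕ) (hD : 0 < D) (hM : 0 < M) (hDM : D.Coprime M)
    (hl : l.Coprime D) :
    ((Finset.range (Y + 1)).filter (fun p : ℕ => p.Prime ∧ p ≡ l [MOD D])).card =
      (∑ a ∈ lifts (D * M) D l,
        ((Finset.range (Y + 1)).filter (fun p : ℕ => p.Prime ∧ p ≡ a [MOD (D * M)])).card) +
      (((Finset.range (Y + 1)).filter (fun p : ℕ => p.Prime ∧ p ≡ l [MOD D])).filter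
        (fun p => p ∣ M)).card := by
  rw [← Finset.card_filter_add_card_filter_not (s := (Finset.range (Y + 1)).filter
    (fun p : ℕ => p.Prime ∧ p ≡ l [MOD D])) (p := fun p => p ∣ M), add_comm]
  congr 1
  have hn : 0 < D * M := Nat.mul_pos hD hM
  have hmap : ∀ p ∈ ((Finset.range (Y + 1)).filter (fun p : ℕ => p.Prime ∧ p ≡ l [MOD D])).filter
      (fun p => ¬ p ∣ M), p % (D * M) ∈ lifts (D * M) D l := by
    intro p hp
    rw [Finset.mem_filter, Finset.mem_filter, Finset.mem_range] at hp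
    obtain ⟨⟨_, hpp, hpl⟩, hpM⟩ := hp
    have h1 : p.Coprime D := by
      have := hpl.gcd_eq
      exact this.trans hl
    have h2 : p.Coprime M := (Nat.Prime.coprime_iff_not_dvd hpp).2 hpM
    have h3 : p.Coprime (D * M) := Nat.Coprime.mul_right h1 h2
    rw [lifts, Finset.mem_filter, Finset.mem_range]
    refine ⟨Nat.mod_lt _ hn, ?_, ?_⟩
    · rw [Nat.Coprime, ← Nat.gcd_rec, Nat.gcd_comm]
      exact h3
    · exact ((Nat.mod_modEq p (D * M)).of_mul_right M).trans hpl
  rw [Finset.card_eq_sum_card_fiberwise (f := fun p => p % (D * M)) (t := lifts (D * M) D l) hmap]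
  apply Finset.sum_congr rfl
  intro a ha
  congr 1
  rw [lifts, Finset.mem_filter, Finset.mem_range] at ha
  obtain ⟨ha1, ha2, ha3⟩ := ha
  ext p
  simp only [Finset.mem_filter, Finset.mem_range]
  constructor
  · rintro ⟨⟨⟨h1, h2, h3⟩, h4⟩, h5⟩
    refine ⟨h1, h2, ?_⟩
    rw [Nat.ModEq, h5, Nat.mod_eq_of_lt ha1]
  · rintro ⟨h1, h2, h3⟩
    have h4 : p.Coprime (D * M) := h3.gcd_eq.trans ha2
    refine ⟨⟨⟨h1, h2, (h3.of_mul_right M).trans ha3⟩, ?_⟩, ?_⟩
    · have := Nat.Coprime.coprime_mul_left_right h4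
      exact (Nat.Prime.coprime_iff_not_dvd h2).1 this
    · rw [Nat.ModEq, Nat.mod_eq_of_lt ha1] at h3
      exact h3

theorem core_sum (y : ℝ) (D M l : ℕ) (hD : 0 < D) (hM : 0 < M) (hDM : D.Coprime M)
    (hl : l.Coprime D) :
    Delta y D l ≤ (∑ a ∈ lifts (D * M) D l, Delta y (D * M) a) + (M.primeFactors.card : ℝ) := by
  have h1 := count_split ⌊y⌋₊ D M l hD hM hDM hl
  set r := (((Finset.range (⌊y⌋₊ + 1)).filter (fun p : ℕ => p.Prime ∧ p ≡ l [MOD D])).filter
        (fun p => p ∣ M)).card with hr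
  have hr1 : r ≤ M.primeFactors.card := by
    apply Finset.card_le_card
    intro p hp
    rw [Finset.mem_filter, Finset.mem_filter] at hp
    rw [Nat.mem_primeFactors]
    exact ⟨hp.1.2.1, hp.2, hM.ne'⟩
  set L := ∫ t in (2 : ℝ)..y, 1 / Real.log t with hL
  have hφD : (0 : ℝ) < Nat.totient D := by exact_mod_cast Nat.totient_pos.2 hD
  have hφM : (0 : ℝ) < Nat.totient M := by exact_mod_cast Nat.totient_pos.2 hM
  have h2 : L / (Nat.totient D : ℝ) =
      ∑ _a ∈ lifts (D * M) D l, L / (Nat.totient (D * M) : ℝ) := by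
    rw [Finset.sum_const, card_lifts D M l hD hM hDM hl, nsmul_eq_mul, Nat.totient_mul hDM]
    push_cast
    field_simp
  unfold Delta
  rw [← hL, h1, h2]
  push_cast
  have h3 : ∀ A : ℕ → ℝ, |(∑ a ∈ lifts (D * M) D l, A a) + (r : ℝ) -
      ∑ _a ∈ lifts (D * M) D l, L / (Nat.totient (D * M) : ℝ)| ≤
      (∑ a ∈ lifts (D * M) D l, |A a - L / (Nat.totient (D * M) : ℝ)|) +
        (M.primeFactors.card : ℝ) := by
    intro A
    have e : (∑ a ∈ lifts (D * M) D l, A a) + (r : ℝ) -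
      ∑ _a ∈ lifts (D * M) D l, L / (Nat.totient (D * M) : ℝ) =
      (∑ a ∈ lifts (D * M) D l, (A a - L / (Nat.totient (D * M) : ℝ))) + r := by
      rw [Finset.sum_sub_distrib]; ring
    rw [e]
    refine (abs_add_le _ _).trans ?_
    apply add_le_add (Finset.abs_sum_le_sum_abs _ _)
    rw [Nat.abs_cast]
    exact_mod_cast hr1
  exact h3 _

/-- The errors for the modulus `D` are controlled by the mean errors for its multiple `D * M`. -/
theorem core (y : ℝ) (D M l : ℕ) (hD : 0 < D) (hM : 0 < M) (hDM : D.Coprime M)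
    (hl : l.Coprime D) :
    Delta y D l ≤ (M.totient : ℝ) * mean y (D * M) D l + (M.primeFactors.card : ℝ) := by
  refine (core_sum y D M l hD hM hDM hl).trans ?_
  unfold mean
  rw [card_lifts D M l hD hM hDM hl]
  have hφM : (0 : ℝ) < Nat.totient M := by exact_mod_cast Nat.totient_pos.2 hM
  rw [mul_div_cancel₀ _ hφM.ne']

theorem E_le (N : ℕ) (hN : 2 ≤ N) (X : ℝ) (D M : ℕ) (hD : 0 < D) (hM : 0 < M) (hDM : D.Coprime M)
    (hX : (D : ℝ) ≤ X) :
    E N D ≤ (M.totient : ℝ) * H N X (D * M) + (M.primeFactors.card : ℝ) := by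
  apply csSup_le
  · exact ⟨Delta 2 D 1, 2, 1, le_rfl, by exact_mod_cast hN, Nat.coprime_one_left _, rfl⟩
  · rintro x ⟨y, l, h1, h2, h3, rfl⟩
    refine (core y D M l hD hM hDM h3).trans ?_
    gcongr
    exact le_H N X (D * M) y D l h1 h2 (Dvd.intro _ rfl) hX h3

end EH60
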