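import Mathlib

/-!
# Weighted level of distribution: definitions
-/

noncomputable section

namespace EH60

open Finset Filter

/-- `|π(y; d, l) - li y / φ(d)|`. -/
def Delta (y : ℝ) (d l : ℕ) : ℝ :=
  |(((Finset.range (⌊y⌋₊ + 1)).filter (fun p : ℕ => p.Prime ∧ p ≡ l [MOD d])).card : ℝ)
    - (∫ t in (2 : ℝ)..y, 1 / Real.log t) / (Nat.totient d : ℝ)|

/-- `E(N, d)`: the maximum (supremum) of `|π(y; d, l) - li y / φ(d)|` over `2 ≤ y ≤ N` and `(l, d) = 1`. -/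
def E (N d : ℕ) : ℝ :=
  sSup {x : ℝ | ∃ (y : ℝ) (l : ℕ), 2 ≤ y ∧ y ≤ N ∧ l.Coprime d ∧ x = Delta y d l}

/-- The reduced residues `a` modulo `n` with `a ≡ l` modulo `D`. -/
def lifts (n D l : ℕ) : Finset ℕ :=
  (Finset.range n).filter (fun a : ℕ => a.Coprime n ∧ a ≡ l [MOD D])

/-- The mean value of `|π(y; n, a) - li y / φ(n)|` over the reduced residues `a` modulo `n` with
`a ≡ l` modulo `D`. -/
def mean (y : ℝ) (n D l : ℕ) : ℝ :=
  (∑ a ∈ lifts n D l, Delta y n a) / ((lifts n D l).card : ℝ)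

/-- `H(N, X, n)`: the supremum of these mean values over `2 ≤ y ≤ N`, the divisors `D ≤ X` of `n` and
the `l` with `(l, D) = 1`. -/
def H (N : ℕ) (X : ℝ) (n : ℕ) : ℝ :=
  sSup {x : ℝ | ∃ (y : ℝ) (D l : ℕ), 2 ≤ y ∧ y ≤ N ∧ D ∣ n ∧ (D : ℝ) ≤ X ∧ l.Coprime D ∧
    x = mean y n D l}

/-- The weight `μ(d)² 3^{ν(d)}`. -/
def wt (d : ℕ) : ℝ :=
  ((ArithmeticFunction.moebius d : ℤ) : ℝ) ^ 2 * (3 : ℝ) ^ (Nat.primeFactors d).card

/-- The natural share `∏_{p ∣ m} 3 / (p + 2)` of the multiples of `m`. -/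
def share (m : ℕ) : ℝ := ∏ p ∈ m.primeFactors, (3 : ℝ) / ((p : ℝ) + 2)

/-- `α` is admissible. -/
def Admissible (α : ℝ) : Prop :=
  ∃ C₁ K : ℝ, ∀ᶠ N : ℕ in atTop,
    ∑ d ∈ (Finset.Icc (1 : ℕ) N).filter (fun d : ℕ => (d : ℝ) < (N : ℝ) ^ α / Real.log N ^ C₁),
      wt d * E N d ≤ K * N / Real.log N ^ 3

theorem Delta_nonneg (y : ℝ) (d l : ℕ) : 0 ≤ Delta y d l := abs_nonneg _

theorem li_bound (y : ℝ) (hy : 2 ≤ y) : |∫ t in (2 : ℝ)..y, 1 / Real.log t| ≤ y / Real.log 2 := by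
  have hlog2 : 0 < Real.log 2 := Real.log_pos (by norm_num)
  have h1 : ‖∫ t in (2 : ℝ)..y, 1 / Real.log t‖ ≤ (1 / Real.log 2) * |y - 2| := by
    apply intervalIntegral.norm_integral_le_of_norm_le_const
    intro t ht
    rw [Set.uIoc_of_le hy] at ht
    have h2 : Real.log 2 ≤ Real.log t := Real.log_le_log (by norm_num) ht.1.le
    rw [Real.norm_eq_abs, abs_of_nonneg (one_div_nonneg.2 (hlog2.le.trans h2))]
    exact one_div_le_one_div_of_le hlog2 h2
  rw [Real.norm_eq_abs, abs_of_nonneg (by linarith : (0 : ℝ) ≤ y - 2)] at h1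
  refine h1.trans ?_
  rw [div_mul_eq_mul_div, one_mul]
  gcongr
  linarith

theorem Delta_le (N : ℕ) (y : ℝ) (d l : ℕ) (hy : 2 ≤ y) (hyN : y ≤ N) :
    Delta y d l ≤ N + 1 + N / Real.log 2 := by
  have hlog2 : 0 < Real.log 2 := Real.log_pos (by norm_num)
  unfold Delta
  refine (abs_sub _ _).trans ?_
  rw [Nat.abs_cast]
  apply add_le_add
  · have h1 : ((Finset.range (⌊y⌋₊ + 1)).filter (fun p : ℕ => p.Prime ∧ p ≡ l [MOD d])).card
        ≤ ⌊y⌋₊ + 1 := by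
      refine (Finset.card_filter_le _ _).trans ?_
      rw [Finset.card_range]
    have h2 : ⌊y⌋₊ ≤ N := by
      have := Nat.floor_le_floor hyN
      rwa [Nat.floor_natCast] at this
    calc _ ≤ ((⌊y⌋₊ + 1 : ℕ) : ℝ) := by exact_mod_cast h1
      _ ≤ ((N + 1 : ℕ) : ℝ) := by exact_mod_cast Nat.succ_le_succ h2
      _ = N + 1 := by push_cast; ring
  · rw [abs_div]
    have h1 := li_bound y hy
    have h2 : |∫ t in (2 : ℝ)..y, 1 / Real.log t| / |(Nat.totient d : ℝ)| ≤ y / Real.log 2 := by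
      rcases Nat.eq_zero_or_pos (Nat.totient d) with h | h
      · rw [h]; simp only [Nat.cast_zero, abs_zero, div_zero]; positivity
      · refine (div_le_self (abs_nonneg _) ?_).trans h1
        rw [Nat.abs_cast]; exact_mod_cast h
    exact h2.trans (by gcongr)

theorem E_bdd (N d : ℕ) : BddAbove {x : ℝ | ∃ (y : ℝ) (l : ℕ), 2 ≤ y ∧ y ≤ N ∧ l.Coprime d ∧
    x = Delta y d l} := by
  refine ⟨N + 1 + N / Real.log 2, ?_⟩
  rintro x ⟨y, l, h1, h2, _, rfl⟩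
  exact Delta_le N y d l h1 h2

theorem le_E (N d : ℕ) (y : ℝ) (l : ℕ) (h1 : 2 ≤ y) (h2 : y ≤ N) (h3 : l.Coprime d) :
    Delta y d l ≤ E N d := le_csSup (E_bdd N d) ⟨y, l, h1, h2, h3, rfl⟩

theorem E_nonneg (N d : ℕ) : 0 ≤ E N d := by
  apply Real.sSup_nonneg
  rintro x ⟨y, l, _, _, _, rfl⟩
  exact Delta_nonneg _ _ _

theorem mean_nonneg (y : ℝ) (n D l : ℕ) : 0 ≤ mean y n D l :=
  div_nonneg (Finset.sum_nonneg fun _ _ => Delta_nonneg _ _ _) (Nat.cast_nonneg _)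

theorem mean_le (N : ℕ) (y : ℝ) (n D l : ℕ) (h1 : 2 ≤ y) (h2 : y ≤ N) :
    mean y n D l ≤ E N n := by
  unfold mean
  rcases Nat.eq_zero_or_pos (lifts n D l).card with h | h
  · rw [h]; simpa using E_nonneg N n
  · rw [div_le_iff₀ (by exact_mod_cast h)]
    calc _ ≤ ∑ _a ∈ lifts n D l, E N n := by
          apply Finset.sum_le_sum
          intro a ha
          rw [lifts, Finset.mem_filter] at ha
          exact le_E N n y a h1 h2 ha.2.1
      _ = E N n * ((lifts n D l).card : ℝ) := by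
          rw [Finset.sum_const, nsmul_eq_mul, mul_comm]

theorem H_bdd (N : ℕ) (X : ℝ) (n : ℕ) : BddAbove {x : ℝ | ∃ (y : ℝ) (D l : ℕ), 2 ≤ y ∧ y ≤ N ∧
    D ∣ n ∧ (D : ℝ) ≤ X ∧ l.Coprime D ∧ x = mean y n D l} := by
  refine ⟨E N n, ?_⟩
  rintro x ⟨y, D, l, h1, h2, _, _, _, rfl⟩
  exact mean_le N y n D l h1 h2

theorem le_H (N : ℕ) (X : ℝ) (n : ℕ) (y : ℝ) (D l : ℕ) (h1 : 2 ≤ y) (h2 : y ≤ N) (h3 : D ∣ n)
    (h4 : (D : ℝ) ≤ X) (h5 : l.Coprime D) : mean y n D l ≤ H N X n :=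
  le_csSup (H_bdd N X n) ⟨y, D, l, h1, h2, h3, h4, h5, rfl⟩

theorem H_nonneg (N : ℕ) (X : ℝ) (n : ℕ) : 0 ≤ H N X n := by
  apply Real.sSup_nonneg
  rintro x ⟨y, D, l, _, _, _, _, _, rfl⟩
  exact mean_nonneg _ _ _ _

theorem H_le_E (N : ℕ) (X : ℝ) (n : ℕ) : H N X n ≤ E N n := by
  apply Real.sSup_le _ (E_nonneg N n)
  rintro x ⟨y, D, l, h1, h2, _, _, _, rfl⟩
  exact mean_le N y n D l h1 h2

theorem wt_nonneg (d : ℕ) : 0 ≤ wt d := by unfold wt; positivity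

theorem wt_of_squarefree {d : ℕ} (hd : Squarefree d) : wt d = 3 ^ d.primeFactors.card := by
  unfold wt
  rw [← Int.cast_pow, ArithmeticFunction.moebius_sq_eq_one_of_squarefree hd]
  simp

theorem wt_of_not_squarefree {d : ℕ} (hd : ¬ Squarefree d) : wt d = 0 := by
  unfold wt
  rw [ArithmeticFunction.moebius_eq_zero_of_not_squarefree hd]
  simp

/-- The number of lifts. -/
theorem card_lifts (D M l : ℕ) (hD : 0 < D) (hM : 0 < M) (hDM : D.Coprime M) (hl : l.Coprime D) :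
    (lifts (D * M) D l).card = M.totient := by
  rw [Nat.totient]
  symm
  apply Finset.card_bij' (i := fun b _ => (Nat.chineseRemainder hDM l b : ℕ)) (j := fun a _ => a % M)
  · intro b hb
    rw [Finset.mem_filter, Finset.mem_range] at hb
    have h := (Nat.chineseRemainder hDM l b).2
    have hlt := Nat.chineseRemainder_lt_mul hDM l b hD.ne' hM.ne'
    rw [lifts, Finset.mem_filter, Finset.mem_range]
    refine ⟨hlt, ?_, h.1⟩
    apply Nat.Coprime.mul_right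
    · have h1 := h.1.gcd_eq
      exact h1.trans hl
    · have h1 := h.2.gcd_eq
      have h2 : Nat.Coprime b M := hb.2.symm
      exact h1.trans h2
  · intro a ha
    rw [lifts, Finset.mem_filter, Finset.mem_range] at ha
    rw [Finset.mem_filter, Finset.mem_range]
    refine ⟨Nat.mod_lt _ hM, ?_⟩
    have h1 : a.Coprime M := Nat.Coprime.coprime_mul_left_right ha.2.1
    rw [Nat.coprime_comm, Nat.Coprime, ← Nat.gcd_rec, Nat.gcd_comm]
    exact h1
  · intro b hb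
    rw [Finset.mem_filter, Finset.mem_range] at hb
    have h := (Nat.chineseRemainder hDM l b).2
    have h1 : (Nat.chineseRemainder hDM l b : ℕ) % M = b % M := h.2
    rw [h1, Nat.mod_eq_of_lt hb.1]
  · intro a ha
    rw [lifts, Finset.mem_filter, Finset.mem_range] at ha
    have h := (Nat.chineseRemainder hDM l (a % M)).2
    have hlt := Nat.chineseRemainder_lt_mul hDM l (a % M) hD.ne' hM.ne'
    have h1 : (Nat.chineseRemainder hDM l (a % M) : ℕ) ≡ a [MOD D * M] := by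
      rw [← Nat.modEq_and_modEq_iff_modEq_mul hDM]
      exact ⟨h.1.trans ha.2.2.symm, h.2.trans (Nat.mod_modEq _ _)⟩
    rwa [Nat.ModEq, Nat.mod_eq_of_lt hlt, Nat.mod_eq_of_lt ha.1] at h1

end EH60
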