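import Pool.Agent.EH60.Converse

noncomputable section

namespace EH60

open Finset Filter

/-- The thin one-scale statement for `α`, `a`, `b`. -/
def Thin (α a b : ℝ) : Prop :=
  ∃ K : ℝ, ∀ᶠ N : ℕ in atTop, ∃ (q : ℕ) (Q : ℝ), q.Prime ∧ (N : ℝ) ^ a < q ∧ (q : ℝ) ≤ (N : ℝ) ^ b ∧
    (N : ℝ) ^ ((1 + α + b) / 2) ≤ Q ∧ Q ≤ N ∧
    ∑ n ∈ block N Q q, wt n * H N ((N : ℝ) ^ α) n ≤ K * share q * N / Real.log N ^ 4

theorem admissible_of_thin (α a b : ℝ) (hα : 0 < α) (hb : 0 < b) (hbα : b < 1 - α)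
    (h : Thin α a b) : Admissible α := by
  obtain ⟨K, hK⟩ := h
  set η : ℝ := (1 - α - b) / 2 with hη
  have hη0 : 0 < η := by rw [hη]; linarith
  have hα1 : α < 1 := by linarith
  refine ⟨0, 8 / (3 * η) * K + 1, ?_⟩
  have e1 : ∀ᶠ N : ℕ in atTop, Real.log (N : ℝ) ^ (3 : ℝ) ≤ (N : ℝ) ^ ((1 - α) / 2) := by
    have h1 : (fun x : ℝ => Real.log x ^ (3 : ℝ)) =o[atTop] fun x : ℝ => x ^ ((1 - α) / 2) :=
      isLittleO_log_rpow_rpow_atTop 3 (by linarith)
    have h2 := h1.bound (show (0 : ℝ) < 1 by norm_num)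
    filter_upwards [tendsto_natCast_atTop_atTop.eventually h2, eventually_gt_atTop 1] with N h3 h4
    have hN1 : (1 : ℝ) < N := by exact_mod_cast h4
    have hN0 : (0 : ℝ) < N := by linarith
    have hlog : 0 < Real.log N := Real.log_pos hN1
    rwa [Real.norm_of_nonneg (Real.rpow_nonneg hlog.le _),
      Real.norm_of_nonneg (Real.rpow_nonneg hN0.le _), one_mul] at h3
  filter_upwards [hK, transfer α η hα hα1 hη0, e1, eventually_gt_atTop 1] with N h1 h2 h3 h4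
  obtain ⟨q, Q, hq, hqa, hqb, hQ1, hQN, hsum⟩ := h1
  have hN1 : (1 : ℝ) < N := by exact_mod_cast h4
  have hN0 : (0 : ℝ) < N := by linarith
  have hlog : 0 < Real.log N := Real.log_pos hN1
  have hQ2 : (q : ℝ) * (N : ℝ) ^ α * (N : ℝ) ^ η ≤ Q := by
    calc (q : ℝ) * (N : ℝ) ^ α * (N : ℝ) ^ η ≤ (N : ℝ) ^ b * (N : ℝ) ^ α * (N : ℝ) ^ η := by gcongr
      _ = (N : ℝ) ^ ((1 + α + b) / 2) := by
          rw [← Real.rpow_add hN0, ← Real.rpow_add hN0, hη]; congr 1; ring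
      _ ≤ Q := hQ1
  have h5 := h2 q Q hq.squarefree hQ2 hQN
  have h6 : ∑ d ∈ (Finset.Icc (1 : ℕ) N).filter
      (fun d : ℕ => (d : ℝ) < (N : ℝ) ^ α / Real.log N ^ (0 : ℝ)), wt d * E N d ≤
      ∑ d ∈ (Finset.Icc 1 N).filter (fun d : ℕ => (d : ℝ) ≤ (N : ℝ) ^ α), wt d * E N d := by
    apply Finset.sum_le_sum_of_subset_of_nonneg
    · intro d hd
      rw [Finset.mem_filter, Real.rpow_zero, div_one] at hd
      rw [Finset.mem_filter]
      exact ⟨hd.1, hd.2.le⟩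
    · intro d _ _
      exact mul_nonneg (wt_nonneg d) (E_nonneg N d)
  refine h6.trans (h5.trans ?_)
  have hs := share_pos q
  have h7 : 8 / (3 * η) * Real.log N / share q *
      ∑ n ∈ block N Q q, wt n * H N ((N : ℝ) ^ α) n ≤ 8 / (3 * η) * K * N / Real.log N ^ 3 := by
    calc 8 / (3 * η) * Real.log N / share q * ∑ n ∈ block N Q q, wt n * H N ((N : ℝ) ^ α) n
        ≤ 8 / (3 * η) * Real.log N / share q * (K * share q * N / Real.log N ^ 4) := by gcongr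
      _ = 8 / (3 * η) * K * N / Real.log N ^ 3 := by field_simp
  have h8 : (N : ℝ) ^ ((1 + α) / 2) ≤ N / Real.log N ^ 3 := by
    rw [le_div_iff₀ (by positivity)]
    have h9 : Real.log (N : ℝ) ^ (3 : ℝ) = Real.log (N : ℝ) ^ 3 := by
      rw [← Real.rpow_natCast]; norm_num
    rw [h9] at h3
    calc (N : ℝ) ^ ((1 + α) / 2) * Real.log N ^ 3 ≤ (N : ℝ) ^ ((1 + α) / 2) * (N : ℝ) ^ ((1 - α) / 2) := by
          gcongr
      _ = (N : ℝ) ^ (1 : ℝ) := by rw [← Real.rpow_add hN0]; congr 1; ring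
      _ = N := Real.rpow_one _
  calc _ ≤ 8 / (3 * η) * K * N / Real.log N ^ 3 + N / Real.log N ^ 3 := add_le_add h7 h8
    _ = (8 / (3 * η) * K + 1) * N / Real.log N ^ 3 := by ring

theorem thin_of_admissible (α a b : ℝ) (hα : 1 / 2 < α) (ha : 0 < a) (hab : a < b)
    (hbα : b < 1 - α) (h : ∀ β : ℝ, 1 / 2 < β → β < 1 → Admissible β) : Thin α a b := by
  set β : ℝ := (1 + α + b) / 2 with hβ
  obtain ⟨K, hK⟩ := converse β ((1 + β) / 2) a b (by rw [hβ]; linarith) (by rw [hβ]; linarith)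
    (by rw [hβ]; linarith) ha hab (by linarith)
    (h _ (by rw [hβ]; linarith) (by rw [hβ]; linarith))
  refine ⟨K, ?_⟩
  filter_upwards [hK, eventually_gt_atTop 1] with N h1 h2
  obtain ⟨q, Q, hq, hqa, hqb, hQ1, hQ2, hsum⟩ := h1
  have hN1 : (1 : ℝ) < N := by exact_mod_cast h2
  refine ⟨q, Q, hq, hqa, hqb, hQ1, ?_, ?_⟩
  · refine hQ2.trans ?_
    calc (N : ℝ) ^ ((1 + β) / 2) ≤ (N : ℝ) ^ (1 : ℝ) :=
          Real.rpow_le_rpow_of_exponent_le hN1.le (by rw [hβ]; linarith)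
      _ = N := Real.rpow_one _
  · refine le_trans (Finset.sum_le_sum fun n _ => ?_) hsum
    exact mul_le_mul_of_nonneg_left (H_le_E N _ n) (wt_nonneg n)

/-- Q1 is equivalent to its thin one-scale version. -/
theorem main_iff : (∀ α : ℝ, 1 / 2 < α → α < 1 → Admissible α) ↔
    ∀ α a b : ℝ, 1 / 2 < α → 0 < a → a < b → b < 1 - α → Thin α a b := by
  constructor
  · intro h α a b hα ha hab hb
    exact thin_of_admissible α a b hα ha hab hb h
  · intro h α hα hα1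
    exact admissible_of_thin α ((1 - α) / 4) ((1 - α) / 2) (by linarith) (by linarith) (by linarith)
      (h α _ _ hα (by linarith) (by linarith) (by linarith))

/-- `Admissible α` in the form of the frozen statement `S16175`. -/
theorem admissible_iff (α : ℝ) : Admissible α ↔
    ∃ C₁ : ℝ, ∃ K : ℝ, ∃ N₀ : ℕ, ∀ N : ℕ, N₀ ≤ N →
        ∀ y : ℕ → ℝ, ∀ l : ℕ → ℕ,
          (∀ d : ℕ, 2 ≤ y d ∧ y d ≤ (N : ℝ)) →
          (∀ d : ℕ, Nat.Coprime (l d) d) →
          ∑ d ∈ (Finset.Icc (1 : ℕ) N).filter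
              (fun d : ℕ => ((d : ℕ) : ℝ) < (N : ℝ) ^ α / Real.log (N : ℝ) ^ C₁),
            ((ArithmeticFunction.moebius d : ℤ) : ℝ) ^ 2 *
              (3 : ℝ) ^ (Nat.primeFactors d).card *
              |(((Finset.range (⌊y d⌋₊ + 1)).filter
                    (fun p : ℕ => p.Prime ∧ p ≡ l d [MOD d])).card : ℝ)
                - (∫ t in (2 : ℝ)..y d, 1 / Real.log t) / (Nat.totient d : ℝ)|
            ≤ K * (N : ℝ) / Real.log (N : ℝ) ^ 3 := by
  constructor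
  · rintro ⟨C₁, K, h⟩
    obtain ⟨N₀, hN₀⟩ := eventually_atTop.1 h
    refine ⟨C₁, K, N₀, fun N hN y l hy hl => le_trans ?_ (hN₀ N hN)⟩
    apply Finset.sum_le_sum
    intro d _
    exact mul_le_mul_of_nonneg_left (le_E N d (y d) (l d) (hy d).1 (hy d).2 (hl d)) (wt_nonneg d)
  · rintro ⟨C₁, K, N₀, h⟩
    refine ⟨C₁, K, eventually_atTop.2 ⟨max N₀ 2, fun N hN => ?_⟩⟩
    have hN₀ : N₀ ≤ N := (le_max_left _ _).trans hN
    have hN2 : 2 ≤ N := (le_max_right _ _).trans hN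
    have hN2' : (2 : ℝ) ≤ N := by exact_mod_cast hN2
    set T := (Finset.Icc (1 : ℕ) N).filter
      (fun d : ℕ => (d : ℝ) < (N : ℝ) ^ α / Real.log N ^ C₁) with hT
    set W := ∑ d ∈ T, wt d with hW
    have hW0 : 0 ≤ W := Finset.sum_nonneg fun d _ => wt_nonneg d
    apply le_of_forall_pos_le_add
    intro ε hε
    have hε' : 0 < ε / (W + 1) := by positivity
    have hch : ∀ d : ℕ, ∃ (y : ℝ) (l : ℕ), (2 ≤ y ∧ y ≤ N) ∧ l.Coprime d ∧
        E N d - ε / (W + 1) < Delta y d l := by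
      intro d
      have hne : {x : ℝ | ∃ (y : ℝ) (l : ℕ), 2 ≤ y ∧ y ≤ N ∧ l.Coprime d ∧
          x = Delta y d l}.Nonempty :=
        ⟨Delta 2 d 1, 2, 1, le_rfl, hN2', Nat.coprime_one_left _, rfl⟩
      obtain ⟨x, ⟨y, l, h1, h2, h3, rfl⟩, hx⟩ :=
        exists_lt_of_lt_csSup hne (show E N d - ε / (W + 1) < E N d by linarith)
      exact ⟨y, l, ⟨h1, h2⟩, h3, hx⟩
    choose y l hy hl hx using hch
    have h1 := h N hN₀ y l hy hl
    calc ∑ d ∈ T, wt d * E N d ≤ ∑ d ∈ T, (wt d * Delta (y d) d (l d) + wt d * (ε / (W + 1))) := by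
          apply Finset.sum_le_sum
          intro d _
          rw [← mul_add]
          exact mul_le_mul_of_nonneg_left (by linarith [hx d]) (wt_nonneg d)
      _ = ∑ d ∈ T, wt d * Delta (y d) d (l d) + W * (ε / (W + 1)) := by
          rw [Finset.sum_add_distrib, ← Finset.sum_mul]
      _ ≤ K * N / Real.log N ^ 3 + ε := by
          apply add_le_add h1
          rw [mul_div_assoc', div_le_iff₀ (by positivity)]
          nlinarith

end EH60
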