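import Pool.Agent.EH60.LSieve2
import Pool.Agent.EH60.Final

/-!
# The hybrid sums
-/

noncomputable section

namespace EH60

open Finset Filter

/-- The number of primes `≡ l` modulo `d` up to `y`, as in `Delta`. -/
def cnt (y : ℝ) (d l : ℕ) : ℝ :=
  (((Finset.range (⌊y⌋₊ + 1)).filter (fun p : ℕ => p.Prime ∧ p ≡ l [MOD d])).card : ℝ)

theorem Delta_eq (y : ℝ) (d l : ℕ) :
    Delta y d l = |cnt y d l - (∫ t in (2 : ℝ)..y, 1 / Real.log t) / (Nat.totient d : ℝ)| := rfl

/-- indicator of `l + d t` being a prime `≤ Y` -/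
def zt (Y d l : ℕ) (t : ℕ) : ℝ := if (l + d * t).Prime ∧ l + d * t ≤ Y then 1 else 0

/-- primes `≡ l` modulo `d` are the `l + d t` (`l < d`) -/
theorem cnt_eq (y : ℝ) (d l : ℕ) (hd : 0 < d) (hl : l < d) :
    cnt y d l = ∑ t ∈ Finset.range (⌊y⌋₊ / d + 1), zt ⌊y⌋₊ d l t := by
  unfold cnt
  simp only [zt, Finset.sum_ite, Finset.sum_const_zero, add_zero, Finset.sum_const, nsmul_eq_mul,
    mul_one]
  congr 1
  symm
  apply Finset.card_bij (fun t _ => l + d * t)
  · intro t ht
    rw [Finset.mem_filter] at ht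
    rw [Finset.mem_filter, Finset.mem_range]
    refine ⟨by omega, ht.2.1, ?_⟩
    rw [Nat.ModEq, Nat.add_mul_mod_self_left]
  · intro t _ t' _ h
    have : d * t = d * t' := by omega
    exact Nat.eq_of_mul_eq_mul_left hd this
  · intro p hp
    rw [Finset.mem_filter, Finset.mem_range] at hp
    obtain ⟨h1, h2, h3⟩ := hp
    rw [Nat.ModEq, Nat.mod_eq_of_lt hl] at h3
    refine ⟨p / d, ?_, ?_⟩
    · rw [Finset.mem_filter, Finset.mem_range]
      have e : l + d * (p / d) = p := by rw [← h3]; exact Nat.mod_add_div p d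
      rw [e]
      refine ⟨?_, h2, by omega⟩
      have : p / d ≤ ⌊y⌋₊ / d := Nat.div_le_div_right (by omega)
      omega
    · rw [← h3]; exact Nat.mod_add_div p d

/-- primes `≡ l + d s` modulo `d p` -/
theorem cnt_eq' (y : ℝ) (d l p s : ℕ) (hd : 0 < d) (hl : l < d) (hp : 0 < p) (hs : s < p) :
    cnt y (d * p) (l + d * s) = ZZ (⌊y⌋₊ / d + 1) (zt ⌊y⌋₊ d l) p s := by
  unfold cnt ZZ
  rw [Finset.sum_filter]
  have h0 : ∀ t ∈ Finset.range (⌊y⌋₊ / d + 1), (if t % p = s then zt ⌊y⌋₊ d l t else 0) =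
      if (t % p = s ∧ (l + d * t).Prime ∧ l + d * t ≤ ⌊y⌋₊) then 1 else 0 := by
    intro t _
    unfold zt
    by_cases h1 : t % p = s <;> simp [h1]
  rw [Finset.sum_congr rfl h0]
  simp only [Finset.sum_ite, Finset.sum_const_zero, add_zero, Finset.sum_const, nsmul_eq_mul,
    mul_one]
  congr 1
  symm
  apply Finset.card_bij (fun t _ => l + d * t)
  · intro t ht
    rw [Finset.mem_filter] at ht
    rw [Finset.mem_filter, Finset.mem_range]
    refine ⟨by omega, ht.2.2.1, ?_⟩
    apply Nat.ModEq.add_left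
    apply Nat.ModEq.mul_left'
    rw [Nat.ModEq, ht.2.1, Nat.mod_eq_of_lt hs]
  · intro t _ t' _ h
    have : d * t = d * t' := by omega
    exact Nat.eq_of_mul_eq_mul_left hd this
  · intro r hr
    rw [Finset.mem_filter, Finset.mem_range] at hr
    obtain ⟨h1, h2, h3⟩ := hr
    have h4 : r % d = l := by
      have h5 : r ≡ l + d * s [MOD d] := h3.of_mul_right p
      rw [Nat.ModEq, Nat.add_mul_mod_self_left, Nat.mod_eq_of_lt hl] at h5
      exact h5
    have e : l + d * (r / d) = r := by rw [← h4]; exact Nat.mod_add_div r d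
    refine ⟨r / d, ?_, e⟩
    rw [Finset.mem_filter, Finset.mem_range, e]
    refine ⟨?_, ?_, h2, by omega⟩
    · have : r / d ≤ ⌊y⌋₊ / d := Nat.div_le_div_right (by omega)
      omega
    · have h6 : l + d * (r / d) ≡ l + d * s [MOD d * p] := by rw [e]; exact h3
      have h7 : d * (r / d) ≡ d * s [MOD d * p] := Nat.ModEq.add_left_cancel' l h6
      have h8 : r / d ≡ s [MOD p] := Nat.ModEq.mul_left_cancel' hd.ne' h7
      rw [Nat.ModEq, Nat.mod_eq_of_lt hs] at h8
      exact h8

theorem Delta_mod (y : ℝ) (d l : ℕ) : Delta y d l = Delta y d (l % d) := by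
  unfold Delta
  congr 4
  ext p
  simp only [Finset.mem_filter]
  have : (p ≡ l [MOD d]) ↔ (p ≡ l % d [MOD d]) := by
    rw [Nat.ModEq, Nat.ModEq, Nat.mod_mod]
  rw [this]

theorem lifts_mod (n D l : ℕ) : lifts n D l = lifts n D (l % D) := by
  unfold lifts
  ext a
  simp only [Finset.mem_filter]
  have : (a ≡ l [MOD D]) ↔ (a ≡ l % D [MOD D]) := by
    rw [Nat.ModEq, Nat.ModEq, Nat.mod_mod]
  rw [this]

theorem mean_mod (y : ℝ) (n D l : ℕ) : mean y n D l = mean y n D (l % D) := by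
  unfold mean
  rw [lifts_mod]

/-- the mean over the lifts is controlled by `Delta y d l` and the distribution modulo `p` -/
theorem mean_upper (y : ℝ) (d l p : ℕ) (hd : 0 < d) (hl : l < d) (hlc : l.Coprime d)
    (hp : p.Prime) (hpd : ¬ p ∣ d) :
    mean y (d * p) d l ≤ 1 / ((p : ℝ) - 1) * (Delta y d l +
      (∑ s ∈ Finset.range p, |ZZ (⌊y⌋₊ / d + 1) (zt ⌊y⌋₊ d l) p s - cnt y d l / p|) +
      cnt y d l / ((p : ℝ) - 1)) := by
  have hp1 : (0 : ℝ) < (p : ℝ) - 1 := by
    have : (2 : ℝ) ≤ p := by exact_mod_cast hp.two_le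
    linarith
  have hp0 : (0 : ℝ) < p := by linarith
  have cdp : d.Coprime p := ((Nat.Prime.coprime_iff_not_dvd hp).2 hpd).symm
  have hcard := card_lifts d p l hd hp.pos cdp hlc
  rw [Nat.totient_prime hp] at hcard
  have hcard' : ((lifts (d * p) d l).card : ℝ) = (p : ℝ) - 1 := by
    rw [hcard, Nat.cast_sub hp.one_le, Nat.cast_one]
  have hφd : (0 : ℝ) < Nat.totient d := by exact_mod_cast Nat.totient_pos.2 hd
  set L := ∫ t in (2 : ℝ)..y, 1 / Real.log t with hL
  set Z := cnt y d l with hZ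
  have hZ0 : 0 ≤ Z := Nat.cast_nonneg _
  unfold mean
  rw [hcard', one_div, inv_mul_eq_div]
  apply div_le_div_of_nonneg_right _ hp1.le
  -- pointwise
  have h1 : ∀ a ∈ lifts (d * p) d l, Delta y (d * p) a ≤
      (|cnt y (d * p) a - Z / p| + Z * (1 / ((p : ℝ) - 1) - 1 / p)) +
        Delta y d l / ((p : ℝ) - 1) := by
    intro a _
    rw [Delta_eq, Delta_eq, ← hL, ← hZ, Nat.totient_mul cdp, Nat.totient_prime hp]
    have e1 : ((d.totient * (p - 1) : ℕ) : ℝ) = d.totient * ((p : ℝ) - 1) := by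
      rw [Nat.cast_mul, Nat.cast_sub hp.one_le, Nat.cast_one]
    rw [e1]
    have e2 : cnt y (d * p) a - L / (d.totient * ((p : ℝ) - 1)) =
        (cnt y (d * p) a - Z / p) + (-(Z * (1 / ((p : ℝ) - 1) - 1 / p))) +
          (Z - L / d.totient) / ((p : ℝ) - 1) := by
      field_simp
      ring
    rw [e2]
    refine (abs_add_le _ _).trans ?_
    apply add_le_add
    · refine (abs_add_le _ _).trans ?_
      apply add_le_add le_rfl
      rw [abs_neg, abs_of_nonneg]
      apply mul_nonneg hZ0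
      rw [sub_nonneg]
      exact one_div_le_one_div_of_le hp1 (by linarith)
    · rw [abs_div, abs_of_pos hp1]
  refine (Finset.sum_le_sum h1).trans ?_
  rw [Finset.sum_add_distrib, Finset.sum_add_distrib, Finset.sum_const, Finset.sum_const,
    nsmul_eq_mul, nsmul_eq_mul, hcard']
  have h2 : ∑ a ∈ lifts (d * p) d l, |cnt y (d * p) a - Z / p| ≤
      ∑ s ∈ Finset.range p, |ZZ (⌊y⌋₊ / d + 1) (zt ⌊y⌋₊ d l) p s - Z / p| := by
    have hinj : Set.InjOn (fun a => a / d) (lifts (d * p) d l) := by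
      intro a ha a' ha' h
      have b1 : a % d = l := by
        rw [Finset.mem_coe, lifts, Finset.mem_filter] at ha
        have := ha.2.2
        rwa [Nat.ModEq, Nat.mod_eq_of_lt hl] at this
      have b2 : a' % d = l := by
        rw [Finset.mem_coe, lifts, Finset.mem_filter] at ha'
        have := ha'.2.2
        rwa [Nat.ModEq, Nat.mod_eq_of_lt hl] at this
      have h' : a / d = a' / d := h
      rw [← Nat.mod_add_div a d, ← Nat.mod_add_div a' d, b1, b2, h']
    have h3 : ∀ a ∈ lifts (d * p) d l, |cnt y (d * p) a - Z / p| =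
        |ZZ (⌊y⌋₊ / d + 1) (zt ⌊y⌋₊ d l) p (a / d) - Z / p| := by
      intro a ha
      rw [lifts, Finset.mem_filter, Finset.mem_range] at ha
      have b1 : a % d = l := by
        have := ha.2.2
        rwa [Nat.ModEq, Nat.mod_eq_of_lt hl] at this
      have b2 : a / d < p := Nat.div_lt_of_lt_mul ha.1
      rw [← cnt_eq' y d l p (a / d) hd hl hp.pos b2]
      have b3 : l + d * (a / d) = a := by rw [← b1]; exact Nat.mod_add_div a d
      rw [b3]
    rw [Finset.sum_congr rfl h3, ← Finset.sum_image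
      (f := fun s => |ZZ (⌊y⌋₊ / d + 1) (zt ⌊y⌋₊ d l) p s - Z / p|) hinj]
    apply Finset.sum_le_sum_of_subset_of_nonneg
    · intro s hs
      rw [Finset.mem_image] at hs
      obtain ⟨a, ha, rfl⟩ := hs
      rw [lifts, Finset.mem_filter, Finset.mem_range] at ha
      rw [Finset.mem_range]
      exact Nat.div_lt_of_lt_mul ha.1
    · intro s _ _
      exact abs_nonneg _
  have h4 : ((p : ℝ) - 1) * (Z * (1 / ((p : ℝ) - 1) - 1 / p)) = Z / p := by
    field_simp
    ring
  have h5 : ((p : ℝ) - 1) * (Delta y d l / ((p : ℝ) - 1)) = Delta y d l := by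
    field_simp
  rw [h4, h5]
  have h6 : Z / p ≤ Z / ((p : ℝ) - 1) := by
    apply div_le_div_of_nonneg_left hZ0 hp1 (by linarith)
  linarith

end EH60
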