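import Pool.Agent.EH60.HybridMain

/-!
# Admissibility in terms of the hybrid sums
-/

noncomputable section

namespace EH60

open Finset Filter

/-- The hybrid bound for all `P` in `[N^ε, N^(1-α-ε)]`. -/
def HybAll (α ε : ℝ) : Prop :=
  ∃ C₁ K : ℝ, ∀ᶠ N : ℕ in atTop, ∀ P : ℝ, (N : ℝ) ^ ε ≤ P → P ≤ (N : ℝ) ^ (1 - α - ε) →
    ∑ d ∈ (Finset.Icc (1 : ℕ) N).filter (fun d : ℕ => (d : ℝ) < (N : ℝ) ^ α / Real.log N ^ C₁),
      wt d * hyb N P d ≤ K * N / Real.log N ^ 4

/-- The hybrid bound for some `P = P(N)` in `[N^ε, N^(1-α-ε)]`. -/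
def HybSome (α ε : ℝ) : Prop :=
  ∃ C₁ K : ℝ, ∀ᶠ N : ℕ in atTop, ∃ P : ℝ, (N : ℝ) ^ ε ≤ P ∧ P ≤ (N : ℝ) ^ (1 - α - ε) ∧
    ∑ d ∈ (Finset.Icc (1 : ℕ) N).filter (fun d : ℕ => (d : ℝ) < (N : ℝ) ^ α / Real.log N ^ C₁),
      wt d * hyb N P d ≤ K * N / Real.log N ^ 4

theorem card_Pb_le {P : ℝ} (hP : 16 ≤ P) : ((Pb P).card : ℝ) * Real.log P ≤ 4 * Real.log 2 * P := by
  have hP0 : 0 < P := by linarith
  have h1 : ((Pb P).card : ℝ) * Real.log (P / 4) ≤ ∑ p ∈ Pb P, Real.log p := by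
    rw [← nsmul_eq_mul, ← Finset.sum_const]
    apply Finset.sum_le_sum
    intro p hp
    rw [mem_Pb hP0.le] at hp
    exact Real.log_le_log (by linarith) hp.1.1.le
  have h2 : ∑ p ∈ Pb P, Real.log p ≤ Chebyshev.theta P := by
    rw [Chebyshev.theta]
    apply Finset.sum_le_sum_of_subset_of_nonneg
    · intro p hp
      rw [Pb, Finset.mem_filter, Finset.mem_Ioc] at hp
      rw [Finset.mem_filter, Finset.mem_Ioc]
      exact ⟨⟨by omega, hp.1.2⟩, hp.2⟩
    · intro p _ _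
      exact Real.log_natCast_nonneg p
  have h3 := Chebyshev.theta_le_log4_mul_x (x := P) hP0.le
  have hl4 : Real.log 4 = 2 * Real.log 2 := by
    rw [show (4 : ℝ) = 2 ^ 2 by norm_num, Real.log_pow]; norm_num
  have h4 : Real.log P ≤ 2 * Real.log (P / 4) := by
    have h5 : Real.log (P / 4) = Real.log P - Real.log 4 := Real.log_div hP0.ne' (by norm_num)
    have h6 : 2 * Real.log 4 ≤ Real.log P := by
      have : 2 * Real.log 4 = Real.log 16 := by
        rw [show (16 : ℝ) = 4 ^ 2 by norm_num, Real.log_pow]; norm_num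
      rw [this]
      exact Real.log_le_log (by norm_num) hP
    linarith
  have h5 : ((Pb P).card : ℝ) * Real.log P ≤ (Pb P).card * (2 * Real.log (P / 4)) := by gcongr
  rw [hl4] at h3
  linarith

theorem sg_upper (ε : ℝ) (hε : 0 < ε) : ∀ᶠ N : ℕ in atTop, ∀ (P : ℝ) (d : ℕ), (N : ℝ) ^ ε ≤ P →
    sg P d ≤ 32 / ε / Real.log N := by
  filter_upwards [(tendsto_natpow ε hε).eventually_ge_atTop 16, eventually_ge_atTop 2] with
    N h1 hN2 P d hP
  have hN1 : (1 : ℝ) < N := by exact_mod_cast hN2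
  have hN0 : (0 : ℝ) < N := by linarith
  have hlogN : 0 < Real.log N := Real.log_pos hN1
  have hP16 : 16 ≤ P := h1.trans hP
  have hP0 : 0 < P := by linarith
  have hlogP : ε * Real.log N ≤ Real.log P := by
    rw [← Real.log_rpow hN0]
    exact Real.log_le_log (by positivity) hP
  have h2 := card_Pb_le hP16
  have h3 : sg P d ≤ (Pb P).card * (8 / P) := by
    calc sg P d ≤ ∑ _p ∈ Pbc P d, 8 / P := by
          apply Finset.sum_le_sum
          intro p hp
          rw [mem_Pbc hP0.le] at hp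
          have h11 := hp.1.1.1
          rw [div_le_div_iff₀ (by linarith) hP0]
          linarith
      _ = ((Pbc P d).card : ℝ) * (8 / P) := by rw [Finset.sum_const, nsmul_eq_mul]
      _ ≤ (Pb P).card * (8 / P) := by
          have : (Pbc P d).card ≤ (Pb P).card := Finset.card_le_card (Finset.filter_subset _ _)
          have h4 : ((Pbc P d).card : ℝ) ≤ (Pb P).card := by exact_mod_cast this
          gcongr
  have hl2 := Real.log_two_lt_d9
  have h4 : (Pb P).card * (8 / P) * (ε * Real.log N) ≤ 32 := by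
    calc (Pb P).card * (8 / P) * (ε * Real.log N) ≤ (Pb P).card * (8 / P) * Real.log P := by gcongr
      _ = ((Pb P).card * Real.log P) * (8 / P) := by ring
      _ ≤ (4 * Real.log 2 * P) * (8 / P) := by gcongr
      _ = 32 * Real.log 2 := by field_simp; norm_num
      _ ≤ 32 := by linarith
  refine h3.trans ?_
  rw [div_div, le_div_iff₀ (by positivity)]
  exact h4

theorem sum_wt_div (κ : ℝ) (hκ : 0 < κ) : ∃ C : ℝ, 0 < C ∧ ∀ᶠ N : ℕ in atTop,
    ∀ S ⊆ Finset.Icc 1 N, ∑ d ∈ S, wt d / d ≤ C * (N : ℝ) ^ (2 * κ) := by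
  obtain ⟨C, hC1, hC⟩ := three_pow_le κ hκ
  have e1 : ∀ᶠ x : ℝ in atTop, ‖Real.log x‖ ≤ (1 / 2) * ‖x ^ κ‖ :=
    (isLittleO_log_rpow_atTop (r := κ) hκ).bound (by norm_num)
  refine ⟨C, by linarith, ?_⟩
  filter_upwards [(tendsto_natpow κ hκ).eventually_ge_atTop 2,
    tendsto_natCast_atTop_atTop.eventually e1, eventually_ge_atTop 2] with N h1 h2 hN2 S hS
  have hN2' : (2 : ℝ) ≤ N := by exact_mod_cast hN2
  have hN0 : (0 : ℝ) < N := by linarith
  have hlog : 0 ≤ Real.log N := Real.log_nonneg (by linarith)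
  rw [Real.norm_of_nonneg hlog, Real.norm_of_nonneg (by positivity)] at h2
  calc ∑ d ∈ S, wt d / d ≤ ∑ d ∈ Finset.Icc 1 N, wt d / d := by
        apply Finset.sum_le_sum_of_subset_of_nonneg hS
        intro d _ _
        exact div_nonneg (wt_nonneg d) (Nat.cast_nonneg _)
    _ ≤ ∑ d ∈ Finset.Icc 1 N, C * (N : ℝ) ^ κ * (1 / (d : ℝ)) := by
        apply Finset.sum_le_sum
        intro d hd
        rw [Finset.mem_Icc] at hd
        have hd0 : (0 : ℝ) < d := by exact_mod_cast hd.1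
        rw [mul_one_div]
        apply div_le_div_of_nonneg_right _ hd0.le
        refine (wt_le d).trans ((hC d (by omega)).trans ?_)
        have : (d : ℝ) ^ κ ≤ (N : ℝ) ^ κ :=
          Real.rpow_le_rpow hd0.le (by exact_mod_cast hd.2) hκ.le
        gcongr
    _ = C * (N : ℝ) ^ κ * ∑ d ∈ Finset.Icc 1 N, 1 / (d : ℝ) := by rw [Finset.mul_sum]
    _ ≤ C * (N : ℝ) ^ κ * (1 + Real.log N) := by
        have h1 := harmonic_le_one_add_log N
        rw [harmonic_eq_sum_Icc] at h1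
        push_cast at h1
        have h1' : ∑ d ∈ Finset.Icc 1 N, 1 / (d : ℝ) ≤ 1 + Real.log N := by
          simpa [one_div] using h1
        gcongr
    _ ≤ C * (N : ℝ) ^ κ * (N : ℝ) ^ κ := by
        have : 1 + Real.log N ≤ (N : ℝ) ^ κ := by linarith
        gcongr
    _ = C * (N : ℝ) ^ (2 * κ) := by
        rw [mul_assoc, ← Real.rpow_add hN0]; ring_nf

/-- the power saving error is negligible -/
theorem small_error (C ε : ℝ) (hC : 0 < C) (hε : 0 < ε) : ∀ᶠ N : ℕ in atTop,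
    C * (N : ℝ) ^ (1 - ε) ≤ N / Real.log N ^ 4 := by
  have e1 : ∀ᶠ x : ℝ in atTop, ‖Real.log x‖ ≤ (1 / C) ^ (1 / 4 : ℝ) * ‖x ^ (ε / 4)‖ :=
    (isLittleO_log_rpow_atTop (r := ε / 4) (by positivity)).bound (by positivity)
  filter_upwards [tendsto_natCast_atTop_atTop.eventually e1, eventually_ge_atTop 2] with N h1 hN2
  have hN1 : (1 : ℝ) < N := by exact_mod_cast hN2
  have hN0 : (0 : ℝ) < N := by linarith
  have hlog : 0 < Real.log N := Real.log_pos hN1
  rw [Real.norm_of_nonneg hlog.le, Real.norm_of_nonneg (by positivity)] at h1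
  have h2 : Real.log N ^ 4 ≤ (1 / C) * (N : ℝ) ^ ε := by
    calc Real.log N ^ 4 ≤ ((1 / C) ^ (1 / 4 : ℝ) * (N : ℝ) ^ (ε / 4)) ^ 4 := by gcongr
      _ = (1 / C) * (N : ℝ) ^ ε := by
          rw [mul_pow, ← Real.rpow_natCast, ← Real.rpow_natCast, ← Real.rpow_mul (by positivity),
            ← Real.rpow_mul hN0.le]
          norm_num
  rw [le_div_iff₀ (by positivity), Real.rpow_sub hN0, Real.rpow_one]
  calc C * ((N : ℝ) / (N : ℝ) ^ ε) * Real.log N ^ 4
      ≤ C * ((N : ℝ) / (N : ℝ) ^ ε) * ((1 / C) * (N : ℝ) ^ ε) := by gcongr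
    _ = N := by field_simp

/-- two-sided comparison of the weighted sums -/
theorem compare (α ε C₁ : ℝ) (hα : 0 < α) (hε : 0 < ε) : ∀ᶠ N : ℕ in atTop,
    ∀ P : ℝ, (N : ℝ) ^ ε ≤ P → P ≤ (N : ℝ) ^ (1 - α - ε) →
    (∑ d ∈ (Finset.Icc (1 : ℕ) N).filter (fun d : ℕ => (d : ℝ) < (N : ℝ) ^ α / Real.log N ^ C₁),
      wt d * hyb N P d ≤ 32 / ε / Real.log N *
      ∑ d ∈ (Finset.Icc (1 : ℕ) N).filter (fun d : ℕ => (d : ℝ) < (N : ℝ) ^ α / Real.log N ^ C₁),
      wt d * E N d + N / Real.log N ^ 4) ∧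
    (1 / 4 / Real.log N *
      ∑ d ∈ (Finset.Icc (1 : ℕ) N).filter (fun d : ℕ => (d : ℝ) < (N : ℝ) ^ α / Real.log N ^ C₁),
      wt d * E N d ≤
      ∑ d ∈ (Finset.Icc (1 : ℕ) N).filter (fun d : ℕ => (d : ℝ) < (N : ℝ) ^ α / Real.log N ^ C₁),
      wt d * hyb N P d + N / Real.log N ^ 4) := by
  obtain ⟨C, hC, hCN⟩ := sum_wt_div (ε / 32) (by positivity)
  have elog : ∀ᶠ x : ℝ in atTop, x ^ (-C₁) ≤ Real.exp x ^ (ε / 2) := by
    have h0 := (isLittleO_rpow_exp_pos_mul_atTop (-C₁) (b := ε / 2) (by positivity)).bound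
      (c := 1) (by norm_num)
    filter_upwards [h0, eventually_gt_atTop 0] with x hx hx0
    rw [Real.norm_of_nonneg (by positivity), Real.norm_of_nonneg (by positivity), one_mul] at hx
    rwa [← Real.exp_mul, mul_comm x]
  have elog' := (Real.tendsto_log_atTop.comp tendsto_natCast_atTop_atTop).eventually elog
  filter_upwards [hCN, hyb_eq (ε / 2) (by positivity), sg_upper ε hε, sum_Pbc ε hε,
    small_error C (ε / 16) hC (by positivity), elog', eventually_ge_atTop 2] with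
    N h1 h2 h3 h4 h5 h6 hN2 P hP hP'
  have hN1 : (1 : ℝ) < N := by exact_mod_cast hN2
  have hN0 : (0 : ℝ) < N := by linarith
  have hlog : 0 < Real.log N := Real.log_pos hN1
  set S := (Finset.Icc (1 : ℕ) N).filter (fun d : ℕ => (d : ℝ) < (N : ℝ) ^ α / Real.log N ^ C₁) with hS
  have hPN : P ≤ N := by
    refine hP'.trans ?_
    calc (N : ℝ) ^ (1 - α - ε) ≤ (N : ℝ) ^ (1 : ℝ) :=
          Real.rpow_le_rpow_of_exponent_le hN1.le (by linarith)
      _ = N := Real.rpow_one _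
  have hP0 : 0 < P := lt_of_lt_of_le (by positivity) hP
  -- bound for d
  have hd : ∀ d ∈ S, 0 < d ∧ d ≤ N ∧ (d : ℝ) * P ≤ (N : ℝ) ^ (1 - ε / 2) := by
    intro d hd
    rw [hS, Finset.mem_filter, Finset.mem_Icc] at hd
    refine ⟨by omega, hd.1.2, ?_⟩
    have g1 : (N : ℝ) ^ α / Real.log N ^ C₁ ≤ (N : ℝ) ^ (α + ε / 2) := by
      simp only [Function.comp] at h6
      rw [Real.exp_log hN0, Real.rpow_neg hlog.le] at h6
      rw [Real.rpow_add hN0, div_eq_mul_inv]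
      gcongr
    calc (d : ℝ) * P ≤ (N : ℝ) ^ (α + ε / 2) * (N : ℝ) ^ (1 - α - ε) := by
          apply mul_le_mul (hd.2.le.trans g1) hP' hP0.le (by positivity)
      _ = (N : ℝ) ^ (1 - ε / 2) := by rw [← Real.rpow_add hN0]; ring_nf
  have hPe : (N : ℝ) ^ (ε / 2) ≤ P :=
    (Real.rpow_le_rpow_of_exponent_le hN1.le (by linarith)).trans hP
  have herr : ∑ d ∈ S, wt d * ((N : ℝ) ^ (1 - ε / 2 / 4) / d) ≤ N / Real.log N ^ 4 := by
    calc ∑ d ∈ S, wt d * ((N : ℝ) ^ (1 - ε / 2 / 4) / d)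
        = (N : ℝ) ^ (1 - ε / 2 / 4) * ∑ d ∈ S, wt d / d := by
          rw [Finset.mul_sum]
          apply Finset.sum_congr rfl
          intro d _
          ring
      _ ≤ (N : ℝ) ^ (1 - ε / 2 / 4) * (C * (N : ℝ) ^ (2 * (ε / 32))) := by
          have := h1 S (Finset.filter_subset _ _)
          gcongr
      _ = C * (N : ℝ) ^ (1 - ε / 16) := by
          rw [mul_left_comm, ← Real.rpow_add hN0]; ring_nf
      _ ≤ N / Real.log N ^ 4 := h5
  have habs : ∀ d ∈ S, |hyb N P d - sg P d * E N d| ≤ (N : ℝ) ^ (1 - ε / 2 / 4) / d := by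
    intro d hdS
    obtain ⟨g1, g2, g3⟩ := hd d hdS
    exact h2 d P g1 hPe g3
  constructor
  · calc ∑ d ∈ S, wt d * hyb N P d
        ≤ ∑ d ∈ S, (32 / ε / Real.log N * (wt d * E N d) +
            wt d * ((N : ℝ) ^ (1 - ε / 2 / 4) / d)) := by
          apply Finset.sum_le_sum
          intro d hdS
          have g4 := (abs_le.1 (habs d hdS)).2
          have g5 := h3 P d hP
          have g6 : hyb N P d ≤ 32 / ε / Real.log N * E N d + (N : ℝ) ^ (1 - ε / 2 / 4) / d := by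
            have := mul_le_mul_of_nonneg_right g5 (E_nonneg N d)
            linarith
          calc wt d * hyb N P d ≤ wt d * (32 / ε / Real.log N * E N d +
                (N : ℝ) ^ (1 - ε / 2 / 4) / d) := mul_le_mul_of_nonneg_left g6 (wt_nonneg d)
            _ = _ := by ring
      _ = 32 / ε / Real.log N * (∑ d ∈ S, wt d * E N d) +
            ∑ d ∈ S, wt d * ((N : ℝ) ^ (1 - ε / 2 / 4) / d) := by
          rw [Finset.sum_add_distrib, ← Finset.mul_sum]
      _ ≤ _ := by linarith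
  · calc 1 / 4 / Real.log N * (∑ d ∈ S, wt d * E N d)
        = ∑ d ∈ S, wt d * (1 / 4 / Real.log N * E N d) := by
          rw [Finset.mul_sum]
          apply Finset.sum_congr rfl
          intro d _
          ring
      _ ≤ ∑ d ∈ S, (wt d * hyb N P d + wt d * ((N : ℝ) ^ (1 - ε / 2 / 4) / d)) := by
          apply Finset.sum_le_sum
          intro d hdS
          obtain ⟨g1, g2, g3⟩ := hd d hdS
          have g4 := (abs_le.1 (habs d hdS)).1
          have g5 : 1 / 4 / Real.log N ≤ sg P d := h4 P d hP hPN g1 g2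
          have g6 := mul_le_mul_of_nonneg_right g5 (E_nonneg N d)
          rw [← mul_add]
          apply mul_le_mul_of_nonneg_left _ (wt_nonneg d)
          linarith
      _ = (∑ d ∈ S, wt d * hyb N P d) + ∑ d ∈ S, wt d * ((N : ℝ) ^ (1 - ε / 2 / 4) / d) := by
          rw [Finset.sum_add_distrib]
      _ ≤ _ := by linarith

theorem hybAll_of_admissible (α ε : ℝ) (hα : 0 < α) (hε : 0 < ε) (h : Admissible α) :
    HybAll α ε := by
  obtain ⟨C₁, K, hK⟩ := h
  refine ⟨C₁, 32 / ε * K + 1, ?_⟩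
  filter_upwards [hK, compare α ε C₁ hα hε, eventually_ge_atTop 2] with N h1 h2 hN2 P hP hP'
  have hN1 : (1 : ℝ) < N := by exact_mod_cast hN2
  have hlog : 0 < Real.log N := Real.log_pos hN1
  refine (h2 P hP hP').1.trans ?_
  calc 32 / ε / Real.log N * _ + N / Real.log N ^ 4
      ≤ 32 / ε / Real.log N * (K * N / Real.log N ^ 3) + N / Real.log N ^ 4 := by gcongr
    _ = (32 / ε * K + 1) * N / Real.log N ^ 4 := by field_simp

theorem hybSome_of_hybAll (α ε : ℝ) (hαε : α + 2 * ε ≤ 1) (h : HybAll α ε) : HybSome α ε := by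
  obtain ⟨C₁, K, hK⟩ := h
  refine ⟨C₁, K, ?_⟩
  filter_upwards [hK, eventually_ge_atTop 1] with N h1 hN
  have hN1 : (1 : ℝ) ≤ N := by exact_mod_cast hN
  have h2 : (N : ℝ) ^ ε ≤ (N : ℝ) ^ (1 - α - ε) :=
    Real.rpow_le_rpow_of_exponent_le hN1 (by linarith)
  exact ⟨(N : ℝ) ^ ε, le_rfl, h2, h1 _ le_rfl h2⟩

theorem admissible_of_hybSome (α ε : ℝ) (hα : 0 < α) (hε : 0 < ε) (h : HybSome α ε) :
    Admissible α := by
  obtain ⟨C₁, K, hK⟩ := h
  refine ⟨C₁, 4 * (K + 1), ?_⟩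
  filter_upwards [hK, compare α ε C₁ hα hε, eventually_ge_atTop 2] with N h1 h2 hN2
  obtain ⟨P, hP, hP', h3⟩ := h1
  have hN1 : (1 : ℝ) < N := by exact_mod_cast hN2
  have hlog : 0 < Real.log N := Real.log_pos hN1
  have h4 := (h2 P hP hP').2
  generalize (∑ d ∈ (Finset.Icc (1 : ℕ) N).filter
      (fun d : ℕ => (d : ℝ) < (N : ℝ) ^ α / Real.log N ^ C₁), wt d * E N d) = G at h4 ⊢
  have h5 : 1 / 4 / Real.log N * G ≤ (K + 1) * N / Real.log N ^ 4 := by
    calc _ ≤ _ := h4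
      _ ≤ K * N / Real.log N ^ 4 + N / Real.log N ^ 4 := by gcongr
      _ = _ := by ring
  have h6 : G = 4 * Real.log N * (1 / 4 / Real.log N * G) := by field_simp
  rw [h6]
  calc 4 * Real.log N * (1 / 4 / Real.log N * G)
      ≤ 4 * Real.log N * ((K + 1) * N / Real.log N ^ 4) := by gcongr
    _ = 4 * (K + 1) * N / Real.log N ^ 3 := by field_simp

theorem hybrid_iff (α ε : ℝ) (hα : 0 < α) (hε : 0 < ε) (hαε : α + 2 * ε ≤ 1) :
    (Admissible α ↔ HybAll α ε) ∧ (Admissible α ↔ HybSome α ε) :=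
  ⟨⟨hybAll_of_admissible α ε hα hε,
    fun h => admissible_of_hybSome α ε hα hε (hybSome_of_hybAll α ε hαε h)⟩,
   ⟨fun h => hybSome_of_hybAll α ε hαε (hybAll_of_admissible α ε hα hε h),
    admissible_of_hybSome α ε hα hε⟩⟩

end EH60
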