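import Pool.Agent.EH60.Hybrid

/-!
# The hybrid sums over the moduli `d p`
-/

noncomputable section

namespace EH60

open Finset Filter

/-- The supremum over `2 ≤ y ≤ N` and the classes `l` modulo `d` of
`∑_{P/4 < p ≤ P, p ∤ d} (mean of |π(y; d p, a) - li y / φ(d p)| over the reduced a mod d p with a ≡ l mod d)`. -/
def hyb (N : ℕ) (P : ℝ) (d : ℕ) : ℝ :=
  sSup {x : ℝ | ∃ (y : ℝ) (l : ℕ), 2 ≤ y ∧ y ≤ N ∧ l.Coprime d ∧
    x = ∑ p ∈ Pbc P d, mean y (d * p) d l}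

/-- `∑_{P/4 < p ≤ P, p ∤ d} 1 / (p - 1)` -/
def sg (P : ℝ) (d : ℕ) : ℝ := ∑ p ∈ Pbc P d, 1 / ((p : ℝ) - 1)

theorem zt_sq (Y d l t : ℕ) : zt Y d l t ^ 2 = zt Y d l t := by
  unfold zt; split_ifs <;> simp

theorem zt_nonneg (Y d l t : ℕ) : 0 ≤ zt Y d l t := by
  unfold zt; split_ifs <;> norm_num

theorem zt_le_one (Y d l t : ℕ) : zt Y d l t ≤ 1 := by
  unfold zt; split_ifs <;> norm_num

theorem sum_zt_le (Y d l T : ℕ) : ∑ t ∈ Finset.range T, zt Y d l t ≤ T := by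
  calc _ ≤ ∑ _t ∈ Finset.range T, (1 : ℝ) := Finset.sum_le_sum fun t _ => zt_le_one Y d l t
    _ = T := by simp

theorem mem_Pbc {P : ℝ} (hP : 0 ≤ P) {d p : ℕ} :
    p ∈ Pbc P d ↔ ((P / 4 < p ∧ (p : ℝ) ≤ P) ∧ p.Prime) ∧ ¬ p ∣ d := by
  rw [Pbc, Finset.mem_filter, mem_Pb hP]

theorem sg_nonneg (P : ℝ) (d : ℕ) : 0 ≤ sg P d := by
  apply Finset.sum_nonneg
  intro p hp
  rw [Pbc, Finset.mem_filter, Pb, Finset.mem_filter] at hp
  have : (2 : ℝ) ≤ p := by exact_mod_cast hp.1.2.two_le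
  apply one_div_nonneg.2
  linarith

/-- the large sieve for the primes `≡ l mod d` -/
theorem ls_bound (P : ℝ) (hP : 8 ≤ P) (Y d l T : ℕ) (T₀ : ℝ) (hT : (T : ℝ) ≤ T₀) :
    ∑ p ∈ Pbc P d, (p : ℝ) * ∑ s ∈ Finset.range p,
      (ZZ T (zt Y d l) p s - (∑ t ∈ Finset.range T, zt Y d l t) / p) ^ 2 ≤
      (T₀ + P ^ 2 * (1 + 2 * Real.log P)) * T₀ := by
  have hP0 : (0 : ℝ) ≤ P := by linarith
  have hfl : (⌊P⌋₊ : ℝ) ≤ P := Nat.floor_le hP0
  have hfl1 : 1 ≤ ⌊P⌋₊ := by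
    rw [Nat.one_le_floor_iff]; linarith
  have hfl1' : (1 : ℝ) ≤ ⌊P⌋₊ := by exact_mod_cast hfl1
  have h1 := large_sieve (Pbc P d) ⌊P⌋₊ hfl1 (by
    intro p hp
    rw [mem_Pbc hP0] at hp
    exact ⟨hp.1.2, Nat.le_floor hp.1.1.2⟩) T (zt Y d l)
  refine h1.trans ?_
  have h2 : ∑ t ∈ Finset.range T, zt Y d l t ^ 2 ≤ T₀ := by
    rw [Finset.sum_congr rfl (fun t _ => zt_sq Y d l t)]
    exact (sum_zt_le Y d l T).trans hT
  have h2' : 0 ≤ ∑ t ∈ Finset.range T, zt Y d l t ^ 2 := Finset.sum_nonneg fun _ _ => sq_nonneg _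
  have h3 : Real.log ((⌊P⌋₊ : ℝ) ^ 2) ≤ 2 * Real.log P := by
    rw [Real.log_pow]
    push_cast
    have := Real.log_le_log (by linarith) hfl
    linarith
  have h3' : 0 ≤ Real.log ((⌊P⌋₊ : ℝ) ^ 2) := Real.log_nonneg (one_le_pow₀ hfl1')
  have h4 : (T : ℝ) + (⌊P⌋₊ : ℝ) ^ 2 * (1 + Real.log ((⌊P⌋₊ : ℝ) ^ 2)) ≤
      T₀ + P ^ 2 * (1 + 2 * Real.log P) := by
    apply add_le_add hT
    apply mul_le_mul (by gcongr) (by linarith) (by linarith) (by positivity)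
  have hT₀ : 0 ≤ T₀ := h2'.trans h2
  have hlogP : 0 ≤ Real.log P := Real.log_nonneg (by linarith)
  exact mul_le_mul h4 h2 h2' (by positivity)

theorem sum_sq_Pbc {P : ℝ} (hP : 8 ≤ P) (d : ℕ) :
    ∑ p ∈ Pbc P d, (1 / ((p : ℝ) - 1)) ^ 2 ≤ 64 / P := by
  have hP0 : 0 < P := by linarith
  calc ∑ p ∈ Pbc P d, (1 / ((p : ℝ) - 1)) ^ 2 ≤ ∑ p ∈ Pbc P d, (8 / P) * (1 / ((p : ℝ) - 1)) := by
        apply Finset.sum_le_sum
        intro p hp
        rw [mem_Pbc hP0.le] at hp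
        have h1 := hp.1.1.1
        have h2 : 0 < (p : ℝ) - 1 := by linarith
        rw [sq]
        apply mul_le_mul_of_nonneg_right _ (one_div_nonneg.2 h2.le)
        rw [div_le_div_iff₀ h2 hP0]
        linarith
    _ = (8 / P) * ∑ p ∈ Pbc P d, 1 / ((p : ℝ) - 1) := by rw [Finset.mul_sum]
    _ ≤ (8 / P) * 8 := by
        apply mul_le_mul_of_nonneg_left (sum_Pbc_le hP d) (by positivity)
    _ = 64 / P := by ring

/-- the equidistribution in the subclasses, on average over `p` -/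
theorem dispersion (P : ℝ) (hP : 8 ≤ P) (Y d l T : ℕ) (T₀ c : ℝ) (hT : (T : ℝ) ≤ T₀) (hc : 0 < c) :
    ∑ p ∈ Pbc P d, 1 / ((p : ℝ) - 1) * ∑ s ∈ Finset.range p,
      |ZZ T (zt Y d l) p s - (∑ t ∈ Finset.range T, zt Y d l t) / p| ≤
      32 * c / P + (T₀ + P ^ 2 * (1 + 2 * Real.log P)) * T₀ / (2 * c) := by
  have hP0 : 0 < P := by linarith
  have h1 := ls_bound P hP Y d l T T₀ hT
  set Z := ∑ t ∈ Finset.range T, zt Y d l t with hZ
  have h2 : ∀ p ∈ Pbc P d, 1 / ((p : ℝ) - 1) * ∑ s ∈ Finset.range p, |ZZ T (zt Y d l) p s - Z / p| ≤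
      (c / 2) * (1 / ((p : ℝ) - 1)) ^ 2 +
        1 / (2 * c) * ((p : ℝ) * ∑ s ∈ Finset.range p, (ZZ T (zt Y d l) p s - Z / p) ^ 2) := by
    intro p hp
    rw [mem_Pbc hP0.le] at hp
    have hp1 : 0 < (p : ℝ) - 1 := by linarith [hp.1.1.1]
    have hp0 : 0 < (p : ℝ) := by linarith
    rw [Finset.mul_sum]
    have h3 : ∀ s ∈ Finset.range p, 1 / ((p : ℝ) - 1) * |ZZ T (zt Y d l) p s - Z / p| ≤
        (c / 2) * (1 / ((p : ℝ) - 1)) ^ 2 * (1 / p) +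
          1 / (2 * c) * p * (ZZ T (zt Y d l) p s - Z / p) ^ 2 := by
      intro s _
      rw [← sq_abs (ZZ T (zt Y d l) p s - Z / p)]
      set x := |ZZ T (zt Y d l) p s - Z / p| with hx
      have e : (c / 2) * (1 / ((p : ℝ) - 1)) ^ 2 * (1 / p) + 1 / (2 * c) * p * x ^ 2 -
          1 / ((p : ℝ) - 1) * x = (c / (2 * p)) * (1 / ((p : ℝ) - 1) - (p / c) * x) ^ 2 := by
        field_simp
        ring
      have h4 : 0 ≤ (c / (2 * p)) * (1 / ((p : ℝ) - 1) - (p / c) * x) ^ 2 := by positivity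
      linarith
    refine (Finset.sum_le_sum h3).trans (le_of_eq ?_)
    rw [Finset.sum_add_distrib, Finset.sum_const, Finset.card_range, nsmul_eq_mul, ← Finset.mul_sum]
    field_simp
  refine (Finset.sum_le_sum h2).trans ?_
  rw [Finset.sum_add_distrib, ← Finset.mul_sum, ← Finset.mul_sum]
  have h5 := sum_sq_Pbc hP d
  have h6 : (c / 2) * ∑ p ∈ Pbc P d, (1 / ((p : ℝ) - 1)) ^ 2 ≤ 32 * c / P := by
    calc _ ≤ (c / 2) * (64 / P) := by gcongr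
      _ = 32 * c / P := by ring
  have h7 : 1 / (2 * c) * ∑ p ∈ Pbc P d, ((p : ℝ) * ∑ s ∈ Finset.range p,
      (ZZ T (zt Y d l) p s - Z / p) ^ 2) ≤ (T₀ + P ^ 2 * (1 + 2 * Real.log P)) * T₀ / (2 * c) := by
    calc _ ≤ 1 / (2 * c) * ((T₀ + P ^ 2 * (1 + 2 * Real.log P)) * T₀) := by gcongr
      _ = _ := by ring
  linarith

/-- pointwise upper bound, explicit form -/
theorem point_upper' {N d : ℕ} {A P y : ℝ} (hd : 0 < d) (hA1 : 2 ≤ A)
    (hA : 194 + Real.log N ≤ A) (hAP : A ^ 4 ≤ P) (hdP : d * P ≤ N / A ^ 4) (hyN : y ≤ N)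
    (hy : 2 ≤ y) (l : ℕ) (hl : l.Coprime d) :
    ∑ p ∈ Pbc P d, mean y (d * p) d l ≤ sg P d * Delta y d l + N / A / d := by
  have hA0 : 0 < A := by linarith
  have hA4 : (16 : ℝ) ≤ A ^ 4 := by
    calc (16 : ℝ) = 2 ^ 4 := by norm_num
      _ ≤ A ^ 4 := by gcongr
  have hP : 8 ≤ P := by linarith
  have hP0 : 0 < P := by linarith
  have hd1 : (1 : ℝ) ≤ d := by exact_mod_cast hd
  have hd0 : (0 : ℝ) < d := by linarith
  have hN0 : (0 : ℝ) < N := by linarith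
  have hPN : P ≤ N := by
    have h1 : (N : ℝ) / A ^ 4 ≤ N := div_le_self hN0.le (by linarith)
    nlinarith
  have hdN : (d : ℝ) ≤ N := by
    have h1 : (N : ℝ) / A ^ 4 ≤ N := div_le_self hN0.le (by linarith)
    nlinarith
  have hlogP : Real.log P ≤ Real.log N := Real.log_le_log hP0 hPN
  have hlogP0 : 0 ≤ Real.log P := Real.log_nonneg (by linarith)
  -- reduce l modulo d
  have hmean : ∀ p ∈ Pbc P d, mean y (d * p) d l = mean y (d * p) d (l % d) := fun p _ => mean_mod _ _ _ _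
  rw [Finset.sum_congr rfl hmean, Delta_mod]
  have hl' : (l % d) < d := Nat.mod_lt _ hd
  have hlc' : (l % d).Coprime d := by
    rw [Nat.Coprime, ← Nat.gcd_rec, Nat.gcd_comm]; exact hl
  generalize l % d = r at hl' hlc'
  clear hmean hl l
  -- the length
  set T : ℕ := ⌊y⌋₊ / d + 1 with hT
  set T₀ : ℝ := 2 * N / d with hT₀
  have hT₀0 : 0 < T₀ := by positivity
  have hTT₀ : (T : ℝ) ≤ T₀ := by
    rw [hT]
    push_cast
    have h1 : ((⌊y⌋₊ / d : ℕ) : ℝ) ≤ N / d := by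
      refine Nat.cast_div_le.trans ?_
      apply div_le_div_of_nonneg_right _ hd0.le
      exact (Nat.floor_le (by linarith : (0 : ℝ) ≤ y)).trans hyN
    have h2 : (1 : ℝ) ≤ N / d := by rw [le_div_iff₀ hd0]; linarith
    calc ((⌊y⌋₊ / d : ℕ) : ℝ) + 1 ≤ N / d + N / d := add_le_add h1 h2
      _ = T₀ := by rw [hT₀]; ring
  set Z := cnt y d r with hZ
  have hZsum : Z = ∑ t ∈ Finset.range T, zt ⌊y⌋₊ d r t := cnt_eq y d r hd hl'
  have hZT : Z ≤ T₀ := by rw [hZsum]; exact (sum_zt_le _ _ _ _).trans hTT₀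
  have hZ0 : 0 ≤ Z := Nat.cast_nonneg _
  set c : ℝ := T₀ * P / A ^ 2 with hc
  have hc0 : 0 < c := by positivity
  have hdisp := dispersion P hP ⌊y⌋₊ d r T T₀ c hTT₀ hc0
  rw [← hZsum] at hdisp
  have h1 : ∀ p ∈ Pbc P d, mean y (d * p) d r ≤ 1 / ((p : ℝ) - 1) * Delta y d r +
      (1 / ((p : ℝ) - 1) * ∑ s ∈ Finset.range p, |ZZ T (zt ⌊y⌋₊ d r) p s - Z / p|) +
      Z * (1 / ((p : ℝ) - 1)) ^ 2 := by
    intro p hp
    rw [mem_Pbc hP0.le] at hp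
    refine (mean_upper y d r p hd hl' hlc' hp.1.2 hp.2).trans (le_of_eq ?_)
    have hp1 : 0 < (p : ℝ) - 1 := by linarith [hp.1.1.1]
    rw [← hT, ← hZ]
    field_simp
  refine (Finset.sum_le_sum h1).trans ?_
  rw [Finset.sum_add_distrib, Finset.sum_add_distrib, ← Finset.sum_mul, ← Finset.mul_sum, add_assoc]
  apply add_le_add (le_of_eq rfl)
  have h2 := sum_sq_Pbc hP d
  have h3 : Z * ∑ p ∈ Pbc P d, (1 / ((p : ℝ) - 1)) ^ 2 ≤ 64 * T₀ / A ^ 2 := by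
    calc _ ≤ T₀ * (64 / P) := by gcongr
      _ ≤ T₀ * (64 / A ^ 4) := by gcongr
      _ ≤ T₀ * (64 / A ^ 2) := by
          gcongr
          · linarith
          · norm_num
      _ = 64 * T₀ / A ^ 2 := by ring
  have h4 : 32 * c / P = 32 * T₀ / A ^ 2 := by
    rw [hc]; field_simp
  have h5 : (T₀ + P ^ 2 * (1 + 2 * Real.log P)) * T₀ / (2 * c) ≤
      T₀ / A ^ 2 * (1 / 2 + (1 + 2 * Real.log N) / 4) := by
    have e : (T₀ + P ^ 2 * (1 + 2 * Real.log P)) * T₀ / (2 * c) =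
        T₀ * A ^ 2 / (2 * P) + (1 + 2 * Real.log P) * A ^ 2 / 2 * P := by
      rw [hc]; field_simp
    rw [e]
    have h6 : T₀ * A ^ 2 / (2 * P) ≤ T₀ * A ^ 2 / (2 * A ^ 4) := by gcongr
    have h6' : T₀ * A ^ 2 / (2 * A ^ 4) = T₀ / A ^ 2 * (1 / 2) := by field_simp
    have h7 : P ≤ T₀ / (2 * A ^ 4) := by
      rw [hT₀, le_div_iff₀ (by positivity)]
      rw [le_div_iff₀ (by positivity)] at hdP
      rw [le_div_iff₀ hd0]
      nlinarith
    have h8 : (1 + 2 * Real.log P) * A ^ 2 / 2 * P ≤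
        (1 + 2 * Real.log N) * A ^ 2 / 2 * (T₀ / (2 * A ^ 4)) := by
      gcongr
    have h8' : (1 + 2 * Real.log N) * A ^ 2 / 2 * (T₀ / (2 * A ^ 4)) =
        T₀ / A ^ 2 * ((1 + 2 * Real.log N) / 4) := by field_simp; norm_num
    rw [h6'] at h6
    rw [h8'] at h8
    linarith
  rw [h4] at hdisp
  have h9 : (N : ℝ) / A / d = T₀ / A ^ 2 * (A / 2) := by
    rw [hT₀]; field_simp
  rw [h9]
  have h10 : T₀ / A ^ 2 * (97 + Real.log N / 2) ≤ T₀ / A ^ 2 * (A / 2) := by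
    apply mul_le_mul_of_nonneg_left _ (by positivity)
    linarith
  have h11 : 32 * T₀ / A ^ 2 + 64 * T₀ / A ^ 2 = T₀ / A ^ 2 * 96 := by ring
  have h12 : T₀ / A ^ 2 * (97 + Real.log N / 2) =
      T₀ / A ^ 2 * 96 + T₀ / A ^ 2 * (1 / 2 + (1 + 2 * Real.log N) / 4) + T₀ / A ^ 2 * (1 / 4) := by
    ring
  have h13 : 0 ≤ T₀ / A ^ 2 * (1 / 4) := by positivity
  linarith

theorem point_lower {d : ℕ} {P y : ℝ} (hd : 0 < d) (hP : 8 ≤ P) (l : ℕ) (hl : l.Coprime d) :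
    sg P d * Delta y d l - 8 ≤ ∑ p ∈ Pbc P d, mean y (d * p) d l := by
  have hP0 : 0 < P := by linarith
  have h1 : ∀ p ∈ Pbc P d, 1 / ((p : ℝ) - 1) * Delta y d l - 1 / ((p : ℝ) - 1) ≤ mean y (d * p) d l := by
    intro p hp
    rw [mem_Pbc hP0.le] at hp
    have hp1 : 0 < (p : ℝ) - 1 := by linarith [hp.1.1.1]
    have hpp := hp.1.2
    have cdp : d.Coprime p := ((Nat.Prime.coprime_iff_not_dvd hpp).2 hp.2).symm
    have h2 := core y d p l hd hpp.pos cdp hl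
    rw [Nat.totient_prime hpp, Nat.cast_sub hpp.one_le, Nat.cast_one, hpp.primeFactors,
      Finset.card_singleton, Nat.cast_one] at h2
    have e : 1 / ((p : ℝ) - 1) * Delta y d l - 1 / ((p : ℝ) - 1) = (Delta y d l - 1) / ((p : ℝ) - 1) := by
      field_simp
    rw [e, div_le_iff₀ hp1]
    linarith
  have h3 := Finset.sum_le_sum h1
  rw [Finset.sum_sub_distrib, ← Finset.sum_mul] at h3
  have h4 := sum_Pbc_le hP d
  have h5 : sg P d * Delta y d l = (∑ p ∈ Pbc P d, 1 / ((p : ℝ) - 1)) * Delta y d l := rfl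
  rw [h5]
  linarith

theorem hyb_bdd (N : ℕ) (P : ℝ) (d : ℕ) : BddAbove {x : ℝ | ∃ (y : ℝ) (l : ℕ), 2 ≤ y ∧ y ≤ N ∧
    l.Coprime d ∧ x = ∑ p ∈ Pbc P d, mean y (d * p) d l} := by
  refine ⟨∑ p ∈ Pbc P d, E N (d * p), ?_⟩
  rintro x ⟨y, l, h1, h2, _, rfl⟩
  exact Finset.sum_le_sum fun p _ => mean_le N y _ d l h1 h2

theorem le_hyb (N : ℕ) (P : ℝ) (d : ℕ) (y : ℝ) (l : ℕ) (h1 : 2 ≤ y) (h2 : y ≤ N) (h3 : l.Coprime d) :
    ∑ p ∈ Pbc P d, mean y (d * p) d l ≤ hyb N P d := le_csSup (hyb_bdd N P d) ⟨y, l, h1, h2, h3, rfl⟩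

theorem hyb_nonneg (N : ℕ) (P : ℝ) (d : ℕ) : 0 ≤ hyb N P d := by
  apply Real.sSup_nonneg
  rintro x ⟨y, l, _, _, _, rfl⟩
  exact Finset.sum_nonneg fun _ _ => mean_nonneg _ _ _ _

/-- **the hybrid sum is `E(N, d)`, up to a power saving** -/
theorem hyb_eq (ε : ℝ) (hε : 0 < ε) : ∀ᶠ N : ℕ in atTop, ∀ (d : ℕ) (P : ℝ), 0 < d →
    (N : ℝ) ^ ε ≤ P → d * P ≤ (N : ℝ) ^ (1 - ε) →
    |hyb N P d - sg P d * E N d| ≤ (N : ℝ) ^ (1 - ε / 4) / d := by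
  have e1 : ∀ᶠ x : ℝ in atTop, ‖Real.log x‖ ≤ (1 / 2) * ‖x ^ (ε / 4)‖ :=
    (isLittleO_log_rpow_atTop (r := ε / 4) (by positivity)).bound (by norm_num)
  filter_upwards [(tendsto_natpow (ε / 4) (by positivity)).eventually_ge_atTop 388,
    tendsto_natCast_atTop_atTop.eventually e1, eventually_ge_atTop 2] with N h1 h2 hN2 d P hd hP hdP
  have hN2' : (2 : ℝ) ≤ N := by exact_mod_cast hN2
  have hN0 : (0 : ℝ) < N := by linarith
  set A : ℝ := (N : ℝ) ^ (ε / 4) with hA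
  have hlog : 0 ≤ Real.log N := Real.log_nonneg (by linarith)
  rw [Real.norm_of_nonneg hlog, Real.norm_of_nonneg (by positivity)] at h2
  have hA0 : 0 < A := by positivity
  have hA4 : A ^ 4 = (N : ℝ) ^ ε := by
    rw [hA, ← Real.rpow_natCast, ← Real.rpow_mul hN0.le]
    congr 1; push_cast; ring
  have hNA : (N : ℝ) / A = (N : ℝ) ^ (1 - ε / 4) := by
    rw [hA, Real.rpow_sub hN0, Real.rpow_one]
  have hNA4 : (N : ℝ) / A ^ 4 = (N : ℝ) ^ (1 - ε) := by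
    rw [hA4, Real.rpow_sub hN0, Real.rpow_one]
  have hA1 : 194 + Real.log N ≤ A := by linarith
  rw [← hA4] at hP
  rw [← hNA4] at hdP
  rw [← hNA]
  have hA16 : (16 : ℝ) ≤ A ^ 4 := by
    calc (16 : ℝ) = 2 ^ 4 := by norm_num
      _ ≤ A ^ 4 := by gcongr; linarith
  have hP8 : 8 ≤ P := by linarith
  have hd1 : (1 : ℝ) ≤ d := by exact_mod_cast hd
  have hsg := sg_nonneg P d
  have hup : hyb N P d ≤ sg P d * E N d + N / A / d := by
    apply csSup_le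
    · exact ⟨_, 2, 1, le_rfl, hN2', Nat.coprime_one_left _, rfl⟩
    · rintro x ⟨y, l, g1, g2, g3, rfl⟩
      refine (point_upper' hd (by linarith) hA1 hP hdP g2 g1 l g3).trans ?_
      gcongr
      exact le_E N d y l g1 g2 g3
  have hlo : sg P d * E N d ≤ hyb N P d + 8 := by
    rcases hsg.eq_or_lt with h0 | h0
    · rw [← h0, zero_mul]
      linarith [hyb_nonneg N P d]
    · rw [mul_comm, ← le_div_iff₀ h0]
      apply csSup_le
      · exact ⟨_, 2, 1, le_rfl, hN2', Nat.coprime_one_left _, rfl⟩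
      · rintro x ⟨y, l, g1, g2, g3, rfl⟩
        rw [le_div_iff₀ h0]
        have g4 := point_lower (y := y) hd hP8 l g3
        have g5 := le_hyb N P d y l g1 g2 g3
        linarith
  have h8 : (8 : ℝ) ≤ N / A / d := by
    have hA4' : A ^ 4 = A * A ^ 3 := by ring
    have g1 : 16 * d ≤ (N : ℝ) / A ^ 4 := by nlinarith
    have g2 : (N : ℝ) / A ^ 4 ≤ N / A := by
      gcongr
      have : (1 : ℝ) ≤ A ^ 3 := one_le_pow₀ (by linarith)
      nlinarith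
    rw [le_div_iff₀ (by linarith)]
    linarith
  rw [abs_le]
  constructor <;> linarith

end EH60
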