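import Mathlib

/-!
# A large sieve inequality for prime moduli
-/

noncomputable section

namespace EH60

open Finset

/-- `e(x) = exp(2 π i x)`. -/
def ee (x : ℝ) : ℂ := Complex.exp (Complex.I * ((2 * Real.pi * x : ℝ) : ℂ))

theorem ee_norm (x : ℝ) : ‖ee x‖ = 1 := Complex.norm_exp_I_mul_ofReal _

theorem ee_zero : ee 0 = 1 := by simp [ee]

theorem ee_add (x y : ℝ) : ee (x + y) = ee x * ee y := by
  rw [ee, ee, ee, ← Complex.exp_add]
  congr 1
  push_cast
  ring

theorem ee_neg (x : ℝ) : ee (-x) = (starRingEnd ℂ) (ee x) := by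
  rw [ee, ee, ← Complex.exp_conj]
  congr 1
  simp only [map_mul, Complex.conj_I, Complex.conj_ofReal]
  push_cast
  ring

theorem ee_int (k : ℤ) : ee k = 1 := by
  rw [ee, Complex.exp_eq_one_iff]
  refine ⟨k, ?_⟩
  push_cast
  ring

theorem ee_natmul (t : ℕ) (x : ℝ) : ee (t * x) = ee x ^ t := by
  rw [ee, ee, ← Complex.exp_nat_mul]
  congr 1
  push_cast
  ring

theorem ee_fract (x : ℝ) : ee (Int.fract x) = ee x := by
  have h : x = Int.fract x + (⌊x⌋ : ℤ) := by rw [Int.fract]; ring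
  conv_rhs => rw [h, ee_add, ee_int, mul_one]

theorem ee_ne_one {x : ℝ} (hx : ∀ k : ℤ, x ≠ k) : ee x ≠ 1 := by
  intro h
  rw [ee, Complex.exp_eq_one_iff] at h
  obtain ⟨n, hn⟩ := h
  apply hx n
  have h2 : (2 * Real.pi * Complex.I : ℂ) ≠ 0 := Complex.two_pi_I_ne_zero
  have h3 : ((x : ℝ) : ℂ) * (2 * Real.pi * Complex.I) = (n : ℂ) * (2 * Real.pi * Complex.I) := by
    rw [← hn]; push_cast; ring
  have h4 := mul_right_cancel₀ h2 h3
  exact_mod_cast h4

/-- the Dirichlet kernel -/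
def DK (T : ℕ) (x : ℝ) : ℂ := ∑ t ∈ Finset.range T, ee (t * x)

theorem DK_le (T : ℕ) (x : ℝ) : ‖DK T x‖ ≤ T := by
  unfold DK
  refine (norm_sum_le _ _).trans ?_
  simp only [ee_norm, Finset.sum_const, Finset.card_range, nsmul_eq_mul, mul_one, le_refl]

theorem DK_geom (T : ℕ) (x : ℝ) : DK T x * (ee x - 1) = ee x ^ T - 1 := by
  unfold DK
  simp only [ee_natmul]
  exact geom_sum_mul _ _

theorem ee_sub_one_ge {v : ℝ} (h0 : 0 < v) (h1 : v < 1) : 4 * min v (1 - v) ≤ ‖ee v - 1‖ := by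
  rw [ee, Complex.norm_exp_I_mul_ofReal_sub_one]
  have e : 2 * Real.pi * v / 2 = Real.pi * v := by ring
  rw [e]
  have hpi := Real.pi_pos
  have hs : 0 ≤ Real.sin (Real.pi * v) :=
    Real.sin_nonneg_of_nonneg_of_le_pi (by positivity) (by nlinarith)
  rw [Real.norm_of_nonneg (by positivity)]
  rcases le_total v (1 / 2) with h | h
  · rw [min_eq_left (by linarith)]
    have h2 := Real.mul_le_sin (x := Real.pi * v) (by positivity) (by nlinarith)
    have h3 : 2 / Real.pi * (Real.pi * v) = 2 * v := by field_simp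
    linarith
  · rw [min_eq_right (by linarith)]
    have h2 := Real.mul_le_sin (x := Real.pi * (1 - v)) (by nlinarith) (by nlinarith)
    have h3 : 2 / Real.pi * (Real.pi * (1 - v)) = 2 * (1 - v) := by field_simp
    have h4 : Real.sin (Real.pi * (1 - v)) = Real.sin (Real.pi * v) := by
      rw [show Real.pi * (1 - v) = Real.pi - Real.pi * v by ring, Real.sin_pi_sub]
    linarith

theorem DK_bound (T : ℕ) {x : ℝ} (hx : 0 < Int.fract x) :
    ‖DK T x‖ ≤ 1 / (2 * Int.fract x) + 1 / (2 * (1 - Int.fract x)) := by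
  set v := Int.fract x with hv
  have hv1 : v < 1 := Int.fract_lt_one x
  have h1 : ‖DK T x‖ * ‖ee v - 1‖ ≤ 2 := by
    rw [hv, ee_fract, ← norm_mul, DK_geom]
    refine (norm_sub_le _ _).trans ?_
    rw [norm_pow, ee_norm, one_pow, norm_one]
    norm_num
  have h2 := ee_sub_one_ge hx hv1
  have h3 : 0 < min v (1 - v) := lt_min hx (by linarith)
  have h4 : ‖DK T x‖ ≤ 1 / (2 * min v (1 - v)) := by
    rw [le_div_iff₀ (by positivity)]
    nlinarith [norm_nonneg (DK T x)]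
  refine h4.trans ?_
  have h5 : 0 < 1 / (2 * v) := by positivity
  have h6 : 0 < 1 / (2 * (1 - v)) := by
    have : 0 < 1 - v := by linarith
    positivity
  rcases le_total v (1 - v) with h | h
  · rw [min_eq_left h]; linarith
  · rw [min_eq_right h]; linarith

theorem DK_symm (T : ℕ) (x : ℝ) : ‖DK T (-x)‖ = ‖DK T x‖ := by
  have : DK T (-x) = (starRingEnd ℂ) (DK T x) := by
    unfold DK
    rw [map_sum]
    apply Finset.sum_congr rfl
    intro t _
    rw [← ee_neg]
    congr 1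
    ring
  rw [this, RCLike.norm_conj]

/-- the exponential sum -/
def SS (T : ℕ) (z : ℕ → ℝ) (x : ℝ) : ℂ := ∑ t ∈ Finset.range T, (z t : ℂ) * ee (t * x)

/-- The duality principle. -/
theorem sieve_abs {ι : Type*} (R : Finset ι) (x : ι → ℝ) (T : ℕ) (z : ℕ → ℝ) (Δ : ℝ)
    (hΔ0 : 0 ≤ Δ) (hΔ : ∀ r ∈ R, ∑ s ∈ R, ‖DK T (x r - x s)‖ ≤ Δ) :
    ∑ r ∈ R, ‖SS T z (x r)‖ ^ 2 ≤ Δ * ∑ t ∈ Finset.range T, z t ^ 2 := by
  set A : ℝ := ∑ r ∈ R, ‖SS T z (x r)‖ ^ 2 with hA
  have hA0 : 0 ≤ A := Finset.sum_nonneg fun r _ => by positivity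
  set b : ι → ℂ := fun r => (starRingEnd ℂ) (SS T z (x r)) with hb
  have hbn : ∀ r, ‖b r‖ = ‖SS T z (x r)‖ := fun r => RCLike.norm_conj _
  set B : ℕ → ℂ := fun t => ∑ r ∈ R, b r * ee (t * x r) with hB
  have h1 : (A : ℂ) = ∑ t ∈ Finset.range T, (z t : ℂ) * B t := by
    rw [hA, hB]
    push_cast
    simp only [Finset.mul_sum]
    rw [Finset.sum_comm]
    apply Finset.sum_congr rfl
    intro r _
    have h2 : ((‖SS T z (x r)‖ : ℝ) : ℂ) ^ 2 = b r * SS T z (x r) := by
      rw [hb]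
      simp only
      rw [mul_comm, Complex.mul_conj, Complex.normSq_eq_norm_sq]
      push_cast
      rfl
    rw [h2]
    conv_lhs => rw [SS]
    rw [Finset.mul_sum]
    apply Finset.sum_congr rfl
    intro t _
    ring
  have h3 : A ≤ ∑ t ∈ Finset.range T, |z t| * ‖B t‖ := by
    calc A = ‖(A : ℂ)‖ := by rw [Complex.norm_real, Real.norm_of_nonneg hA0]
      _ ≤ ∑ t ∈ Finset.range T, ‖(z t : ℂ) * B t‖ := by rw [h1]; exact norm_sum_le _ _
      _ = _ := by simp only [norm_mul, Complex.norm_real, Real.norm_eq_abs]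
  have h4 : A ^ 2 ≤ (∑ t ∈ Finset.range T, z t ^ 2) * ∑ t ∈ Finset.range T, ‖B t‖ ^ 2 := by
    calc A ^ 2 ≤ (∑ t ∈ Finset.range T, |z t| * ‖B t‖) ^ 2 := by gcongr
      _ ≤ (∑ t ∈ Finset.range T, |z t| ^ 2) * ∑ t ∈ Finset.range T, ‖B t‖ ^ 2 :=
          Finset.sum_mul_sq_le_sq_mul_sq _ _ _
      _ = _ := by simp only [sq_abs]
  have h5 : ((∑ t ∈ Finset.range T, ‖B t‖ ^ 2 : ℝ) : ℂ) =
      ∑ r ∈ R, ∑ s ∈ R, b r * (starRingEnd ℂ) (b s) * DK T (x r - x s) := by
    push_cast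
    have h6 : ∀ t ∈ Finset.range T, ((‖B t‖ : ℝ) : ℂ) ^ 2 =
        ∑ r ∈ R, ∑ s ∈ R, b r * (starRingEnd ℂ) (b s) * ee (t * (x r - x s)) := by
      intro t _
      have h7 : ((‖B t‖ : ℝ) : ℂ) ^ 2 = B t * (starRingEnd ℂ) (B t) := by
        rw [Complex.mul_conj, Complex.normSq_eq_norm_sq]
        push_cast
        rfl
      rw [h7, hB]
      simp only
      rw [map_sum, Finset.sum_mul_sum]
      apply Finset.sum_congr rfl
      intro r _
      apply Finset.sum_congr rfl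
      intro s _
      rw [map_mul, ← ee_neg, show (t : ℝ) * (x r - x s) = t * x r + -(t * x s) by ring, ee_add]
      ring
    rw [Finset.sum_congr rfl h6, Finset.sum_comm]
    apply Finset.sum_congr rfl
    intro r _
    rw [Finset.sum_comm]
    apply Finset.sum_congr rfl
    intro s _
    rw [DK, Finset.mul_sum]
  have h8 : ∑ t ∈ Finset.range T, ‖B t‖ ^ 2 ≤ Δ * A := by
    have h9 : 0 ≤ ∑ t ∈ Finset.range T, ‖B t‖ ^ 2 := Finset.sum_nonneg fun t _ => by positivity
    calc ∑ t ∈ Finset.range T, ‖B t‖ ^ 2 =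
          ‖((∑ t ∈ Finset.range T, ‖B t‖ ^ 2 : ℝ) : ℂ)‖ := by
            rw [Complex.norm_real, Real.norm_of_nonneg h9]
      _ ≤ ∑ r ∈ R, ∑ s ∈ R, ‖b r‖ * ‖b s‖ * ‖DK T (x r - x s)‖ := by
          rw [h5]
          refine (norm_sum_le _ _).trans (Finset.sum_le_sum fun r _ => ?_)
          refine (norm_sum_le _ _).trans (Finset.sum_le_sum fun s _ => ?_)
          have h12 : ‖(starRingEnd ℂ) (b s)‖ = ‖b s‖ := RCLike.norm_conj _
          rw [norm_mul, norm_mul, h12]
      _ ≤ ∑ r ∈ R, ∑ s ∈ R, ((‖b r‖ ^ 2 / 2) * ‖DK T (x r - x s)‖ +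
            (‖b s‖ ^ 2 / 2) * ‖DK T (x s - x r)‖) := by
          apply Finset.sum_le_sum
          intro r _
          apply Finset.sum_le_sum
          intro s _
          have e : ‖DK T (x s - x r)‖ = ‖DK T (x r - x s)‖ := by
            have h10 := DK_symm T (x r - x s)
            rwa [neg_sub] at h10
          rw [e, ← add_mul]
          apply mul_le_mul_of_nonneg_right _ (norm_nonneg _)
          nlinarith [sq_nonneg (‖b r‖ - ‖b s‖)]
      _ = ∑ r ∈ R, ‖b r‖ ^ 2 * ∑ s ∈ R, ‖DK T (x r - x s)‖ := by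
          simp only [Finset.sum_add_distrib]
          rw [Finset.sum_comm (f := fun r s => (‖b s‖ ^ 2 / 2) * ‖DK T (x s - x r)‖)]
          rw [← Finset.sum_add_distrib]
          apply Finset.sum_congr rfl
          intro r _
          rw [← Finset.sum_add_distrib, Finset.mul_sum]
          apply Finset.sum_congr rfl
          intro s _
          ring
      _ ≤ ∑ r ∈ R, ‖b r‖ ^ 2 * Δ := by
          apply Finset.sum_le_sum
          intro r hr
          exact mul_le_mul_of_nonneg_left (hΔ r hr) (by positivity)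
      _ = Δ * A := by
          rw [← Finset.sum_mul, hA, mul_comm]
          simp only [hbn]
  have hz0 : 0 ≤ ∑ t ∈ Finset.range T, z t ^ 2 := Finset.sum_nonneg fun t _ => by positivity
  rcases hA0.eq_or_lt with h10 | h10
  · rw [← h10]
    positivity
  · have h11 : A * A ≤ (Δ * ∑ t ∈ Finset.range T, z t ^ 2) * A := by
      calc A * A = A ^ 2 := by ring
        _ ≤ (∑ t ∈ Finset.range T, z t ^ 2) * (Δ * A) := h4.trans (by gcongr)
        _ = _ := by ring
    exact le_of_mul_le_mul_right h11 h10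

end EH60
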