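import Pool.Agent.EH60.LSieve

noncomputable section

namespace EH60

open Finset

theorem spacing {P p p' h h' : ℕ} (hp : p.Prime) (hp' : p'.Prime) (hpP : p ≤ P) (hpP' : p' ≤ P)
    (h1 : 0 < h) (h2 : h < p) (h1' : 0 < h') (h2' : h' < p') (hne : ¬ (p = p' ∧ h = h')) (k : ℤ) :
    1 / (P : ℝ) ^ 2 ≤ |(h : ℝ) / p - (h' : ℝ) / p' - k| := by
  have hp0 : (0 : ℝ) < p := by exact_mod_cast hp.pos
  have hp0' : (0 : ℝ) < p' := by exact_mod_cast hp'.pos
  set n : ℤ := h * p' - h' * p - k * p * p' with hn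
  have hn0 : n ≠ 0 := by
    intro h0
    rw [hn] at h0
    by_cases hpp : p = p'
    · subst hpp
      have h3 : ((h : ℤ) - h' - k * p) * p = 0 := by linarith
      have hpz : (p : ℤ) ≠ 0 := by exact_mod_cast hp.ne_zero
      rcases mul_eq_zero.1 h3 with h4 | h4
      · have h5 : (h : ℤ) - h' = k * p := by linarith
        have h6 : |(h : ℤ) - h'| < p := by rw [abs_lt]; constructor <;> omega
        rw [h5] at h6
        have h7 : k = 0 := by
          by_contra hk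
          have h8 : (1 : ℤ) ≤ |k| := Int.one_le_abs hk
          have h9 : (0 : ℤ) < p := by exact_mod_cast hp.pos
          rw [abs_mul, Nat.abs_cast] at h6
          nlinarith
        subst h7
        exact hne ⟨rfl, by omega⟩
      · exact hpz h4
    · have h3 : (p : ℤ) ∣ h * p' := ⟨h' + k * p', by linarith⟩
      have h4 : p ∣ h * p' := by exact_mod_cast h3
      rcases (Nat.Prime.dvd_mul hp).1 h4 with h5 | h5
      · exact absurd (Nat.le_of_dvd h1 h5) (by omega)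
      · exact hpp ((Nat.prime_dvd_prime_iff_eq hp hp').1 h5)
  have h3 : (h : ℝ) / p - (h' : ℝ) / p' - k = (n : ℝ) / (p * p') := by
    rw [hn]; push_cast; field_simp
  rw [h3, abs_div, abs_of_pos (mul_pos hp0 hp0')]
  have h4 : (1 : ℝ) ≤ |(n : ℝ)| := by exact_mod_cast Int.one_le_abs hn0
  have h5 : (p : ℝ) * p' ≤ (P : ℝ) ^ 2 := by
    rw [sq]
    have : (p : ℝ) ≤ P := by exact_mod_cast hpP
    have : (p' : ℝ) ≤ P := by exact_mod_cast hpP'
    gcongr
  calc 1 / (P : ℝ) ^ 2 ≤ 1 / ((p : ℝ) * p') := by gcongr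
    _ ≤ |(n : ℝ)| / (p * p') := by gcongr

/-- A sum over well spaced points. -/
theorem sum_spaced {ι : Type*} [DecidableEq ι] (S : Finset ι) (v : ι → ℝ) (q : ℕ) (hq : 0 < q)
    (hv0 : ∀ s ∈ S, 1 / (q : ℝ) ≤ v s) (hv1 : ∀ s ∈ S, v s ≤ 1)
    (hsp : ∀ s ∈ S, ∀ s' ∈ S, s ≠ s' → 1 / (q : ℝ) ≤ |v s - v s'|) :
    ∑ s ∈ S, 1 / v s ≤ q * (1 + Real.log q) := by
  have hq0 : (0 : ℝ) < q := by exact_mod_cast hq
  set k : ι → ℕ := fun s => ⌊(q : ℝ) * v s⌋₊ with hk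
  have hvpos : ∀ s ∈ S, 0 < v s := fun s hs => lt_of_lt_of_le (by positivity) (hv0 s hs)
  have hk1 : ∀ s ∈ S, 1 ≤ k s := by
    intro s hs
    rw [hk]
    apply Nat.le_floor
    have := hv0 s hs
    rw [div_le_iff₀ hq0] at this
    push_cast
    linarith
  have hkq : ∀ s ∈ S, k s ≤ q := by
    intro s hs
    rw [hk]
    apply Nat.floor_le_of_le
    have := hv1 s hs
    nlinarith
  have hinj : Set.InjOn k S := by
    intro s hs s' hs' he
    by_contra hne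
    have h1 := hsp s hs s' hs' hne
    have a1 : (k s : ℝ) ≤ q * v s := Nat.floor_le (mul_nonneg hq0.le (hvpos s hs).le)
    have a2 : q * v s < k s + 1 := Nat.lt_floor_add_one _
    have b1 : (k s' : ℝ) ≤ q * v s' := Nat.floor_le (mul_nonneg hq0.le (hvpos s' hs').le)
    have b2 : q * v s' < k s' + 1 := Nat.lt_floor_add_one _
    rw [he] at a1 a2
    have h2 : |q * v s - q * v s'| < 1 := by rw [abs_lt]; constructor <;> linarith
    rw [← mul_sub, abs_mul, abs_of_pos hq0] at h2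
    rw [div_le_iff₀ hq0] at h1
    linarith
  calc ∑ s ∈ S, 1 / v s ≤ ∑ s ∈ S, (q : ℝ) * (1 / (k s : ℝ)) := by
        apply Finset.sum_le_sum
        intro s hs
        have a1 : (k s : ℝ) ≤ q * v s := Nat.floor_le (mul_nonneg hq0.le (hvpos s hs).le)
        have hk0 : (0 : ℝ) < k s := by exact_mod_cast hk1 s hs
        rw [mul_one_div, div_le_div_iff₀ (hvpos s hs) hk0]
        linarith
    _ = ∑ j ∈ S.image k, (q : ℝ) * (1 / (j : ℝ)) :=
        (Finset.sum_image (f := fun j : ℕ => (q : ℝ) * (1 / (j : ℝ))) hinj).symm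
    _ ≤ ∑ j ∈ Finset.Icc 1 q, (q : ℝ) * (1 / (j : ℝ)) := by
        apply Finset.sum_le_sum_of_subset_of_nonneg
        · intro j hj
          rw [Finset.mem_image] at hj
          obtain ⟨s, hs, rfl⟩ := hj
          rw [Finset.mem_Icc]
          exact ⟨hk1 s hs, hkq s hs⟩
        · intro j _ _
          positivity
    _ ≤ q * (1 + Real.log q) := by
        rw [← Finset.mul_sum]
        apply mul_le_mul_of_nonneg_left _ hq0.le
        have h1 := harmonic_le_one_add_log q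
        rw [harmonic_eq_sum_Icc] at h1
        push_cast at h1
        simpa [one_div] using h1

/-- the Farey-type points -/
def RR (Pr : Finset ℕ) : Finset (Σ _ : ℕ, ℕ) := Pr.sigma (fun p => Finset.Ico 1 p)

theorem kernel_sum (Pr : Finset ℕ) (P : ℕ) (hP : 0 < P) (hPr : ∀ p ∈ Pr, p.Prime ∧ p ≤ P) (T : ℕ)
    (r : Σ _ : ℕ, ℕ) (hr : r ∈ RR Pr) :
    ∑ s ∈ RR Pr, ‖DK T ((r.2 : ℝ) / r.1 - (s.2 : ℝ) / s.1)‖ ≤
      T + (P : ℝ) ^ 2 * (1 + Real.log ((P : ℝ) ^ 2)) := by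
  classical
  have hmem : ∀ s ∈ RR Pr, s.1.Prime ∧ s.1 ≤ P ∧ 0 < s.2 ∧ s.2 < s.1 := by
    intro s hs
    rw [RR, Finset.mem_sigma, Finset.mem_Ico] at hs
    exact ⟨(hPr s.1 hs.1).1, (hPr s.1 hs.1).2, hs.2.1, hs.2.2⟩
  obtain ⟨r1, r2, r3, r4⟩ := hmem r hr
  set q : ℕ := P ^ 2 with hq
  have hq0 : 0 < q := by positivity
  have hqc : (q : ℝ) = (P : ℝ) ^ 2 := by rw [hq]; push_cast; rfl
  rw [← hqc]
  set y : (Σ _ : ℕ, ℕ) → ℝ := fun s => (r.2 : ℝ) / r.1 - (s.2 : ℝ) / s.1 with hy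
  set v : (Σ _ : ℕ, ℕ) → ℝ := fun s => Int.fract (y s) with hv
  set S := (RR Pr).erase r with hS
  have hne : ∀ s ∈ S, s ∈ RR Pr ∧ ¬ (r.1 = s.1 ∧ r.2 = s.2) := by
    intro s hs
    rw [hS, Finset.mem_erase] at hs
    refine ⟨hs.2, fun h => hs.1 ?_⟩
    exact (Sigma.ext h.1 (heq_of_eq h.2)).symm
  have hv0 : ∀ s ∈ S, 1 / (q : ℝ) ≤ v s := by
    intro s hs
    obtain ⟨hs1, hs2⟩ := hne s hs
    obtain ⟨s1, s2, s3, s4⟩ := hmem s hs1
    have h1 := spacing r1 s1 r2 s2 r3 r4 s3 s4 hs2 ⌊y s⌋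
    rw [hqc]
    have h2 : (r.2 : ℝ) / r.1 - (s.2 : ℝ) / s.1 - (⌊y s⌋ : ℝ) = v s := rfl
    rwa [h2, abs_of_nonneg (Int.fract_nonneg _)] at h1
  have hv1' : ∀ s ∈ S, 1 / (q : ℝ) ≤ 1 - v s := by
    intro s hs
    obtain ⟨hs1, hs2⟩ := hne s hs
    obtain ⟨s1, s2, s3, s4⟩ := hmem s hs1
    have h1 := spacing r1 s1 r2 s2 r3 r4 s3 s4 hs2 (⌊y s⌋ + 1)
    rw [hqc]
    have h2 : (r.2 : ℝ) / r.1 - (s.2 : ℝ) / s.1 - ((⌊y s⌋ + 1 : ℤ) : ℝ) = v s - 1 := by
      push_cast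
      have : v s = (r.2 : ℝ) / r.1 - (s.2 : ℝ) / s.1 - (⌊y s⌋ : ℝ) := rfl
      rw [this]; ring
    have h3 : v s < 1 := Int.fract_lt_one _
    rwa [h2, abs_of_neg (by linarith), neg_sub] at h1
  have hsp : ∀ s ∈ S, ∀ s' ∈ S, s ≠ s' → 1 / (q : ℝ) ≤ |v s - v s'| := by
    intro s hs s' hs' hss
    obtain ⟨hs1, _⟩ := hne s hs
    obtain ⟨hs1', _⟩ := hne s' hs'
    obtain ⟨s1, s2, s3, s4⟩ := hmem s hs1
    obtain ⟨t1, t2, t3, t4⟩ := hmem s' hs1'
    have hss' : ¬ (s'.1 = s.1 ∧ s'.2 = s.2) := fun h => hss (Sigma.ext h.1 (heq_of_eq h.2)).symm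
    have h1 := spacing t1 s1 t2 s2 t3 t4 s3 s4 hss' (⌊y s⌋ - ⌊y s'⌋)
    rw [hqc]
    have h2 : (s'.2 : ℝ) / s'.1 - (s.2 : ℝ) / s.1 - ((⌊y s⌋ - ⌊y s'⌋ : ℤ) : ℝ) = v s - v s' := by
      push_cast
      have e1 : v s = (r.2 : ℝ) / r.1 - (s.2 : ℝ) / s.1 - (⌊y s⌋ : ℝ) := rfl
      have e2 : v s' = (r.2 : ℝ) / r.1 - (s'.2 : ℝ) / s'.1 - (⌊y s'⌋ : ℝ) := rfl
      rw [e1, e2]; ring
    rwa [h2] at h1
  have hq0' : (0 : ℝ) < q := by exact_mod_cast hq0
  have hinv : 0 < 1 / (q : ℝ) := by positivity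
  have hA := sum_spaced S v q hq0 hv0 (fun s _ => (Int.fract_lt_one _).le) hsp
  have hB := sum_spaced S (fun s => 1 - v s) q hq0 hv1'
    (fun s _ => by have : 0 ≤ v s := Int.fract_nonneg _; linarith) (by
      intro s hs s' hs' hss
      have h1 := hsp s hs s' hs' hss
      have h2 : (1 - v s) - (1 - v s') = -(v s - v s') := by ring
      rw [h2, abs_neg]; exact h1)
  rw [← Finset.add_sum_erase (RR Pr) _ hr]
  apply add_le_add (DK_le T _)
  calc ∑ s ∈ S, ‖DK T ((r.2 : ℝ) / r.1 - (s.2 : ℝ) / s.1)‖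
      ≤ ∑ s ∈ S, ((1 / 2) * (1 / v s) + (1 / 2) * (1 / (1 - v s))) := by
        apply Finset.sum_le_sum
        intro s hs
        have h0 : 0 < v s := lt_of_lt_of_le hinv (hv0 s hs)
        have h1 : 0 < 1 - v s := lt_of_lt_of_le hinv (hv1' s hs)
        refine (DK_bound T h0).trans (le_of_eq ?_)
        change 1 / (2 * v s) + 1 / (2 * (1 - v s)) = _
        field_simp
    _ = (1 / 2) * (∑ s ∈ S, 1 / v s) + (1 / 2) * ∑ s ∈ S, 1 / (1 - v s) := by
        rw [Finset.sum_add_distrib, Finset.mul_sum, Finset.mul_sum]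
    _ ≤ (q : ℝ) * (1 + Real.log q) := by linarith

/-- the number of `t < T` with `t ≡ s` modulo `p`, weighted -/
def ZZ (T : ℕ) (z : ℕ → ℝ) (p s : ℕ) : ℝ := ∑ t ∈ (Finset.range T).filter (fun t => t % p = s), z t

theorem orth (p : ℕ) (hp : 0 < p) (k : ℤ) :
    ∑ h ∈ Finset.range p, ee ((h : ℝ) * ((k : ℝ) / p)) = if (p : ℤ) ∣ k then (p : ℂ) else 0 := by
  have hp0 : (p : ℝ) ≠ 0 := by exact_mod_cast hp.ne'
  split_ifs with hk
  · obtain ⟨m, rfl⟩ := hk
    have h1 : ∀ h ∈ Finset.range p, ee ((h : ℝ) * (((p * m : ℤ) : ℝ) / p)) = 1 := by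
      intro h _
      have e : (h : ℝ) * (((p * m : ℤ) : ℝ) / p) = ((h * m : ℤ) : ℝ) := by
        push_cast; field_simp
      rw [e, ee_int]
    rw [Finset.sum_congr rfl h1]
    simp
  · have h1 : ee ((k : ℝ) / p) ≠ 1 := by
      apply ee_ne_one
      intro m hm
      apply hk
      rw [div_eq_iff hp0] at hm
      exact ⟨m, by rw [mul_comm]; exact_mod_cast hm⟩
    have h2 := DK_geom p ((k : ℝ) / p)
    have h3 : ee ((k : ℝ) / p) ^ p = 1 := by
      rw [← ee_natmul]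
      have e : (p : ℝ) * ((k : ℝ) / p) = k := by field_simp
      rw [e, ee_int]
    rw [h3, sub_self] at h2
    rcases mul_eq_zero.1 h2 with h4 | h4
    · exact h4
    · exact absurd (sub_eq_zero.1 h4) h1

/-- Parseval modulo `p`. -/
theorem parseval (T p : ℕ) (hp : 0 < p) (z : ℕ → ℝ) :
    ∑ h ∈ Finset.range p, ‖SS T z ((h : ℝ) / p)‖ ^ 2 = p * ∑ s ∈ Finset.range p, ZZ T z p s ^ 2 := by
  have h1 : ((∑ h ∈ Finset.range p, ‖SS T z ((h : ℝ) / p)‖ ^ 2 : ℝ) : ℂ) =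
      ∑ t ∈ Finset.range T, ∑ u ∈ Finset.range T, (z t : ℂ) * z u *
        (if (p : ℤ) ∣ ((t : ℤ) - u) then (p : ℂ) else 0) := by
    push_cast
    have h2 : ∀ h ∈ Finset.range p, ((‖SS T z ((h : ℝ) / p)‖ : ℝ) : ℂ) ^ 2 =
        ∑ t ∈ Finset.range T, ∑ u ∈ Finset.range T, (z t : ℂ) * z u *
          ee ((h : ℝ) * ((((t : ℤ) - u : ℤ) : ℝ) / p)) := by
      intro h _
      have h7 : ((‖SS T z ((h : ℝ) / p)‖ : ℝ) : ℂ) ^ 2 =
          SS T z ((h : ℝ) / p) * (starRingEnd ℂ) (SS T z ((h : ℝ) / p)) := by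
        rw [Complex.mul_conj, Complex.normSq_eq_norm_sq]
        push_cast
        rfl
      rw [h7, SS, map_sum, Finset.sum_mul_sum]
      apply Finset.sum_congr rfl
      intro t _
      apply Finset.sum_congr rfl
      intro u _
      rw [map_mul, ← ee_neg, Complex.conj_ofReal]
      have e : (h : ℝ) * ((((t : ℤ) - u : ℤ) : ℝ) / p) = t * ((h : ℝ) / p) + -(u * ((h : ℝ) / p)) := by
        push_cast; ring
      rw [e, ee_add]
      ring
    rw [Finset.sum_congr rfl h2, Finset.sum_comm]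
    apply Finset.sum_congr rfl
    intro t _
    rw [Finset.sum_comm]
    apply Finset.sum_congr rfl
    intro u _
    rw [← Finset.mul_sum, orth p hp]
  have h3 : ∀ t ∈ Finset.range T, ∀ u ∈ Finset.range T, (z t : ℂ) * z u *
        (if (p : ℤ) ∣ ((t : ℤ) - u) then (p : ℂ) else 0) =
        ((p * ∑ s ∈ Finset.range p, (if t % p = s then z t else 0) * (if u % p = s then z u else 0) : ℝ) : ℂ) := by
    intro t _ u _
    have h4 : ((p : ℤ) ∣ ((t : ℤ) - u)) ↔ t % p = u % p := by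
      rw [← Int.modEq_iff_dvd, Int.natCast_modEq_iff]
      exact eq_comm
    have h5 : ∑ s ∈ Finset.range p, (if t % p = s then z t else 0) * (if u % p = s then z u else 0) =
        if t % p = u % p then z t * z u else 0 := by
      simp only [ite_mul, zero_mul]
      rw [Finset.sum_ite_eq, if_pos (Finset.mem_range.2 (Nat.mod_lt _ hp))]
      split_ifs with h6 h7 h7
      · rfl
      · exact absurd h6.symm h7
      · exact absurd h7.symm h6
      · rw [mul_zero]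
    rw [h5]
    by_cases h6 : t % p = u % p
    · rw [if_pos (h4.2 h6), if_pos h6]; push_cast; ring
    · rw [if_neg (fun h => h6 (h4.1 h)), if_neg h6]; simp
  rw [Finset.sum_congr rfl (fun t ht => Finset.sum_congr rfl (h3 t ht))] at h1
  have h8 : ∑ h ∈ Finset.range p, ‖SS T z ((h : ℝ) / p)‖ ^ 2 =
      ∑ t ∈ Finset.range T, ∑ u ∈ Finset.range T, (p * ∑ s ∈ Finset.range p,
        (if t % p = s then z t else 0) * (if u % p = s then z u else 0) : ℝ) := by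
    exact_mod_cast h1
  rw [h8]
  simp only [← Finset.mul_sum]
  congr 1
  rw [Finset.sum_congr rfl (fun t _ => Finset.sum_comm), Finset.sum_comm]
  apply Finset.sum_congr rfl
  intro s _
  rw [ZZ, Finset.sum_filter, sq, Finset.sum_mul_sum]

/-- The large sieve inequality for prime moduli. -/
theorem large_sieve (Pr : Finset ℕ) (P : ℕ) (hP : 0 < P) (hPr : ∀ p ∈ Pr, p.Prime ∧ p ≤ P) (T : ℕ)
    (z : ℕ → ℝ) :
    ∑ p ∈ Pr, (p : ℝ) * ∑ s ∈ Finset.range p, (ZZ T z p s - (∑ t ∈ Finset.range T, z t) / p) ^ 2 ≤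
      (T + (P : ℝ) ^ 2 * (1 + Real.log ((P : ℝ) ^ 2))) * ∑ t ∈ Finset.range T, z t ^ 2 := by
  have hP1 : (1 : ℝ) ≤ P := by exact_mod_cast hP
  have hlog : 0 ≤ Real.log ((P : ℝ) ^ 2) := Real.log_nonneg (one_le_pow₀ hP1)
  have h1 := sieve_abs (RR Pr) (fun r => (r.2 : ℝ) / r.1) T z
    (T + (P : ℝ) ^ 2 * (1 + Real.log ((P : ℝ) ^ 2))) (by positivity)
    (fun r hr => kernel_sum Pr P hP hPr T r hr)
  refine le_trans (le_of_eq ?_) h1
  rw [RR, Finset.sum_sigma]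
  apply Finset.sum_congr rfl
  intro p hp
  have hpp := (hPr p hp).1
  have hp0 : (p : ℝ) ≠ 0 := by exact_mod_cast hpp.ne_zero
  set Z := ∑ t ∈ Finset.range T, z t with hZ
  have h2 : ∑ s ∈ Finset.range p, ZZ T z p s = Z := by
    simp only [ZZ]
    rw [hZ]
    exact Finset.sum_fiberwise_of_maps_to
      (fun t _ => Finset.mem_range.2 (Nat.mod_lt _ hpp.pos)) (fun t => z t)
  have h3 : (p : ℝ) * ∑ s ∈ Finset.range p, (ZZ T z p s - Z / p) ^ 2 =
      p * (∑ s ∈ Finset.range p, ZZ T z p s ^ 2) - Z ^ 2 := by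
    have h4 : ∀ s ∈ Finset.range p, (ZZ T z p s - Z / p) ^ 2 =
        ZZ T z p s ^ 2 - (2 * (Z / p)) * ZZ T z p s + (Z / p) ^ 2 := by
      intro s _; ring
    rw [Finset.sum_congr rfl h4, Finset.sum_add_distrib, Finset.sum_sub_distrib, ← Finset.mul_sum, h2,
      Finset.sum_const, Finset.card_range, nsmul_eq_mul]
    field_simp
    ring
  rw [h3, ← parseval T p hpp.pos z]
  have h5 : Finset.range p = insert 0 (Finset.Ico 1 p) := by
    ext h
    rw [Finset.mem_insert, Finset.mem_range, Finset.mem_Ico]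
    have := hpp.pos
    omega
  rw [h5, Finset.sum_insert (by simp)]
  have h6 : SS T z (((0 : ℕ) : ℝ) / p) = (Z : ℂ) := by
    rw [SS, hZ]
    push_cast
    apply Finset.sum_congr rfl
    intro t _
    simp [ee_zero]
  rw [h6, Complex.norm_real, Real.norm_eq_abs, sq_abs]
  ring

end EH60
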