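import Pool.Agent.EH60.Weights

noncomputable section

namespace EH60

open Finset Filter

/-- The multiples of `m` in the block `(Q/4, Q]`. -/
def block (N : ℕ) (Q : ℝ) (m : ℕ) : Finset ℕ :=
  (Finset.Icc 1 N).filter (fun n : ℕ => (Q / 4 < n ∧ (n : ℝ) ≤ Q) ∧ m ∣ n)

/-- the squarefree `d ≤ X` -/
def sqf (N : ℕ) (X : ℝ) : Finset ℕ :=
  ((Finset.Icc 1 N).filter (fun d : ℕ => (d : ℝ) ≤ X)).filter Squarefree

theorem sum_sqf (N : ℕ) (X : ℝ) (f : ℕ → ℝ) :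
    ∑ d ∈ (Finset.Icc 1 N).filter (fun d : ℕ => (d : ℝ) ≤ X), wt d * f d =
      ∑ d ∈ sqf N X, wt d * f d := by
  rw [sqf, Finset.sum_filter (p := Squarefree)]
  apply Finset.sum_congr rfl
  intro d _
  split_ifs with h
  · rfl
  · rw [wt_of_not_squarefree h, zero_mul]

/-- `g = m / (m, d)` -/
def gq (m d : ℕ) : ℕ := m / Nat.gcd m d

theorem gq_pos {m d : ℕ} (hm : 0 < m) : 0 < gq m d :=
  Nat.div_pos (Nat.le_of_dvd hm (Nat.gcd_dvd_left m d)) (Nat.gcd_pos_of_pos_left d hm)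

theorem gq_dvd (m d : ℕ) : gq m d ∣ m := Nat.div_dvd_of_dvd (Nat.gcd_dvd_left m d)

theorem gq_coprime {m d : ℕ} (hm : Squarefree m) (hd : 0 < d) : (gq m d).Coprime d :=
  Nat.coprime_div_gcd_of_squarefree hm hd.ne'

theorem dvd_mul_gq (m d : ℕ) : m ∣ d * gq m d := by
  have h1 : Nat.gcd m d * gq m d = m := Nat.mul_div_cancel' (Nat.gcd_dvd_left m d)
  calc m = Nat.gcd m d * gq m d := h1.symm
    _ ∣ d * gq m d := Nat.mul_dvd_mul_right (Nat.gcd_dvd_right m d) _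

theorem gq_le {m d : ℕ} (hm : 0 < m) : gq m d ≤ m := Nat.le_of_dvd hm (gq_dvd m d)

/-- the facts about one pair `(d, p)` -/
theorem pair_facts {N : ℕ} {X Q Z : ℝ} {m d p : ℕ} (hm : Squarefree m) (hd : 0 < d)
    (hds : Squarefree d) (hdX : (d : ℝ) ≤ X) (hZ : 0 < Z) (hQ : m * X * Z ≤ Q) (hQN : Q ≤ N)
    (hp : p ∈ Pbc (Q / (d * gq m d : ℕ)) (d * gq m d)) :
    p.Prime ∧ ¬ p ∣ d * gq m d ∧ Z / 4 < p ∧ d * (gq m d * p) ∈ block N Q m ∧
      d.Coprime (gq m d * p) ∧ (gq m d).Coprime p ∧ Squarefree (d * (gq m d * p)) := by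
  have hm0 : 0 < m := Nat.pos_of_ne_zero hm.ne_zero
  have hg0 : 0 < gq m d := gq_pos hm0
  have hn0 : 0 < d * gq m d := Nat.mul_pos hd hg0
  have hn0' : (0 : ℝ) < (d * gq m d : ℕ) := by exact_mod_cast hn0
  have hX : 0 ≤ X := (Nat.cast_nonneg d).trans hdX
  have hn0le : ((d * gq m d : ℕ) : ℝ) ≤ m * X := by
    push_cast
    have : ((gq m d : ℕ) : ℝ) ≤ m := by exact_mod_cast gq_le hm0
    nlinarith [Nat.cast_nonneg (α := ℝ) d, Nat.cast_nonneg (α := ℝ) (gq m d), Nat.cast_nonneg (α := ℝ) m]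
  have hxZ : Z ≤ Q / (d * gq m d : ℕ) := by
    rw [le_div_iff₀ hn0']
    calc Z * ((d * gq m d : ℕ) : ℝ) ≤ Z * (m * X) := by gcongr
      _ = m * X * Z := by ring
      _ ≤ Q := hQ
  have hx0 : 0 ≤ Q / (d * gq m d : ℕ) := hZ.le.trans hxZ
  rw [Pbc, Finset.mem_filter, mem_Pb hx0] at hp
  obtain ⟨⟨⟨h1, h2⟩, h3⟩, h4⟩ := hp
  have hpd : ¬ p ∣ d := fun h => h4 (h.mul_right _)
  have hpg : ¬ p ∣ gq m d := fun h => h4 (h.mul_left _)
  have cpd : d.Coprime p := ((Nat.Prime.coprime_iff_not_dvd h3).2 hpd).symm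
  have cpg : (gq m d).Coprime p := ((Nat.Prime.coprime_iff_not_dvd h3).2 hpg).symm
  have cgd : d.Coprime (gq m d) := (gq_coprime hm hd).symm
  have cdM : d.Coprime (gq m d * p) := Nat.Coprime.mul_right cgd cpd
  have hgs : Squarefree (gq m d) := hm.squarefree_of_dvd (gq_dvd m d)
  have hMs : Squarefree (gq m d * p) := (Nat.squarefree_mul cpg).2 ⟨hgs, h3.squarefree⟩
  have hn : (((d * (gq m d * p) : ℕ)) : ℝ) = (d * gq m d : ℕ) * p := by push_cast; ring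
  rw [div_right_comm, div_lt_iff₀ hn0'] at h1
  rw [le_div_iff₀ hn0'] at h2
  have hnQ : (((d * (gq m d * p) : ℕ)) : ℝ) ≤ Q := by rw [hn]; linarith
  refine ⟨h3, h4, ?_, ?_, cdM, cpg, (Nat.squarefree_mul cdM).2 ⟨hds, hMs⟩⟩
  · have : Z / 4 ≤ Q / 4 / (d * gq m d : ℕ) := by
      rw [div_right_comm]; linarith
    have h5 : Q / 4 / (d * gq m d : ℕ) < p := by
      rw [div_lt_iff₀ hn0']; exact h1
    linarith
  · rw [block, Finset.mem_filter, Finset.mem_Icc]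
    refine ⟨⟨Nat.mul_pos hd (Nat.mul_pos hg0 h3.pos), ?_⟩, ⟨?_, hnQ⟩, ?_⟩
    · have := hnQ.trans hQN
      exact_mod_cast this
    · rw [hn]; linarith
    · rw [← mul_assoc]
      exact (dvd_mul_gq m d).mul_right p

/-- The sum over the pairs `(d, p)`. -/
theorem sum_pairs {N : ℕ} {X Q Z R : ℝ} {m : ℕ} (hm : Squarefree m)
    (hZ : 0 < Z) (hQ : m * X * Z ≤ Q) (hQN : Q ≤ N)
    (hR : ∀ n : ℕ, 0 < n → n ≤ N →
      ((n.primeFactors.filter (fun p : ℕ => Z / 4 < (p : ℝ))).card : ℝ) ≤ R) (hR0 : 0 ≤ R)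
    (h : ℕ → ℝ) (hh : ∀ n, 0 ≤ h n) :
    ∑ d ∈ sqf N X, ∑ p ∈ Pbc (Q / (d * gq m d : ℕ)) (d * gq m d),
      wt d * ((gq m d).totient * h (d * (gq m d * p))) ≤
      (1 / 3) * R * (1 / share m) * ∑ n ∈ block N Q m, wt n * h n := by
  classical
  have hm0 : 0 < m := Nat.pos_of_ne_zero hm.ne_zero
  set I : Finset (Σ _ : ℕ, ℕ) := (sqf N X).sigma
    (fun d => Pbc (Q / (d * gq m d : ℕ)) (d * gq m d)) with hI
  set L : ℕ → Finset ℕ := fun n => n.primeFactors.filter (fun p : ℕ => Z / 4 < (p : ℝ)) with hL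
  set J : Finset (Σ _ : ℕ, ℕ × ℕ) := (block N Q m).sigma (fun n => L n ×ˢ m.divisors) with hJ
  let F : (Σ _ : ℕ, ℕ) → (Σ _ : ℕ, ℕ × ℕ) := fun i =>
    ⟨i.1 * (gq m i.1 * i.2), (i.2, gq m i.1)⟩
  let f : (Σ _ : ℕ, ℕ × ℕ) → ℝ := fun j => (1 / 3) * (wt j.1 * h j.1) * (j.2.2.totient / wt j.2.2)
  have hf : ∀ j, 0 ≤ f j := by
    intro j
    exact mul_nonneg (mul_nonneg (by norm_num) (mul_nonneg (wt_nonneg _) (hh _)))
      (div_nonneg (Nat.cast_nonneg _) (wt_nonneg _))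
  have hmem : ∀ i ∈ I, 0 < i.1 ∧ Squarefree i.1 ∧ (i.1 : ℝ) ≤ X ∧
      i.2 ∈ Pbc (Q / (i.1 * gq m i.1 : ℕ)) (i.1 * gq m i.1) := by
    intro i hi
    rw [hI, Finset.mem_sigma, sqf, Finset.mem_filter, Finset.mem_filter, Finset.mem_Icc] at hi
    exact ⟨hi.1.1.1.1, hi.1.2, hi.1.1.2, hi.2⟩
  have h1 : ∑ d ∈ sqf N X, ∑ p ∈ Pbc (Q / (d * gq m d : ℕ)) (d * gq m d),
      wt d * ((gq m d).totient * h (d * (gq m d * p))) = ∑ i ∈ I, f (F i) := by
    rw [hI, Finset.sum_sigma]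
    apply Finset.sum_congr rfl
    intro d hd
    apply Finset.sum_congr rfl
    intro p hp
    have hi : (⟨d, p⟩ : Σ _ : ℕ, ℕ) ∈ I := by rw [hI, Finset.mem_sigma]; exact ⟨hd, hp⟩
    obtain ⟨a1, a2, a3, a4⟩ := hmem _ hi
    obtain ⟨b1, b2, b3, b4, b5, b6, b7⟩ := pair_facts hm a1 a2 a3 hZ hQ hQN a4
    have hgs : Squarefree (gq m d) := hm.squarefree_of_dvd (gq_dvd m d)
    have hMs : Squarefree (gq m d * p) := (Nat.squarefree_mul b6).2 ⟨hgs, b1.squarefree⟩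
    have hw : wt (d * (gq m d * p)) = wt d * (wt (gq m d) * 3) := by
      rw [wt_mul b5 a2 hMs, wt_mul b6 hgs b1.squarefree, wt_prime b1]
    simp only [f, F]
    rw [hw]
    have := (wt_pos hgs).ne'
    field_simp
  have hinj : Set.InjOn F I := by
    intro i hi i' hi' hF
    obtain ⟨a1, a2, a3, a4⟩ := hmem _ hi
    obtain ⟨b1, b2, b3, b4, b5, b6, b7⟩ := pair_facts hm a1 a2 a3 hZ hQ hQN a4
    have e1 : i.1 * (gq m i.1 * i.2) = i'.1 * (gq m i'.1 * i'.2) := congrArg Sigma.fst hF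
    have e2 : (i.2, gq m i.1) = (i'.2, gq m i'.1) := by
      have := (Sigma.mk.inj_iff.1 hF).2
      exact eq_of_heq this
    have e3 : i.2 = i'.2 := congrArg Prod.fst e2
    have e4 : gq m i.1 = gq m i'.1 := congrArg Prod.snd e2
    rw [← e3, ← e4] at e1
    have hpos : 0 < gq m i.1 * i.2 := Nat.mul_pos (gq_pos hm0) b1.pos
    have e5 : i.1 = i'.1 := Nat.eq_of_mul_eq_mul_right hpos e1
    exact Sigma.ext e5 (heq_of_eq e3)
  have hsub : I.image F ⊆ J := by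
    intro j hj
    rw [Finset.mem_image] at hj
    obtain ⟨i, hi, rfl⟩ := hj
    obtain ⟨a1, a2, a3, a4⟩ := hmem _ hi
    obtain ⟨b1, b2, b3, b4, b5, b6, b7⟩ := pair_facts hm a1 a2 a3 hZ hQ hQN a4
    rw [hJ, Finset.mem_sigma]
    refine ⟨b4, ?_⟩
    rw [Finset.mem_product, hL, Finset.mem_filter, Nat.mem_primeFactors, Nat.mem_divisors]
    refine ⟨⟨⟨b1, ?_, ?_⟩, b3⟩, gq_dvd m i.1, hm.ne_zero⟩
    · exact (Dvd.intro_left _ rfl : i.2 ∣ gq m i.1 * i.2).mul_left _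
    · exact b7.ne_zero
  rw [h1, ← Finset.sum_image hinj]
  refine (Finset.sum_le_sum_of_subset_of_nonneg hsub (fun j _ _ => hf j)).trans ?_
  rw [hJ, Finset.sum_sigma, Finset.mul_sum]
  apply Finset.sum_le_sum
  intro n hn
  rw [block, Finset.mem_filter, Finset.mem_Icc] at hn
  rw [Finset.sum_product]
  simp only [f]
  have h2 : ∀ p ∈ L n, ∑ g ∈ m.divisors, (1 / 3) * (wt n * h n) * ((g.totient : ℝ) / wt g) =
      (1 / 3) * (wt n * h n) * (1 / share m) := by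
    intro p _
    rw [← Finset.mul_sum, sum_fg hm]
  rw [Finset.sum_congr rfl h2, Finset.sum_const, nsmul_eq_mul]
  have h3 : ((L n).card : ℝ) ≤ R := hR n (by omega) hn.1.2
  have h4 : 0 ≤ (1 / 3) * (wt n * h n) * (1 / share m) :=
    mul_nonneg (mul_nonneg (by norm_num) (mul_nonneg (wt_nonneg _) (hh _)))
      (one_div_nonneg.2 (share_pos m).le)
  calc ((L n).card : ℝ) * ((1 / 3) * (wt n * h n) * (1 / share m))
      ≤ R * ((1 / 3) * (wt n * h n) * (1 / share m)) := by gcongr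
    _ = 1 / 3 * R * (1 / share m) * (wt n * h n) := by ring

end EH60
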