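import Pool.Agent.EH60.Core

noncomputable section

namespace EH60

open Finset Filter

/-- The primes `p` with `x / 4 < p ≤ x`. -/
def Pb (x : ℝ) : Finset ℕ := (Finset.Ioc ⌊x / 4⌋₊ ⌊x⌋₊).filter Nat.Prime

theorem mem_Pb {x : ℝ} (hx : 0 ≤ x) {p : ℕ} : p ∈ Pb x ↔ (x / 4 < p ∧ (p : ℝ) ≤ x) ∧ p.Prime := by
  rw [Pb, Finset.mem_filter, Finset.mem_Ioc, Nat.floor_lt (by positivity), Nat.le_floor_iff hx]

theorem theta_diff {x : ℝ} (hx : 1 ≤ x) :
    Chebyshev.theta x - Chebyshev.theta (x / 4) ≤ (Pb x).card * Real.log x := by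
  have h1 : Chebyshev.theta x - Chebyshev.theta (x / 4) = ∑ p ∈ Pb x, Real.log p := by
    rw [Chebyshev.theta, Chebyshev.theta, Pb]
    have h2 : ⌊x / 4⌋₊ ≤ ⌊x⌋₊ := Nat.floor_le_floor (by linarith)
    have h3 : Finset.Ioc 0 ⌊x⌋₊ = Finset.Ioc 0 ⌊x / 4⌋₊ ∪ Finset.Ioc ⌊x / 4⌋₊ ⌊x⌋₊ :=
      (Finset.Ioc_union_Ioc_eq_Ioc (Nat.zero_le _) h2).symm
    have h4 : Disjoint (Finset.Ioc 0 ⌊x / 4⌋₊) (Finset.Ioc ⌊x / 4⌋₊ ⌊x⌋₊) := by
      rw [Finset.disjoint_left]
      intro a ha hb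
      rw [Finset.mem_Ioc] at ha hb
      omega
    rw [h3, Finset.filter_union, Finset.sum_union (Finset.disjoint_filter_filter h4)]
    ring
  rw [h1]
  calc ∑ p ∈ Pb x, Real.log p ≤ ∑ _p ∈ Pb x, Real.log x := by
        apply Finset.sum_le_sum
        intro p hp
        rw [mem_Pb (by linarith)] at hp
        exact Real.log_le_log (by exact_mod_cast hp.2.pos) hp.1.2
    _ = _ := by rw [Finset.sum_const, nsmul_eq_mul]

theorem card_Pb : ∃ x₀ : ℝ, ∀ x ≥ x₀, 3 / 10 * x ≤ (Pb x).card * Real.log x := by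
  rw [← Filter.eventually_atTop]
  have e1 : ∀ᶠ x : ℝ in atTop, ‖Real.log x‖ ≤ (1 / 100) * ‖x ^ (1 / 2 : ℝ)‖ :=
    (isLittleO_log_rpow_atTop (r := 1 / 2) (by norm_num)).bound (by norm_num)
  have e2 : ∀ᶠ x : ℝ in atTop, ‖Real.log x‖ ≤ (1 / 200) * ‖x ^ (1 : ℝ)‖ :=
    (isLittleO_log_rpow_atTop (r := 1) (by norm_num)).bound (by norm_num)
  filter_upwards [e1, e2, eventually_ge_atTop (1000 : ℝ)] with x h1 h2 h3
  refine le_trans ?_ (theta_diff (by linarith))
  have hx0 : 0 ≤ x := by linarith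
  have hlog : 0 ≤ Real.log x := Real.log_nonneg (by linarith)
  have h4 := Chebyshev.theta_ge' (x := x) (by linarith)
  have h5 := Chebyshev.theta_le_log4_mul_x (x := x / 4) (by linarith)
  have hl4 : Real.log 4 = 2 * Real.log 2 := by
    rw [show (4 : ℝ) = 2 ^ 2 by norm_num, Real.log_pow]; norm_num
  rw [hl4] at h5
  rw [Real.norm_of_nonneg hlog, Real.norm_of_nonneg (Real.rpow_nonneg hx0 _),
    ← Real.sqrt_eq_rpow] at h1
  rw [Real.norm_of_nonneg hlog, Real.norm_of_nonneg (Real.rpow_nonneg hx0 _), Real.rpow_one] at h2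
  have h6 : Real.log (x + 2) ≤ Real.log 2 + Real.log x := by
    rw [← Real.log_mul (by norm_num) (by linarith)]
    exact Real.log_le_log (by linarith) (by linarith)
  have h7 : √x * Real.log x ≤ (1 / 100) * x := by
    calc √x * Real.log x ≤ √x * ((1 / 100) * √x) := by gcongr
      _ = (1 / 100) * (√x * √x) := by ring
      _ = (1 / 100) * x := by rw [Real.mul_self_sqrt hx0]
  have hl2 := Real.log_two_gt_d9
  have hl2' := Real.log_two_lt_d9
  nlinarith

/-- The sum of `1 / (p - 1)` over the primes of a block, without the divisors of `n₀`. -/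
def Pbc (x : ℝ) (n₀ : ℕ) : Finset ℕ := (Pb x).filter (fun p => ¬ p ∣ n₀)

/-- the number of prime factors of `n` which are larger than `z` -/
theorem card_large (n : ℕ) (hn : 0 < n) (z B : ℝ) (hz : 1 < z) (hB : (n : ℝ) ≤ B) :
    ((n.primeFactors.filter (fun p : ℕ => z < (p : ℝ))).card : ℝ) ≤ Real.log B / Real.log z := by
  have hlz : 0 < Real.log z := Real.log_pos hz
  rw [le_div_iff₀ hlz]
  set S := n.primeFactors.filter (fun p : ℕ => z < (p : ℝ)) with hS
  have h1 : z ^ S.card ≤ (n : ℝ) := by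
    calc z ^ S.card = ∏ _p ∈ S, z := by rw [Finset.prod_const]
      _ ≤ ∏ p ∈ S, (p : ℝ) := by
          apply Finset.prod_le_prod
          · intro p _; linarith
          · intro p hp
            rw [hS, Finset.mem_filter] at hp
            exact hp.2.le
      _ = ((∏ p ∈ S, p : ℕ) : ℝ) := by push_cast; rfl
      _ ≤ (n : ℝ) := by
          have h2 : ∏ p ∈ S, p ∣ n := by
            refine (Finset.prod_dvd_prod_of_subset _ _ _ (Finset.filter_subset _ _)).trans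
              (Nat.prod_primeFactors_dvd n)
          exact_mod_cast Nat.le_of_dvd hn h2
  calc (S.card : ℝ) * Real.log z = Real.log (z ^ S.card) := by rw [Real.log_pow]
    _ ≤ Real.log B := Real.log_le_log (by positivity) (h1.trans hB)

theorem tendsto_natpow (η : ℝ) (hη : 0 < η) : Tendsto (fun N : ℕ => (N : ℝ) ^ η) atTop atTop :=
  (tendsto_rpow_atTop hη).comp tendsto_natCast_atTop_atTop

theorem card_large' (η : ℝ) (hη : 0 < η) : ∀ᶠ N : ℕ in atTop, ∀ n : ℕ, 0 < n → n ≤ N → ∀ z : ℝ,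
    (N : ℝ) ^ η / 4 ≤ z → ((n.primeFactors.filter (fun p : ℕ => z < (p : ℝ))).card : ℝ) ≤ 2 / η := by
  filter_upwards [(tendsto_natpow (η / 2) (by positivity)).eventually_ge_atTop 4,
    eventually_gt_atTop 1] with N h1 h2 n hn hnN z hz
  have hN1 : (1 : ℝ) < N := by exact_mod_cast h2
  have hN0 : (0 : ℝ) < N := by linarith
  have hlog : 0 < Real.log N := Real.log_pos hN1
  have h3 : (N : ℝ) ^ (η / 2) ≤ z := by
    have e : (N : ℝ) ^ η = (N : ℝ) ^ (η / 2) * (N : ℝ) ^ (η / 2) := by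
      rw [← Real.rpow_add hN0]; ring_nf
    rw [e] at hz
    nlinarith [Real.rpow_pos_of_pos hN0 (η / 2)]
  have hz1 : 1 < z := by linarith
  refine (card_large n hn z N hz1 (by exact_mod_cast hnN)).trans ?_
  have hlz : 0 < Real.log z := Real.log_pos hz1
  rw [div_le_div_iff₀ hlz hη]
  have h4 : (η / 2) * Real.log N ≤ Real.log z := by
    rw [← Real.log_rpow hN0]
    exact Real.log_le_log (Real.rpow_pos_of_pos hN0 _) h3
  nlinarith

theorem sum_Pbc (η : ℝ) (hη : 0 < η) : ∀ᶠ N : ℕ in atTop, ∀ (x : ℝ) (n₀ : ℕ), (N : ℝ) ^ η ≤ x →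
    x ≤ N → 0 < n₀ → n₀ ≤ N → 1 / 4 / Real.log N ≤ ∑ p ∈ Pbc x n₀, 1 / ((p : ℝ) - 1) := by
  obtain ⟨x₀, hx₀⟩ := card_Pb
  have e1 : ∀ᶠ x : ℝ in atTop, ‖Real.log x‖ ≤ (η / 40) * ‖x ^ (1 : ℝ)‖ :=
    (isLittleO_log_rpow_atTop (r := 1) (by norm_num)).bound (by positivity)
  obtain ⟨x₁, hx₁⟩ := eventually_atTop.1 e1
  filter_upwards [card_large' η hη, (tendsto_natpow η hη).eventually_ge_atTop (max x₀ (max x₁ 2)),
    eventually_gt_atTop 1] with N h1 h2 h3 x n₀ hx hxN hn hnN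
  have hx' : max x₀ (max x₁ 2) ≤ x := h2.trans hx
  have hxx0 : x₀ ≤ x := (le_max_left _ _).trans hx'
  have hxx1 : x₁ ≤ x := ((le_max_left _ _).trans (le_max_right _ _)).trans hx'
  have hx2 : 2 ≤ x := ((le_max_right _ _).trans (le_max_right _ _)).trans hx'
  have hx0 : 0 < x := by linarith
  have hN1 : (1 : ℝ) < N := by exact_mod_cast h3
  have hlogN : 0 < Real.log N := Real.log_pos hN1
  have hlogx : 0 < Real.log x := Real.log_pos (by linarith)
  have hlogxN : Real.log x ≤ Real.log N := Real.log_le_log hx0 hxN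
  have h4 := hx₀ x hxx0
  have h5 := hx₁ x hxx1
  rw [Real.norm_of_nonneg hlogx.le, Real.norm_of_nonneg (Real.rpow_nonneg hx0.le _),
    Real.rpow_one] at h5
  -- the divisors of n₀
  have h6 : (((Pb x).filter (fun p => p ∣ n₀)).card : ℝ) ≤ 2 / η := by
    refine le_trans ?_ (h1 n₀ hn hnN (x / 4) (by linarith))
    have : (Pb x).filter (fun p => p ∣ n₀) ⊆ n₀.primeFactors.filter (fun p : ℕ => x / 4 < (p : ℝ)) := by
      intro p hp
      rw [Finset.mem_filter, mem_Pb hx0.le] at hp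
      rw [Finset.mem_filter, Nat.mem_primeFactors]
      exact ⟨⟨hp.1.2, hp.2, hn.ne'⟩, hp.1.1.1⟩
    exact_mod_cast Finset.card_le_card this
  have h7 : ((Pb x).card : ℝ) = (((Pb x).filter (fun p => p ∣ n₀)).card : ℝ) + ((Pbc x n₀).card : ℝ) := by
    rw [Pbc]
    exact_mod_cast (Finset.card_filter_add_card_filter_not (s := Pb x) (p := fun p => p ∣ n₀)).symm
  have h8 : 1 / 4 * x ≤ (Pbc x n₀).card * Real.log x := by
    have h9 : ((Pbc x n₀).card : ℝ) ≥ (Pb x).card - 2 / η := by linarith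
    have h10 : 2 / η * Real.log x ≤ 1 / 20 * x := by
      calc 2 / η * Real.log x ≤ 2 / η * (η / 40 * x) := by gcongr
        _ = 1 / 20 * x := by field_simp; ring
    nlinarith
  calc 1 / 4 / Real.log N ≤ 1 / 4 / Real.log x := by gcongr
    _ ≤ (Pbc x n₀).card / x := by
        rw [div_le_div_iff₀ hlogx hx0]; exact h8
    _ = ∑ _p ∈ Pbc x n₀, 1 / x := by rw [Finset.sum_const, nsmul_eq_mul]; ring
    _ ≤ ∑ p ∈ Pbc x n₀, 1 / ((p : ℝ) - 1) := by
        apply Finset.sum_le_sum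
        intro p hp
        rw [Pbc, Finset.mem_filter, mem_Pb hx0.le] at hp
        have h11 : (2 : ℝ) ≤ p := by exact_mod_cast hp.1.2.two_le
        apply one_div_le_one_div_of_le (by linarith)
        linarith [hp.1.1.2]

theorem sum_Pbc_le {x : ℝ} (hx : 8 ≤ x) (n₀ : ℕ) : ∑ p ∈ Pbc x n₀, 1 / ((p : ℝ) - 1) ≤ 8 := by
  have hx0 : 0 < x := by linarith
  have h1 : ((Pbc x n₀).card : ℝ) ≤ x := by
    have h2 : (Pbc x n₀).card ≤ ⌊x⌋₊ := by
      refine (Finset.card_le_card (Finset.filter_subset _ _)).trans ?_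
      refine (Finset.card_filter_le _ _).trans ?_
      rw [Nat.card_Ioc]; omega
    exact (by exact_mod_cast h2 : ((Pbc x n₀).card : ℝ) ≤ (⌊x⌋₊ : ℝ)).trans (Nat.floor_le hx0.le)
  calc ∑ p ∈ Pbc x n₀, 1 / ((p : ℝ) - 1) ≤ ∑ _p ∈ Pbc x n₀, 8 / x := by
        apply Finset.sum_le_sum
        intro p hp
        rw [Pbc, Finset.mem_filter, mem_Pb hx0.le] at hp
        have h11 := hp.1.1.1
        rw [div_le_div_iff₀ (by linarith) hx0]
        linarith
    _ = (Pbc x n₀).card * (8 / x) := by rw [Finset.sum_const, nsmul_eq_mul]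
    _ ≤ x * (8 / x) := by gcongr
    _ = 8 := by field_simp

end EH60
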