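import Pool.Agent.EH60.HybridMain

/-!
# Rough cofactors
-/

noncomputable section

namespace EH60

open Finset Filter

/-- deviations in one block, explicit form -/
theorem dev_block {N d : ℕ} {A P y : ℝ} (hd : 0 < d) (hA1 : 2 ≤ A)
    (hA : 196 + Real.log N ≤ A) (hAP : A ^ 4 ≤ P) (hdP : d * P ≤ N / A ^ 4) (hyN : y ≤ N)
    (hy : 2 ≤ y) (l : ℕ) (hl : l.Coprime d) :
    ∑ p ∈ Pbc P d, |mean y (d * p) d l - Delta y d l / ((p : ℝ) - 1)| ≤ N / A / d := by
  have hA0 : 0 < A := by linarith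
  have hA4 : (16 : ℝ) ≤ A ^ 4 := by
    calc (16 : ℝ) = 2 ^ 4 := by norm_num
      _ ≤ A ^ 4 := by gcongr
  have hP : 8 ≤ P := by linarith
  have hP0 : 0 < P := by linarith
  have hd1 : (1 : ℝ) ≤ d := by exact_mod_cast hd
  have hd0 : (0 : ℝ) < d := by linarith
  have hN0 : (0 : ℝ) < N := by linarith
  have hPN : P ≤ N := by
    have h1 : (N : ℝ) / A ^ 4 ≤ N := div_le_self hN0.le (by linarith)
    nlinarith
  have hdN : (d : ℝ) ≤ N := by
    have h1 : (N : ℝ) / A ^ 4 ≤ N := div_le_self hN0.le (by linarith)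
    nlinarith
  have hlogP : Real.log P ≤ Real.log N := Real.log_le_log hP0 hPN
  have hlogP0 : 0 ≤ Real.log P := Real.log_nonneg (by linarith)
  -- reduce l modulo d
  have hmean : ∀ p ∈ Pbc P d, |mean y (d * p) d l - Delta y d l / ((p : ℝ) - 1)| =
      |mean y (d * p) d (l % d) - Delta y d (l % d) / ((p : ℝ) - 1)| := by
    intro p _
    rw [mean_mod, Delta_mod]
  rw [Finset.sum_congr rfl hmean]
  have hl' : (l % d) < d := Nat.mod_lt _ hd
  have hlc' : (l % d).Coprime d := by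
    rw [Nat.Coprime, ← Nat.gcd_rec, Nat.gcd_comm]; exact hl
  generalize l % d = r at hl' hlc'
  clear hmean hl l
  -- the length
  set T : ℕ := ⌊y⌋₊ / d + 1 with hT
  set T₀ : ℝ := 2 * N / d with hT₀
  have hT₀0 : 0 < T₀ := by positivity
  have hTT₀ : (T : ℝ) ≤ T₀ := by
    rw [hT]
    push_cast
    have h1 : ((⌊y⌋₊ / d : ℕ) : ℝ) ≤ N / d := by
      refine Nat.cast_div_le.trans ?_
      apply div_le_div_of_nonneg_right _ hd0.le
      exact (Nat.floor_le (by linarith : (0 : ℝ) ≤ y)).trans hyN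
    have h2 : (1 : ℝ) ≤ N / d := by rw [le_div_iff₀ hd0]; linarith
    calc ((⌊y⌋₊ / d : ℕ) : ℝ) + 1 ≤ N / d + N / d := add_le_add h1 h2
      _ = T₀ := by rw [hT₀]; ring
  set Z := cnt y d r with hZ
  have hZsum : Z = ∑ t ∈ Finset.range T, zt ⌊y⌋₊ d r t := cnt_eq y d r hd hl'
  have hZT : Z ≤ T₀ := by rw [hZsum]; exact (sum_zt_le _ _ _ _).trans hTT₀
  have hZ0 : 0 ≤ Z := Nat.cast_nonneg _
  set c : ℝ := T₀ * P / A ^ 2 with hc
  have hc0 : 0 < c := by positivity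
  have hdisp := dispersion P hP ⌊y⌋₊ d r T T₀ c hTT₀ hc0
  rw [← hZsum] at hdisp
  have h1 : ∀ p ∈ Pbc P d, |mean y (d * p) d r - Delta y d r / ((p : ℝ) - 1)| ≤
      (1 / ((p : ℝ) - 1) * ∑ s ∈ Finset.range p, |ZZ T (zt ⌊y⌋₊ d r) p s - Z / p|) +
      Z * (1 / ((p : ℝ) - 1)) ^ 2 + 1 / ((p : ℝ) - 1) := by
    intro p hp
    rw [mem_Pbc hP0.le] at hp
    have hp1 : 0 < (p : ℝ) - 1 := by linarith [hp.1.1.1]
    have hpp := hp.1.2
    have cdp : d.Coprime p := ((Nat.Prime.coprime_iff_not_dvd hpp).2 hp.2).symm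
    have hup := mean_upper y d r p hd hl' hlc' hp.1.2 hp.2
    rw [← hT, ← hZ] at hup
    have hlo := core y d p r hd hpp.pos cdp hlc'
    rw [Nat.totient_prime hpp, Nat.cast_sub hpp.one_le, Nat.cast_one, hpp.primeFactors,
      Finset.card_singleton, Nat.cast_one] at hlo
    have hlo' : Delta y d r / ((p : ℝ) - 1) - 1 / ((p : ℝ) - 1) ≤ mean y (d * p) d r := by
      rw [← sub_div, div_le_iff₀ hp1]
      linarith
    have hS0 : 0 ≤ ∑ s ∈ Finset.range p, |ZZ T (zt ⌊y⌋₊ d r) p s - Z / p| :=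
      Finset.sum_nonneg fun _ _ => abs_nonneg _
    set Sg := ∑ s ∈ Finset.range p, |ZZ T (zt ⌊y⌋₊ d r) p s - Z / p| with hSg
    have e : 1 / ((p : ℝ) - 1) * (Delta y d r + Sg + Z / ((p : ℝ) - 1)) =
        Delta y d r / ((p : ℝ) - 1) + 1 / ((p : ℝ) - 1) * Sg + Z * (1 / ((p : ℝ) - 1)) ^ 2 := by
      field_simp
    rw [e] at hup
    have g1 : 0 ≤ 1 / ((p : ℝ) - 1) * Sg := by positivity
    have g2 : 0 ≤ Z * (1 / ((p : ℝ) - 1)) ^ 2 := by positivity
    have g3 : 0 ≤ 1 / ((p : ℝ) - 1) := by positivity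
    rw [abs_le]
    constructor <;> linarith
  refine (Finset.sum_le_sum h1).trans ?_
  rw [Finset.sum_add_distrib, Finset.sum_add_distrib, ← Finset.mul_sum]
  have h2 := sum_sq_Pbc hP d
  have h2' := sum_Pbc_le hP d
  have h3 : Z * ∑ p ∈ Pbc P d, (1 / ((p : ℝ) - 1)) ^ 2 ≤ 64 * T₀ / A ^ 2 := by
    calc _ ≤ T₀ * (64 / P) := by gcongr
      _ ≤ T₀ * (64 / A ^ 4) := by gcongr
      _ ≤ T₀ * (64 / A ^ 2) := by
          gcongr
          · linarith
          · norm_num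
      _ = 64 * T₀ / A ^ 2 := by ring
  have h4 : 32 * c / P = 32 * T₀ / A ^ 2 := by
    rw [hc]; field_simp
  have h7 : P ≤ T₀ / (2 * A ^ 4) := by
    rw [hT₀, le_div_iff₀ (by positivity)]
    rw [le_div_iff₀ (by positivity)] at hdP
    rw [le_div_iff₀ hd0]
    nlinarith
  have h5 : (T₀ + P ^ 2 * (1 + 2 * Real.log P)) * T₀ / (2 * c) ≤
      T₀ / A ^ 2 * (1 / 2 + (1 + 2 * Real.log N) / 4) := by
    have e : (T₀ + P ^ 2 * (1 + 2 * Real.log P)) * T₀ / (2 * c) =
        T₀ * A ^ 2 / (2 * P) + (1 + 2 * Real.log P) * A ^ 2 / 2 * P := by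
      rw [hc]; field_simp
    rw [e]
    have h6 : T₀ * A ^ 2 / (2 * P) ≤ T₀ * A ^ 2 / (2 * A ^ 4) := by gcongr
    have h6' : T₀ * A ^ 2 / (2 * A ^ 4) = T₀ / A ^ 2 * (1 / 2) := by field_simp
    have h8 : (1 + 2 * Real.log P) * A ^ 2 / 2 * P ≤
        (1 + 2 * Real.log N) * A ^ 2 / 2 * (T₀ / (2 * A ^ 4)) := by
      gcongr
    have h8' : (1 + 2 * Real.log N) * A ^ 2 / 2 * (T₀ / (2 * A ^ 4)) =
        T₀ / A ^ 2 * ((1 + 2 * Real.log N) / 4) := by field_simp; norm_num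
    rw [h6'] at h6
    rw [h8'] at h8
    linarith
  have h8 : 8 ≤ T₀ / A ^ 2 := by
    rw [le_div_iff₀ (by positivity)] at h7 ⊢
    have g1 : (1 : ℝ) ≤ A ^ 2 := one_le_pow₀ (by linarith)
    have g2 : A ^ 4 = A ^ 2 * A ^ 2 := by ring
    have g3 : 8 * (2 * (A ^ 2 * A ^ 2)) ≤ P * (2 * A ^ 4) := by rw [g2]; gcongr
    nlinarith [pow_pos hA0 2]
  rw [h4] at hdisp
  have h9 : (N : ℝ) / A / d = T₀ / A ^ 2 * (A / 2) := by
    rw [hT₀]; field_simp
  rw [h9]
  have h10 : T₀ / A ^ 2 * (98 + Real.log N / 2) ≤ T₀ / A ^ 2 * (A / 2) := by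
    apply mul_le_mul_of_nonneg_left _ (by positivity)
    linarith
  have h11 : 32 * T₀ / A ^ 2 + 64 * T₀ / A ^ 2 = T₀ / A ^ 2 * 96 := by ring
  have h12 : T₀ / A ^ 2 * (98 + Real.log N / 2) =
      T₀ / A ^ 2 * 96 + T₀ / A ^ 2 * (1 / 2 + (1 + 2 * Real.log N) / 4) + T₀ / A ^ 2 +
      T₀ / A ^ 2 * (1 / 4) := by
    ring
  have h13 : 0 ≤ T₀ / A ^ 2 * (1 / 4) := by positivity
  linarith

/-- The primes `N^ε < p` with `n p ≤ N^(1-ε)`, `p ∤ n`. -/
def SP (N : ℕ) (ε : ℝ) (n : ℕ) : Finset ℕ :=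
  (Finset.Icc 1 N).filter (fun p : ℕ => p.Prime ∧ (N : ℝ) ^ ε < p ∧ (n : ℝ) * p ≤ (N : ℝ) ^ (1 - ε) ∧
    ¬ p ∣ n)

theorem dev_primes (ε : ℝ) (hε : 0 < ε) : ∀ᶠ N : ℕ in atTop, ∀ (d : ℕ) (y : ℝ) (l : ℕ), 0 < d →
    2 ≤ y → y ≤ N → l.Coprime d →
    ∑ p ∈ SP N ε d, |mean y (d * p) d l - Delta y d l / ((p : ℝ) - 1)| ≤
      (N : ℝ) ^ (1 - ε / 5) / d := by
  have e1 : ∀ᶠ x : ℝ in atTop, ‖Real.log x‖ ≤ (1 / 2) * ‖x ^ (ε / 4)‖ :=
    (isLittleO_log_rpow_atTop (r := ε / 4) (by positivity)).bound (by norm_num)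
  have e2 : ∀ᶠ x : ℝ in atTop, ‖Real.log x‖ ≤ (1 / 2) * ‖x ^ (ε / 20)‖ :=
    (isLittleO_log_rpow_atTop (r := ε / 20) (by positivity)).bound (by norm_num)
  filter_upwards [(tendsto_natpow (ε / 4) (by positivity)).eventually_ge_atTop 392,
    (tendsto_natpow (ε / 20) (by positivity)).eventually_ge_atTop 2,
    tendsto_natCast_atTop_atTop.eventually e1, tendsto_natCast_atTop_atTop.eventually e2,
    eventually_ge_atTop 2] with N h1 h1' h2 h2' hN2 d y l hd hy hyN hl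
  have hN2' : (2 : ℝ) ≤ N := by exact_mod_cast hN2
  have hN0 : (0 : ℝ) < N := by linarith
  set A : ℝ := (N : ℝ) ^ (ε / 4) with hA
  have hlog : 0 ≤ Real.log N := Real.log_nonneg (by linarith)
  rw [Real.norm_of_nonneg hlog, Real.norm_of_nonneg (by positivity)] at h2 h2'
  have hA0 : 0 < A := by positivity
  have hA4 : A ^ 4 = (N : ℝ) ^ ε := by
    rw [hA, ← Real.rpow_natCast, ← Real.rpow_mul hN0.le]
    congr 1; push_cast; ring
  have hNA : (N : ℝ) / A = (N : ℝ) ^ (1 - ε / 4) := by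
    rw [hA, Real.rpow_sub hN0, Real.rpow_one]
  have hNA4 : (N : ℝ) / A ^ 4 = (N : ℝ) ^ (1 - ε) := by
    rw [hA4, Real.rpow_sub hN0, Real.rpow_one]
  have hA1 : 196 + Real.log N ≤ A := by linarith
  have hd0 : (0 : ℝ) < d := by exact_mod_cast hd
  have hd1 : (1 : ℝ) ≤ d := by exact_mod_cast hd
  set X : ℝ := (N : ℝ) ^ (1 - ε) / d with hX
  have hX0 : 0 < X := by positivity
  have hXN : X ≤ N := by
    calc X ≤ (N : ℝ) ^ (1 - ε) := div_le_self (by positivity) hd1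
      _ ≤ (N : ℝ) ^ (1 : ℝ) := Real.rpow_le_rpow_of_exponent_le (by linarith) (by linarith)
      _ = N := Real.rpow_one _
  set J : ℕ := ⌊Real.log N⌋₊ + 1 with hJ
  have hJ' : (J : ℝ) ≤ Real.log N + 1 := by
    rw [hJ]; push_cast
    linarith [Nat.floor_le hlog]
  have hJlt : Real.log N < J := by rw [hJ]; push_cast; exact Nat.lt_floor_add_one _
  set f : ℕ → ℝ := fun p => |mean y (d * p) d l - Delta y d l / ((p : ℝ) - 1)| with hf
  have hf0 : ∀ p, 0 ≤ f p := fun p => abs_nonneg _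
  -- every prime is in a block
  have hcov : ∀ p ∈ SP N ε d, ∃ j ∈ Finset.range J, (N : ℝ) ^ ε ≤ X / 4 ^ j ∧ p ∈ Pbc (X / 4 ^ j) d := by
    intro p hp
    rw [SP, Finset.mem_filter, Finset.mem_Icc] at hp
    obtain ⟨⟨hp1, hpN⟩, hpp, hp2, hp3, hp4⟩ := hp
    have hp0 : (0 : ℝ) < p := by exact_mod_cast hpp.pos
    have hpX : (p : ℝ) ≤ X := by rw [hX, le_div_iff₀ hd0]; linarith
    have hex : ∃ j : ℕ, X / 4 ^ (j + 1) < p := by
      have h3 : Tendsto (fun j : ℕ => X / 4 ^ (j + 1)) atTop (nhds 0) := by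
        have h4 : Tendsto (fun j : ℕ => X * (1 / 4 : ℝ) ^ (j + 1)) atTop (nhds (X * 0)) :=
          ((tendsto_pow_atTop_nhds_zero_of_lt_one (by norm_num) (by norm_num)).comp
            (tendsto_add_atTop_nat 1)).const_mul X
        rw [mul_zero] at h4
        refine h4.congr (fun j => ?_)
        rw [one_div, inv_pow, div_eq_mul_inv]
      exact (h3.eventually_lt_const hp0).exists
    classical
    set j := Nat.find hex with hj
    have hj1 : X / 4 ^ (j + 1) < p := Nat.find_spec hex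
    have hj2 : (p : ℝ) ≤ X / 4 ^ j := by
      rcases Nat.eq_zero_or_pos j with h0 | h0
      · rw [h0, pow_zero, div_one]; exact hpX
      · have h5 := Nat.find_min hex (m := j - 1) (by omega)
        rw [not_lt] at h5
        have h6 : j - 1 + 1 = j := by omega
        rwa [h6] at h5
    refine ⟨j, ?_, hp2.le.trans hj2, ?_⟩
    · rw [Finset.mem_range]
      by_contra hcon
      rw [not_lt] at hcon
      have h7 : (4 : ℝ) ^ j ≤ N := by
        have h8 : (1 : ℝ) ≤ X / 4 ^ j := by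
          refine le_trans ?_ hj2
          exact_mod_cast hpp.one_le
        rw [le_div_iff₀ (by positivity)] at h8
        linarith
      have h9 : (J : ℝ) ≤ Real.log N := by
        calc (J : ℝ) ≤ j := by exact_mod_cast hcon
          _ ≤ j * Real.log 4 := by
              have hl2 := Real.log_two_gt_d9
              have hl4 : Real.log 4 = 2 * Real.log 2 := by
                rw [show (4 : ℝ) = 2 ^ 2 by norm_num, Real.log_pow]; norm_num
              have : (0 : ℝ) ≤ j := Nat.cast_nonneg _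
              nlinarith
          _ = Real.log (4 ^ j) := by rw [Real.log_pow]
          _ ≤ Real.log N := Real.log_le_log (by positivity) h7
      linarith
    · rw [mem_Pbc (by positivity)]
      refine ⟨⟨⟨?_, hj2⟩, hpp⟩, hp4⟩
      rw [pow_succ, ← div_div] at hj1
      exact hj1
  calc ∑ p ∈ SP N ε d, f p
      ≤ ∑ p ∈ SP N ε d, ∑ j ∈ Finset.range J,
          (if (N : ℝ) ^ ε ≤ X / 4 ^ j ∧ p ∈ Pbc (X / 4 ^ j) d then f p else 0) := by
        apply Finset.sum_le_sum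
        intro p hp
        obtain ⟨j, hj, hj'⟩ := hcov p hp
        have h3 := Finset.single_le_sum (s := Finset.range J) (f := fun j =>
          (if (N : ℝ) ^ ε ≤ X / 4 ^ j ∧ p ∈ Pbc (X / 4 ^ j) d then f p else 0)) (by
            intro i _
            split_ifs
            · exact hf0 p
            · exact le_rfl) hj
        rwa [if_pos hj'] at h3
    _ = ∑ j ∈ Finset.range J, ∑ p ∈ SP N ε d,
          (if (N : ℝ) ^ ε ≤ X / 4 ^ j ∧ p ∈ Pbc (X / 4 ^ j) d then f p else 0) := Finset.sum_comm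
    _ ≤ ∑ _j ∈ Finset.range J, (N : ℝ) / A / d := by
        apply Finset.sum_le_sum
        intro j _
        by_cases hjN : (N : ℝ) ^ ε ≤ X / 4 ^ j
        · have hb := dev_block (N := N) (d := d) (A := A) (P := X / 4 ^ j) (y := y) hd (by linarith)
            hA1 (by rw [hA4]; exact hjN) (by
              rw [hNA4]
              have : X / 4 ^ j ≤ X := div_le_self hX0.le (one_le_pow₀ (by norm_num))
              calc (d : ℝ) * (X / 4 ^ j) ≤ d * X := by gcongr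
                _ = (N : ℝ) ^ (1 - ε) := by rw [hX]; field_simp) hyN hy l hl
          refine le_trans ?_ hb
          rw [← Finset.sum_filter]
          apply Finset.sum_le_sum_of_subset_of_nonneg
          · intro p hp
            rw [Finset.mem_filter] at hp
            exact hp.2.2
          · intro p _ _
            exact hf0 p
        · have : ∀ p ∈ SP N ε d, (if (N : ℝ) ^ ε ≤ X / 4 ^ j ∧ p ∈ Pbc (X / 4 ^ j) d then f p else 0) = 0 := by
            intro p _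
            rw [if_neg (fun h => hjN h.1)]
          rw [Finset.sum_congr rfl this, Finset.sum_const_zero]
          positivity
    _ = J * ((N : ℝ) / A / d) := by rw [Finset.sum_const, Finset.card_range, nsmul_eq_mul]
    _ ≤ (N : ℝ) ^ (ε / 20) * ((N : ℝ) / A / d) := by
        have : (J : ℝ) ≤ (N : ℝ) ^ (ε / 20) := by linarith
        gcongr
    _ = (N : ℝ) ^ (1 - ε / 5) / d := by
        rw [hNA, ← mul_div_assoc, ← Real.rpow_add hN0]
        ring_nf

end EH60
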