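import Pool.Agent.EH60.Rough
import Pool.Agent.EH60.HybridFinal

/-!
# Rough composite cofactors
-/

noncomputable section

namespace EH60

open Finset Filter

/-- The squarefree `e` coprime to `d`, all of whose prime factors exceed `N^ε`, with `d e ≤ N^(1-ε)`. -/
def Rg (N : ℕ) (ε : ℝ) (d : ℕ) : Finset ℕ :=
  (Finset.Icc 1 N).filter (fun e : ℕ => Squarefree e ∧ e.Coprime d ∧
    (∀ p ∈ e.primeFactors, (N : ℝ) ^ ε < p) ∧ (d : ℝ) * e ≤ (N : ℝ) ^ (1 - ε))

theorem sum_lifts (D e m l : ℕ) (hD : 0 < D) (he : 0 < e) (f : ℕ → ℝ) :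
    ∑ b ∈ lifts (D * e * m) D l, f b =
      ∑ a ∈ lifts (D * e) D l, ∑ b ∈ lifts (D * e * m) (D * e) a, f b := by
  have hDe : 0 < D * e := Nat.mul_pos hD he
  have hmap : ∀ b ∈ lifts (D * e * m) D l, b % (D * e) ∈ lifts (D * e) D l := by
    intro b hb
    rw [lifts, Finset.mem_filter, Finset.mem_range] at hb
    rw [lifts, Finset.mem_filter, Finset.mem_range]
    refine ⟨Nat.mod_lt _ hDe, ?_, ((Nat.mod_modEq b (D * e)).of_mul_right e).trans hb.2.2⟩
    rw [Nat.Coprime, ← Nat.gcd_rec, Nat.gcd_comm]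
    exact Nat.Coprime.coprime_mul_right_right hb.2.1
  rw [← Finset.sum_fiberwise_of_maps_to hmap]
  apply Finset.sum_congr rfl
  intro a ha
  apply Finset.sum_congr _ (fun _ _ => rfl)
  rw [lifts, Finset.mem_filter, Finset.mem_range] at ha
  ext b
  rw [Finset.mem_filter, lifts, lifts, Finset.mem_filter, Finset.mem_filter]
  constructor
  · rintro ⟨⟨h1, h2, _⟩, h4⟩
    refine ⟨h1, h2, ?_⟩
    rw [Nat.ModEq, h4, Nat.mod_eq_of_lt ha.1]
  · rintro ⟨h1, h2, h3⟩
    refine ⟨⟨h1, h2, (h3.of_mul_right e).trans ha.2.2⟩, ?_⟩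
    rw [Nat.ModEq, Nat.mod_eq_of_lt ha.1] at h3
    exact h3

theorem step (y : ℝ) (d e p l : ℕ) (hd : 0 < d) (he : 0 < e) (hp : p.Prime) (hde : d.Coprime e)
    (hpd : ¬ p ∣ d * e) (hl : l.Coprime d) :
    |mean y (d * (e * p)) d l - Delta y d l / ((e * p).totient : ℝ)| ≤
      (∑ a ∈ lifts (d * e) d l, |mean y (d * e * p) (d * e) a - Delta y (d * e) a / ((p : ℝ) - 1)|) /
        (e.totient : ℝ) +
      1 / ((p : ℝ) - 1) * |mean y (d * e) d l - Delta y d l / (e.totient : ℝ)| := by
  have hp1 : (0 : ℝ) < (p : ℝ) - 1 := by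
    have : (2 : ℝ) ≤ p := by exact_mod_cast hp.two_le
    linarith
  have hφ : (0 : ℝ) < e.totient := by exact_mod_cast Nat.totient_pos.2 he
  have cp : (d * e).Coprime p := ((Nat.Prime.coprime_iff_not_dvd hp).2 hpd).symm
  have cep : e.Coprime p := Nat.Coprime.coprime_mul_left cp
  have cdp : d.Coprime p := Nat.Coprime.coprime_mul_right cp
  have cdep : d.Coprime (e * p) := Nat.Coprime.mul_right hde cdp
  have hep : 0 < e * p := Nat.mul_pos he hp.pos
  have hφp : ((e * p).totient : ℝ) = e.totient * ((p : ℝ) - 1) := by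
    rw [Nat.totient_mul cep, Nat.totient_prime hp, Nat.cast_mul, Nat.cast_sub hp.one_le, Nat.cast_one]
  have hc1 : ((lifts (d * (e * p)) d l).card : ℝ) = e.totient * ((p : ℝ) - 1) := by
    rw [card_lifts d (e * p) l hd hep cdep hl, hφp]
  have hc2 : ((lifts (d * e) d l).card : ℝ) = e.totient := by
    rw [card_lifts d e l hd he hde hl]
  have hc3 : ∀ a ∈ lifts (d * e) d l, ((lifts (d * e * p) (d * e) a).card : ℝ) = (p : ℝ) - 1 := by
    intro a ha
    rw [lifts, Finset.mem_filter] at ha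
    rw [card_lifts (d * e) p a (Nat.mul_pos hd he) hp.pos cp ha.2.1, Nat.totient_prime hp,
      Nat.cast_sub hp.one_le, Nat.cast_one]
  have hm1 : mean y (d * (e * p)) d l =
      (∑ a ∈ lifts (d * e) d l, mean y (d * e * p) (d * e) a) / (e.totient : ℝ) := by
    unfold mean
    rw [hc1, ← mul_assoc, sum_lifts d e p l hd he]
    have h1 : ∀ a ∈ lifts (d * e) d l, (∑ b ∈ lifts (d * e * p) (d * e) a, Delta y (d * e * p) b) /
        ((lifts (d * e * p) (d * e) a).card : ℝ) =
        (∑ b ∈ lifts (d * e * p) (d * e) a, Delta y (d * e * p) b) / ((p : ℝ) - 1) := by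
      intro a ha
      rw [hc3 a ha]
    rw [Finset.sum_congr rfl h1, ← Finset.sum_div, div_div, mul_comm ((p : ℝ) - 1)]
  have hm2 : mean y (d * e) d l = (∑ a ∈ lifts (d * e) d l, Delta y (d * e) a) / (e.totient : ℝ) := by
    unfold mean
    rw [hc2]
  have e1 : mean y (d * (e * p)) d l - Delta y d l / ((e * p).totient : ℝ) =
      (∑ a ∈ lifts (d * e) d l, (mean y (d * e * p) (d * e) a -
        Delta y (d * e) a / ((p : ℝ) - 1))) / (e.totient : ℝ) +
      1 / ((p : ℝ) - 1) * (mean y (d * e) d l - Delta y d l / (e.totient : ℝ)) := by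
    rw [hm1, hm2, hφp, Finset.sum_sub_distrib, ← Finset.sum_div]
    field_simp
    ring
  rw [e1]
  refine (abs_add_le _ _).trans ?_
  apply add_le_add
  · rw [abs_div, abs_of_pos hφ]
    apply div_le_div_of_nonneg_right _ hφ.le
    exact Finset.abs_sum_le_sum_abs _ _
  · rw [abs_mul, abs_of_pos (by positivity : (0 : ℝ) < 1 / ((p : ℝ) - 1))]

theorem mean_self (y : ℝ) (d l : ℕ) (hd : 0 < d) (hl : l.Coprime d) : mean y d d l = Delta y d l := by
  have h1 : lifts d d l = {l % d} := by
    ext a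
    rw [lifts, Finset.mem_filter, Finset.mem_range, Finset.mem_singleton]
    constructor
    · rintro ⟨h1, _, h3⟩
      rw [Nat.ModEq, Nat.mod_eq_of_lt h1] at h3
      exact h3
    · rintro rfl
      refine ⟨Nat.mod_lt _ hd, ?_, Nat.mod_modEq _ _⟩
      rw [Nat.Coprime, ← Nat.gcd_rec, Nat.gcd_comm]
      exact hl
  unfold mean
  rw [h1, Finset.sum_singleton, Finset.card_singleton, Nat.cast_one, div_one, ← Delta_mod]

theorem harm_le {N : ℕ} (S : Finset ℕ) (hS : S ⊆ Finset.Icc 1 N) :
    ∑ e ∈ S, 1 / (e : ℝ) ≤ 1 + Real.log N := by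
  calc ∑ e ∈ S, 1 / (e : ℝ) ≤ ∑ e ∈ Finset.Icc 1 N, 1 / (e : ℝ) := by
        apply Finset.sum_le_sum_of_subset_of_nonneg hS
        intro d _ _
        positivity
    _ ≤ 1 + Real.log N := by
        have h1 := harmonic_le_one_add_log N
        rw [harmonic_eq_sum_Icc] at h1
        push_cast at h1
        simpa [one_div] using h1

theorem sum_SP_le (N : ℕ) (ε : ℝ) (n : ℕ) :
    ∑ p ∈ SP N ε n, 1 / ((p : ℝ) - 1) ≤ 2 * (1 + Real.log N) := by
  calc ∑ p ∈ SP N ε n, 1 / ((p : ℝ) - 1) ≤ ∑ p ∈ SP N ε n, 2 * (1 / (p : ℝ)) := by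
        apply Finset.sum_le_sum
        intro p hp
        rw [SP, Finset.mem_filter] at hp
        have h2 : (2 : ℝ) ≤ p := by exact_mod_cast hp.2.1.two_le
        rw [mul_one_div, div_le_div_iff₀ (by linarith) (by linarith)]
        linarith
    _ = 2 * ∑ p ∈ SP N ε n, 1 / (p : ℝ) := by rw [Finset.mul_sum]
    _ ≤ 2 * (1 + Real.log N) := by
        have := harm_le (SP N ε n) (Finset.filter_subset _ _)
        linarith

/-- induction on the number of prime factors -/
theorem dev_k {N : ℕ} {ε y B : ℝ} (hN : 1 ≤ N) (hε : 0 < ε) (hB : 0 ≤ B)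
    (H : ∀ (d l : ℕ), 0 < d → l.Coprime d →
      ∑ p ∈ SP N ε d, |mean y (d * p) d l - Delta y d l / ((p : ℝ) - 1)| ≤ B / d) (k : ℕ) :
    ∀ (d l : ℕ), 0 < d → l.Coprime d →
      ∑ e ∈ (Rg N ε d).filter (fun e => e.primeFactors.card = k),
        |mean y (d * e) d l - Delta y d l / (e.totient : ℝ)| ≤ (3 * (1 + Real.log N)) ^ k * (B / d) := by
  have hN1 : (1 : ℝ) ≤ N := by exact_mod_cast hN
  have hlog : 0 ≤ Real.log N := Real.log_nonneg hN1
  induction k with
  | zero =>
    intro d l hd hl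
    have h0 : ∀ e ∈ (Rg N ε d).filter (fun e => e.primeFactors.card = 0),
        |mean y (d * e) d l - Delta y d l / (e.totient : ℝ)| = 0 := by
      intro e he
      rw [Finset.mem_filter, Rg, Finset.mem_filter, Finset.mem_Icc] at he
      have h1 : e = 1 := by
        have h2 := he.2
        rw [Finset.card_eq_zero, Nat.primeFactors_eq_empty] at h2
        omega
      subst h1
      rw [mul_one, mean_self y d l hd hl]
      simp
    rw [Finset.sum_congr rfl h0, Finset.sum_const_zero]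
    positivity
  | succ k ih =>
    intro d l hd hl
    have hd0 : (0 : ℝ) < d := by exact_mod_cast hd
    set f : ℕ → ℝ := fun e => |mean y (d * e) d l - Delta y d l / (e.totient : ℝ)| with hf
    have hf0 : ∀ e, 0 ≤ f e := fun e => abs_nonneg _
    set Rk := (Rg N ε d).filter (fun e => e.primeFactors.card = k) with hRk
    set W : Finset (Σ _ : ℕ, ℕ) := Rk.sigma (fun e => SP N ε (d * e)) with hW
    have hmem : ∀ e ∈ (Rg N ε d).filter (fun e => e.primeFactors.card = k + 1),
        (⟨e / e.minFac, e.minFac⟩ : Σ _ : ℕ, ℕ) ∈ W ∧ e / e.minFac * e.minFac = e := by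
      intro e he
      rw [Finset.mem_filter, Rg, Finset.mem_filter, Finset.mem_Icc] at he
      obtain ⟨⟨⟨he1, heN⟩, hsq, hco, hrough, hle⟩, hcard⟩ := he
      have hne : e ≠ 1 := by
        rintro rfl
        simp at hcard
      have hpp : e.minFac.Prime := Nat.minFac_prime hne
      have hpe : e.minFac ∣ e := Nat.minFac_dvd e
      set p := e.minFac with hp
      set e' := e / p with he'
      have hmul : e' * p = e := Nat.div_mul_cancel hpe
      have he'pos : 0 < e' := Nat.div_pos (Nat.le_of_dvd (by omega) hpe) hpp.pos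
      have hsq' : Squarefree (e' * p) := by rw [hmul]; exact hsq
      rw [Nat.squarefree_mul_iff] at hsq'
      obtain ⟨hco', hsqe', _⟩ := hsq'
      have he'e : e' ∣ e := Dvd.intro _ hmul
      have he'le : e' ≤ e := Nat.le_of_dvd (by omega) he'e
      have hpd : p.Coprime d := Nat.Coprime.coprime_dvd_left hpe hco
      refine ⟨?_, hmul⟩
      rw [hW, Finset.mem_sigma]
      refine ⟨?_, ?_⟩
      · rw [hRk, Finset.mem_filter, Rg, Finset.mem_filter, Finset.mem_Icc]
        refine ⟨⟨⟨he'pos, he'le.trans heN⟩, hsqe', Nat.Coprime.coprime_dvd_left he'e hco,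
          fun q hq => hrough q (Nat.primeFactors_mono he'e (by omega) hq), ?_⟩, ?_⟩
        · refine le_trans ?_ hle
          have : (e' : ℝ) ≤ e := by exact_mod_cast he'le
          gcongr
        · have h1 := card_pf_mul hco'
          rw [hmul, hcard, hpp.primeFactors, Finset.card_singleton] at h1
          change e'.primeFactors.card = k
          omega
      · rw [SP, Finset.mem_filter, Finset.mem_Icc]
        refine ⟨⟨hpp.one_le, (Nat.le_of_dvd (by omega) hpe).trans heN⟩, hpp,
          hrough p (Nat.mem_primeFactors.2 ⟨hpp, hpe, by omega⟩), ?_, ?_⟩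
        · change ((d * e' : ℕ) : ℝ) * (p : ℝ) ≤ _
          have h1 : ((d * e' : ℕ) : ℝ) * (p : ℝ) = d * e := by
            rw [← hmul]; push_cast; ring
          rw [h1]
          exact hle
        · change ¬ p ∣ d * e'
          rw [← Nat.Prime.coprime_iff_not_dvd hpp]
          exact Nat.Coprime.mul_right hpd hco'.symm
    have hinj : Set.InjOn (fun e : ℕ => (⟨e / e.minFac, e.minFac⟩ : Σ _ : ℕ, ℕ))
        ((Rg N ε d).filter (fun e => e.primeFactors.card = k + 1)) := by
      intro e he e2 he2 h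
      have h1 := (hmem e he).2
      have h2 := (hmem e2 he2).2
      have h3 : e / e.minFac = e2 / e2.minFac ∧ e.minFac = e2.minFac := by
        have h4 := Sigma.mk.inj_iff.1 h
        exact ⟨h4.1, eq_of_heq h4.2⟩
      rw [← h1, ← h2, h3.1, h3.2]
    have hstep : ∀ e ∈ Rk, ∀ p ∈ SP N ε (d * e), f (e * p) ≤
        (∑ a ∈ lifts (d * e) d l, |mean y (d * e * p) (d * e) a - Delta y (d * e) a / ((p : ℝ) - 1)|) /
        (e.totient : ℝ) + 1 / ((p : ℝ) - 1) * f e := by
      intro e he p hp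
      rw [hRk, Finset.mem_filter, Rg, Finset.mem_filter, Finset.mem_Icc] at he
      rw [SP, Finset.mem_filter] at hp
      exact step y d e p l hd (by omega) hp.2.1 he.1.2.2.1.symm hp.2.2.2.2 hl
    have hfirst : ∀ e ∈ Rk, ∑ p ∈ SP N ε (d * e),
        (∑ a ∈ lifts (d * e) d l, |mean y (d * e * p) (d * e) a - Delta y (d * e) a / ((p : ℝ) - 1)|) /
        (e.totient : ℝ) ≤ B / d * (1 / (e : ℝ)) := by
      intro e he
      rw [hRk, Finset.mem_filter, Rg, Finset.mem_filter, Finset.mem_Icc] at he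
      have he0 : 0 < e := by omega
      have he0' : (0 : ℝ) < e := by exact_mod_cast he0
      have hφ : (0 : ℝ) < e.totient := by exact_mod_cast Nat.totient_pos.2 he0
      rw [← Finset.sum_div, Finset.sum_comm, div_le_iff₀ hφ]
      calc ∑ a ∈ lifts (d * e) d l, ∑ p ∈ SP N ε (d * e),
            |mean y (d * e * p) (d * e) a - Delta y (d * e) a / ((p : ℝ) - 1)|
          ≤ ∑ _a ∈ lifts (d * e) d l, B / ((d * e : ℕ) : ℝ) := by
            apply Finset.sum_le_sum
            intro a ha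
            rw [lifts, Finset.mem_filter] at ha
            exact H (d * e) a (Nat.mul_pos hd he0) ha.2.1
        _ = B / d * (1 / (e : ℝ)) * e.totient := by
            rw [Finset.sum_const, nsmul_eq_mul, card_lifts d e l hd he0 he.1.2.2.1.symm hl]
            push_cast
            field_simp
    calc ∑ e ∈ (Rg N ε d).filter (fun e => e.primeFactors.card = k + 1), f e
        = ∑ e ∈ (Rg N ε d).filter (fun e => e.primeFactors.card = k + 1),
            (fun x : Σ _ : ℕ, ℕ => f (x.1 * x.2)) ⟨e / e.minFac, e.minFac⟩ := by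
          apply Finset.sum_congr rfl
          intro e he
          change f e = f (e / e.minFac * e.minFac)
          rw [(hmem e he).2]
      _ = ∑ x ∈ ((Rg N ε d).filter (fun e => e.primeFactors.card = k + 1)).image
            (fun e : ℕ => (⟨e / e.minFac, e.minFac⟩ : Σ _ : ℕ, ℕ)), f (x.1 * x.2) :=
          (Finset.sum_image (f := fun x : Σ _ : ℕ, ℕ => f (x.1 * x.2)) hinj).symm
      _ ≤ ∑ x ∈ W, f (x.1 * x.2) := by
          apply Finset.sum_le_sum_of_subset_of_nonneg
          · intro x hx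
            rw [Finset.mem_image] at hx
            obtain ⟨e, he, rfl⟩ := hx
            exact (hmem e he).1
          · intro x _ _
            exact hf0 _
      _ = ∑ e ∈ Rk, ∑ p ∈ SP N ε (d * e), f (e * p) := by rw [hW, Finset.sum_sigma]
      _ ≤ ∑ e ∈ Rk, ∑ p ∈ SP N ε (d * e), ((∑ a ∈ lifts (d * e) d l,
            |mean y (d * e * p) (d * e) a - Delta y (d * e) a / ((p : ℝ) - 1)|) /
            (e.totient : ℝ) + 1 / ((p : ℝ) - 1) * f e) := by
          apply Finset.sum_le_sum
          intro e he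
          apply Finset.sum_le_sum
          intro p hp
          exact hstep e he p hp
      _ ≤ ∑ e ∈ Rk, (B / d * (1 / (e : ℝ)) + 2 * (1 + Real.log N) * f e) := by
          apply Finset.sum_le_sum
          intro e he
          rw [Finset.sum_add_distrib, ← Finset.sum_mul]
          apply add_le_add (hfirst e he)
          apply mul_le_mul_of_nonneg_right (sum_SP_le N ε (d * e)) (hf0 e)
      _ = B / d * (∑ e ∈ Rk, 1 / (e : ℝ)) + 2 * (1 + Real.log N) * ∑ e ∈ Rk, f e := by
          rw [Finset.sum_add_distrib, ← Finset.mul_sum, ← Finset.mul_sum]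
      _ ≤ B / d * (1 + Real.log N) + 2 * (1 + Real.log N) * ((3 * (1 + Real.log N)) ^ k * (B / d)) := by
          have h1 := harm_le (N := N) Rk (by
            rw [hRk]
            exact (Finset.filter_subset _ _).trans (Finset.filter_subset _ _))
          have h2 := ih d l hd hl
          have h3 : 0 ≤ B / d := by positivity
          gcongr
      _ ≤ (3 * (1 + Real.log N)) ^ (k + 1) * (B / d) := by
          have h1 : 1 ≤ (3 * (1 + Real.log N)) ^ k := one_le_pow₀ (by linarith)
          have h3 : 0 ≤ B / d := by positivity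
          have h4 : 0 ≤ B / d * (1 + Real.log N) := by positivity
          rw [pow_succ]
          nlinarith

/-- **all rough cofactors** -/
theorem dev_rough (ε : ℝ) (hε : 0 < ε) : ∀ᶠ N : ℕ in atTop, ∀ (d : ℕ) (y : ℝ) (l : ℕ), 0 < d →
    2 ≤ y → y ≤ N → l.Coprime d →
    ∑ e ∈ Rg N ε d, |mean y (d * e) d l - Delta y d l / (e.totient : ℝ)| ≤
      (N : ℝ) ^ (1 - ε / 6) / d := by
  set K : ℕ := ⌊1 / ε⌋₊ with hK
  set κ : ℝ := ε / (60 * ((K : ℝ) + 1)) with hκ
  have hκ0 : 0 < κ := by positivity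
  have e1 : ∀ᶠ x : ℝ in atTop, ‖Real.log x‖ ≤ (1 / 2) * ‖x ^ κ‖ :=
    (isLittleO_log_rpow_atTop (r := κ) hκ0).bound (by norm_num)
  filter_upwards [dev_primes ε hε, tendsto_natCast_atTop_atTop.eventually e1,
    (tendsto_natpow κ hκ0).eventually_ge_atTop ((K : ℝ) + 4), eventually_ge_atTop 2] with
    N h1 h2 h3 hN2 d y l hd hy hyN hl
  have hN1 : (1 : ℝ) < N := by exact_mod_cast hN2
  have hN0 : (0 : ℝ) < N := by linarith
  have hlog : 0 < Real.log N := Real.log_pos hN1
  have hd0 : (0 : ℝ) < d := by exact_mod_cast hd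
  have hK0 : (0 : ℝ) ≤ K := Nat.cast_nonneg K
  rw [Real.norm_of_nonneg hlog.le, Real.norm_of_nonneg (by positivity)] at h2
  have hL : 1 + Real.log N ≤ (N : ℝ) ^ κ := by linarith
  have h3L : 3 * (1 + Real.log N) ≤ (N : ℝ) ^ (2 * κ) := by
    have e : (N : ℝ) ^ (2 * κ) = (N : ℝ) ^ κ * (N : ℝ) ^ κ := by
      rw [← Real.rpow_add hN0]; ring_nf
    rw [e]
    have : (3 : ℝ) ≤ (N : ℝ) ^ κ := by linarith
    gcongr
  have hk := fun k => dev_k (N := N) (ε := ε) (y := y) (B := (N : ℝ) ^ (1 - ε / 5)) (by omega) hε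
    (by positivity) (fun d l hd hl => h1 d y l hd hy hyN hl) k d l hd hl
  -- the number of prime factors
  have hcard : ∀ e ∈ Rg N ε d, e.primeFactors.card ∈ Finset.range (K + 1) := by
    intro e he
    rw [Rg, Finset.mem_filter, Finset.mem_Icc] at he
    obtain ⟨⟨he1, heN⟩, _, _, hrough, _⟩ := he
    have hz : 1 < (N : ℝ) ^ ε := Real.one_lt_rpow hN1 hε
    have h4 := card_large e (by omega) ((N : ℝ) ^ ε) N hz (by exact_mod_cast heN)
    have h5 : e.primeFactors.filter (fun p : ℕ => (N : ℝ) ^ ε < (p : ℝ)) = e.primeFactors := by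
      apply Finset.filter_true_of_mem
      intro p hp
      exact hrough p hp
    rw [h5, Real.log_rpow hN0] at h4
    have h6 : Real.log N / (ε * Real.log N) = 1 / ε := by field_simp
    rw [h6] at h4
    rw [Finset.mem_range]
    have h7 := Nat.le_floor h4
    omega
  rw [← Finset.sum_fiberwise_of_maps_to hcard]
  calc ∑ k ∈ Finset.range (K + 1), ∑ e ∈ (Rg N ε d).filter (fun e => e.primeFactors.card = k),
        |mean y (d * e) d l - Delta y d l / (e.totient : ℝ)|
      ≤ ∑ k ∈ Finset.range (K + 1), (3 * (1 + Real.log N)) ^ k * ((N : ℝ) ^ (1 - ε / 5) / d) :=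
        Finset.sum_le_sum fun k _ => hk k
    _ ≤ ∑ _k ∈ Finset.range (K + 1), (N : ℝ) ^ (2 * κ * K) * ((N : ℝ) ^ (1 - ε / 5) / d) := by
        apply Finset.sum_le_sum
        intro k hk
        rw [Finset.mem_range] at hk
        have h8 : (3 * (1 + Real.log N)) ^ k ≤ (N : ℝ) ^ (2 * κ * K) := by
          calc (3 * (1 + Real.log N)) ^ k ≤ (3 * (1 + Real.log N)) ^ K :=
                pow_le_pow_right₀ (by linarith) (by omega)
            _ ≤ ((N : ℝ) ^ (2 * κ)) ^ K := by gcongr
            _ = (N : ℝ) ^ (2 * κ * K) := by rw [← Real.rpow_natCast, ← Real.rpow_mul hN0.le]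
        gcongr
    _ = ((K : ℝ) + 1) * ((N : ℝ) ^ (2 * κ * K) * ((N : ℝ) ^ (1 - ε / 5) / d)) := by
        rw [Finset.sum_const, Finset.card_range, nsmul_eq_mul]; push_cast; ring
    _ ≤ (N : ℝ) ^ (2 * κ) * ((N : ℝ) ^ (2 * κ * K) * ((N : ℝ) ^ (1 - ε / 5) / d)) := by
        have h9 : (K : ℝ) + 1 ≤ (N : ℝ) ^ (2 * κ) := by
          calc (K : ℝ) + 1 ≤ (N : ℝ) ^ κ := by linarith
            _ ≤ (N : ℝ) ^ (2 * κ) := Real.rpow_le_rpow_of_exponent_le hN1.le (by linarith)
        gcongr
    _ = (N : ℝ) ^ (1 - ε / 6) / d := by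
        have e2 : (N : ℝ) ^ (2 * κ) * ((N : ℝ) ^ (2 * κ * K) * ((N : ℝ) ^ (1 - ε / 5) / d)) =
            ((N : ℝ) ^ (2 * κ) * (N : ℝ) ^ (2 * κ * K) * (N : ℝ) ^ (1 - ε / 5)) / d := by ring
        have e3 : 2 * κ + 2 * κ * K + (1 - ε / 5) = 1 - ε / 6 := by
          rw [hκ]
          field_simp
          ring
        rw [e2, ← Real.rpow_add hN0, ← Real.rpow_add hN0, e3]

end EH60
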