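import Pool.Agent.EH60.Rough2

/-!
# The hybrid sum over all rough cofactors
-/

noncomputable section

namespace EH60

open Finset Filter

/-- covering by blocks -/
theorem cover {N : ℕ} {ε Bd : ℝ} (hε : 0 < ε) (hN : 2 ≤ N) {d : ℕ} (hd : 0 < d) (f : ℕ → ℝ)
    (hf0 : ∀ p, p.Prime → 0 ≤ f p) (hBd : 0 ≤ Bd)
    (hb : ∀ P : ℝ, (N : ℝ) ^ ε ≤ P → d * P ≤ (N : ℝ) ^ (1 - ε) → ∑ p ∈ Pbc P d, f p ≤ Bd) :
    ∑ p ∈ SP N ε d, f p ≤ (Real.log N + 1) * Bd := by
  have hN2' : (2 : ℝ) ≤ N := by exact_mod_cast hN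
  have hN0 : (0 : ℝ) < N := by linarith
  have hlog : 0 ≤ Real.log N := Real.log_nonneg (by linarith)
  have hd0 : (0 : ℝ) < d := by exact_mod_cast hd
  have hd1 : (1 : ℝ) ≤ d := by exact_mod_cast hd
  set X : ℝ := (N : ℝ) ^ (1 - ε) / d with hX
  have hX0 : 0 < X := by positivity
  have hXN : X ≤ N := by
    calc X ≤ (N : ℝ) ^ (1 - ε) := div_le_self (by positivity) hd1
      _ ≤ (N : ℝ) ^ (1 : ℝ) := Real.rpow_le_rpow_of_exponent_le (by linarith) (by linarith)
      _ = N := Real.rpow_one _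
  set J : ℕ := ⌊Real.log N⌋₊ + 1 with hJ
  have hJ' : (J : ℝ) ≤ Real.log N + 1 := by
    rw [hJ]; push_cast
    linarith [Nat.floor_le hlog]
  have hJlt : Real.log N < J := by rw [hJ]; push_cast; exact Nat.lt_floor_add_one _
  have hcov : ∀ p ∈ SP N ε d, ∃ j ∈ Finset.range J, (N : ℝ) ^ ε ≤ X / 4 ^ j ∧ p ∈ Pbc (X / 4 ^ j) d := by
    intro p hp
    rw [SP, Finset.mem_filter, Finset.mem_Icc] at hp
    obtain ⟨⟨hp1, hpN⟩, hpp, hp2, hp3, hp4⟩ := hp
    have hp0 : (0 : ℝ) < p := by exact_mod_cast hpp.pos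
    have hpX : (p : ℝ) ≤ X := by rw [hX, le_div_iff₀ hd0]; linarith
    have hex : ∃ j : ℕ, X / 4 ^ (j + 1) < p := by
      have h3 : Tendsto (fun j : ℕ => X / 4 ^ (j + 1)) atTop (nhds 0) := by
        have h4 : Tendsto (fun j : ℕ => X * (1 / 4 : ℝ) ^ (j + 1)) atTop (nhds (X * 0)) :=
          ((tendsto_pow_atTop_nhds_zero_of_lt_one (by norm_num) (by norm_num)).comp
            (tendsto_add_atTop_nat 1)).const_mul X
        rw [mul_zero] at h4
        refine h4.congr (fun j => ?_)
        rw [one_div, inv_pow, div_eq_mul_inv]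
      exact (h3.eventually_lt_const hp0).exists
    classical
    set j := Nat.find hex with hj
    have hj1 : X / 4 ^ (j + 1) < p := Nat.find_spec hex
    have hj2 : (p : ℝ) ≤ X / 4 ^ j := by
      rcases Nat.eq_zero_or_pos j with h0 | h0
      · rw [h0, pow_zero, div_one]; exact hpX
      · have h5 := Nat.find_min hex (m := j - 1) (by omega)
        rw [not_lt] at h5
        have h6 : j - 1 + 1 = j := by omega
        rwa [h6] at h5
    refine ⟨j, ?_, hp2.le.trans hj2, ?_⟩
    · rw [Finset.mem_range]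
      by_contra hcon
      rw [not_lt] at hcon
      have h7 : (4 : ℝ) ^ j ≤ N := by
        have h8 : (1 : ℝ) ≤ X / 4 ^ j := by
          refine le_trans ?_ hj2
          exact_mod_cast hpp.one_le
        rw [le_div_iff₀ (by positivity)] at h8
        linarith
      have h9 : (J : ℝ) ≤ Real.log N := by
        calc (J : ℝ) ≤ j := by exact_mod_cast hcon
          _ ≤ j * Real.log 4 := by
              have hl2 := Real.log_two_gt_d9
              have hl4 : Real.log 4 = 2 * Real.log 2 := by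
                rw [show (4 : ℝ) = 2 ^ 2 by norm_num, Real.log_pow]; norm_num
              have : (0 : ℝ) ≤ j := Nat.cast_nonneg _
              nlinarith
          _ = Real.log (4 ^ j) := by rw [Real.log_pow]
          _ ≤ Real.log N := Real.log_le_log (by positivity) h7
      linarith
    · rw [mem_Pbc (by positivity)]
      refine ⟨⟨⟨?_, hj2⟩, hpp⟩, hp4⟩
      rw [pow_succ, ← div_div] at hj1
      exact hj1
  have hfS : ∀ p ∈ SP N ε d, 0 ≤ f p := by
    intro p hp
    rw [SP, Finset.mem_filter] at hp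
    exact hf0 p hp.2.1
  calc ∑ p ∈ SP N ε d, f p
      ≤ ∑ p ∈ SP N ε d, ∑ j ∈ Finset.range J,
          (if (N : ℝ) ^ ε ≤ X / 4 ^ j ∧ p ∈ Pbc (X / 4 ^ j) d then f p else 0) := by
        apply Finset.sum_le_sum
        intro p hp
        obtain ⟨j, hj, hj'⟩ := hcov p hp
        have h3 := Finset.single_le_sum (s := Finset.range J) (f := fun j =>
          (if (N : ℝ) ^ ε ≤ X / 4 ^ j ∧ p ∈ Pbc (X / 4 ^ j) d then f p else 0)) (by
            intro i _
            split_ifs
            · exact hfS p hp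
            · exact le_rfl) hj
        rwa [if_pos hj'] at h3
    _ = ∑ j ∈ Finset.range J, ∑ p ∈ SP N ε d,
          (if (N : ℝ) ^ ε ≤ X / 4 ^ j ∧ p ∈ Pbc (X / 4 ^ j) d then f p else 0) := Finset.sum_comm
    _ ≤ ∑ _j ∈ Finset.range J, Bd := by
        apply Finset.sum_le_sum
        intro j _
        by_cases hjN : (N : ℝ) ^ ε ≤ X / 4 ^ j
        · have hb' := hb (X / 4 ^ j) hjN (by
              have : X / 4 ^ j ≤ X := div_le_self hX0.le (one_le_pow₀ (by norm_num))
              calc (d : ℝ) * (X / 4 ^ j) ≤ d * X := by gcongr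
                _ = (N : ℝ) ^ (1 - ε) := by rw [hX]; field_simp)
          refine le_trans ?_ hb'
          rw [← Finset.sum_filter]
          apply Finset.sum_le_sum_of_subset_of_nonneg
          · intro p hp
            rw [Finset.mem_filter] at hp
            exact hp.2.2
          · intro p hp _
            rw [Pbc, Finset.mem_filter, Pb, Finset.mem_filter] at hp
            exact hf0 p hp.1.2
        · have : ∀ p ∈ SP N ε d, (if (N : ℝ) ^ ε ≤ X / 4 ^ j ∧ p ∈ Pbc (X / 4 ^ j) d then f p else 0) = 0 := by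
            intro p _
            rw [if_neg (fun h => hjN h.1)]
          rw [Finset.sum_congr rfl this, Finset.sum_const_zero]
          exact hBd
    _ = J * Bd := by rw [Finset.sum_const, Finset.card_range, nsmul_eq_mul]
    _ ≤ (Real.log N + 1) * Bd := by gcongr

theorem sum_SP_bdd (ε : ℝ) (hε : 0 < ε) : ∀ᶠ N : ℕ in atTop, ∀ n : ℕ, 0 < n →
    ∑ p ∈ SP N ε n, 1 / ((p : ℝ) - 1) ≤ 64 / ε := by
  filter_upwards [sg_upper ε hε, eventually_ge_atTop 3] with N h1 hN n hn
  have hN3 : (3 : ℝ) ≤ N := by exact_mod_cast hN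
  have hlog : 1 ≤ Real.log N := by
    rw [Real.le_log_iff_exp_le (by linarith)]
    linarith [Real.exp_one_lt_d9]
  have h2 := cover (N := N) (ε := ε) (Bd := 32 / ε / Real.log N) hε (by omega) hn
    (fun p => 1 / ((p : ℝ) - 1)) (by
      intro p hp
      have : (2 : ℝ) ≤ p := by exact_mod_cast hp.two_le
      apply one_div_nonneg.2
      linarith) (by positivity) (fun P hP _ => h1 P n hP)
  refine h2.trans ?_
  calc (Real.log N + 1) * (32 / ε / Real.log N) ≤ (2 * Real.log N) * (32 / ε / Real.log N) := by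
        gcongr; linarith
    _ = 64 / ε := by field_simp; norm_num

/-- peeling off the least prime factor -/
theorem sum_Rk_succ {N : ℕ} {ε : ℝ} (k d : ℕ) (f : ℕ → ℝ) (hf0 : ∀ e, 0 ≤ f e) :
    ∑ e ∈ (Rg N ε d).filter (fun e => e.primeFactors.card = k + 1), f e ≤
      ∑ e ∈ (Rg N ε d).filter (fun e => e.primeFactors.card = k), ∑ p ∈ SP N ε (d * e), f (e * p) := by
  set Rk := (Rg N ε d).filter (fun e => e.primeFactors.card = k) with hRk
  set W : Finset (Σ _ : ℕ, ℕ) := Rk.sigma (fun e => SP N ε (d * e)) with hW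
  have hmem : ∀ e ∈ (Rg N ε d).filter (fun e => e.primeFactors.card = k + 1),
      (⟨e / e.minFac, e.minFac⟩ : Σ _ : ℕ, ℕ) ∈ W ∧ e / e.minFac * e.minFac = e := by
    intro e he
    rw [Finset.mem_filter, Rg, Finset.mem_filter, Finset.mem_Icc] at he
    obtain ⟨⟨⟨he1, heN⟩, hsq, hco, hrough, hle⟩, hcard⟩ := he
    have hne : e ≠ 1 := by
      rintro rfl
      simp at hcard
    have hpp : e.minFac.Prime := Nat.minFac_prime hne
    have hpe : e.minFac ∣ e := Nat.minFac_dvd e
    set p := e.minFac with hp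
    set e' := e / p with he'
    have hmul : e' * p = e := Nat.div_mul_cancel hpe
    have he'pos : 0 < e' := Nat.div_pos (Nat.le_of_dvd (by omega) hpe) hpp.pos
    have hsq' : Squarefree (e' * p) := by rw [hmul]; exact hsq
    rw [Nat.squarefree_mul_iff] at hsq'
    obtain ⟨hco', hsqe', _⟩ := hsq'
    have he'e : e' ∣ e := Dvd.intro _ hmul
    have he'le : e' ≤ e := Nat.le_of_dvd (by omega) he'e
    have hpd : p.Coprime d := Nat.Coprime.coprime_dvd_left hpe hco
    refine ⟨?_, hmul⟩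
    rw [hW, Finset.mem_sigma]
    refine ⟨?_, ?_⟩
    · rw [hRk, Finset.mem_filter, Rg, Finset.mem_filter, Finset.mem_Icc]
      refine ⟨⟨⟨he'pos, he'le.trans heN⟩, hsqe', Nat.Coprime.coprime_dvd_left he'e hco,
        fun q hq => hrough q (Nat.primeFactors_mono he'e (by omega) hq), ?_⟩, ?_⟩
      · refine le_trans ?_ hle
        have : (e' : ℝ) ≤ e := by exact_mod_cast he'le
        gcongr
      · have h1 := card_pf_mul hco'
        rw [hmul, hcard, hpp.primeFactors, Finset.card_singleton] at h1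
        change e'.primeFactors.card = k
        omega
    · rw [SP, Finset.mem_filter, Finset.mem_Icc]
      refine ⟨⟨hpp.one_le, (Nat.le_of_dvd (by omega) hpe).trans heN⟩, hpp,
        hrough p (Nat.mem_primeFactors.2 ⟨hpp, hpe, by omega⟩), ?_, ?_⟩
      · change ((d * e' : ℕ) : ℝ) * (p : ℝ) ≤ _
        have h1 : ((d * e' : ℕ) : ℝ) * (p : ℝ) = d * e := by
          rw [← hmul]; push_cast; ring
        rw [h1]
        exact hle
      · change ¬ p ∣ d * e'
        rw [← Nat.Prime.coprime_iff_not_dvd hpp]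
        exact Nat.Coprime.mul_right hpd hco'.symm
  have hinj : Set.InjOn (fun e : ℕ => (⟨e / e.minFac, e.minFac⟩ : Σ _ : ℕ, ℕ))
      ((Rg N ε d).filter (fun e => e.primeFactors.card = k + 1)) := by
    intro e he e2 he2 h
    have h1 := (hmem e he).2
    have h2 := (hmem e2 he2).2
    have h3 : e / e.minFac = e2 / e2.minFac ∧ e.minFac = e2.minFac := by
      have h4 := Sigma.mk.inj_iff.1 h
      exact ⟨h4.1, eq_of_heq h4.2⟩
    rw [← h1, ← h2, h3.1, h3.2]
  calc ∑ e ∈ (Rg N ε d).filter (fun e => e.primeFactors.card = k + 1), f e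
      = ∑ e ∈ (Rg N ε d).filter (fun e => e.primeFactors.card = k + 1),
          (fun x : Σ _ : ℕ, ℕ => f (x.1 * x.2)) ⟨e / e.minFac, e.minFac⟩ := by
        apply Finset.sum_congr rfl
        intro e he
        change f e = f (e / e.minFac * e.minFac)
        rw [(hmem e he).2]
    _ = ∑ x ∈ ((Rg N ε d).filter (fun e => e.primeFactors.card = k + 1)).image
          (fun e : ℕ => (⟨e / e.minFac, e.minFac⟩ : Σ _ : ℕ, ℕ)), f (x.1 * x.2) :=
        (Finset.sum_image (f := fun x : Σ _ : ℕ, ℕ => f (x.1 * x.2)) hinj).symm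
    _ ≤ ∑ x ∈ W, f (x.1 * x.2) := by
        apply Finset.sum_le_sum_of_subset_of_nonneg
        · intro x hx
          rw [Finset.mem_image] at hx
          obtain ⟨e, he, rfl⟩ := hx
          exact (hmem e he).1
        · intro x _ _
          exact hf0 _
    _ = ∑ e ∈ Rk, ∑ p ∈ SP N ε (d * e), f (e * p) := by rw [hW, Finset.sum_sigma]

theorem sum_wt_Rk {N : ℕ} {ε C : ℝ} (hC : 0 ≤ C)
    (H : ∀ n : ℕ, 0 < n → ∑ p ∈ SP N ε n, 1 / ((p : ℝ) - 1) ≤ C) (k d : ℕ) (hd : 0 < d) :
    ∑ e ∈ (Rg N ε d).filter (fun e => e.primeFactors.card = k), wt e / (e.totient : ℝ) ≤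
      (3 * C) ^ k := by
  induction k with
  | zero =>
    have h0 : (Rg N ε d).filter (fun e => e.primeFactors.card = 0) ⊆ {1} := by
      intro e he
      rw [Finset.mem_filter, Rg, Finset.mem_filter, Finset.mem_Icc] at he
      rw [Finset.mem_singleton]
      have h2 := he.2
      rw [Finset.card_eq_zero, Nat.primeFactors_eq_empty] at h2
      omega
    refine (Finset.sum_le_sum_of_subset_of_nonneg h0 ?_).trans ?_
    · intro e _ _
      exact div_nonneg (wt_nonneg e) (Nat.cast_nonneg _)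
    · rw [Finset.sum_singleton, wt_of_squarefree squarefree_one]
      simp
  | succ k ih =>
    refine (sum_Rk_succ k d (fun e => wt e / (e.totient : ℝ)) (fun e =>
      div_nonneg (wt_nonneg e) (Nat.cast_nonneg _))).trans ?_
    calc ∑ e ∈ (Rg N ε d).filter (fun e => e.primeFactors.card = k), ∑ p ∈ SP N ε (d * e),
          wt (e * p) / ((e * p).totient : ℝ)
        ≤ ∑ e ∈ (Rg N ε d).filter (fun e => e.primeFactors.card = k),
            wt e / (e.totient : ℝ) * (3 * C) := by
          apply Finset.sum_le_sum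
          intro e he
          rw [Finset.mem_filter, Rg, Finset.mem_filter, Finset.mem_Icc] at he
          have hsq := he.1.2.1
          have h1 : ∀ p ∈ SP N ε (d * e), wt (e * p) / ((e * p).totient : ℝ) =
              wt e / (e.totient : ℝ) * (3 * (1 / ((p : ℝ) - 1))) := by
            intro p hp
            rw [SP, Finset.mem_filter] at hp
            have hpp := hp.2.1
            have cp : e.Coprime p := by
              have h2 : ¬ p ∣ e := fun h => hp.2.2.2.2 (h.mul_left d)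
              exact ((Nat.Prime.coprime_iff_not_dvd hpp).2 h2).symm
            rw [wt_mul cp hsq hpp.squarefree, wt_prime hpp, Nat.totient_mul cp,
              Nat.totient_prime hpp, Nat.cast_mul, Nat.cast_sub hpp.one_le, Nat.cast_one,
              mul_div_mul_comm, mul_one_div]
          rw [Finset.sum_congr rfl h1, ← Finset.mul_sum, ← Finset.mul_sum]
          have h2 := H (d * e) (Nat.mul_pos hd (by omega))
          have h3 : 0 ≤ wt e / (e.totient : ℝ) := div_nonneg (wt_nonneg e) (Nat.cast_nonneg _)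
          gcongr
      _ = (∑ e ∈ (Rg N ε d).filter (fun e => e.primeFactors.card = k),
            wt e / (e.totient : ℝ)) * (3 * C) := by rw [Finset.sum_mul]
      _ ≤ (3 * C) ^ k * (3 * C) := by gcongr
      _ = (3 * C) ^ (k + 1) := by rw [pow_succ]

theorem card_Rg {N : ℕ} {ε : ℝ} (hN : 2 ≤ N) (hε : 0 < ε) (d : ℕ) :
    ∀ e ∈ Rg N ε d, e.primeFactors.card ∈ Finset.range (⌊1 / ε⌋₊ + 1) := by
  have hN1 : (1 : ℝ) < N := by exact_mod_cast hN
  have hN0 : (0 : ℝ) < N := by linarith
  have hlog : 0 < Real.log N := Real.log_pos hN1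
  intro e he
  rw [Rg, Finset.mem_filter, Finset.mem_Icc] at he
  obtain ⟨⟨he1, heN⟩, _, _, hrough, _⟩ := he
  have hz : 1 < (N : ℝ) ^ ε := Real.one_lt_rpow hN1 hε
  have h4 := card_large e (by omega) ((N : ℝ) ^ ε) N hz (by exact_mod_cast heN)
  have h5 : e.primeFactors.filter (fun p : ℕ => (N : ℝ) ^ ε < (p : ℝ)) = e.primeFactors := by
    apply Finset.filter_true_of_mem
    intro p hp
    exact hrough p hp
  rw [h5, Real.log_rpow hN0] at h4
  have h6 : Real.log N / (ε * Real.log N) = 1 / ε := by field_simp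
  rw [h6] at h4
  rw [Finset.mem_range]
  have h7 := Nat.le_floor h4
  omega

/-- the sum of the weights over the rough cofactors -/
theorem sum_wt_Rg (ε : ℝ) (hε : 0 < ε) : ∃ C : ℝ, 0 < C ∧ ∀ᶠ N : ℕ in atTop, ∀ d : ℕ, 0 < d →
    ∑ e ∈ Rg N ε d, wt e / (e.totient : ℝ) ≤ C := by
  refine ⟨∑ k ∈ Finset.range (⌊1 / ε⌋₊ + 1), (3 * (64 / ε)) ^ k, ?_, ?_⟩
  · apply Finset.sum_pos
    · intro k _
      positivity
    · simp
  filter_upwards [sum_SP_bdd ε hε, eventually_ge_atTop 2] with N h1 hN d hd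
  rw [← Finset.sum_fiberwise_of_maps_to (card_Rg hN hε d)]
  exact Finset.sum_le_sum fun k _ => sum_wt_Rk (by positivity) h1 k d hd

/-- The supremum over `2 ≤ y ≤ N` and the classes `l` modulo `d` of the sum over the rough cofactors `e`
of `3^{ν(e)}` times the mean error modulo `d e` over the classes above `l` modulo `d`. -/
def hybR (N : ℕ) (ε : ℝ) (d : ℕ) : ℝ :=
  sSup {x : ℝ | ∃ (y : ℝ) (l : ℕ), 2 ≤ y ∧ y ≤ N ∧ l.Coprime d ∧
    x = ∑ e ∈ Rg N ε d, wt e * mean y (d * e) d l}

theorem hybR_bdd (N : ℕ) (ε : ℝ) (d : ℕ) : BddAbove {x : ℝ | ∃ (y : ℝ) (l : ℕ), 2 ≤ y ∧ y ≤ N ∧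
    l.Coprime d ∧ x = ∑ e ∈ Rg N ε d, wt e * mean y (d * e) d l} := by
  refine ⟨∑ e ∈ Rg N ε d, wt e * E N (d * e), ?_⟩
  rintro x ⟨y, l, h1, h2, _, rfl⟩
  exact Finset.sum_le_sum fun e _ => mul_le_mul_of_nonneg_left (mean_le N y _ d l h1 h2) (wt_nonneg e)

theorem le_hybR (N : ℕ) (ε : ℝ) (d : ℕ) (y : ℝ) (l : ℕ) (h1 : 2 ≤ y) (h2 : y ≤ N) (h3 : l.Coprime d) :
    ∑ e ∈ Rg N ε d, wt e * mean y (d * e) d l ≤ hybR N ε d :=
  le_csSup (hybR_bdd N ε d) ⟨y, l, h1, h2, h3, rfl⟩

/-- The hybrid bound at level `N^(1-ε)`. -/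
def HybR (α ε : ℝ) : Prop :=
  ∃ C₁ K : ℝ, ∀ᶠ N : ℕ in atTop,
    ∑ d ∈ (Finset.Icc (1 : ℕ) N).filter (fun d : ℕ => (d : ℝ) < (N : ℝ) ^ α / Real.log N ^ C₁),
      wt d * hybR N ε d ≤ K * N / Real.log N ^ 3

theorem E_le_hybR {N : ℕ} (hN : 2 ≤ N) (ε : ℝ) (d : ℕ) (hd : 0 < d) (hdN : (d : ℝ) ≤ (N : ℝ) ^ (1 - ε)) :
    E N d ≤ hybR N ε d := by
  apply csSup_le
  · exact ⟨Delta 2 d 1, 2, 1, le_rfl, by exact_mod_cast hN, Nat.coprime_one_left _, rfl⟩
  · rintro x ⟨y, l, h1, h2, h3, rfl⟩
    refine le_trans ?_ (le_hybR N ε d y l h1 h2 h3)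
    have hmem : 1 ∈ Rg N ε d := by
      rw [Rg, Finset.mem_filter, Finset.mem_Icc]
      refine ⟨⟨le_rfl, by omega⟩, squarefree_one, Nat.coprime_one_left _, ?_, ?_⟩
      · intro p hp
        simp at hp
      · rw [Nat.cast_one, mul_one]; exact hdN
    have h4 := Finset.single_le_sum (s := Rg N ε d) (f := fun e => wt e * mean y (d * e) d l)
      (fun e _ => mul_nonneg (wt_nonneg e) (mean_nonneg _ _ _ _)) hmem
    have h5 : wt 1 * mean y (d * 1) d l = Delta y d l := by
      rw [mul_one, mean_self y d l hd h3, wt_of_squarefree squarefree_one]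
      simp
    have h6 : (fun e => wt e * mean y (d * e) d l) 1 = Delta y d l := h5
    rw [← h6]
    exact h4

theorem hybR_le (ε : ℝ) (hε : 0 < ε) : ∃ C : ℝ, 0 < C ∧ ∀ᶠ N : ℕ in atTop, ∀ d : ℕ, 0 < d →
    hybR N ε d ≤ C * E N d + C * ((N : ℝ) ^ (1 - ε / 6) / d) := by
  obtain ⟨C, hC, hCN⟩ := sum_wt_Rg ε hε
  refine ⟨max C (3 ^ ⌊1 / ε⌋₊), lt_max_of_lt_left hC, ?_⟩
  filter_upwards [hCN, dev_rough ε hε, eventually_ge_atTop 2] with N h1 h2 hN d hd
  have hN2' : (2 : ℝ) ≤ N := by exact_mod_cast hN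
  apply csSup_le
  · exact ⟨_, 2, 1, le_rfl, hN2', Nat.coprime_one_left _, rfl⟩
  · rintro x ⟨y, l, g1, g2, g3, rfl⟩
    have hwt : ∀ e ∈ Rg N ε d, wt e ≤ 3 ^ ⌊1 / ε⌋₊ := by
      intro e he
      refine (wt_le e).trans ?_
      have h3 := card_Rg hN hε d e he
      rw [Finset.mem_range] at h3
      exact pow_le_pow_right₀ (by norm_num) (by omega)
    calc ∑ e ∈ Rg N ε d, wt e * mean y (d * e) d l
        ≤ ∑ e ∈ Rg N ε d, (wt e / (e.totient : ℝ) * Delta y d l +
            3 ^ ⌊1 / ε⌋₊ * |mean y (d * e) d l - Delta y d l / (e.totient : ℝ)|) := by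
          apply Finset.sum_le_sum
          intro e he
          have h4 : mean y (d * e) d l ≤ Delta y d l / (e.totient : ℝ) +
              |mean y (d * e) d l - Delta y d l / (e.totient : ℝ)| := by
            have := le_abs_self (mean y (d * e) d l - Delta y d l / (e.totient : ℝ))
            linarith
          calc wt e * mean y (d * e) d l ≤ wt e * (Delta y d l / (e.totient : ℝ) +
              |mean y (d * e) d l - Delta y d l / (e.totient : ℝ)|) :=
                mul_le_mul_of_nonneg_left h4 (wt_nonneg e)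
            _ = wt e / (e.totient : ℝ) * Delta y d l +
              wt e * |mean y (d * e) d l - Delta y d l / (e.totient : ℝ)| := by ring
            _ ≤ _ := by
              have := hwt e he
              gcongr
      _ = (∑ e ∈ Rg N ε d, wt e / (e.totient : ℝ)) * Delta y d l +
            3 ^ ⌊1 / ε⌋₊ * ∑ e ∈ Rg N ε d,
              |mean y (d * e) d l - Delta y d l / (e.totient : ℝ)| := by
          rw [Finset.sum_add_distrib, ← Finset.sum_mul, ← Finset.mul_sum]
      _ ≤ C * E N d + 3 ^ ⌊1 / ε⌋₊ * ((N : ℝ) ^ (1 - ε / 6) / d) := by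
          have h5 := le_E N d y l g1 g2 g3
          have h6 := h1 d hd
          have h7 := h2 d y l hd g1 g2 g3
          have h8 := Delta_nonneg y d l
          gcongr
      _ ≤ _ := by
          have h9 := E_nonneg N d
          have h10 : (0 : ℝ) ≤ (N : ℝ) ^ (1 - ε / 6) / d := by positivity
          apply add_le_add
          · exact mul_le_mul_of_nonneg_right (le_max_left _ _) h9
          · exact mul_le_mul_of_nonneg_right (le_max_right _ _) h10

theorem hybR_iff (α ε : ℝ) (hα : 0 < α) (hε : 0 < ε) (hαε : α + 2 * ε ≤ 1) :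
    Admissible α ↔ HybR α ε := by
  obtain ⟨C, hC, hCN⟩ := hybR_le ε hε
  obtain ⟨C', hC', hCN'⟩ := sum_wt_div (ε / 24) (by positivity)
  constructor
  · rintro ⟨C₁, K, hK⟩
    refine ⟨C₁, C * K + 1, ?_⟩
    filter_upwards [hK, hCN, hCN', small_error (C * C') (ε / 12) (by positivity) (by positivity),
      eventually_ge_atTop 3] with N h1 h2 h3 h4 hN
    have hN3 : (3 : ℝ) ≤ N := by exact_mod_cast hN
    have hN0 : (0 : ℝ) < N := by linarith
    have hlog : 1 ≤ Real.log N := by
      rw [Real.le_log_iff_exp_le (by linarith)]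
      linarith [Real.exp_one_lt_d9]
    set S := (Finset.Icc (1 : ℕ) N).filter (fun d : ℕ => (d : ℝ) < (N : ℝ) ^ α / Real.log N ^ C₁) with hS
    calc ∑ d ∈ S, wt d * hybR N ε d
        ≤ ∑ d ∈ S, (C * (wt d * E N d) + C * (N : ℝ) ^ (1 - ε / 6) * (wt d / d)) := by
          apply Finset.sum_le_sum
          intro d hd
          rw [hS, Finset.mem_filter, Finset.mem_Icc] at hd
          calc wt d * hybR N ε d ≤ wt d * (C * E N d + C * ((N : ℝ) ^ (1 - ε / 6) / d)) :=
                mul_le_mul_of_nonneg_left (h2 d (by omega)) (wt_nonneg d)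
            _ = _ := by ring
      _ = C * (∑ d ∈ S, wt d * E N d) + C * (N : ℝ) ^ (1 - ε / 6) * ∑ d ∈ S, wt d / d := by
          rw [Finset.sum_add_distrib, ← Finset.mul_sum, ← Finset.mul_sum]
      _ ≤ C * (K * N / Real.log N ^ 3) + C * (N : ℝ) ^ (1 - ε / 6) * (C' * (N : ℝ) ^ (2 * (ε / 24))) := by
          have := h3 S (Finset.filter_subset _ _)
          gcongr
      _ = C * K * N / Real.log N ^ 3 + C * C' * (N : ℝ) ^ (1 - ε / 12) := by
          have e1 : C * (N : ℝ) ^ (1 - ε / 6) * (C' * (N : ℝ) ^ (2 * (ε / 24))) =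
              C * C' * ((N : ℝ) ^ (1 - ε / 6) * (N : ℝ) ^ (2 * (ε / 24))) := by ring
          rw [e1, ← Real.rpow_add hN0]
          ring_nf
      _ ≤ C * K * N / Real.log N ^ 3 + N / Real.log N ^ 3 := by
          have h5 : (N : ℝ) / Real.log N ^ 4 ≤ N / Real.log N ^ 3 := by
            apply div_le_div_of_nonneg_left hN0.le (by positivity)
            exact pow_le_pow_right₀ hlog (by norm_num)
          linarith
      _ = (C * K + 1) * N / Real.log N ^ 3 := by ring
  · rintro ⟨C₁, K, hK⟩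
    refine ⟨C₁, K, ?_⟩
    have elog : ∀ᶠ x : ℝ in atTop, x ^ (-C₁) ≤ Real.exp x ^ ε := by
      have h0 := (isLittleO_rpow_exp_pos_mul_atTop (-C₁) (b := ε) hε).bound
        (c := 1) (by norm_num)
      filter_upwards [h0, eventually_gt_atTop 0] with x hx hx0
      rw [Real.norm_of_nonneg (by positivity), Real.norm_of_nonneg (by positivity), one_mul] at hx
      rwa [← Real.exp_mul, mul_comm x]
    have elog' := (Real.tendsto_log_atTop.comp tendsto_natCast_atTop_atTop).eventually elog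
    filter_upwards [hK, elog', eventually_ge_atTop 2] with N h1 h6 hN
    have hN1 : (1 : ℝ) < N := by exact_mod_cast hN
    have hN0 : (0 : ℝ) < N := by linarith
    have hlog : 0 < Real.log N := Real.log_pos hN1
    refine le_trans ?_ h1
    apply Finset.sum_le_sum
    intro d hd
    rw [Finset.mem_filter, Finset.mem_Icc] at hd
    apply mul_le_mul_of_nonneg_left _ (wt_nonneg d)
    apply E_le_hybR hN ε d (by omega)
    have g1 : (N : ℝ) ^ α / Real.log N ^ C₁ ≤ (N : ℝ) ^ (α + ε) := by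
      simp only [Function.comp] at h6
      rw [Real.exp_log hN0, Real.rpow_neg hlog.le] at h6
      rw [Real.rpow_add hN0, div_eq_mul_inv]
      gcongr
    exact hd.2.le.trans (g1.trans (Real.rpow_le_rpow_of_exponent_le hN1.le (by linarith)))

end EH60
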