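import Pool.Agent.EH60.Main

noncomputable section

namespace EH60

open Finset Filter

theorem three_pow_ge (k : ℕ) : (k : ℝ) ≤ 3 ^ k := by
  have : k < 3 ^ k := Nat.lt_pow_self (by norm_num)
  exact_mod_cast this.le

/-- The unconditional transfer inequality. -/
theorem transfer (α η : ℝ) (hα : 0 < α) (hα1 : α < 1) (hη : 0 < η) :
    ∀ᶠ N : ℕ in atTop, ∀ (m : ℕ) (Q : ℝ), Squarefree m → m * (N : ℝ) ^ α * (N : ℝ) ^ η ≤ Q →
      Q ≤ N →
      ∑ d ∈ (Finset.Icc 1 N).filter (fun d : ℕ => (d : ℝ) ≤ (N : ℝ) ^ α), wt d * E N d ≤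
        8 / (3 * η) * Real.log N / share m *
          ∑ n ∈ block N Q m, wt n * H N ((N : ℝ) ^ α) n + (N : ℝ) ^ ((1 + α) / 2) := by
  set ε : ℝ := (1 - α) / 8 with hε
  have hε0 : 0 < ε := by rw [hε]; linarith
  obtain ⟨C₁, hC₁1, hC₁⟩ := three_pow_le ε hε0
  obtain ⟨C₂, hC₂1, hC₂⟩ := sum_wt_le ε hε0
  have e1 : ∀ᶠ x : ℝ in atTop, ‖Real.log x‖ ≤ (1 / (32 * C₁ * C₂)) * ‖x ^ ((1 - α) / 4)‖ :=
    (isLittleO_log_rpow_atTop (r := (1 - α) / 4) (by linarith)).bound (by positivity)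
  have e2 : ∀ᶠ N : ℕ in atTop, ‖Real.log (N : ℝ)‖ ≤
      (1 / (32 * C₁ * C₂)) * ‖(N : ℝ) ^ ((1 - α) / 4)‖ :=
    tendsto_natCast_atTop_atTop.eventually e1
  filter_upwards [e2, card_large' η hη, sum_Pbc η hη, eventually_gt_atTop 1,
    (tendsto_natpow η hη).eventually_ge_atTop 8] with N h1 h2 h3 h4 h5 m Q hm hQ hQN
  have hm0 : 0 < m := Nat.pos_of_ne_zero hm.ne_zero
  have hN1 : (1 : ℝ) < N := by exact_mod_cast h4
  have hN0 : (0 : ℝ) < N := by linarith
  have hlog : 0 < Real.log N := Real.log_pos hN1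
  set X : ℝ := (N : ℝ) ^ α with hX
  set Z : ℝ := (N : ℝ) ^ η with hZ
  have hX0 : 0 < X := Real.rpow_pos_of_pos hN0 _
  have hZ0 : 0 < Z := Real.rpow_pos_of_pos hN0 _
  set V : ℝ := C₁ * (N : ℝ) ^ ε with hV
  have hV0 : 0 < V := by positivity
  -- the main estimate for one `d`
  have hone : ∀ d ∈ sqf N X, wt d * E N d ≤ 4 * Real.log N *
      ((∑ p ∈ Pbc (Q / (d * gq m d : ℕ)) (d * gq m d),
        wt d * ((gq m d).totient * H N X (d * (gq m d * p)))) + wt d * (8 * V)) := by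
    intro d hd
    rw [sqf, Finset.mem_filter, Finset.mem_filter, Finset.mem_Icc] at hd
    obtain ⟨⟨⟨hd0, hdN⟩, hdX⟩, hds⟩ := hd
    have hd0' : 0 < d := hd0
    have hg0 : 0 < gq m d := gq_pos hm0
    have hn0 : 0 < d * gq m d := Nat.mul_pos hd0' hg0
    have hn0' : (0 : ℝ) < (d * gq m d : ℕ) := by exact_mod_cast hn0
    have hn1' : (1 : ℝ) ≤ (d * gq m d : ℕ) := by exact_mod_cast hn0
    have hn0le : ((d * gq m d : ℕ) : ℝ) ≤ m * X := by
      push_cast
      have : ((gq m d : ℕ) : ℝ) ≤ m := by exact_mod_cast gq_le hm0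
      nlinarith [Nat.cast_nonneg (α := ℝ) d, Nat.cast_nonneg (α := ℝ) (gq m d),
        Nat.cast_nonneg (α := ℝ) m]
    set x : ℝ := Q / (d * gq m d : ℕ) with hx
    have hxZ : Z ≤ x := by
      rw [hx, le_div_iff₀ hn0']
      calc Z * ((d * gq m d : ℕ) : ℝ) ≤ Z * (m * X) := by gcongr
        _ = m * X * Z := by ring
        _ ≤ Q := hQ
    have hQ0 : 0 ≤ Q := le_trans (by positivity) hQ
    have hxN : x ≤ N := (div_le_self hQ0 hn1').trans hQN
    have hn0N : d * gq m d ≤ N := by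
      have : ((d * gq m d : ℕ) : ℝ) ≤ N := by
        have h6 : ((d * gq m d : ℕ) : ℝ) * 1 ≤ (d * gq m d : ℕ) * x := by
          gcongr; linarith
        rw [hx, mul_div_cancel₀ _ hn0'.ne', mul_one] at h6
        linarith
      exact_mod_cast this
    have h6 := h3 x (d * gq m d) hxZ hxN hn0 hn0N
    have h7 := sum_Pbc_le (x := x) (by linarith) (d * gq m d)
    -- pointwise
    have h8 : ∀ p ∈ Pbc x (d * gq m d), 1 / ((p : ℝ) - 1) * E N d ≤
        (gq m d).totient * H N X (d * (gq m d * p)) + V * (1 / ((p : ℝ) - 1)) := by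
      intro p hp
      obtain ⟨b1, b2, b3, b4, b5, b6, b7⟩ := pair_facts hm hd0' hds hdX hZ0 hQ hQN hp
      have hp1 : (0 : ℝ) < (p : ℝ) - 1 := by
        have : (2 : ℝ) ≤ p := by exact_mod_cast b1.two_le
        linarith
      have h9 := E_le N h4 X d (gq m d * p) hd0' (Nat.mul_pos hg0 b1.pos) b5 hdX
      rw [Nat.totient_mul b6, Nat.totient_prime b1] at h9
      push_cast [Nat.cast_sub b1.one_le] at h9
      have h10 : ((gq m d * p).primeFactors.card : ℝ) ≤ V := by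
        refine (three_pow_ge _).trans ((hC₁ _ (Nat.mul_pos hg0 b1.pos)).trans ?_)
        rw [block, Finset.mem_filter, Finset.mem_Icc] at b4
        have h11 : gq m d * p ≤ N := (Nat.le_mul_of_pos_left _ hd0').trans b4.1.2
        have h12 : ((gq m d * p : ℕ) : ℝ) ^ ε ≤ (N : ℝ) ^ ε :=
          Real.rpow_le_rpow (Nat.cast_nonneg _) (by exact_mod_cast h11) hε0.le
        rw [hV]
        gcongr
      rw [div_mul_eq_mul_div, one_mul, div_le_iff₀ hp1]
      have h13 : ((gq m d).totient * H N X (d * (gq m d * p)) + V * (1 / ((p : ℝ) - 1))) *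
          ((p : ℝ) - 1) = (gq m d).totient * ((p : ℝ) - 1) * H N X (d * (gq m d * p)) + V := by
        field_simp
      rw [h13]
      linarith
    have h14 : 1 / 4 / Real.log N * E N d ≤
        (∑ p ∈ Pbc x (d * gq m d), (gq m d).totient * H N X (d * (gq m d * p))) + 8 * V := by
      calc 1 / 4 / Real.log N * E N d ≤ (∑ p ∈ Pbc x (d * gq m d), 1 / ((p : ℝ) - 1)) * E N d :=
            mul_le_mul_of_nonneg_right h6 (E_nonneg N d)
        _ = ∑ p ∈ Pbc x (d * gq m d), 1 / ((p : ℝ) - 1) * E N d := by rw [Finset.sum_mul]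
        _ ≤ ∑ p ∈ Pbc x (d * gq m d), ((gq m d).totient * H N X (d * (gq m d * p)) +
              V * (1 / ((p : ℝ) - 1))) := Finset.sum_le_sum h8
        _ = (∑ p ∈ Pbc x (d * gq m d), (gq m d).totient * H N X (d * (gq m d * p))) +
              V * ∑ p ∈ Pbc x (d * gq m d), 1 / ((p : ℝ) - 1) := by
            rw [Finset.sum_add_distrib, Finset.mul_sum]
        _ ≤ _ := by nlinarith
    have h15 : E N d ≤ 4 * Real.log N *
        ((∑ p ∈ Pbc x (d * gq m d), (gq m d).totient * H N X (d * (gq m d * p))) + 8 * V) := by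
      have h16 : E N d = 4 * Real.log N * (1 / 4 / Real.log N * E N d) := by field_simp
      rw [h16]
      gcongr
    rw [← Finset.mul_sum]
    calc wt d * E N d ≤ wt d * (4 * Real.log N *
        ((∑ p ∈ Pbc x (d * gq m d), (gq m d).totient * H N X (d * (gq m d * p))) + 8 * V)) :=
          mul_le_mul_of_nonneg_left h15 (wt_nonneg d)
      _ = _ := by ring
  have hR : ∀ n : ℕ, 0 < n → n ≤ N →
      ((n.primeFactors.filter (fun p : ℕ => Z / 4 < (p : ℝ))).card : ℝ) ≤ 2 / η :=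
    fun n hn hnN => h2 n hn hnN (Z / 4) le_rfl
  have hpairs := sum_pairs (N := N) (X := X) (Q := Q) (Z := Z) (R := 2 / η) hm hZ0 hQ hQN hR
    (by positivity) (fun n => H N X n) (fun n => H_nonneg N X n)
  have hwt := hC₂ N X hX0.le
  have hwt' : ∑ d ∈ sqf N X, wt d ≤ C₂ * X ^ ε * X := by
    refine le_trans ?_ hwt
    exact Finset.sum_le_sum_of_subset_of_nonneg (Finset.filter_subset _ _) (fun d _ _ => wt_nonneg d)
  rw [sum_sqf]
  calc ∑ d ∈ sqf N X, wt d * E N d ≤ ∑ d ∈ sqf N X, 4 * Real.log N *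
      ((∑ p ∈ Pbc (Q / (d * gq m d : ℕ)) (d * gq m d),
        wt d * ((gq m d).totient * H N X (d * (gq m d * p)))) + wt d * (8 * V)) :=
        Finset.sum_le_sum hone
    _ = 4 * Real.log N * ((∑ d ∈ sqf N X, ∑ p ∈ Pbc (Q / (d * gq m d : ℕ)) (d * gq m d),
        wt d * ((gq m d).totient * H N X (d * (gq m d * p)))) + (∑ d ∈ sqf N X, wt d) * (8 * V)) := by
        rw [← Finset.mul_sum, Finset.sum_add_distrib, Finset.sum_mul]
    _ ≤ 4 * Real.log N * ((1 / 3) * (2 / η) * (1 / share m) *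
          (∑ n ∈ block N Q m, wt n * H N X n) + (C₂ * X ^ ε * X) * (8 * V)) := by
        gcongr
    _ = 8 / (3 * η) * Real.log N / share m * (∑ n ∈ block N Q m, wt n * H N X n) +
          32 * C₁ * C₂ * Real.log N * ((N : ℝ) ^ ε * X ^ ε * X) := by
        rw [hV]
        have := (share_pos m).ne'
        field_simp
        ring
    _ ≤ _ := by
        gcongr
        rw [Real.norm_of_nonneg hlog.le, Real.norm_of_nonneg (Real.rpow_nonneg hN0.le _)] at h1
        have h20 : X ^ ε ≤ (N : ℝ) ^ ε := by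
          apply Real.rpow_le_rpow hX0.le _ hε0.le
          calc X = (N : ℝ) ^ α := rfl
            _ ≤ (N : ℝ) ^ (1 : ℝ) := Real.rpow_le_rpow_of_exponent_le hN1.le hα1.le
            _ = N := Real.rpow_one _
        have h21 : (N : ℝ) ^ ((1 + α) / 2) =
            (N : ℝ) ^ ((1 - α) / 4) * ((N : ℝ) ^ ε * (N : ℝ) ^ ε * X) := by
          rw [hX, ← Real.rpow_add hN0, ← Real.rpow_add hN0, ← Real.rpow_add hN0, hε]
          congr 1; ring
        rw [h21]
        have h22 : 32 * C₁ * C₂ * Real.log N ≤ (N : ℝ) ^ ((1 - α) / 4) := by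
          calc 32 * C₁ * C₂ * Real.log N ≤ 32 * C₁ * C₂ *
                (1 / (32 * C₁ * C₂) * (N : ℝ) ^ ((1 - α) / 4)) := by gcongr
            _ = _ := by field_simp
        gcongr

end EH60
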