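import Pool.Agent.EH60.Rough3

/-!
# The variance over the classes above a given modulus
-/

noncomputable section

namespace EH60

open Finset Filter

/-- the reduced residues modulo `n` -/
def red (n : ℕ) : Finset ℕ := lifts n 1 0

theorem mem_red {n a : ℕ} : a ∈ red n ↔ a < n ∧ a.Coprime n := by
  rw [red, lifts, Finset.mem_filter, Finset.mem_range]
  constructor
  · rintro ⟨h1, h2, _⟩
    exact ⟨h1, h2⟩
  · rintro ⟨h1, h2⟩
    exact ⟨h1, h2, by rw [Nat.ModEq, Nat.mod_one, Nat.mod_one]⟩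

/-- the variance of the classes modulo `d e` around the classes modulo `d` -/
def VV (y : ℝ) (d e : ℕ) : ℝ :=
  ∑ a ∈ red (d * e), (cnt y (d * e) a - cnt y d a / (e.totient : ℝ)) ^ 2

theorem VV_nonneg (y : ℝ) (d e : ℕ) : 0 ≤ VV y d e := Finset.sum_nonneg fun _ _ => sq_nonneg _

theorem cnt_mod (y : ℝ) (d a b : ℕ) (h : a ≡ b [MOD d]) : cnt y d a = cnt y d b := by
  unfold cnt
  congr 2
  ext p
  simp only [Finset.mem_filter]
  constructor
  · rintro ⟨h1, h2, h3⟩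
    exact ⟨h1, h2, h3.trans h⟩
  · rintro ⟨h1, h2, h3⟩
    exact ⟨h1, h2, h3.trans h.symm⟩

theorem VV_one (y : ℝ) (d : ℕ) : VV y d 1 = 0 := by
  unfold VV
  apply Finset.sum_eq_zero
  intro a _
  simp

/-- adding a prime to the modulus -/
theorem VV_step (y : ℝ) (d e p : ℕ) (hd : 0 < d) (he : 0 < e) (hp : p.Prime) (hpd : ¬ p ∣ d * e) :
    VV y d (e * p) ≤ 2 * VV y (d * e) p + 2 / ((p : ℝ) - 1) * VV y d e := by
  have hp1 : (0 : ℝ) < (p : ℝ) - 1 := by
    have : (2 : ℝ) ≤ p := by exact_mod_cast hp.two_le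
    linarith
  have hφ : (0 : ℝ) < e.totient := by exact_mod_cast Nat.totient_pos.2 he
  have cp : (d * e).Coprime p := ((Nat.Prime.coprime_iff_not_dvd hp).2 hpd).symm
  have cep : e.Coprime p := Nat.Coprime.coprime_mul_left cp
  have hφp : ((e * p).totient : ℝ) = e.totient * ((p : ℝ) - 1) := by
    rw [Nat.totient_mul cep, Nat.totient_prime hp, Nat.cast_mul, Nat.cast_sub hp.one_le, Nat.cast_one]
  have hφp' : (p.totient : ℝ) = (p : ℝ) - 1 := by
    rw [Nat.totient_prime hp, Nat.cast_sub hp.one_le, Nat.cast_one]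
  have hde : 0 < d * e := Nat.mul_pos hd he
  have hs := fun f => sum_lifts 1 (d * e) p 0 one_pos hde f
  simp only [one_mul] at hs
  have hL : VV y d (e * p) = ∑ b ∈ red (d * e), ∑ a ∈ lifts (d * e * p) (d * e) b,
      (cnt y (d * e * p) a - cnt y d a / ((e * p).totient : ℝ)) ^ 2 := by
    unfold VV red
    rw [← mul_assoc]
    exact hs _
  have hR : VV y (d * e) p = ∑ b ∈ red (d * e), ∑ a ∈ lifts (d * e * p) (d * e) b,
      (cnt y (d * e * p) a - cnt y (d * e) a / (p.totient : ℝ)) ^ 2 := by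
    unfold VV red
    exact hs _
  have hpt : ∀ b ∈ red (d * e), ∀ a ∈ lifts (d * e * p) (d * e) b,
      (cnt y (d * e * p) a - cnt y d a / ((e * p).totient : ℝ)) ^ 2 ≤
      2 * (cnt y (d * e * p) a - cnt y (d * e) a / (p.totient : ℝ)) ^ 2 +
      2 / ((p : ℝ) - 1) ^ 2 * (cnt y (d * e) b - cnt y d b / (e.totient : ℝ)) ^ 2 := by
    intro b _ a ha
    rw [lifts, Finset.mem_filter] at ha
    have hab := ha.2.2
    rw [cnt_mod y (d * e) a b hab, cnt_mod y d a b (hab.of_mul_right e), hφp, hφp']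
    have e1 : cnt y (d * e * p) a - cnt y d b / (e.totient * ((p : ℝ) - 1)) =
        (cnt y (d * e * p) a - cnt y (d * e) b / ((p : ℝ) - 1)) +
        1 / ((p : ℝ) - 1) * (cnt y (d * e) b - cnt y d b / (e.totient : ℝ)) := by
      field_simp
      ring
    rw [e1]
    set u := cnt y (d * e * p) a - cnt y (d * e) b / ((p : ℝ) - 1)
    set v := cnt y (d * e) b - cnt y d b / (e.totient : ℝ)
    have e2 : 2 / ((p : ℝ) - 1) ^ 2 * v ^ 2 = 2 * (1 / ((p : ℝ) - 1) * v) ^ 2 := by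
      field_simp
    rw [e2]
    nlinarith [sq_nonneg (u - 1 / ((p : ℝ) - 1) * v)]
  have hcard : ∀ b ∈ red (d * e), ((lifts (d * e * p) (d * e) b).card : ℝ) = (p : ℝ) - 1 := by
    intro b hb
    rw [mem_red] at hb
    rw [card_lifts (d * e) p b hde hp.pos cp hb.2, hφp']
  rw [hL, hR]
  calc ∑ b ∈ red (d * e), ∑ a ∈ lifts (d * e * p) (d * e) b,
        (cnt y (d * e * p) a - cnt y d a / ((e * p).totient : ℝ)) ^ 2
      ≤ ∑ b ∈ red (d * e), ∑ a ∈ lifts (d * e * p) (d * e) b,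
        (2 * (cnt y (d * e * p) a - cnt y (d * e) a / (p.totient : ℝ)) ^ 2 +
      2 / ((p : ℝ) - 1) ^ 2 * (cnt y (d * e) b - cnt y d b / (e.totient : ℝ)) ^ 2) :=
        Finset.sum_le_sum fun b hb => Finset.sum_le_sum fun a ha => hpt b hb a ha
    _ = 2 * (∑ b ∈ red (d * e), ∑ a ∈ lifts (d * e * p) (d * e) b,
        (cnt y (d * e * p) a - cnt y (d * e) a / (p.totient : ℝ)) ^ 2) +
        2 / ((p : ℝ) - 1) * VV y d e := by
        have h1 : ∀ b ∈ red (d * e), ∑ a ∈ lifts (d * e * p) (d * e) b,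
            (2 * (cnt y (d * e * p) a - cnt y (d * e) a / (p.totient : ℝ)) ^ 2 +
            2 / ((p : ℝ) - 1) ^ 2 * (cnt y (d * e) b - cnt y d b / (e.totient : ℝ)) ^ 2) =
            2 * (∑ a ∈ lifts (d * e * p) (d * e) b,
            (cnt y (d * e * p) a - cnt y (d * e) a / (p.totient : ℝ)) ^ 2) +
            2 / ((p : ℝ) - 1) * (cnt y (d * e) b - cnt y d b / (e.totient : ℝ)) ^ 2 := by
          intro b hb
          rw [Finset.sum_add_distrib, ← Finset.mul_sum, Finset.sum_const, nsmul_eq_mul, hcard b hb]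
          field_simp
        rw [Finset.sum_congr rfl h1, Finset.sum_add_distrib, ← Finset.mul_sum, ← Finset.mul_sum]
        rfl

/-- the variance over one block of primes -/
theorem VV_block {N d : ℕ} {P y : ℝ} (hd : 0 < d) (hdN : (d : ℝ) ≤ N) (hP : 8 ≤ P) (hy : 0 ≤ y)
    (hyN : y ≤ N) :
    ∑ p ∈ Pbc P d, VV y d p ≤ N * (288 * N / (d * P) + 16 * P * (1 + 2 * Real.log P)) := by
  classical
  have hP0 : 0 < P := by linarith
  have hd0 : (0 : ℝ) < d := by exact_mod_cast hd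
  have hN0 : (0 : ℝ) < N := by linarith
  have hlogP : 0 ≤ Real.log P := Real.log_nonneg (by linarith)
  set T : ℕ := ⌊y⌋₊ / d + 1 with hT
  set T₀ : ℝ := 2 * N / d with hT₀
  have hT₀0 : 0 < T₀ := by positivity
  have hTT₀ : (T : ℝ) ≤ T₀ := by
    rw [hT]
    push_cast
    have h1 : ((⌊y⌋₊ / d : ℕ) : ℝ) ≤ N / d := by
      refine Nat.cast_div_le.trans ?_
      apply div_le_div_of_nonneg_right _ hd0.le
      exact (Nat.floor_le hy).trans hyN
    have h2 : (1 : ℝ) ≤ N / d := by rw [le_div_iff₀ hd0]; linarith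
    calc ((⌊y⌋₊ / d : ℕ) : ℝ) + 1 ≤ N / d + N / d := add_le_add h1 h2
      _ = T₀ := by rw [hT₀]; ring
  -- the pointwise bound
  have h1 : ∀ p ∈ Pbc P d, VV y d p ≤ ∑ r ∈ Finset.range d,
      (2 * ∑ s ∈ Finset.range p, (ZZ T (zt ⌊y⌋₊ d r) p s -
        (∑ t ∈ Finset.range T, zt ⌊y⌋₊ d r t) / p) ^ 2 +
        T₀ ^ 2 / P * 8 * (1 / ((p : ℝ) - 1)) ^ 2) := by
    intro p hp
    rw [mem_Pbc hP0.le] at hp
    have hpp := hp.1.2
    have hp1 : 0 < (p : ℝ) - 1 := by linarith [hp.1.1.1]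
    have hp0 : 0 < (p : ℝ) := by linarith
    have hφp' : (p.totient : ℝ) = (p : ℝ) - 1 := by
      rw [Nat.totient_prime hpp, Nat.cast_sub hpp.one_le, Nat.cast_one]
    set F : ℕ × ℕ → ℝ := fun z => (ZZ T (zt ⌊y⌋₊ d z.1) p z.2 -
        (∑ t ∈ Finset.range T, zt ⌊y⌋₊ d z.1 t) / ((p : ℝ) - 1)) ^ 2 with hF
    have h2 : VV y d p ≤ ∑ z ∈ Finset.range d ×ˢ Finset.range p, F z := by
      unfold VV
      have h3 : ∀ a ∈ red (d * p), (cnt y (d * p) a - cnt y d a / (p.totient : ℝ)) ^ 2 =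
          F (a % d, a / d) := by
        intro a ha
        rw [mem_red] at ha
        have hr : a % d < d := Nat.mod_lt _ hd
        have hs : a / d < p := Nat.div_lt_of_lt_mul ha.1
        rw [hF]
        dsimp only
        rw [← cnt_eq' y d (a % d) p (a / d) hd hr hpp.pos hs, ← cnt_eq y d (a % d) hd hr,
          Nat.mod_add_div, hφp', cnt_mod y d a (a % d) (Nat.mod_modEq a d).symm]
      rw [Finset.sum_congr rfl h3]
      have hinj : Set.InjOn (fun a : ℕ => (a % d, a / d)) (red (d * p)) := by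
        intro a _ b _ h
        have h4 : a % d = b % d ∧ a / d = b / d := Prod.ext_iff.1 h
        rw [← Nat.mod_add_div a d, ← Nat.mod_add_div b d, h4.1, h4.2]
      rw [← Finset.sum_image (f := F) hinj]
      apply Finset.sum_le_sum_of_subset_of_nonneg
      · intro z hz
        rw [Finset.mem_image] at hz
        obtain ⟨a, ha, rfl⟩ := hz
        rw [mem_red] at ha
        rw [Finset.mem_product, Finset.mem_range, Finset.mem_range]
        exact ⟨Nat.mod_lt _ hd, Nat.div_lt_of_lt_mul ha.1⟩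
      · intro z _ _
        exact sq_nonneg _
    refine h2.trans ?_
    rw [Finset.sum_product]
    apply Finset.sum_le_sum
    intro r _
    set Z := ∑ t ∈ Finset.range T, zt ⌊y⌋₊ d r t with hZ
    have hZ0 : 0 ≤ Z := Finset.sum_nonneg fun t _ => zt_nonneg _ _ _ _
    have hZT : Z ≤ T₀ := (sum_zt_le _ _ _ _).trans hTT₀
    have h5 : ∀ s ∈ Finset.range p, F (r, s) ≤ 2 * (ZZ T (zt ⌊y⌋₊ d r) p s - Z / p) ^ 2 +
        2 * (Z / (p * ((p : ℝ) - 1))) ^ 2 := by
      intro s _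
      rw [hF]
      dsimp only
      rw [← hZ]
      have e1 : ZZ T (zt ⌊y⌋₊ d r) p s - Z / ((p : ℝ) - 1) =
          (ZZ T (zt ⌊y⌋₊ d r) p s - Z / p) - Z / (p * ((p : ℝ) - 1)) := by
        field_simp
        ring
      rw [e1]
      nlinarith [sq_nonneg ((ZZ T (zt ⌊y⌋₊ d r) p s - Z / p) + Z / (p * ((p : ℝ) - 1)))]
    refine (Finset.sum_le_sum h5).trans ?_
    rw [Finset.sum_add_distrib, ← Finset.mul_sum, Finset.sum_const, Finset.card_range, nsmul_eq_mul]
    apply add_le_add le_rfl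
    have e2 : (p : ℝ) * (2 * (Z / (p * ((p : ℝ) - 1))) ^ 2) = 2 * Z ^ 2 * (1 / p) * (1 / ((p : ℝ) - 1)) ^ 2 := by
      field_simp
    rw [e2]
    have h6 : 1 / (p : ℝ) ≤ 4 / P := by
      rw [div_le_div_iff₀ hp0 hP0]
      linarith [hp.1.1.1]
    calc 2 * Z ^ 2 * (1 / p) * (1 / ((p : ℝ) - 1)) ^ 2 ≤ 2 * T₀ ^ 2 * (4 / P) * (1 / ((p : ℝ) - 1)) ^ 2 := by
          gcongr
      _ = T₀ ^ 2 / P * 8 * (1 / ((p : ℝ) - 1)) ^ 2 := by ring
  refine (Finset.sum_le_sum h1).trans ?_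
  rw [Finset.sum_comm]
  have h7 : ∀ r ∈ Finset.range d, ∑ p ∈ Pbc P d,
      (2 * ∑ s ∈ Finset.range p, (ZZ T (zt ⌊y⌋₊ d r) p s -
        (∑ t ∈ Finset.range T, zt ⌊y⌋₊ d r t) / p) ^ 2 +
        T₀ ^ 2 / P * 8 * (1 / ((p : ℝ) - 1)) ^ 2) ≤
      72 * T₀ ^ 2 / P + 8 * P * (1 + 2 * Real.log P) * T₀ := by
    intro r _
    rw [Finset.sum_add_distrib, ← Finset.mul_sum, ← Finset.mul_sum]
    have h8 := ls_bound P hP ⌊y⌋₊ d r T T₀ hTT₀
    have h9 := sum_sq_Pbc hP d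
    have h10 : ∑ p ∈ Pbc P d, ∑ s ∈ Finset.range p, (ZZ T (zt ⌊y⌋₊ d r) p s -
        (∑ t ∈ Finset.range T, zt ⌊y⌋₊ d r t) / p) ^ 2 ≤
        (4 / P) * ((T₀ + P ^ 2 * (1 + 2 * Real.log P)) * T₀) := by
      calc _ ≤ ∑ p ∈ Pbc P d, (4 / P) * ((p : ℝ) * ∑ s ∈ Finset.range p,
            (ZZ T (zt ⌊y⌋₊ d r) p s - (∑ t ∈ Finset.range T, zt ⌊y⌋₊ d r t) / p) ^ 2) := by
            apply Finset.sum_le_sum
            intro p hp
            rw [mem_Pbc hP0.le] at hp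
            rw [← mul_assoc]
            apply le_mul_of_one_le_left
            · exact Finset.sum_nonneg fun _ _ => sq_nonneg _
            · rw [div_mul_eq_mul_div, one_le_div hP0]
              linarith [hp.1.1.1]
        _ = (4 / P) * ∑ p ∈ Pbc P d, ((p : ℝ) * ∑ s ∈ Finset.range p,
            (ZZ T (zt ⌊y⌋₊ d r) p s - (∑ t ∈ Finset.range T, zt ⌊y⌋₊ d r t) / p) ^ 2) := by
            rw [Finset.mul_sum]
        _ ≤ _ := by gcongr
    have h11 : T₀ ^ 2 / P * 8 * ∑ p ∈ Pbc P d, (1 / ((p : ℝ) - 1)) ^ 2 ≤ T₀ ^ 2 / P * 8 * 8 := by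
      have : (64 : ℝ) / P ≤ 8 := by rw [div_le_iff₀ hP0]; linarith
      have h12 := h9.trans this
      gcongr
    have e3 : 2 * ((4 / P) * ((T₀ + P ^ 2 * (1 + 2 * Real.log P)) * T₀)) + T₀ ^ 2 / P * 8 * 8 =
        72 * T₀ ^ 2 / P + 8 * P * (1 + 2 * Real.log P) * T₀ := by
      field_simp
      ring
    linarith
  refine (Finset.sum_le_sum h7).trans ?_
  rw [Finset.sum_const, Finset.card_range, nsmul_eq_mul]
  apply le_of_eq
  rw [hT₀]
  field_simp
  ring

end EH60
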