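import Pool.Agent.EH60.Trim1

/-!
# The weighted sum of the variances over the rough cofactors
-/

noncomputable section

namespace EH60

open Finset Filter

/-- the weight `N / (d P⁻(e)) + e` -/
def UU (N d e : ℕ) : ℝ := (N : ℝ) / (d * e.minFac) + e

theorem UU_pos {N d e : ℕ} (he : 0 < e) : 0 < UU N d e := by
  have : (0 : ℝ) < e := by exact_mod_cast he
  unfold UU
  positivity

theorem UU_mul1 {N d e p : ℕ} (hd : 0 < d) (he : 0 < e) (hp : p.Prime) :
    (N : ℝ) / (d * p) + (e : ℝ) * p ≤ UU N d (e * p) := by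
  unfold UU
  have h1 : (e * p).minFac ≤ p := Nat.minFac_le_of_dvd hp.two_le (Dvd.intro_left _ rfl)
  have h2 : 0 < (e * p).minFac := Nat.minFac_pos _
  have h1' : ((e * p).minFac : ℝ) ≤ p := by exact_mod_cast h1
  have h2' : (0 : ℝ) < ((e * p).minFac : ℝ) := by exact_mod_cast h2
  have hd0 : (0 : ℝ) < d := by exact_mod_cast hd
  rw [Nat.cast_mul]
  gcongr

theorem UU_mul2 {N d e p : ℕ} (hd : 0 < d) (he : 0 < e) (he1 : e ≠ 1) (hp : p.Prime) :
    UU N d e ≤ UU N d (e * p) := by
  unfold UU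
  have h0 : 2 ≤ e.minFac := (Nat.minFac_prime he1).two_le
  have h1 : (e * p).minFac ≤ e.minFac :=
    Nat.minFac_le_of_dvd h0 ((Nat.minFac_dvd e).trans (Dvd.intro _ rfl))
  have h2 : 0 < (e * p).minFac := Nat.minFac_pos _
  have h1' : ((e * p).minFac : ℝ) ≤ e.minFac := by exact_mod_cast h1
  have h2' : (0 : ℝ) < ((e * p).minFac : ℝ) := by exact_mod_cast h2
  have hd0 : (0 : ℝ) < d := by exact_mod_cast hd
  have h3 : (e : ℝ) ≤ ((e * p : ℕ) : ℝ) := by
    exact_mod_cast Nat.le_mul_of_pos_right e hp.pos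
  gcongr

theorem block_weighted {N d e : ℕ} {P y : ℝ} (hN : 1 ≤ N) (hd : 0 < d) (he : 0 < e)
    (hdN : ((d * e : ℕ) : ℝ) ≤ N) (hP : 8 ≤ P) (hPN : P ≤ N) (hy : 0 ≤ y) (hyN : y ≤ N) :
    ∑ p ∈ Pbc P (d * e), VV y (d * e) p / ((N : ℝ) / (d * p) + (e : ℝ) * p) ≤
      576 * N * (1 + Real.log N) / e := by
  have hN1 : (1 : ℝ) ≤ N := by exact_mod_cast hN
  have hN0 : (0 : ℝ) < N := by linarith
  have hd0 : (0 : ℝ) < d := by exact_mod_cast hd
  have he0 : (0 : ℝ) < e := by exact_mod_cast he
  have hP0 : 0 < P := by linarith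
  have hlogP : Real.log P ≤ Real.log N := Real.log_le_log hP0 hPN
  have hlogP0 : 0 ≤ Real.log P := Real.log_nonneg (by linarith)
  have hlogN : 0 ≤ Real.log N := hlogP0.trans hlogP
  have h1 := VV_block (N := N) (d := d * e) (P := P) (y := y) (Nat.mul_pos hd he) hdN hP hy hyN
  have hD : 0 < (N : ℝ) / (d * P) + e * P / 4 := by positivity
  calc ∑ p ∈ Pbc P (d * e), VV y (d * e) p / ((N : ℝ) / (d * p) + (e : ℝ) * p)
      ≤ ∑ p ∈ Pbc P (d * e), VV y (d * e) p / ((N : ℝ) / (d * P) + e * P / 4) := by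
        apply Finset.sum_le_sum
        intro p hp
        rw [mem_Pbc hP0.le] at hp
        have hp0 : (0 : ℝ) < p := by linarith [hp.1.1.1]
        apply div_le_div_of_nonneg_left (VV_nonneg _ _ _) hD
        apply add_le_add
        · apply div_le_div_of_nonneg_left hN0.le (by positivity)
          exact mul_le_mul_of_nonneg_left hp.1.1.2 hd0.le
        · have := hp.1.1.1
          nlinarith
    _ = (∑ p ∈ Pbc P (d * e), VV y (d * e) p) / ((N : ℝ) / (d * P) + e * P / 4) := by
        rw [Finset.sum_div]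
    _ ≤ (N * (288 * N / ((d * e : ℕ) * P) + 16 * P * (1 + 2 * Real.log P))) /
          ((N : ℝ) / (d * P) + e * P / 4) := by gcongr
    _ ≤ 576 * N * (1 + Real.log N) / e := by
        rw [div_le_iff₀ hD]
        have e1 : (N : ℝ) * (288 * N / ((d * e : ℕ) * P) + 16 * P * (1 + 2 * Real.log P)) =
            288 * N ^ 2 / (d * e * P) + 16 * N * P * (1 + 2 * Real.log P) := by
          push_cast
          ring
        have e2 : 576 * (N : ℝ) * (1 + Real.log N) / e * ((N : ℝ) / (d * P) + e * P / 4) =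
            576 * (1 + Real.log N) * N ^ 2 / (d * e * P) + 144 * N * P * (1 + Real.log N) := by
          field_simp
          ring
        rw [e1, e2]
        apply add_le_add
        · apply div_le_div_of_nonneg_right _ (by positivity)
          have : (0 : ℝ) ≤ N ^ 2 := sq_nonneg _
          nlinarith
        · have h2 : 16 * (N : ℝ) * P * (1 + 2 * Real.log P) ≤ 16 * N * P * (1 + 2 * Real.log N) := by
            gcongr
          have h3 : 0 ≤ (N : ℝ) * P := by positivity
          nlinarith [mul_nonneg h3 hlogN]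

theorem Psi_k {N : ℕ} {ε y : ℝ} (hN : 2 ≤ N) (hε : 0 < ε) (h8 : 8 ≤ (N : ℝ) ^ ε) (hy : 0 ≤ y)
    (hyN : y ≤ N) (k : ℕ) : ∀ d : ℕ, 0 < d →
    ∑ e ∈ (Rg N ε d).filter (fun e => e.primeFactors.card = k), VV y d e / UU N d e ≤
      N * (1200 * (1 + Real.log N) ^ 3) ^ k := by
  have hN2 : (2 : ℝ) ≤ N := by exact_mod_cast hN
  have hN0 : (0 : ℝ) < N := by linarith
  have hlog : 0 ≤ Real.log N := Real.log_nonneg (by linarith)
  have hNN : (N : ℝ) ^ (1 - ε) ≤ N := by
    calc (N : ℝ) ^ (1 - ε) ≤ (N : ℝ) ^ (1 : ℝ) :=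
          Real.rpow_le_rpow_of_exponent_le (by linarith) (by linarith)
      _ = N := Real.rpow_one _
  induction k with
  | zero =>
    intro d _
    have h0 : ∀ e ∈ (Rg N ε d).filter (fun e => e.primeFactors.card = 0), VV y d e / UU N d e = 0 := by
      intro e he
      rw [Finset.mem_filter, Rg, Finset.mem_filter, Finset.mem_Icc] at he
      have h1 : e = 1 := by
        have h2 := he.2
        rw [Finset.card_eq_zero, Nat.primeFactors_eq_empty] at h2
        omega
      rw [h1, VV_one, zero_div]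
    rw [Finset.sum_congr rfl h0, Finset.sum_const_zero]
    positivity
  | succ k ih =>
    intro d hd
    have hd0 : (0 : ℝ) < d := by exact_mod_cast hd
    have hd1 : (1 : ℝ) ≤ d := by exact_mod_cast hd
    set L := 1 + Real.log N with hL
    have hL1 : 1 ≤ L := by rw [hL]; linarith
    refine (sum_Rk_succ k d (fun e => VV y d e / UU N d e) (fun e => ?_)).trans ?_
    · exact div_nonneg (VV_nonneg _ _ _) (by unfold UU; positivity)
    set Rk := (Rg N ε d).filter (fun e => e.primeFactors.card = k) with hRk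
    have hstep : ∀ e ∈ Rk, ∀ p ∈ SP N ε (d * e), VV y d (e * p) / UU N d (e * p) ≤
        2 * (VV y (d * e) p / ((N : ℝ) / (d * p) + (e : ℝ) * p)) +
        2 * (1 / ((p : ℝ) - 1)) * (VV y d e / UU N d e) := by
      intro e he p hp
      rw [hRk, Finset.mem_filter, Rg, Finset.mem_filter, Finset.mem_Icc] at he
      rw [SP, Finset.mem_filter] at hp
      have he0 : 0 < e := by omega
      have hpp := hp.2.1
      have hp2 : (2 : ℝ) ≤ p := by exact_mod_cast hpp.two_le
      have hp1 : 0 < (p : ℝ) - 1 := by linarith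
      have hp0 : 0 < (p : ℝ) := by linarith
      have he0' : (0 : ℝ) < e := by exact_mod_cast he0
      have h1 := VV_step y d e p hd he0 hpp hp.2.2.2.2
      have h2 := UU_mul1 (N := N) hd he0 hpp
      have hU := UU_pos (N := N) (d := d) (e := e * p) (Nat.mul_pos he0 hpp.pos)
      have h3 : VV y d (e * p) / UU N d (e * p) ≤
          2 * (VV y (d * e) p / UU N d (e * p)) + 2 * (1 / ((p : ℝ) - 1)) * (VV y d e / UU N d (e * p)) := by
        rw [div_le_iff₀ hU]
        have e1 : (2 * (VV y (d * e) p / UU N d (e * p)) +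
            2 * (1 / ((p : ℝ) - 1)) * (VV y d e / UU N d (e * p))) * UU N d (e * p) =
            2 * VV y (d * e) p + 2 / ((p : ℝ) - 1) * VV y d e := by
          field_simp
        rw [e1]
        exact h1
      refine h3.trans (add_le_add ?_ ?_)
      · apply mul_le_mul_of_nonneg_left _ (by norm_num)
        apply div_le_div_of_nonneg_left (VV_nonneg _ _ _) _ h2
        have : 0 < (N : ℝ) / (d * p) := by positivity
        positivity
      · apply mul_le_mul_of_nonneg_left _ (by positivity)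
        by_cases he1 : e = 1
        · rw [he1, VV_one, zero_div, zero_div]
        · exact div_le_div_of_nonneg_left (VV_nonneg _ _ _) (UU_pos he0) (UU_mul2 hd he0 he1 hpp)
    have hfirst : ∀ e ∈ Rk, ∑ p ∈ SP N ε (d * e), VV y (d * e) p / ((N : ℝ) / (d * p) + (e : ℝ) * p) ≤
        576 * N * L ^ 2 * (1 / (e : ℝ)) := by
      intro e he
      rw [hRk, Finset.mem_filter, Rg, Finset.mem_filter, Finset.mem_Icc] at he
      have he0 : 0 < e := by omega
      have he0' : (0 : ℝ) < e := by exact_mod_cast he0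
      have hdeN : ((d * e : ℕ) : ℝ) ≤ N := by
        rw [Nat.cast_mul]
        exact he.1.2.2.2.2.trans hNN
      have hde : 0 < d * e := Nat.mul_pos hd he0
      have h1 := cover (N := N) (ε := ε) (Bd := 576 * N * L / e) hε hN hde
        (fun p => VV y (d * e) p / ((N : ℝ) / (d * p) + (e : ℝ) * p)) (by
          intro p hp
          exact div_nonneg (VV_nonneg _ _ _) (by positivity)) (by positivity) (by
          intro P hP hdP
          have hde1 : (1 : ℝ) ≤ ((d * e : ℕ) : ℝ) := by exact_mod_cast hde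
          have hP0 : 0 < P := by linarith
          have hPN : P ≤ N := by
            have := hdP.trans hNN
            nlinarith
          exact block_weighted (by omega) hd he0 hdeN (h8.trans hP) hPN hy hyN)
      refine h1.trans (le_of_eq ?_)
      rw [hL]
      ring
    calc ∑ e ∈ Rk, ∑ p ∈ SP N ε (d * e), VV y d (e * p) / UU N d (e * p)
        ≤ ∑ e ∈ Rk, ∑ p ∈ SP N ε (d * e), (2 * (VV y (d * e) p / ((N : ℝ) / (d * p) + (e : ℝ) * p)) +
          2 * (1 / ((p : ℝ) - 1)) * (VV y d e / UU N d e)) :=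
          Finset.sum_le_sum fun e he => Finset.sum_le_sum fun p hp => hstep e he p hp
      _ ≤ ∑ e ∈ Rk, (2 * (576 * N * L ^ 2 * (1 / (e : ℝ))) + 4 * L * (VV y d e / UU N d e)) := by
          apply Finset.sum_le_sum
          intro e he
          rw [Finset.sum_add_distrib, ← Finset.mul_sum, ← Finset.sum_mul, ← Finset.mul_sum]
          have he0 : 0 < e := by
            rw [hRk, Finset.mem_filter, Rg, Finset.mem_filter, Finset.mem_Icc] at he
            omega
          have h2 : 0 ≤ VV y d e / UU N d e := div_nonneg (VV_nonneg _ _ _) (UU_pos he0).le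
          have h3 := sum_SP_le N ε (d * e)
          rw [← hL] at h3
          have h4 := hfirst e he
          have h5 : 2 * (∑ p ∈ SP N ε (d * e), 1 / ((p : ℝ) - 1)) * (VV y d e / UU N d e) ≤
              2 * (2 * L) * (VV y d e / UU N d e) := by gcongr
          linarith
      _ = 1152 * N * L ^ 2 * (∑ e ∈ Rk, 1 / (e : ℝ)) + 4 * L * ∑ e ∈ Rk, VV y d e / UU N d e := by
          rw [Finset.sum_add_distrib, ← Finset.mul_sum, ← Finset.mul_sum, ← Finset.mul_sum]
          ring
      _ ≤ 1152 * N * L ^ 2 * L + 4 * L * (N * (1200 * L ^ 3) ^ k) := by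
          have h1 := harm_le (N := N) Rk (by
            rw [hRk]
            exact (Finset.filter_subset _ _).trans (Finset.filter_subset _ _))
          have h2 := ih d hd
          gcongr
      _ ≤ N * (1200 * L ^ 3) ^ (k + 1) := by
          have h3 : 1 ≤ L ^ 3 := one_le_pow₀ hL1
          have h4 : 1 ≤ (1200 * L ^ 3) ^ k := one_le_pow₀ (by linarith)
          have h5 : L ≤ L ^ 3 := by
            calc L = L ^ 1 := (pow_one L).symm
              _ ≤ L ^ 3 := pow_le_pow_right₀ hL1 (by norm_num)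
          rw [pow_succ]
          have h6 : 4 * L * (N * (1200 * L ^ 3) ^ k) ≤ 4 * L ^ 3 * (N * (1200 * L ^ 3) ^ k) := by gcongr
          have h7 : 1152 * N * L ^ 2 * L ≤ 1152 * L ^ 3 * (N * (1200 * L ^ 3) ^ k) := by
            have : (N : ℝ) ≤ N * (1200 * L ^ 3) ^ k := le_mul_of_one_le_right hN0.le h4
            calc 1152 * N * L ^ 2 * L = 1152 * L ^ 3 * N := by ring
              _ ≤ 1152 * L ^ 3 * (N * (1200 * L ^ 3) ^ k) := by gcongr
          have h8 : 0 ≤ L ^ 3 * (N * (1200 * L ^ 3) ^ k) := by positivity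
          calc 1152 * N * L ^ 2 * L + 4 * L * (N * (1200 * L ^ 3) ^ k)
              ≤ 1152 * L ^ 3 * (N * (1200 * L ^ 3) ^ k) + 4 * L ^ 3 * (N * (1200 * L ^ 3) ^ k) :=
                add_le_add h7 h6
            _ ≤ N * ((1200 * L ^ 3) ^ k * (1200 * L ^ 3)) := by nlinarith

theorem Psi {N : ℕ} {ε y : ℝ} (hN : 2 ≤ N) (hε : 0 < ε) (h8 : 8 ≤ (N : ℝ) ^ ε) (hy : 0 ≤ y)
    (hyN : y ≤ N) (d : ℕ) (hd : 0 < d) :
    ∑ e ∈ Rg N ε d, VV y d e / UU N d e ≤
      N * (((⌊1 / ε⌋₊ : ℕ) : ℝ) + 1) * (1200 * (1 + Real.log N) ^ 3) ^ ⌊1 / ε⌋₊ := by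
  have hN2 : (2 : ℝ) ≤ N := by exact_mod_cast hN
  have hN0 : (0 : ℝ) < N := by linarith
  have hlog : 0 ≤ Real.log N := Real.log_nonneg (by linarith)
  rw [← Finset.sum_fiberwise_of_maps_to (card_Rg hN hε d)]
  set K := ⌊1 / ε⌋₊ with hK
  have h1 : 1 ≤ 1200 * (1 + Real.log N) ^ 3 := by
    have : 1 ≤ (1 + Real.log N) ^ 3 := one_le_pow₀ (by linarith)
    linarith
  calc ∑ k ∈ Finset.range (K + 1), ∑ e ∈ (Rg N ε d).filter (fun e => e.primeFactors.card = k),
        VV y d e / UU N d e
      ≤ ∑ k ∈ Finset.range (K + 1), N * (1200 * (1 + Real.log N) ^ 3) ^ k :=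
        Finset.sum_le_sum fun k _ => Psi_k hN hε h8 hy hyN k d hd
    _ ≤ ∑ _k ∈ Finset.range (K + 1), N * (1200 * (1 + Real.log N) ^ 3) ^ K := by
        apply Finset.sum_le_sum
        intro k hk
        rw [Finset.mem_range] at hk
        apply mul_le_mul_of_nonneg_left _ hN0.le
        exact pow_le_pow_right₀ h1 (by omega)
    _ = N * ((K : ℝ) + 1) * (1200 * (1 + Real.log N) ^ 3) ^ K := by
        rw [Finset.sum_const, Finset.card_range, nsmul_eq_mul]; push_cast; ring

end EH60
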