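import Pool.Agent.EH60.Trim2

/-!
# Equidistribution in all classes outside small exceptional sets
-/

noncomputable section

namespace EH60

open Finset Filter

theorem cnt_mono {y y' : ℝ} (h : y ≤ y') (d a : ℕ) : cnt y d a ≤ cnt y' d a := by
  unfold cnt
  have h1 : ⌊y⌋₊ ≤ ⌊y'⌋₊ := Nat.floor_le_floor h
  have h2 : (Finset.range (⌊y⌋₊ + 1)).filter (fun p : ℕ => p.Prime ∧ p ≡ a [MOD d]) ⊆
      (Finset.range (⌊y'⌋₊ + 1)).filter (fun p : ℕ => p.Prime ∧ p ≡ a [MOD d]) := by
    apply Finset.filter_subset_filter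
    intro x hx
    rw [Finset.mem_range] at hx ⊢
    omega
  exact_mod_cast Finset.card_le_card h2

theorem cnt_diff {y y' : ℝ} (hy : 0 ≤ y) (h : y ≤ y') (d a : ℕ) (hd : 0 < d) :
    cnt y' d a ≤ cnt y d a + ((y' - y) / d + 3) := by
  have hd0 : (0 : ℝ) < d := by exact_mod_cast hd
  have hd1 : (1 : ℝ) ≤ d := by exact_mod_cast hd
  have h1 : ⌊y⌋₊ ≤ ⌊y'⌋₊ := Nat.floor_le_floor h
  set S := (Finset.range (⌊y⌋₊ + 1)).filter (fun p : ℕ => p.Prime ∧ p ≡ a [MOD d]) with hS
  set R := (Finset.Ioc ⌊y⌋₊ ⌊y'⌋₊).filter (fun p : ℕ => p ≡ a [MOD d]) with hR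
  have h2 : (Finset.range (⌊y'⌋₊ + 1)).filter (fun p : ℕ => p.Prime ∧ p ≡ a [MOD d]) ⊆ S ∪ R := by
    intro p hp
    rw [Finset.mem_filter, Finset.mem_range] at hp
    rw [Finset.mem_union, hS, hR, Finset.mem_filter, Finset.mem_filter, Finset.mem_range, Finset.mem_Ioc]
    by_cases h3 : p < ⌊y⌋₊ + 1
    · left; exact ⟨h3, hp.2⟩
    · right; exact ⟨⟨by omega, by omega⟩, hp.2.2⟩
  have h3 : R.card ≤ ⌊y'⌋₊ / d + 1 - ⌊y⌋₊ / d := by
    rw [← Nat.card_Icc]
    apply Finset.card_le_card_of_injOn (fun p => p / d)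
    · intro p hp
      rw [hR, Finset.coe_filter, Set.mem_setOf_eq, Finset.mem_Ioc] at hp
      rw [Finset.coe_Icc, Set.mem_Icc]
      exact ⟨Nat.div_le_div_right hp.1.1.le, Nat.div_le_div_right hp.1.2⟩
    · intro p hp q hq hpq
      rw [hR, Finset.coe_filter, Set.mem_setOf_eq] at hp hq
      have h4 : p % d = q % d := hp.2.trans hq.2.symm
      have h5 : p / d = q / d := hpq
      rw [← Nat.mod_add_div p d, ← Nat.mod_add_div q d, h4, h5]
  have h4 : (R.card : ℝ) ≤ (y' - y) / d + 3 := by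
    have h5 : ⌊y⌋₊ / d ≤ ⌊y'⌋₊ / d := Nat.div_le_div_right h1
    have h6 : (R.card : ℝ) ≤ ((⌊y'⌋₊ / d : ℕ) : ℝ) + 1 - ((⌊y⌋₊ / d : ℕ) : ℝ) := by
      have h7 : R.card + ⌊y⌋₊ / d ≤ ⌊y'⌋₊ / d + 1 := by omega
      have h8 : (R.card : ℝ) + ((⌊y⌋₊ / d : ℕ) : ℝ) ≤ ((⌊y'⌋₊ / d : ℕ) : ℝ) + 1 := by exact_mod_cast h7
      linarith
    have h7 : ((⌊y'⌋₊ / d : ℕ) : ℝ) ≤ y' / d := by
      refine Nat.cast_div_le.trans ?_
      exact div_le_div_of_nonneg_right (Nat.floor_le (hy.trans h)) hd0.le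
    have h8 : y / d - 2 ≤ ((⌊y⌋₊ / d : ℕ) : ℝ) := by
      have h9 : (⌊y⌋₊ : ℝ) / d < ((⌊y⌋₊ / d : ℕ) : ℝ) + 1 := by
        rw [div_lt_iff₀ hd0]
        have h10 := Nat.lt_mul_of_div_lt (Nat.lt_succ_self (⌊y⌋₊ / d)) hd
        have h11 : ⌊y⌋₊ < (⌊y⌋₊ / d + 1) * d := by
          have := Nat.lt_mul_of_div_lt (Nat.lt_succ_self (⌊y⌋₊ / d)) hd
          simpa [Nat.succ_eq_add_one, mul_comm] using this
        exact_mod_cast h11
      have h12 : y < ⌊y⌋₊ + 1 := Nat.lt_floor_add_one y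
      have h13 : y / d ≤ (⌊y⌋₊ + 1) / d := div_le_div_of_nonneg_right h12.le hd0.le
      have h14 : ((⌊y⌋₊ : ℝ) + 1) / d = (⌊y⌋₊ : ℝ) / d + 1 / d := add_div _ _ _
      have h15 : 1 / (d : ℝ) ≤ 1 := by rw [div_le_one hd0]; exact hd1
      linarith
    rw [sub_div]
    linarith
  have h5 := Finset.card_le_card h2
  have h6 := h5.trans (Finset.card_union_le S R)
  have h7 : (((Finset.range (⌊y'⌋₊ + 1)).filter (fun p : ℕ => p.Prime ∧ p ≡ a [MOD d])).card : ℝ) ≤
      S.card + R.card := by exact_mod_cast h6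
  unfold cnt
  linarith

/-- the allowed number of exceptional classes -/
def KK (N : ℕ) (η : ℝ) (d e : ℕ) : ℝ :=
  (N : ℝ) ^ η * ((d : ℝ) * e / e.minFac + ((d : ℝ) * e) ^ 2 / N)

theorem KK_eq {N d e : ℕ} {η : ℝ} (hN : 0 < N) (hd : 0 < d) :
    KK N η d e = (N : ℝ) ^ η * ((d : ℝ) ^ 2 * e / N) * UU N d e := by
  unfold KK UU
  have h1 : (N : ℝ) ≠ 0 := by exact_mod_cast hN.ne'
  have h2 : (d : ℝ) ≠ 0 := by exact_mod_cast hd.ne'
  have h3 : (e.minFac : ℝ) ≠ 0 := by exact_mod_cast (Nat.minFac_pos e).ne'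
  field_simp

/-- the exceptional set for one modulus -/
theorem exceptional {N d e J : ℕ} {κ c : ℝ} (hN : 0 < N) (hJ : 0 < J) (hd : 0 < d) (he : 0 < e)
    (hκ : 0 < κ) (hc : 0 < c) :
    ∃ A : Finset ℕ, (A.card : ℝ) ≤ κ ∧ ∀ y : ℝ, 0 ≤ y → y ≤ N → ∀ a : ℕ, a.Coprime (d * e) →
      a % (d * e) ∉ A →
      |cnt y (d * e) a - cnt y d a / (e.totient : ℝ)| ≤
        1 / 2 * (c / e + e / (κ * c) * ∑ j ∈ Finset.range (J + 1), VV (j * N / J) d e) +
        ((N : ℝ) / (J * d) + 3) / (e.totient : ℝ) := by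
  classical
  have hN0 : (0 : ℝ) < N := by exact_mod_cast hN
  have hJ0 : (0 : ℝ) < J := by exact_mod_cast hJ
  have hd0 : (0 : ℝ) < d := by exact_mod_cast hd
  have he0 : (0 : ℝ) < e := by exact_mod_cast he
  have hφ : (0 : ℝ) < e.totient := by exact_mod_cast Nat.totient_pos.2 he
  have hde : 0 < d * e := Nat.mul_pos hd he
  set W := ∑ j ∈ Finset.range (J + 1), VV (j * N / J) d e with hW
  set Q : ℕ → ℝ := fun a => ∑ j ∈ Finset.range (J + 1),
    (cnt (j * N / J) (d * e) a - cnt (j * N / J) d a / (e.totient : ℝ)) ^ 2 with hQ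
  have hW0 : 0 ≤ W := Finset.sum_nonneg fun _ _ => VV_nonneg _ _ _
  have hQ0 : ∀ a, 0 ≤ Q a := fun a => Finset.sum_nonneg fun _ _ => sq_nonneg _
  have hsum : ∑ a ∈ red (d * e), Q a = W := by
    rw [hQ, Finset.sum_comm]
    rfl
  set A := (red (d * e)).filter (fun a => W < κ * Q a) with hA
  refine ⟨A, ?_, ?_⟩
  · have h1 : (A.card : ℝ) * W ≤ κ * W := by
      calc (A.card : ℝ) * W = ∑ _a ∈ A, W := by rw [Finset.sum_const, nsmul_eq_mul]
        _ ≤ ∑ a ∈ A, κ * Q a := by
            apply Finset.sum_le_sum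
            intro a ha
            rw [hA, Finset.mem_filter] at ha
            exact ha.2.le
        _ = κ * ∑ a ∈ A, Q a := by rw [Finset.mul_sum]
        _ ≤ κ * W := by
            rw [← hsum]
            apply mul_le_mul_of_nonneg_left _ hκ.le
            exact Finset.sum_le_sum_of_subset_of_nonneg (Finset.filter_subset _ _) fun a _ _ => hQ0 a
    rcases hW0.eq_or_lt with h2 | h2
    · have h3 : A = ∅ := by
        rw [hA, Finset.filter_eq_empty_iff]
        intro a ha
        have h4 : Q a = 0 := by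
          have h5 : ∑ a ∈ red (d * e), Q a = 0 := by rw [hsum]; exact h2.symm
          exact (Finset.sum_eq_zero_iff_of_nonneg fun a _ => hQ0 a).1 h5 a ha
        rw [h4, mul_zero, ← h2]
        exact lt_irrefl _
      rw [h3, Finset.card_empty, Nat.cast_zero]
      exact hκ.le
    · exact le_of_mul_le_mul_right h1 h2
  · intro y hy hyN a ha haA
    -- grid points
    have hgrid : ∀ j ∈ Finset.range (J + 1),
        |cnt (j * N / J) (d * e) a - cnt (j * N / J) d a / (e.totient : ℝ)| ≤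
        1 / 2 * (c / e + e / (κ * c) * W) := by
      intro j hj
      have h1 : cnt (j * N / J) (d * e) a = cnt (j * N / J) (d * e) (a % (d * e)) :=
        cnt_mod _ _ _ _ (Nat.mod_modEq a (d * e)).symm
      have h2 : cnt (j * N / J) d a = cnt (j * N / J) d (a % (d * e)) :=
        cnt_mod _ _ _ _ ((Nat.mod_modEq a (d * e)).symm.of_mul_right e)
      rw [h1, h2]
      set b := a % (d * e) with hb
      have hbr : b ∈ red (d * e) := by
        rw [mem_red]
        refine ⟨Nat.mod_lt _ hde, ?_⟩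
        rw [hb, Nat.Coprime, ← Nat.gcd_rec, Nat.gcd_comm]
        exact ha
      have h3 : κ * Q b ≤ W := by
        by_contra hcon
        rw [not_le] at hcon
        exact haA (Finset.mem_filter.2 ⟨hbr, hcon⟩)
      have h4 : (cnt (j * N / J) (d * e) b - cnt (j * N / J) d b / (e.totient : ℝ)) ^ 2 ≤ Q b :=
        Finset.single_le_sum (f := fun j : ℕ =>
          (cnt (j * N / J) (d * e) b - cnt (j * N / J) d b / (e.totient : ℝ)) ^ 2)
          (fun _ _ => sq_nonneg _) hj
      set v := cnt (j * N / J) (d * e) b - cnt (j * N / J) d b / (e.totient : ℝ) with hv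
      have h5 : v ^ 2 ≤ (1 / 2 * (c / e + e / (κ * c) * W)) ^ 2 := by
        have h6 : v ^ 2 ≤ W / κ := by
          rw [le_div_iff₀ hκ]
          calc v ^ 2 * κ ≤ Q b * κ := by gcongr
            _ ≤ W := by linarith
        have h7 : W / κ ≤ (1 / 2 * (c / e + e / (κ * c) * W)) ^ 2 := by
          have e1 : (1 / 2 * (c / e + e / (κ * c) * W)) ^ 2 - W / κ =
              (1 / 2 * (c / e - e / (κ * c) * W)) ^ 2 := by
            field_simp
            ring
          have := sq_nonneg (1 / 2 * (c / e - e / (κ * c) * W))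
          linarith
        exact h6.trans h7
      have h8 : 0 ≤ e / (κ * c) * W := mul_nonneg (by positivity) hW0
      have h9 : 0 ≤ c / (e : ℝ) := by positivity
      have h10 : 0 ≤ 1 / 2 * (c / e + e / (κ * c) * W) := by linarith
      exact abs_le_of_sq_le_sq h5 h10
    -- interpolation
    set j := ⌊y * J / N⌋₊ with hj
    have hjJ : j ≤ J := by
      have h1 : y * J / N ≤ J := by
        rw [div_le_iff₀ hN0]
        nlinarith
      have := Nat.floor_le_floor h1
      rwa [Nat.floor_natCast] at this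
    have hyj : (j : ℝ) * N / J ≤ y := by
      have h1 : (j : ℝ) ≤ y * J / N := Nat.floor_le (by positivity)
      rw [div_le_iff₀ hJ0]
      rw [le_div_iff₀ hN0] at h1
      exact h1
    set j' := min (j + 1) J with hj'
    have hj'J : j' ≤ J := min_le_right _ _
    have hyj' : y ≤ (j' : ℝ) * N / J := by
      rcases le_total (j + 1) J with h1 | h1
      · rw [hj', min_eq_left h1]
        have h2 : y * J / N < j + 1 := Nat.lt_floor_add_one _
        rw [le_div_iff₀ hJ0]
        rw [div_lt_iff₀ hN0] at h2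
        push_cast
        linarith
      · rw [hj', min_eq_right h1]
        have : (J : ℝ) * N / J = N := by field_simp
        rw [this]
        exact hyN
    have hdiff : (j' : ℝ) * N / J - j * N / J ≤ N / J := by
      have h1 : (j' : ℝ) ≤ j + 1 := by
        have : j' ≤ j + 1 := min_le_left _ _
        exact_mod_cast this
      rw [← sub_div, ← sub_mul]
      apply div_le_div_of_nonneg_right _ hJ0.le
      nlinarith
    have hj0 : (0 : ℝ) ≤ (j : ℝ) * N / J := by positivity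
    have hle := hyj.trans hyj'
    have hcd := cnt_diff hj0 hle d a hd
    have hcd' : cnt ((j' : ℝ) * N / J) d a ≤ cnt ((j : ℝ) * N / J) d a + ((N : ℝ) / (J * d) + 3) := by
      refine hcd.trans ?_
      have h1 : ((j' : ℝ) * N / J - j * N / J) / d ≤ (N : ℝ) / J / d := div_le_div_of_nonneg_right hdiff hd0.le
      have h2 : (N : ℝ) / J / d = N / (J * d) := div_div _ _ _
      rw [h2] at h1
      linarith
    have g1 := abs_le.1 (hgrid j (Finset.mem_range.2 (by omega)))
    have g2 := abs_le.1 (hgrid j' (Finset.mem_range.2 (by omega)))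
    have m1 := cnt_mono hyj (d * e) a
    have m2 := cnt_mono hyj' (d * e) a
    have m3 : cnt ((j : ℝ) * N / J) d a / (e.totient : ℝ) ≤ cnt y d a / (e.totient : ℝ) :=
      div_le_div_of_nonneg_right (cnt_mono hyj d a) hφ.le
    have m4 : cnt y d a / (e.totient : ℝ) ≤ cnt ((j' : ℝ) * N / J) d a / (e.totient : ℝ) :=
      div_le_div_of_nonneg_right (cnt_mono hyj' d a) hφ.le
    have m5 : cnt ((j' : ℝ) * N / J) d a / (e.totient : ℝ) ≤
        cnt ((j : ℝ) * N / J) d a / (e.totient : ℝ) + ((N : ℝ) / (J * d) + 3) / (e.totient : ℝ) := by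
      rw [← add_div]
      exact div_le_div_of_nonneg_right hcd' hφ.le
    rw [abs_le]
    constructor
    · linarith [g1.1]
    · linarith [g2.2]

end EH60
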