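import Pool.Agent.EH60.Trim3

/-!
# Equidistribution in all classes outside small exceptional sets: the sum over the cofactors
-/

noncomputable section

namespace EH60

open Finset Filter

theorem one_le_wt {d : ℕ} (hd : Squarefree d) : 1 ≤ wt d := by
  rw [wt_of_squarefree hd]
  exact one_le_pow₀ (by norm_num)

theorem trim (ε η : ℝ) (hε : 0 < ε) (hη : 0 < η) (hηε : η ≤ ε) : ∀ᶠ N : ℕ in atTop, ∀ d : ℕ, 0 < d →
    ∃ (A : ℕ → Finset ℕ) (x : ℕ → ℝ),
      (∀ e ∈ Rg N ε d, ((A e).card : ℝ) ≤ KK N η d e ∧ 0 ≤ x e) ∧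
      ∑ e ∈ Rg N ε d, x e ≤ (N : ℝ) ^ (1 - η / 9) / d ∧
      ∀ e ∈ Rg N ε d, ∀ y : ℝ, 0 ≤ y → y ≤ N → ∀ a : ℕ, a.Coprime (d * e) → a % (d * e) ∉ A e →
        |cnt y (d * e) a - cnt y d a / (e.totient : ℝ)| ≤ x e := by
  obtain ⟨C₀, hC₀, hCN⟩ := sum_wt_Rg ε hε
  set K : ℕ := ⌊1 / ε⌋₊ with hK
  set κ' : ℝ := η / (72 * (4 * (K : ℝ) + 2)) with hκ'
  have hκ'0 : 0 < κ' := by positivity
  have e1 : ∀ᶠ x : ℝ in atTop, ‖Real.log x‖ ≤ (1 / 2) * ‖x ^ κ'‖ :=
    (isLittleO_log_rpow_atTop (r := κ') hκ'0).bound (by norm_num)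
  filter_upwards [hCN, tendsto_natCast_atTop_atTop.eventually e1,
    (tendsto_natpow κ' hκ'0).eventually_ge_atTop (max 1200 ((K : ℝ) + 1)),
    (tendsto_natpow ε hε).eventually_ge_atTop 8,
    (tendsto_natpow (η / 72) (by positivity)).eventually_ge_atTop (max 2 (16 * C₀)),
    eventually_ge_atTop 2] with N h1 h2 h3 h4 h5 hN d hd
  have hN2 : (2 : ℝ) ≤ N := by exact_mod_cast hN
  have hN1 : (1 : ℝ) < N := by linarith
  have hN0 : (0 : ℝ) < N := by linarith
  have hlog : 0 ≤ Real.log N := Real.log_nonneg (by linarith)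
  rw [Real.norm_of_nonneg hlog, Real.norm_of_nonneg (by positivity)] at h2
  have hd0 : (0 : ℝ) < d := by exact_mod_cast hd
  set L := 1 + Real.log N with hL
  set D : ℝ := (N : ℝ) ^ (η / 72) with hD
  have hD2 : 2 ≤ D := (le_max_left _ _).trans h5
  have hDC : 16 * C₀ ≤ D := (le_max_right _ _).trans h5
  have hD0 : 0 < D := by linarith
  have hD1 : 1 ≤ D := by linarith
  set E₀ : ℝ := (N : ℝ) ^ κ' with hE₀
  have hE1200 : 1200 ≤ E₀ := (le_max_left _ _).trans h3
  have hEK : (K : ℝ) + 1 ≤ E₀ := (le_max_right _ _).trans h3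
  have hE0 : 0 < E₀ := by linarith
  have hE1 : 1 ≤ E₀ := by linarith
  have hLE : L ≤ E₀ := by rw [hL]; linarith
  have hL1 : 1 ≤ L := by rw [hL]; linarith
  have hED : E₀ ^ (4 * K + 2) = D := by
    rw [hE₀, hD, ← Real.rpow_natCast, ← Real.rpow_mul hN0.le]
    congr 1
    rw [hκ']
    push_cast
    field_simp
  have hLD : L ≤ D := by
    rw [← hED]
    calc L ≤ E₀ ^ 1 := by rw [pow_one]; exact hLE
      _ ≤ E₀ ^ (4 * K + 2) := pow_le_pow_right₀ hE1 (by omega)
  set B : ℝ := ((K : ℝ) + 1) * (1200 * L ^ 3) ^ K with hB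
  have hB0 : 0 < B := by positivity
  have hBD : 4 * B ≤ D := by
    rw [← hED, hB]
    have g1 : 1200 * L ^ 3 ≤ E₀ ^ 4 := by
      calc 1200 * L ^ 3 ≤ E₀ * E₀ ^ 3 := by gcongr
        _ = E₀ ^ 4 := by ring
    calc 4 * (((K : ℝ) + 1) * (1200 * L ^ 3) ^ K) ≤ E₀ * (E₀ * (E₀ ^ 4) ^ K) := by
          gcongr
          linarith
      _ = E₀ ^ (4 * K + 2) := by rw [← pow_mul]; ring
  have hD72 : D ^ 72 = (N : ℝ) ^ η := by
    rw [hD, ← Real.rpow_natCast, ← Real.rpow_mul hN0.le]
    congr 1; push_cast; ring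
  have hND8 : (N : ℝ) ^ (1 - η / 9) = N / D ^ 8 := by
    rw [Real.rpow_sub hN0, Real.rpow_one, hD, ← Real.rpow_natCast, ← Real.rpow_mul hN0.le]
    congr 2; push_cast; ring
  set J : ℕ := ⌈D ^ 36⌉₊ with hJ
  have hJge : D ^ 36 ≤ J := Nat.le_ceil _
  have hD36 : 2 ≤ D ^ 36 := by
    calc (2 : ℝ) ≤ D ^ 1 := by rw [pow_one]; exact hD2
      _ ≤ D ^ 36 := pow_le_pow_right₀ hD1 (by norm_num)
  have hJ1 : (J : ℝ) + 1 ≤ 2 * D ^ 36 := by
    have : (J : ℝ) < D ^ 36 + 1 := Nat.ceil_lt_add_one (by positivity)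
    linarith
  have hJ0 : 0 < J := Nat.ceil_pos.2 (by positivity)
  have hJ0' : (0 : ℝ) < J := by exact_mod_cast hJ0
  set c : ℝ := N / d / D ^ 9 with hc
  have hc0 : 0 < c := by positivity
  have hKK : ∀ e, 0 < e → 0 < KK N η d e := by
    intro e he
    unfold KK
    have he0 : (0 : ℝ) < e := by exact_mod_cast he
    positivity
  -- the sets
  have hex : ∀ e : ℕ, ∃ A : Finset ℕ, 0 < e → (A.card : ℝ) ≤ KK N η d e ∧ ∀ y : ℝ, 0 ≤ y → y ≤ N →
      ∀ a : ℕ, a.Coprime (d * e) → a % (d * e) ∉ A →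
      |cnt y (d * e) a - cnt y d a / (e.totient : ℝ)| ≤
        1 / 2 * (c / e + e / (KK N η d e * c) * ∑ j ∈ Finset.range (J + 1), VV (j * N / J) d e) +
        ((N : ℝ) / (J * d) + 3) / (e.totient : ℝ) := by
    intro e
    by_cases he : 0 < e
    · obtain ⟨A, hA⟩ := exceptional (N := N) (d := d) (e := e) (J := J) (κ := KK N η d e) (c := c)
        (by omega) hJ0 hd he (hKK e he) hc0
      exact ⟨A, fun _ => hA⟩
    · exact ⟨∅, fun h => absurd h he⟩
  choose A hA using hex
  set W : ℕ → ℝ := fun e => ∑ j ∈ Finset.range (J + 1), VV (j * N / J) d e with hW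
  have hW0 : ∀ e, 0 ≤ W e := fun e => Finset.sum_nonneg fun _ _ => VV_nonneg _ _ _
  refine ⟨A, fun e => 1 / 2 * (c / e + e / (KK N η d e * c) * W e) +
    ((N : ℝ) / (J * d) + 3) / (e.totient : ℝ), ?_, ?_, ?_⟩
  · intro e he
    rw [Rg, Finset.mem_filter, Finset.mem_Icc] at he
    have he0 : 0 < e := by omega
    refine ⟨(hA e he0).1, ?_⟩
    have g1 := hKK e he0
    have g2 := hW0 e
    positivity
  · -- the sum
    rcases (Rg N ε d).eq_empty_or_nonempty with hemp | ⟨e₀, he₀⟩
    · rw [hemp, Finset.sum_empty]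
      positivity
    have hdN : 1 ≤ (N : ℝ) / d / D ^ 72 := by
      rw [Rg, Finset.mem_filter, Finset.mem_Icc] at he₀
      have g1 : (d : ℝ) ≤ (N : ℝ) ^ (1 - ε) := by
        have g2 : (1 : ℝ) ≤ e₀ := by exact_mod_cast he₀.1.1
        have g3 := he₀.2.2.2.2
        nlinarith
      have g4 : (N : ℝ) ^ (1 - ε) ≤ N / D ^ 72 := by
        rw [hD72, Real.rpow_sub hN0, Real.rpow_one]
        apply div_le_div_of_nonneg_left hN0.le (by positivity)
        exact Real.rpow_le_rpow_of_exponent_le hN1.le hηε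
      rw [div_div, one_le_div (by positivity)]
      have g5 := g1.trans g4
      rw [le_div_iff₀ (by positivity)] at g5
      exact g5
    have hsplit : ∑ e ∈ Rg N ε d, (1 / 2 * (c / e + e / (KK N η d e * c) * W e) +
        ((N : ℝ) / (J * d) + 3) / (e.totient : ℝ)) =
        c / 2 * (∑ e ∈ Rg N ε d, 1 / (e : ℝ)) +
        1 / 2 * (∑ e ∈ Rg N ε d, e / (KK N η d e * c) * W e) +
        ((N : ℝ) / (J * d) + 3) * ∑ e ∈ Rg N ε d, 1 / (e.totient : ℝ) := by
      rw [Finset.mul_sum, Finset.mul_sum, Finset.mul_sum, ← Finset.sum_add_distrib,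
        ← Finset.sum_add_distrib]
      apply Finset.sum_congr rfl
      intro e _
      ring
    rw [hsplit, hND8]
    -- first
    have t1 : c / 2 * (∑ e ∈ Rg N ε d, 1 / (e : ℝ)) ≤ N / d / D ^ 8 * (1 / 2) := by
      have g1 := harm_le (N := N) (Rg N ε d) (Finset.filter_subset _ _)
      calc c / 2 * (∑ e ∈ Rg N ε d, 1 / (e : ℝ)) ≤ c / 2 * D := by
            have := g1.trans hLD
            gcongr
        _ = N / d / D ^ 8 * (1 / 2) := by rw [hc]; field_simp
    -- second
    have t2 : 1 / 2 * (∑ e ∈ Rg N ε d, e / (KK N η d e * c) * W e) ≤ N / d / D ^ 8 * (1 / 4) := by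
      have g1 : ∀ e ∈ Rg N ε d, e / (KK N η d e * c) * W e = D ^ 9 / (d * D ^ 72) *
          (W e / UU N d e) := by
        intro e he
        rw [Rg, Finset.mem_filter, Finset.mem_Icc] at he
        have he0 : 0 < e := by omega
        have he0' : (0 : ℝ) < e := by exact_mod_cast he0
        have hU := UU_pos (N := N) (d := d) he0
        rw [KK_eq (by omega) hd, ← hD72, hc]
        field_simp
      rw [Finset.sum_congr rfl g1, ← Finset.mul_sum]
      have g2 : ∑ e ∈ Rg N ε d, W e / UU N d e ≤ (J + 1) * (N * B) := by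
        calc ∑ e ∈ Rg N ε d, W e / UU N d e
            = ∑ e ∈ Rg N ε d, ∑ j ∈ Finset.range (J + 1), VV (j * N / J) d e / UU N d e := by
              apply Finset.sum_congr rfl
              intro e _
              rw [hW, Finset.sum_div]
          _ = ∑ j ∈ Finset.range (J + 1), ∑ e ∈ Rg N ε d, VV (j * N / J) d e / UU N d e :=
              Finset.sum_comm
          _ ≤ ∑ _j ∈ Finset.range (J + 1), N * B := by
              apply Finset.sum_le_sum
              intro j hj
              rw [Finset.mem_range] at hj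
              have hj' : (j : ℝ) ≤ J := by exact_mod_cast (by omega : j ≤ J)
              have g3 := Psi (N := N) (ε := ε) (y := j * N / J) hN hε h4 (by positivity) (by
                rw [div_le_iff₀ hJ0']
                nlinarith) d hd
              refine g3.trans (le_of_eq ?_)
              rw [hB]
              ring
          _ = (J + 1) * (N * B) := by
              rw [Finset.sum_const, Finset.card_range, nsmul_eq_mul]; push_cast; ring
      calc 1 / 2 * (D ^ 9 / (d * D ^ 72) * ∑ e ∈ Rg N ε d, W e / UU N d e)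
          ≤ 1 / 2 * (D ^ 9 / (d * D ^ 72) * ((2 * D ^ 36) * (N * (D / 4)))) := by
            have g4 : B ≤ D / 4 := by linarith
            have g5 : ((J : ℝ) + 1) * (N * B) ≤ (2 * D ^ 36) * (N * (D / 4)) := by gcongr
            have g6 := g2.trans g5
            gcongr
        _ = N / d / D ^ 8 * (1 / 4) * (1 / D ^ 18) := by
            field_simp
        _ ≤ N / d / D ^ 8 * (1 / 4) * 1 := by
            have : 1 / D ^ 18 ≤ 1 := by
              rw [div_le_one (by positivity)]
              exact one_le_pow₀ hD1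
            gcongr
        _ = _ := mul_one _
    -- third
    have t3 : ((N : ℝ) / (J * d) + 3) * ∑ e ∈ Rg N ε d, 1 / (e.totient : ℝ) ≤ N / d / D ^ 8 * (1 / 4) := by
      have g1 : ∑ e ∈ Rg N ε d, 1 / (e.totient : ℝ) ≤ C₀ := by
        refine le_trans ?_ (h1 d hd)
        apply Finset.sum_le_sum
        intro e he
        rw [Rg, Finset.mem_filter] at he
        apply div_le_div_of_nonneg_right (one_le_wt he.2.1) (Nat.cast_nonneg _)
      have g2 : (N : ℝ) / (J * d) ≤ N / d / D ^ 36 := by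
        rw [div_div]
        apply div_le_div_of_nonneg_left hN0.le (by positivity)
        nlinarith
      have g3 : (1 : ℝ) ≤ N / d / D ^ 36 := by
        refine hdN.trans ?_
        apply div_le_div_of_nonneg_left (by positivity) (by positivity)
        exact pow_le_pow_right₀ hD1 (by norm_num)
      have g4 : C₀ ≤ D / 16 := by linarith
      calc ((N : ℝ) / (J * d) + 3) * ∑ e ∈ Rg N ε d, 1 / (e.totient : ℝ)
          ≤ (4 * (N / d / D ^ 36)) * (D / 16) := by
            apply mul_le_mul (by linarith) (g1.trans g4) _ (by positivity)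
            exact Finset.sum_nonneg fun e _ => by positivity
        _ = N / d / D ^ 8 * (1 / 4) * (1 / D ^ 27) := by
            field_simp
            norm_num
        _ ≤ N / d / D ^ 8 * (1 / 4) * 1 := by
            have : 1 / D ^ 27 ≤ 1 := by
              rw [div_le_one (by positivity)]
              exact one_le_pow₀ hD1
            gcongr
        _ = _ := mul_one _
    have e2 : (N : ℝ) / D ^ 8 / d = N / d / D ^ 8 := by rw [div_right_comm]
    rw [e2]
    linarith
  · intro e he y hy hyN a ha haA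
    rw [Rg, Finset.mem_filter, Finset.mem_Icc] at he
    exact (hA e (by omega)).2 y hy hyN a ha haA

end EH60
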