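import Pool.Agent.EH60.Trim4

/-!
# The maximum over all but a few classes
-/

noncomputable section

namespace EH60

open Finset Filter

/-- `E(N, n)` after discarding at most `κ` residue classes modulo `n`: the infimum of the `x ≥ 0` such
that `|π(y; n, l) - li y / φ(n)| ≤ x` for all `2 ≤ y ≤ N` and all `l` prime to `n` outside at most `κ` classes. -/
def Et (N n : ℕ) (κ : ℝ) : ℝ :=
  sInf {x : ℝ | 0 ≤ x ∧ ∃ A : Finset ℕ, (A.card : ℝ) ≤ κ ∧ ∀ (y : ℝ) (l : ℕ), 2 ≤ y → y ≤ N →
    l.Coprime n → l % n ∉ A → Delta y n l ≤ x}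

theorem Et_nonneg (N n : ℕ) (κ : ℝ) : 0 ≤ Et N n κ := by
  apply Real.sInf_nonneg
  rintro x ⟨hx, _⟩
  exact hx

theorem Et_le {N n : ℕ} {κ x : ℝ} (hx : 0 ≤ x) (A : Finset ℕ) (hA : (A.card : ℝ) ≤ κ)
    (h : ∀ (y : ℝ) (l : ℕ), 2 ≤ y → y ≤ N → l.Coprime n → l % n ∉ A → Delta y n l ≤ x) :
    Et N n κ ≤ x := by
  apply csInf_le
  · exact ⟨0, fun z hz => hz.1⟩
  · exact ⟨hx, A, hA, h⟩

/-- the trimmed errors for the moduli `d e` are controlled by `E(N, d)` -/
theorem trim_E (ε η : ℝ) (hε : 0 < ε) (hη : 0 < η) (hηε : η ≤ ε) : ∃ C : ℝ, 0 < C ∧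
    ∀ᶠ N : ℕ in atTop, ∀ d : ℕ, 0 < d →
      ∑ e ∈ Rg N ε d, wt e * Et N (d * e) (KK N η d e) ≤ C * E N d + (N : ℝ) ^ (1 - η / 10) / d := by
  obtain ⟨C, hC, hCN⟩ := sum_wt_Rg ε hε
  refine ⟨C, hC, ?_⟩
  set K : ℕ := ⌊1 / ε⌋₊ with hK
  filter_upwards [hCN, trim ε η hε hη hηε,
    (tendsto_natpow (η / 90) (by positivity)).eventually_ge_atTop (3 ^ K), eventually_ge_atTop 2] with
    N h1 h2 h3 hN d hd
  have hN2 : (2 : ℝ) ≤ N := by exact_mod_cast hN
  have hN0 : (0 : ℝ) < N := by linarith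
  have hd0 : (0 : ℝ) < d := by exact_mod_cast hd
  obtain ⟨A, x, hAx, hsum, hdev⟩ := h2 d hd
  have hEt : ∀ e ∈ Rg N ε d, Et N (d * e) (KK N η d e) ≤ x e + E N d / (e.totient : ℝ) := by
    intro e he
    have he' := he
    rw [Rg, Finset.mem_filter, Finset.mem_Icc] at he'
    have he0 : 0 < e := by omega
    have hφe : (0 : ℝ) < e.totient := by exact_mod_cast Nat.totient_pos.2 he0
    have hφd : (0 : ℝ) < d.totient := by exact_mod_cast Nat.totient_pos.2 hd
    apply Et_le _ (A e) (hAx e he).1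
    · intro y l hy hyN hl hlA
      have g1 := hdev e he y (by linarith) hyN l hl hlA
      have hld : l.Coprime d := Nat.Coprime.coprime_mul_right_right hl
      have g2 := le_E N d y l hy hyN hld
      rw [Delta_eq] at g2 ⊢
      set I := ∫ t in (2 : ℝ)..y, 1 / Real.log t with hI
      rw [Nat.totient_mul he'.2.2.1.symm, Nat.cast_mul]
      have e1 : cnt y (d * e) l - I / (d.totient * e.totient) =
          (cnt y (d * e) l - cnt y d l / (e.totient : ℝ)) +
          (cnt y d l - I / (d.totient : ℝ)) / (e.totient : ℝ) := by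
        field_simp
        ring
      rw [e1]
      refine (abs_add_le _ _).trans (add_le_add g1 ?_)
      rw [abs_div, abs_of_pos hφe]
      exact div_le_div_of_nonneg_right g2 hφe.le
    · have g1 := (hAx e he).2
      have g2 := E_nonneg N d
      positivity
  have hwt : ∀ e ∈ Rg N ε d, wt e ≤ 3 ^ K := by
    intro e he
    refine (wt_le e).trans ?_
    have h4 := card_Rg hN hε d e he
    rw [Finset.mem_range] at h4
    exact pow_le_pow_right₀ (by norm_num) (by omega)
  calc ∑ e ∈ Rg N ε d, wt e * Et N (d * e) (KK N η d e)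
      ≤ ∑ e ∈ Rg N ε d, (3 ^ K * x e + E N d * (wt e / (e.totient : ℝ))) := by
        apply Finset.sum_le_sum
        intro e he
        calc wt e * Et N (d * e) (KK N η d e) ≤ wt e * (x e + E N d / (e.totient : ℝ)) :=
              mul_le_mul_of_nonneg_left (hEt e he) (wt_nonneg e)
          _ = wt e * x e + E N d * (wt e / (e.totient : ℝ)) := by ring
          _ ≤ _ := by
              have := hwt e he
              have := (hAx e he).2
              gcongr
    _ = 3 ^ K * (∑ e ∈ Rg N ε d, x e) + E N d * ∑ e ∈ Rg N ε d, wt e / (e.totient : ℝ) := by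
        rw [Finset.sum_add_distrib, ← Finset.mul_sum, ← Finset.mul_sum]
    _ ≤ (N : ℝ) ^ (η / 90) * ((N : ℝ) ^ (1 - η / 9) / d) + E N d * C := by
        have g1 := h1 d hd
        have g2 := E_nonneg N d
        have g3 : 0 ≤ ∑ e ∈ Rg N ε d, x e := Finset.sum_nonneg fun e he => (hAx e he).2
        gcongr
    _ = C * E N d + (N : ℝ) ^ (1 - η / 10) / d := by
        rw [← mul_div_assoc, ← Real.rpow_add hN0]
        ring_nf

/-- if `β` is admissible then the trimmed sums over all moduli `d e ≤ N^(1-ε)` satisfy the bound of Q1 -/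
theorem trim_admissible (β ε η : ℝ) (hε : 0 < ε) (hη : 0 < η) (hηε : η ≤ ε) (h : Admissible β) :
    ∃ C₁ K : ℝ, ∀ᶠ N : ℕ in atTop,
      ∑ d ∈ (Finset.Icc (1 : ℕ) N).filter (fun d : ℕ => (d : ℝ) < (N : ℝ) ^ β / Real.log N ^ C₁),
        ∑ e ∈ Rg N ε d, wt (d * e) * Et N (d * e) (KK N η d e) ≤ K * N / Real.log N ^ 3 := by
  obtain ⟨C₁, K, hK⟩ := h
  obtain ⟨C, hC, hCN⟩ := trim_E ε η hε hη hηε
  obtain ⟨C', hC', hCN'⟩ := sum_wt_div (η / 40) (by positivity)
  refine ⟨C₁, C * K + 1, ?_⟩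
  filter_upwards [hK, hCN, hCN', small_error C' (η / 20) hC' (by positivity),
    eventually_ge_atTop 3] with N h1 h2 h3 h4 hN
  have hN3 : (3 : ℝ) ≤ N := by exact_mod_cast hN
  have hN0 : (0 : ℝ) < N := by linarith
  have hlog : 1 ≤ Real.log N := by
    rw [Real.le_log_iff_exp_le (by linarith)]
    linarith [Real.exp_one_lt_d9]
  set S := (Finset.Icc (1 : ℕ) N).filter (fun d : ℕ => (d : ℝ) < (N : ℝ) ^ β / Real.log N ^ C₁) with hS
  have hwtmul : ∀ d e : ℕ, e ∈ Rg N ε d → wt (d * e) = wt d * wt e := by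
    intro d e he
    rw [Rg, Finset.mem_filter] at he
    by_cases hd : Squarefree d
    · exact wt_mul he.2.2.1.symm hd he.2.1
    · rw [wt_of_not_squarefree hd, zero_mul, wt_of_not_squarefree]
      intro hcon
      exact hd (hcon.of_mul_left)
  calc ∑ d ∈ S, ∑ e ∈ Rg N ε d, wt (d * e) * Et N (d * e) (KK N η d e)
      = ∑ d ∈ S, wt d * ∑ e ∈ Rg N ε d, wt e * Et N (d * e) (KK N η d e) := by
        apply Finset.sum_congr rfl
        intro d _
        rw [Finset.mul_sum]
        apply Finset.sum_congr rfl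
        intro e he
        rw [hwtmul d e he]
        ring
    _ ≤ ∑ d ∈ S, (C * (wt d * E N d) + (N : ℝ) ^ (1 - η / 10) * (wt d / d)) := by
        apply Finset.sum_le_sum
        intro d hd
        rw [hS, Finset.mem_filter, Finset.mem_Icc] at hd
        calc wt d * ∑ e ∈ Rg N ε d, wt e * Et N (d * e) (KK N η d e) ≤
            wt d * (C * E N d + (N : ℝ) ^ (1 - η / 10) / d) :=
              mul_le_mul_of_nonneg_left (h2 d (by omega)) (wt_nonneg d)
          _ = _ := by ring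
    _ = C * (∑ d ∈ S, wt d * E N d) + (N : ℝ) ^ (1 - η / 10) * ∑ d ∈ S, wt d / d := by
        rw [Finset.sum_add_distrib, ← Finset.mul_sum, ← Finset.mul_sum]
    _ ≤ C * (K * N / Real.log N ^ 3) + (N : ℝ) ^ (1 - η / 10) * (C' * (N : ℝ) ^ (2 * (η / 40))) := by
        have := h3 S (Finset.filter_subset _ _)
        gcongr
    _ = C * K * N / Real.log N ^ 3 + C' * (N : ℝ) ^ (1 - η / 20) := by
        have e1 : (N : ℝ) ^ (1 - η / 10) * (C' * (N : ℝ) ^ (2 * (η / 40))) =
            C' * ((N : ℝ) ^ (1 - η / 10) * (N : ℝ) ^ (2 * (η / 40))) := by ring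
        rw [e1, ← Real.rpow_add hN0]
        ring_nf
    _ ≤ C * K * N / Real.log N ^ 3 + N / Real.log N ^ 3 := by
        have h5 : (N : ℝ) / Real.log N ^ 4 ≤ N / Real.log N ^ 3 := by
          apply div_le_div_of_nonneg_left hN0.le (by positivity)
          exact pow_le_pow_right₀ hlog (by norm_num)
        linarith
    _ = (C * K + 1) * N / Real.log N ^ 3 := by ring

end EH60
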