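import Pool.Agent.EH60.HybridFinal

/-!
# Sums over primes, and a lower bound for truncated Euler products
-/

noncomputable section

namespace EH60

open Finset Filter

theorem sum_prod_mul_sum (P : Finset ℕ) (a L : ℕ → ℝ) (ha : ∀ p, 0 ≤ a p) :
    ∑ T ∈ P.powerset, (∏ p ∈ T, a p) * ∑ p ∈ T, L p =
      (∏ p ∈ P, (1 + a p)) * ∑ p ∈ P, L p * (a p / (1 + a p)) := by
  classical
  induction P using Finset.induction_on with
  | empty => simp
  | insert q P hq ih =>
    have hq1 : (1 : ℝ) + a q ≠ 0 := by have := ha q; positivity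
    have h0 : ∑ T ∈ P.powerset, ∏ p ∈ T, a p = ∏ p ∈ P, (1 + a p) := (Finset.prod_one_add (f := a) P).symm
    have hins : ∀ T ∈ P.powerset, (∏ p ∈ insert q T, a p) * ∑ p ∈ insert q T, L p =
        a q * ((∏ p ∈ T, a p) * ∑ p ∈ T, L p) + a q * L q * ∏ p ∈ T, a p := by
      intro T hT
      rw [Finset.mem_powerset] at hT
      have hqT : q ∉ T := fun h => hq (hT h)
      rw [Finset.prod_insert hqT, Finset.sum_insert hqT]
      ring
    rw [Finset.sum_powerset_insert hq, Finset.sum_congr rfl hins, Finset.sum_add_distrib,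
      ← Finset.mul_sum, ← Finset.mul_sum, ih, h0, Finset.prod_insert hq, Finset.sum_insert hq]
    field_simp
    ring

theorem markov (P : Finset ℕ) (a : ℕ → ℝ) (ha : ∀ p, 0 ≤ a p) (hP : ∀ p ∈ P, 0 < p) {x : ℝ}
    (hx : 1 < x) (h : ∑ p ∈ P, Real.log p * (a p / (1 + a p)) ≤ 1 / 2 * Real.log x) :
    1 / 2 * ∏ p ∈ P, (1 + a p) ≤
      ∑ T ∈ P.powerset.filter (fun T => ((∏ p ∈ T, p : ℕ) : ℝ) ≤ x), ∏ p ∈ T, a p := by
  classical
  have hlog : 0 < Real.log x := Real.log_pos hx
  have hprod : 0 ≤ ∏ p ∈ P, (1 + a p) := Finset.prod_nonneg fun p _ => by have := ha p; positivity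
  have h0 : ∏ p ∈ P, (1 + a p) = ∑ T ∈ P.powerset, ∏ p ∈ T, a p := Finset.prod_one_add (f := a) P
  have h1 := sum_prod_mul_sum P a (fun p => Real.log p) ha
  have hsplit := Finset.sum_filter_add_sum_filter_not P.powerset
    (fun T => ((∏ p ∈ T, p : ℕ) : ℝ) ≤ x) (fun T => ∏ p ∈ T, a p)
  have h2 : (∑ T ∈ P.powerset.filter (fun T => ¬ ((∏ p ∈ T, p : ℕ) : ℝ) ≤ x), ∏ p ∈ T, a p) *
      Real.log x ≤ ∑ T ∈ P.powerset, (∏ p ∈ T, a p) * ∑ p ∈ T, Real.log p := by
    rw [Finset.sum_mul]
    calc ∑ T ∈ P.powerset.filter (fun T => ¬ ((∏ p ∈ T, p : ℕ) : ℝ) ≤ x), (∏ p ∈ T, a p) * Real.log x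
        ≤ ∑ T ∈ P.powerset.filter (fun T => ¬ ((∏ p ∈ T, p : ℕ) : ℝ) ≤ x),
            (∏ p ∈ T, a p) * ∑ p ∈ T, Real.log p := by
          apply Finset.sum_le_sum
          intro T hT
          rw [Finset.mem_filter, Finset.mem_powerset, not_le] at hT
          apply mul_le_mul_of_nonneg_left _ (Finset.prod_nonneg fun p _ => ha p)
          have h3 : ∑ p ∈ T, Real.log p = Real.log ((∏ p ∈ T, p : ℕ) : ℝ) := by
            push_cast
            rw [Real.log_prod]
            intro p hp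
            have := hP p (hT.1 hp)
            positivity
          rw [h3]
          exact Real.log_le_log (by linarith) hT.2.le
      _ ≤ ∑ T ∈ P.powerset, (∏ p ∈ T, a p) * ∑ p ∈ T, Real.log p := by
          apply Finset.sum_le_sum_of_subset_of_nonneg (Finset.filter_subset _ _)
          intro T _ _
          exact mul_nonneg (Finset.prod_nonneg fun p _ => ha p)
            (Finset.sum_nonneg fun p _ => Real.log_natCast_nonneg p)
  rw [h1] at h2
  have h3 : (∏ p ∈ P, (1 + a p)) * ∑ p ∈ P, Real.log p * (a p / (1 + a p)) ≤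
      (∏ p ∈ P, (1 + a p)) * (1 / 2 * Real.log x) := by gcongr
  have h4 : (∑ T ∈ P.powerset.filter (fun T => ¬ ((∏ p ∈ T, p : ℕ) : ℝ) ≤ x), ∏ p ∈ T, a p) ≤
      1 / 2 * ∏ p ∈ P, (1 + a p) := by
    have h5 : (∑ T ∈ P.powerset.filter (fun T => ¬ ((∏ p ∈ T, p : ℕ) : ℝ) ≤ x), ∏ p ∈ T, a p) *
      Real.log x ≤ (1 / 2 * ∏ p ∈ P, (1 + a p)) * Real.log x := by linarith
    exact le_of_mul_le_mul_right h5 hlog
  linarith

/-- The primes up to `X` and larger than `A`. -/
def PR (A X : ℝ) : Finset ℕ := (Finset.Icc 1 ⌊X⌋₊).filter (fun p : ℕ => p.Prime ∧ A < p)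

theorem cover2 {X A Bd : ℝ} (hA : 1 ≤ A) (hX : 1 ≤ X) (f : ℕ → ℝ)
    (hf0 : ∀ p, p.Prime → 0 ≤ f p) (hBd : 0 ≤ Bd)
    (hb : ∀ P : ℝ, A ≤ P → P ≤ X → ∑ p ∈ Pb P, f p ≤ Bd) :
    ∑ p ∈ PR A X, f p ≤ (Real.log X + 1) * Bd := by
  have hX0 : 0 < X := by linarith
  have hlog : 0 ≤ Real.log X := Real.log_nonneg hX
  set J : ℕ := ⌊Real.log X⌋₊ + 1 with hJ
  have hJ' : (J : ℝ) ≤ Real.log X + 1 := by
    rw [hJ]; push_cast
    linarith [Nat.floor_le hlog]
  have hJlt : Real.log X < J := by rw [hJ]; push_cast; exact Nat.lt_floor_add_one _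
  have hcov : ∀ p ∈ PR A X, ∃ j ∈ Finset.range J, A ≤ X / 4 ^ j ∧ p ∈ Pb (X / 4 ^ j) := by
    intro p hp
    rw [PR, Finset.mem_filter, Finset.mem_Icc] at hp
    obtain ⟨⟨hp1, hpN⟩, hpp, hp2⟩ := hp
    have hp0 : (0 : ℝ) < p := by exact_mod_cast hpp.pos
    have hpX : (p : ℝ) ≤ X := (Nat.le_floor_iff hX0.le).1 hpN
    have hex : ∃ j : ℕ, X / 4 ^ (j + 1) < p := by
      have h3 : Tendsto (fun j : ℕ => X / 4 ^ (j + 1)) atTop (nhds 0) := by
        have h4 : Tendsto (fun j : ℕ => X * (1 / 4 : ℝ) ^ (j + 1)) atTop (nhds (X * 0)) :=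
          ((tendsto_pow_atTop_nhds_zero_of_lt_one (by norm_num) (by norm_num)).comp
            (tendsto_add_atTop_nat 1)).const_mul X
        rw [mul_zero] at h4
        refine h4.congr (fun j => ?_)
        rw [one_div, inv_pow, div_eq_mul_inv]
      exact (h3.eventually_lt_const hp0).exists
    classical
    set j := Nat.find hex with hj
    have hj1 : X / 4 ^ (j + 1) < p := Nat.find_spec hex
    have hj2 : (p : ℝ) ≤ X / 4 ^ j := by
      rcases Nat.eq_zero_or_pos j with h0 | h0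
      · rw [h0, pow_zero, div_one]; exact hpX
      · have h5 := Nat.find_min hex (m := j - 1) (by omega)
        rw [not_lt] at h5
        have h6 : j - 1 + 1 = j := by omega
        rwa [h6] at h5
    refine ⟨j, ?_, hp2.le.trans hj2, ?_⟩
    · rw [Finset.mem_range]
      by_contra hcon
      rw [not_lt] at hcon
      have h7 : (4 : ℝ) ^ j ≤ X := by
        have h8 : (1 : ℝ) ≤ X / 4 ^ j := by
          refine le_trans ?_ hj2
          exact_mod_cast hpp.one_le
        rwa [le_div_iff₀ (by positivity), one_mul] at h8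
      have h9 : (J : ℝ) ≤ Real.log X := by
        calc (J : ℝ) ≤ j := by exact_mod_cast hcon
          _ ≤ j * Real.log 4 := by
              have hl2 := Real.log_two_gt_d9
              have hl4 : Real.log 4 = 2 * Real.log 2 := by
                rw [show (4 : ℝ) = 2 ^ 2 by norm_num, Real.log_pow]; norm_num
              have : (0 : ℝ) ≤ j := Nat.cast_nonneg _
              nlinarith
          _ = Real.log (4 ^ j) := by rw [Real.log_pow]
          _ ≤ Real.log X := Real.log_le_log (by positivity) h7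
      linarith
    · rw [mem_Pb (by positivity)]
      refine ⟨⟨?_, hj2⟩, hpp⟩
      rw [pow_succ, ← div_div] at hj1
      exact hj1
  have hfS : ∀ p ∈ PR A X, 0 ≤ f p := by
    intro p hp
    rw [PR, Finset.mem_filter] at hp
    exact hf0 p hp.2.1
  calc ∑ p ∈ PR A X, f p
      ≤ ∑ p ∈ PR A X, ∑ j ∈ Finset.range J,
          (if A ≤ X / 4 ^ j ∧ p ∈ Pb (X / 4 ^ j) then f p else 0) := by
        apply Finset.sum_le_sum
        intro p hp
        obtain ⟨j, hj, hj'⟩ := hcov p hp
        have h3 := Finset.single_le_sum (s := Finset.range J) (f := fun j =>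
          (if A ≤ X / 4 ^ j ∧ p ∈ Pb (X / 4 ^ j) then f p else 0)) (by
            intro i _
            split_ifs
            · exact hfS p hp
            · exact le_rfl) hj
        rwa [if_pos hj'] at h3
    _ = ∑ j ∈ Finset.range J, ∑ p ∈ PR A X,
          (if A ≤ X / 4 ^ j ∧ p ∈ Pb (X / 4 ^ j) then f p else 0) := Finset.sum_comm
    _ ≤ ∑ _j ∈ Finset.range J, Bd := by
        apply Finset.sum_le_sum
        intro j _
        by_cases hjN : A ≤ X / 4 ^ j
        · have hb' := hb (X / 4 ^ j) hjN (div_le_self hX0.le (one_le_pow₀ (by norm_num)))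
          refine le_trans ?_ hb'
          rw [← Finset.sum_filter]
          apply Finset.sum_le_sum_of_subset_of_nonneg
          · intro p hp
            rw [Finset.mem_filter] at hp
            exact hp.2.2
          · intro p hp _
            rw [Pb, Finset.mem_filter] at hp
            exact hf0 p hp.2
        · have : ∀ p ∈ PR A X, (if A ≤ X / 4 ^ j ∧ p ∈ Pb (X / 4 ^ j) then f p else 0) = 0 := by
            intro p _
            rw [if_neg (fun h => hjN h.1)]
          rw [Finset.sum_congr rfl this, Finset.sum_const_zero]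
          exact hBd
    _ = J * Bd := by rw [Finset.sum_const, Finset.card_range, nsmul_eq_mul]
    _ ≤ (Real.log X + 1) * Bd := by gcongr

/-- `∑_{p ≤ z} log p / p ≤ 6 (log z + 1)` -/
theorem sum_log_div {z : ℝ} (hz : 1 ≤ z) :
    ∑ p ∈ PR 1 z, Real.log p / p ≤ (Real.log z + 1) * 6 := by
  apply cover2 le_rfl hz
  · intro p _
    exact div_nonneg (Real.log_natCast_nonneg p) (Nat.cast_nonneg _)
  · norm_num
  · intro P hP _
    have hP0 : 0 < P := by linarith
    have h2 : ∑ p ∈ Pb P, Real.log p ≤ Chebyshev.theta P := by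
      rw [Chebyshev.theta]
      apply Finset.sum_le_sum_of_subset_of_nonneg
      · intro p hp
        rw [Pb, Finset.mem_filter, Finset.mem_Ioc] at hp
        rw [Finset.mem_filter, Finset.mem_Ioc]
        exact ⟨⟨by omega, hp.1.2⟩, hp.2⟩
      · intro p _ _
        exact Real.log_natCast_nonneg p
    have h3 := Chebyshev.theta_le_log4_mul_x (x := P) hP0.le
    have hl4 : Real.log 4 = 2 * Real.log 2 := by
      rw [show (4 : ℝ) = 2 ^ 2 by norm_num, Real.log_pow]; norm_num
    have hl2 := Real.log_two_lt_d9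
    calc ∑ p ∈ Pb P, Real.log p / p ≤ ∑ p ∈ Pb P, (4 / P) * Real.log p := by
          apply Finset.sum_le_sum
          intro p hp
          rw [mem_Pb hP0.le] at hp
          have hp0 : (0 : ℝ) < p := by exact_mod_cast hp.2.pos
          have hl : 0 ≤ Real.log p := Real.log_natCast_nonneg p
          rw [div_mul_eq_mul_div, div_le_div_iff₀ hp0 hP0]
          have := hp.1.1
          nlinarith
      _ = (4 / P) * ∑ p ∈ Pb P, Real.log p := by rw [Finset.mul_sum]
      _ ≤ (4 / P) * (Real.log 4 * P) := by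
          have := h2.trans h3
          gcongr
      _ = 8 * Real.log 2 := by rw [hl4]; field_simp; norm_num
      _ ≤ 6 := by linarith

/-- `∑_{N^δ < p ≤ N} 1 / p = O(1)` -/
theorem sum_inv_large (δ : ℝ) (hδ : 0 < δ) : ∀ᶠ N : ℕ in atTop,
    ∑ p ∈ PR ((N : ℝ) ^ δ) N, 1 / (p : ℝ) ≤ 24 / δ := by
  filter_upwards [(tendsto_natpow δ hδ).eventually_ge_atTop 16, eventually_ge_atTop 3] with N h1 hN
  have hN3 : (3 : ℝ) ≤ N := by exact_mod_cast hN
  have hN0 : (0 : ℝ) < N := by linarith
  have hlog : 1 ≤ Real.log N := by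
    rw [Real.le_log_iff_exp_le (by linarith)]
    linarith [Real.exp_one_lt_d9]
  have hl2 := Real.log_two_lt_d9
  have h2 := cover2 (X := N) (A := (N : ℝ) ^ δ) (Bd := 12 / (δ * Real.log N)) (by linarith)
    (by linarith) (fun p => 1 / (p : ℝ)) (fun p _ => by positivity) (by positivity) (by
      intro P hP _
      have hP16 : 16 ≤ P := h1.trans hP
      have hP0 : 0 < P := by linarith
      have hlogP : δ * Real.log N ≤ Real.log P := by
        rw [← Real.log_rpow hN0]
        exact Real.log_le_log (by positivity) hP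
      have h3 := card_Pb_le hP16
      have h4 : ∑ p ∈ Pb P, 1 / (p : ℝ) ≤ (Pb P).card * (4 / P) := by
        rw [← nsmul_eq_mul, ← Finset.sum_const]
        apply Finset.sum_le_sum
        intro p hp
        rw [mem_Pb hP0.le] at hp
        have hp0 : (0 : ℝ) < p := by exact_mod_cast hp.2.pos
        rw [div_le_div_iff₀ hp0 hP0]
        linarith [hp.1.1]
      refine h4.trans ?_
      rw [le_div_iff₀ (by positivity)]
      calc (Pb P).card * (4 / P) * (δ * Real.log N) ≤ (Pb P).card * (4 / P) * Real.log P := by gcongr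
        _ = ((Pb P).card * Real.log P) * (4 / P) := by ring
        _ ≤ (4 * Real.log 2 * P) * (4 / P) := by gcongr
        _ = 16 * Real.log 2 := by field_simp; norm_num
        _ ≤ 12 := by linarith)
  refine h2.trans ?_
  calc (Real.log N + 1) * (12 / (δ * Real.log N)) ≤ (2 * Real.log N) * (12 / (δ * Real.log N)) := by
        gcongr; linarith
    _ = 24 / δ := by field_simp; norm_num

/-- `∑_{2 ≤ n ≤ M} 1 / (n - 1)^2 ≤ 2` -/
theorem sum_inv_sq (M : ℕ) (hM : 2 ≤ M) : ∑ n ∈ Finset.Icc 2 M, (1 / ((n : ℝ) - 1)) ^ 2 ≤ 2 - 1 / ((M : ℝ) - 1) := by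
  induction M, hM using Nat.le_induction with
  | base => norm_num
  | succ M hM ih =>
    rw [Finset.sum_Icc_succ_top (by omega)]
    have h2 : (2 : ℝ) ≤ M := by exact_mod_cast hM
    push_cast
    have e : (M : ℝ) + 1 - 1 = M := by ring
    rw [e]
    have h3 : (1 / (M : ℝ)) ^ 2 ≤ 1 / ((M : ℝ) - 1) - 1 / M := by
      have h4 : 1 / ((M : ℝ) - 1) - 1 / M = 1 / (((M : ℝ) - 1) * M) := by
        have : (M : ℝ) - 1 ≠ 0 := by linarith
        field_simp
        ring
      rw [h4, one_div_pow, sq]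
      apply one_div_le_one_div_of_le
      · apply mul_pos <;> linarith
      · nlinarith
    linarith

theorem sum_inv_sq_le (S : Finset ℕ) (hS : ∀ p ∈ S, p.Prime) :
    ∑ p ∈ S, (1 / ((p : ℝ) - 1)) ^ 2 ≤ 2 := by
  set M := S.sup id + 2 with hM
  have h1 : S ⊆ Finset.Icc 2 M := by
    intro p hp
    rw [Finset.mem_Icc]
    refine ⟨(hS p hp).two_le, ?_⟩
    have : id p ≤ S.sup id := Finset.le_sup hp
    simp only [id] at this
    omega
  have h2 := sum_inv_sq M (by omega)
  have h3 : (0 : ℝ) ≤ 1 / ((M : ℝ) - 1) := by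
    have : (2 : ℝ) ≤ M := by exact_mod_cast (by omega : 2 ≤ M)
    apply one_div_nonneg.2; linarith
  calc ∑ p ∈ S, (1 / ((p : ℝ) - 1)) ^ 2 ≤ ∑ n ∈ Finset.Icc 2 M, (1 / ((n : ℝ) - 1)) ^ 2 :=
        Finset.sum_le_sum_of_subset_of_nonneg h1 fun _ _ _ => sq_nonneg _
    _ ≤ 2 := by linarith

end EH60
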