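import Pool.Agent.EH60.WM1

/-!
# `∑_{p ≤ N} 1/p ≥ log log N - 3`, and the pair sums
-/

noncomputable section

namespace EH60

open Finset Filter

theorem prod_ge_log (N : ℕ) (hN : 2 ≤ N) :
    Real.log N ≤ ∏ p ∈ N.primesBelow, (1 - 1 / (p : ℝ))⁻¹ := by
  set f : ℕ →* ℝ := (invMonoidWithZeroHom : ℝ →*₀ ℝ).toMonoidHom.comp (Nat.castRingHom ℝ).toMonoidHom with hf
  have hfn : ∀ n : ℕ, f n = (n : ℝ)⁻¹ := fun n => rfl
  have h1 : ∀ {p : ℕ}, p.Prime → ‖f p‖ < 1 := by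
    intro p hp
    have h2 : (2 : ℝ) ≤ p := by exact_mod_cast hp.two_le
    rw [hfn, norm_inv, Real.norm_of_nonneg (by linarith)]
    exact inv_lt_one_of_one_lt₀ (by linarith)
  obtain ⟨_, h3⟩ := EulerProduct.summable_and_hasSum_smoothNumbers_prod_primesBelow_geometric h1 N
  have h4 : ∏ p ∈ N.primesBelow, (1 - f p)⁻¹ = ∏ p ∈ N.primesBelow, (1 - 1 / (p : ℝ))⁻¹ := by
    apply Finset.prod_congr rfl
    intro p _
    rw [hfn, one_div]
  rw [h4] at h3
  have hmem : ∀ n ∈ Finset.Ico 1 N, n ∈ N.smoothNumbers := by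
    intro n hn
    rw [Finset.mem_Ico] at hn
    exact Nat.mem_smoothNumbers_of_lt (by omega) hn.2
  set S : Finset N.smoothNumbers := (Finset.Ico 1 N).attach.map
    ⟨fun n => ⟨n.1, hmem n.1 n.2⟩, fun a b h => by
      apply Subtype.ext
      exact congrArg (fun z : N.smoothNumbers => (z : ℕ)) h⟩ with hS
  have h5 : ∑ m ∈ S, f m ≤ ∏ p ∈ N.primesBelow, (1 - 1 / (p : ℝ))⁻¹ := by
    apply sum_le_hasSum S _ h3
    intro i _
    rw [hfn]
    positivity
  have h6 : ∑ m ∈ S, f m = ∑ n ∈ Finset.Ico 1 N, (n : ℝ)⁻¹ := by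
    rw [hS, Finset.sum_map]
    simp only [Function.Embedding.coeFn_mk, hfn]
    exact Finset.sum_attach (Finset.Ico 1 N) (fun n => (n : ℝ)⁻¹)
  rw [h6] at h5
  refine le_trans ?_ h5
  have h7 := log_add_one_le_harmonic (N - 1)
  have h8 : N - 1 + 1 = N := by omega
  rw [h8] at h7
  refine h7.trans (le_of_eq ?_)
  rw [harmonic_eq_sum_Icc]
  push_cast
  apply Finset.sum_congr _ (fun _ _ => rfl)
  ext n
  rw [Finset.mem_Icc, Finset.mem_Ico]
  omega

theorem sum_inv_ge (N : ℕ) (hN : 3 ≤ N) :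
    Real.log (Real.log N) - 2 ≤ ∑ p ∈ PR 1 N, 1 / (p : ℝ) := by
  have hN3 : (3 : ℝ) ≤ N := by exact_mod_cast hN
  have hlog : 1 ≤ Real.log N := by
    rw [Real.le_log_iff_exp_le (by linarith)]
    linarith [Real.exp_one_lt_d9]
  have h1 := prod_ge_log N (by omega)
  have h2 : ∏ p ∈ N.primesBelow, (1 - 1 / (p : ℝ))⁻¹ ≤
      Real.exp (∑ p ∈ N.primesBelow, (1 / (p : ℝ) + (1 / ((p : ℝ) - 1)) ^ 2)) := by
    rw [Real.exp_sum]
    apply Finset.prod_le_prod
    · intro p hp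
      have hpp := (Nat.mem_primesBelow.1 hp).2
      have h2 : (2 : ℝ) ≤ p := by exact_mod_cast hpp.two_le
      apply inv_nonneg.2
      rw [sub_nonneg, div_le_one (by linarith)]
      linarith
    · intro p hp
      have hpp := (Nat.mem_primesBelow.1 hp).2
      have h2 : (2 : ℝ) ≤ p := by exact_mod_cast hpp.two_le
      have h3 : (p : ℝ) - 1 ≠ 0 := by linarith
      have h4 : (p : ℝ) ≠ 0 := by linarith
      have e : (1 - 1 / (p : ℝ))⁻¹ = 1 + 1 / ((p : ℝ) - 1) := by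
        field_simp
        ring
      rw [e]
      have h5 : 1 + 1 / ((p : ℝ) - 1) ≤ Real.exp (1 / ((p : ℝ) - 1)) := by
        have := Real.add_one_le_exp (1 / ((p : ℝ) - 1))
        linarith
      refine h5.trans (Real.exp_le_exp.2 ?_)
      have h6 : 1 / ((p : ℝ) - 1) = 1 / p + 1 / (((p : ℝ) - 1) * p) := by
        field_simp
        ring
      have h7 : 1 / (((p : ℝ) - 1) * p) ≤ (1 / ((p : ℝ) - 1)) ^ 2 := by
        rw [one_div_pow, sq]
        apply one_div_le_one_div_of_le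
        · apply mul_pos <;> linarith
        · nlinarith
      linarith
  have h3 : Real.log (Real.log N) ≤ ∑ p ∈ N.primesBelow, (1 / (p : ℝ) + (1 / ((p : ℝ) - 1)) ^ 2) := by
    rw [Real.log_le_iff_le_exp (by linarith)]
    exact h1.trans h2
  rw [Finset.sum_add_distrib] at h3
  have h4 := sum_inv_sq_le N.primesBelow (fun p hp => (Nat.mem_primesBelow.1 hp).2)
  have h5 : ∑ p ∈ N.primesBelow, 1 / (p : ℝ) ≤ ∑ p ∈ PR 1 N, 1 / (p : ℝ) := by
    apply Finset.sum_le_sum_of_subset_of_nonneg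
    · intro p hp
      rw [Nat.mem_primesBelow] at hp
      rw [PR, Finset.mem_filter, Finset.mem_Icc, Nat.floor_natCast]
      refine ⟨⟨hp.2.one_le, hp.1.le⟩, hp.2, ?_⟩
      exact_mod_cast hp.2.one_lt
    · intro p _ _
      positivity
  linarith

/-- weights -/
def gw (g : ℕ → ℝ) (d : ℕ) : ℝ := ((ArithmeticFunction.moebius d : ℤ) : ℝ) ^ 2 * ∏ p ∈ d.primeFactors, g p

/-- `S_g(N, X) = ∑_{d ≤ X, d ≤ N} μ(d)² g(d) E(N, d)` -/
def Sg (N : ℕ) (g : ℕ → ℝ) (X : ℝ) : ℝ :=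
  ∑ d ∈ (Finset.Icc 1 N).filter (fun d : ℕ => (d : ℝ) ≤ X), gw g d * E N d

theorem gw_of_squarefree {g : ℕ → ℝ} {d : ℕ} (hd : Squarefree d) : gw g d = ∏ p ∈ d.primeFactors, g p := by
  unfold gw
  rw [← Int.cast_pow, ArithmeticFunction.moebius_sq_eq_one_of_squarefree hd]
  simp

theorem gw_of_not_squarefree {g : ℕ → ℝ} {d : ℕ} (hd : ¬ Squarefree d) : gw g d = 0 := by
  unfold gw
  rw [ArithmeticFunction.moebius_eq_zero_of_not_squarefree hd]
  simp

theorem gw_nonneg {g : ℕ → ℝ} (hg : ∀ p, 0 ≤ g p) (d : ℕ) : 0 ≤ gw g d :=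
  mul_nonneg (sq_nonneg _) (Finset.prod_nonneg fun p _ => hg p)

theorem Sg_eq (N : ℕ) (g : ℕ → ℝ) (X : ℝ) :
    Sg N g X = ∑ d ∈ sqf N X, (∏ p ∈ d.primeFactors, g p) * E N d := by
  unfold Sg sqf
  rw [← Finset.sum_filter_add_sum_filter_not ((Finset.Icc 1 N).filter (fun d : ℕ => (d : ℝ) ≤ X))
    (fun d => Squarefree d)]
  have h2 : ∑ d ∈ ((Finset.Icc 1 N).filter (fun d : ℕ => (d : ℝ) ≤ X)).filter
      (fun d => ¬ Squarefree d), gw g d * E N d = 0 := by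
    apply Finset.sum_eq_zero
    intro d hd
    rw [Finset.mem_filter] at hd
    rw [gw_of_not_squarefree hd.2, zero_mul]
  rw [h2, add_zero]
  apply Finset.sum_congr
  · rfl
  · intro d hd
    simp only [Finset.mem_filter] at hd
    rw [gw_of_squarefree]
    tauto

end EH60
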