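import Pool.Agent.EH60.WM2

/-!
# The inequality between the weighted sums
-/

noncomputable section

namespace EH60

open Finset Filter

theorem prod_pos_primes {T : Finset ℕ} (hT : ∀ p ∈ T, p.Prime) : 0 < ∏ p ∈ T, p :=
  Finset.prod_pos fun p hp => (hT p hp).pos

theorem totient_prod {T : Finset ℕ} (hT : ∀ p ∈ T, p.Prime) :
    ((∏ p ∈ T, p).totient : ℝ) = ∏ p ∈ T, ((p : ℝ) - 1) := by
  classical
  induction T using Finset.induction_on with
  | empty => simp
  | insert q T hq ih =>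
    have hqp := hT q (Finset.mem_insert_self q T)
    have hT' : ∀ p ∈ T, p.Prime := fun p hp => hT p (Finset.mem_insert_of_mem hp)
    rw [Finset.prod_insert hq, Finset.prod_insert hq, Nat.totient_mul, Nat.totient_prime hqp,
      Nat.cast_mul, ih hT', Nat.cast_sub hqp.one_le, Nat.cast_one]
    apply Nat.Coprime.prod_right
    intro p hp
    rw [Nat.coprime_primes hqp (hT' p hp)]
    rintro rfl
    exact hq hp

theorem pf_prod {T : Finset ℕ} (hT : ∀ p ∈ T, p.Prime) : (∏ p ∈ T, p).primeFactors = T :=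
  Nat.primeFactors_prod hT

theorem sqf_prod {T : Finset ℕ} (hT : ∀ p ∈ T, p.Prime) : Squarefree (∏ p ∈ T, p) := by
  classical
  induction T using Finset.induction_on with
  | empty => simp
  | insert q T hq ih =>
    have hqp := hT q (Finset.mem_insert_self q T)
    have hT' : ∀ p ∈ T, p.Prime := fun p hp => hT p (Finset.mem_insert_of_mem hp)
    rw [Finset.prod_insert hq, Nat.squarefree_mul]
    · exact ⟨hqp.squarefree, ih hT'⟩
    · apply Nat.Coprime.prod_right
      intro p hp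
      rw [Nat.coprime_primes hqp (hT' p hp)]
      rintro rfl
      exact hq hp

/-- The sets of primes of `P` prime to `d` with product at most `x`. -/
def TT (P : Finset ℕ) (x : ℝ) (d : ℕ) : Finset (Finset ℕ) :=
  (P.filter (fun p => ¬ p ∣ d)).powerset.filter (fun T => ((∏ p ∈ T, p : ℕ) : ℝ) ≤ x)

theorem pairs {N : ℕ} {X x : ℝ} (G c : ℕ → ℝ) (hG : ∀ p, 0 ≤ G p) (hc : ∀ p, 0 ≤ c p) (P : Finset ℕ)
    (hP : ∀ p ∈ P, p.Prime) (hx : 0 ≤ x) (hXx : X * x ≤ N) :
    ∑ d ∈ sqf N X, ∑ T ∈ TT P x d, (∏ p ∈ d.primeFactors, G p) * (∏ p ∈ T, c p) *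
      E N (d * ∏ p ∈ T, p) ≤ Sg N (fun p => G p + c p) (X * x) := by
  classical
  rw [Sg_eq]
  set A : Finset (Σ _ : ℕ, Finset ℕ) := (sqf N X).sigma (fun d => TT P x d) with hA
  set B : Finset (Σ _ : ℕ, Finset ℕ) := (sqf N (X * x)).sigma (fun n => n.primeFactors.powerset) with hB
  set F : (Σ _ : ℕ, Finset ℕ) → ℝ := fun z => (∏ p ∈ z.1.primeFactors \ z.2, G p) *
    (∏ p ∈ z.2, c p) * E N z.1 with hF
  have hF0 : ∀ z, 0 ≤ F z := fun z => mul_nonneg (mul_nonneg (Finset.prod_nonneg fun p _ => hG p)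
    (Finset.prod_nonneg fun p _ => hc p)) (E_nonneg _ _)
  have hmem : ∀ z ∈ A, (0 < z.1 ∧ Squarefree z.1 ∧ (z.1 : ℝ) ≤ X) ∧ (∀ p ∈ z.2, p.Prime ∧ ¬ p ∣ z.1) ∧
      ((∏ p ∈ z.2, p : ℕ) : ℝ) ≤ x := by
    intro z hz
    rw [hA, Finset.mem_sigma, sqf, Finset.mem_filter, Finset.mem_filter, Finset.mem_Icc, TT,
      Finset.mem_filter, Finset.mem_powerset] at hz
    refine ⟨⟨by omega, hz.1.2, hz.1.1.2⟩, ?_, hz.2.2⟩
    intro p hp
    have := hz.2.1 hp
    rw [Finset.mem_filter] at this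
    exact ⟨hP p this.1, this.2⟩
  have hcop : ∀ z ∈ A, z.1.Coprime (∏ p ∈ z.2, p) := by
    intro z hz
    obtain ⟨_, h2, _⟩ := hmem z hz
    apply Nat.Coprime.prod_right
    intro p hp
    exact ((Nat.Prime.coprime_iff_not_dvd (h2 p hp).1).2 (h2 p hp).2).symm
  have hpf : ∀ z ∈ A, (z.1 * ∏ p ∈ z.2, p).primeFactors \ z.2 = z.1.primeFactors ∧
      z.2 ⊆ (z.1 * ∏ p ∈ z.2, p).primeFactors := by
    intro z hz
    obtain ⟨_, h2, _⟩ := hmem z hz
    have h3 := pf_prod (T := z.2) (fun p hp => (h2 p hp).1)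
    rw [Nat.Coprime.primeFactors_mul (hcop z hz), h3]
    constructor
    · rw [Finset.union_sdiff_right]
      apply Finset.sdiff_eq_self_of_disjoint
      rw [Finset.disjoint_left]
      intro p hp hp'
      exact (h2 p hp').2 (Nat.dvd_of_mem_primeFactors hp)
    · exact Finset.subset_union_right
  set i : (Σ _ : ℕ, Finset ℕ) → (Σ _ : ℕ, Finset ℕ) := fun z => ⟨z.1 * ∏ p ∈ z.2, p, z.2⟩ with hi
  have hinj : Set.InjOn i A := by
    intro z hz z' hz' h
    rw [hi] at h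
    have h4 := Sigma.mk.inj_iff.1 h
    have h5 : z.2 = z'.2 := eq_of_heq h4.2
    have h6 : z.1 = z'.1 := by
      have h7 := h4.1
      rw [h5] at h7
      have h8 := prod_pos_primes (T := z'.2) (fun p hp => ((hmem z' hz').2.1 p hp).1)
      exact Nat.eq_of_mul_eq_mul_right h8 h7
    exact Sigma.ext h6 (heq_of_eq h5)
  have hmaps : ∀ z ∈ A, i z ∈ B := by
    intro z hz
    obtain ⟨⟨h1, h2, h3⟩, h4, h5⟩ := hmem z hz
    have h8 := prod_pos_primes (T := z.2) (fun p hp => (h4 p hp).1)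
    have h9 : ((z.1 * ∏ p ∈ z.2, p : ℕ) : ℝ) ≤ X * x := by
      rw [Nat.cast_mul]
      exact mul_le_mul h3 h5 (Nat.cast_nonneg _) ((Nat.cast_nonneg _).trans h3)
    rw [hB, hi, Finset.mem_sigma, sqf, Finset.mem_filter, Finset.mem_filter, Finset.mem_Icc,
      Finset.mem_powerset]
    refine ⟨⟨⟨⟨Nat.mul_pos h1 h8, ?_⟩, h9⟩, ?_⟩, (hpf z hz).2⟩
    · exact_mod_cast h9.trans hXx
    · rw [Nat.squarefree_mul (hcop z hz)]
      exact ⟨h2, sqf_prod fun p hp => (h4 p hp).1⟩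
  have hL : ∑ d ∈ sqf N X, ∑ T ∈ TT P x d, (∏ p ∈ d.primeFactors, G p) * (∏ p ∈ T, c p) *
      E N (d * ∏ p ∈ T, p) = ∑ z ∈ A, F (i z) := by
    rw [hA, Finset.sum_sigma]
    apply Finset.sum_congr rfl
    intro d hd
    apply Finset.sum_congr rfl
    intro T hT
    have hz : (⟨d, T⟩ : Σ _ : ℕ, Finset ℕ) ∈ A := by
      rw [hA, Finset.mem_sigma]; exact ⟨hd, hT⟩
    have h1 := (hpf _ hz).1
    change _ = (∏ p ∈ (d * ∏ p ∈ T, p).primeFactors \ T, G p) * (∏ p ∈ T, c p) * E N (d * ∏ p ∈ T, p)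
    dsimp only at h1
    rw [h1]
  have hR : ∑ d ∈ sqf N (X * x), (∏ p ∈ d.primeFactors, (G p + c p)) * E N d = ∑ z ∈ B, F z := by
    rw [hB, Finset.sum_sigma]
    apply Finset.sum_congr rfl
    intro n _
    have h1 : ∏ p ∈ n.primeFactors, (G p + c p) =
        ∑ T ∈ n.primeFactors.powerset, (∏ p ∈ n.primeFactors \ T, G p) * (∏ p ∈ T, c p) := by
      rw [Finset.prod_congr rfl (fun p _ => add_comm (G p) (c p)), Finset.prod_add]
      apply Finset.sum_congr rfl
      intro T _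
      ring
    rw [h1, Finset.sum_mul]
  rw [hL, hR, ← Finset.sum_image (f := F) hinj]
  apply Finset.sum_le_sum_of_subset_of_nonneg
  · intro z hz
    rw [Finset.mem_image] at hz
    obtain ⟨w, hw, rfl⟩ := hz
    exact hmaps w hw
  · intro z _ _
    exact hF0 z

/-- lower bound for the inner sum -/
theorem inner_lower {N : ℕ} (hN : 2 ≤ N) {x : ℝ} (hx : 1 < x) (hxN : x ≤ N) (c : ℕ → ℝ)
    (hc : ∀ p, 0 ≤ c p) (P : Finset ℕ) (hP : ∀ p ∈ P, p.Prime)
    (hm : ∑ p ∈ P, Real.log p * (c p / ((p : ℝ) - 1)) ≤ 1 / 2 * Real.log x) (d : ℕ) (hd : 0 < d)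
    (hE : 4 * Real.log N ≤ E N d) :
    1 / 4 * E N d * ((∏ p ∈ P, (1 + c p / ((p : ℝ) - 1))) /
      ∏ p ∈ d.primeFactors, (1 + c p / ((p : ℝ) - 1))) ≤
      ∑ T ∈ TT P x d, (∏ p ∈ T, c p) * E N (d * ∏ p ∈ T, p) := by
  classical
  have hN1 : (1 : ℝ) < N := by exact_mod_cast hN
  have hlogN : 0 < Real.log N := Real.log_pos hN1
  set a : ℕ → ℝ := fun p => if p.Prime then c p / ((p : ℝ) - 1) else 0 with ha
  have ha0 : ∀ p, 0 ≤ a p := by
    intro p
    rw [ha]
    dsimp only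
    split_ifs with hp
    · have : (2 : ℝ) ≤ p := by exact_mod_cast hp.two_le
      exact div_nonneg (hc p) (by linarith)
    · exact le_rfl
  have hap : ∀ p, p.Prime → a p = c p / ((p : ℝ) - 1) := fun p hp => if_pos hp
  set Pd := P.filter (fun p => ¬ p ∣ d) with hPd
  have hm' : ∑ p ∈ Pd, Real.log p * (a p / (1 + a p)) ≤ 1 / 2 * Real.log x := by
    refine le_trans ?_ hm
    calc ∑ p ∈ Pd, Real.log p * (a p / (1 + a p)) ≤ ∑ p ∈ P, Real.log p * (a p / (1 + a p)) := by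
          apply Finset.sum_le_sum_of_subset_of_nonneg (Finset.filter_subset _ _)
          intro p _ _
          have := ha0 p
          exact mul_nonneg (Real.log_natCast_nonneg p) (by positivity)
      _ ≤ ∑ p ∈ P, Real.log p * (c p / ((p : ℝ) - 1)) := by
          apply Finset.sum_le_sum
          intro p hp
          rw [← hap p (hP p hp)]
          apply mul_le_mul_of_nonneg_left _ (Real.log_natCast_nonneg p)
          exact div_le_self (ha0 p) (by linarith [ha0 p])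
  have hmk := markov Pd a ha0 (fun p hp => by
    rw [hPd, Finset.mem_filter] at hp
    exact (hP p hp.1).pos) hx hm'
  -- the product over the primes prime to d
  have hprod : (∏ p ∈ P, (1 + c p / ((p : ℝ) - 1))) /
      ∏ p ∈ d.primeFactors, (1 + c p / ((p : ℝ) - 1)) ≤ ∏ p ∈ Pd, (1 + a p) := by
    have h1 : ∀ p : ℕ, p.Prime → 1 ≤ 1 + c p / ((p : ℝ) - 1) := by
      intro p hp
      rw [← hap p hp]
      linarith [ha0 p]
    have h2 : ∏ p ∈ Pd, (1 + a p) = ∏ p ∈ Pd, (1 + c p / ((p : ℝ) - 1)) := by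
      apply Finset.prod_congr rfl
      intro p hp
      rw [hPd, Finset.mem_filter] at hp
      rw [hap p (hP p hp.1)]
    have h3 : 0 < ∏ p ∈ d.primeFactors, (1 + c p / ((p : ℝ) - 1)) := by
      apply Finset.prod_pos
      intro p hp
      linarith [h1 p (Nat.prime_of_mem_primeFactors hp)]
    rw [div_le_iff₀ h3, h2, ← Finset.prod_filter_mul_prod_filter_not P (fun p => ¬ p ∣ d)]
    apply mul_le_mul_of_nonneg_left
    · have h4 : P.filter (fun p => ¬ ¬ p ∣ d) ⊆ d.primeFactors := by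
        intro p hp
        rw [Finset.mem_filter, not_not] at hp
        rw [Nat.mem_primeFactors]
        exact ⟨hP p hp.1, hp.2, by omega⟩
      rw [← Finset.prod_sdiff h4]
      apply le_mul_of_one_le_left
      · apply Finset.prod_nonneg
        intro p hp
        rw [Finset.mem_filter] at hp
        linarith [h1 p (hP p hp.1)]
      · apply Finset.one_le_prod
        intro p hp
        rw [Finset.mem_sdiff] at hp
        exact h1 p (Nat.prime_of_mem_primeFactors hp.1)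
    · apply Finset.prod_nonneg
      intro p hp
      rw [Finset.mem_filter] at hp
      linarith [h1 p (hP p hp.1)]
  -- pointwise
  have hpt : ∀ T ∈ TT P x d, (∏ p ∈ T, a p) * (1 / 2 * E N d) ≤
      (∏ p ∈ T, c p) * E N (d * ∏ p ∈ T, p) := by
    intro T hT
    rw [TT, Finset.mem_filter, Finset.mem_powerset] at hT
    have hTp : ∀ p ∈ T, p.Prime ∧ ¬ p ∣ d := by
      intro p hp
      have := hT.1 hp
      rw [Finset.mem_filter] at this
      exact ⟨hP p this.1, this.2⟩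
    have hTp' : ∀ p ∈ T, p.Prime := fun p hp => (hTp p hp).1
    have hcop : d.Coprime (∏ p ∈ T, p) := by
      apply Nat.Coprime.prod_right
      intro p hp
      exact ((Nat.Prime.coprime_iff_not_dvd (hTp p hp).1).2 (hTp p hp).2).symm
    have hpos := prod_pos_primes hTp'
    have h1 := E_le N hN (d : ℝ) d (∏ p ∈ T, p) hd hpos hcop le_rfl
    rw [pf_prod hTp', totient_prod hTp'] at h1
    have h2 := H_le_E N (d : ℝ) (d * ∏ p ∈ T, p)
    have hφ : 0 < ∏ p ∈ T, ((p : ℝ) - 1) := by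
      apply Finset.prod_pos
      intro p hp
      have : (2 : ℝ) ≤ p := by exact_mod_cast (hTp' p hp).two_le
      linarith
    have hcard : (T.card : ℝ) ≤ 2 * Real.log N := by
      have h3 : (2 : ℝ) ^ T.card ≤ N := by
        calc (2 : ℝ) ^ T.card = ∏ _p ∈ T, (2 : ℝ) := by rw [Finset.prod_const]
          _ ≤ ∏ p ∈ T, (p : ℝ) := by
              apply Finset.prod_le_prod
              · intro p _; norm_num
              · intro p hp
                exact_mod_cast (hTp' p hp).two_le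
          _ = ((∏ p ∈ T, p : ℕ) : ℝ) := by push_cast; rfl
          _ ≤ x := hT.2
          _ ≤ N := hxN
      have h4 : (T.card : ℝ) * Real.log 2 ≤ Real.log N := by
        rw [← Real.log_pow]
        exact Real.log_le_log (by positivity) h3
      have hl2 := Real.log_two_gt_d9
      have : (0 : ℝ) ≤ T.card := Nat.cast_nonneg _
      nlinarith
    have h5 : 1 / 2 * E N d ≤ (∏ p ∈ T, ((p : ℝ) - 1)) * E N (d * ∏ p ∈ T, p) := by
      have h6 : (∏ p ∈ T, ((p : ℝ) - 1)) * H N (d : ℝ) (d * ∏ p ∈ T, p) ≤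
          (∏ p ∈ T, ((p : ℝ) - 1)) * E N (d * ∏ p ∈ T, p) := by gcongr
      linarith
    have h7 : (∏ p ∈ T, a p) * ∏ p ∈ T, ((p : ℝ) - 1) = ∏ p ∈ T, c p := by
      rw [← Finset.prod_mul_distrib]
      apply Finset.prod_congr rfl
      intro p hp
      have h8 : (2 : ℝ) ≤ p := by exact_mod_cast (hTp' p hp).two_le
      have h9 : (p : ℝ) - 1 ≠ 0 := by linarith
      rw [hap p (hTp' p hp), div_mul_cancel₀ _ h9]
    have h10 : 0 ≤ ∏ p ∈ T, a p := Finset.prod_nonneg fun p _ => ha0 p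
    calc (∏ p ∈ T, a p) * (1 / 2 * E N d) ≤
        (∏ p ∈ T, a p) * ((∏ p ∈ T, ((p : ℝ) - 1)) * E N (d * ∏ p ∈ T, p)) := by gcongr
      _ = (∏ p ∈ T, c p) * E N (d * ∏ p ∈ T, p) := by rw [← mul_assoc, h7]
  have hE0 : 0 ≤ E N d := E_nonneg _ _
  calc 1 / 4 * E N d * ((∏ p ∈ P, (1 + c p / ((p : ℝ) - 1))) /
        ∏ p ∈ d.primeFactors, (1 + c p / ((p : ℝ) - 1)))
      ≤ 1 / 4 * E N d * ∏ p ∈ Pd, (1 + a p) := by gcongr
    _ = (1 / 2 * ∏ p ∈ Pd, (1 + a p)) * (1 / 2 * E N d) := by ring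
    _ ≤ (∑ T ∈ TT P x d, ∏ p ∈ T, a p) * (1 / 2 * E N d) := by
        apply mul_le_mul_of_nonneg_right _ (by positivity)
        exact hmk
    _ = ∑ T ∈ TT P x d, (∏ p ∈ T, a p) * (1 / 2 * E N d) := by rw [Finset.sum_mul]
    _ ≤ _ := Finset.sum_le_sum hpt

end EH60
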