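import Pool.Agent.EH60.WM3

/-!
# Monotonicity of the normalised weighted sums
-/

noncomputable section

namespace EH60

open Finset Filter

/-- the part of the weight kept for `d` -/
def GG (g h : ℕ → ℝ) (p : ℕ) : ℝ := if p.Prime then min (h p) (g p * (1 + 3 / ((p : ℝ) - 1))) else 0

theorem GG_nonneg {g h : ℕ → ℝ} (hg : ∀ p, 0 ≤ g p) (hh : ∀ p, 0 ≤ h p) (p : ℕ) : 0 ≤ GG g h p := by
  unfold GG
  split_ifs with hp
  · have h2 : (2 : ℝ) ≤ p := by exact_mod_cast hp.two_le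
    apply le_min (hh p)
    apply mul_nonneg (hg p)
    have : 0 ≤ 3 / ((p : ℝ) - 1) := div_nonneg (by norm_num) (by linarith)
    linarith
  · exact le_rfl

theorem GG_le {g h : ℕ → ℝ} (hh : ∀ p, 0 ≤ h p) (p : ℕ) : GG g h p ≤ h p := by
  unfold GG
  split_ifs
  · exact min_le_left _ _
  · exact hh p

theorem GG_key {g h : ℕ → ℝ} (hg : ∀ p, 0 ≤ g p) (hgh : ∀ p, g p ≤ h p) (h3 : ∀ p, h p ≤ 3) {p : ℕ}
    (hp : p.Prime) : g p ≤ GG g h p / (1 + (h p - GG g h p) / ((p : ℝ) - 1)) := by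
  have h2 : (2 : ℝ) ≤ p := by exact_mod_cast hp.two_le
  have hp1 : 0 < (p : ℝ) - 1 := by linarith
  have hh : ∀ p, 0 ≤ h p := fun p => (hg p).trans (hgh p)
  have hc : 0 ≤ h p - GG g h p := sub_nonneg.2 (GG_le hh p)
  have hG0 := GG_nonneg hg hh p
  rw [le_div_iff₀ (by positivity)]
  have hG : GG g h p = min (h p) (g p * (1 + 3 / ((p : ℝ) - 1))) := if_pos hp
  rcases min_cases (h p) (g p * (1 + 3 / ((p : ℝ) - 1))) with ⟨h4, _⟩ | ⟨h4, _⟩
  · rw [h4] at hG
    rw [hG, sub_self, zero_div, add_zero, mul_one]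
    exact hgh p
  · rw [h4] at hG
    have h5 : (h p - GG g h p) / ((p : ℝ) - 1) ≤ 3 / ((p : ℝ) - 1) := by
      apply div_le_div_of_nonneg_right _ hp1.le
      linarith [h3 p]
    calc g p * (1 + (h p - GG g h p) / ((p : ℝ) - 1)) ≤ g p * (1 + 3 / ((p : ℝ) - 1)) := by
          apply mul_le_mul_of_nonneg_left _ (hg p)
          linarith
      _ = GG g h p := hG.symm

theorem GG_lower {g h : ℕ → ℝ} (hgh : ∀ p, g p ≤ h p) (h3 : ∀ p, h p ≤ 3) {p : ℕ}
    (hp : p.Prime) : (h p - g p) - 9 / ((p : ℝ) - 1) ≤ h p - GG g h p := by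
  have h2 : (2 : ℝ) ≤ p := by exact_mod_cast hp.two_le
  have hp1 : 0 < (p : ℝ) - 1 := by linarith
  have hG : GG g h p = min (h p) (g p * (1 + 3 / ((p : ℝ) - 1))) := if_pos hp
  have h4 : GG g h p ≤ g p * (1 + 3 / ((p : ℝ) - 1)) := hG ▸ min_le_right _ _
  have h5 : g p * (3 / ((p : ℝ) - 1)) ≤ 9 / ((p : ℝ) - 1) := by
    rw [← mul_div_assoc]
    apply div_le_div_of_nonneg_right _ hp1.le
    linarith [hgh p, h3 p]
  linarith

/-- lower bound for the Euler product -/
theorem prod_lower {g h : ℕ → ℝ} (hg : ∀ p, 0 ≤ g p) (hgh : ∀ p, g p ≤ h p) (h3 : ∀ p, h p ≤ 3)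
    (P : Finset ℕ) (hP : ∀ p ∈ P, p.Prime) :
    Real.exp (∑ p ∈ P, (h p - g p) / (p : ℝ) - 27) ≤
      ∏ p ∈ P, (1 + (h p - GG g h p) / ((p : ℝ) - 1)) := by
  have hh : ∀ p, 0 ≤ h p := fun p => (hg p).trans (hgh p)
  have h1 := sum_inv_sq_le P hP
  calc Real.exp (∑ p ∈ P, (h p - g p) / (p : ℝ) - 27)
      ≤ Real.exp (∑ p ∈ P, ((h p - g p) / (p : ℝ) - 27 / 2 * (1 / ((p : ℝ) - 1)) ^ 2)) := by
        apply Real.exp_le_exp.2
        rw [Finset.sum_sub_distrib, ← Finset.mul_sum]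
        linarith
    _ = ∏ p ∈ P, Real.exp ((h p - g p) / (p : ℝ) - 27 / 2 * (1 / ((p : ℝ) - 1)) ^ 2) := Real.exp_sum _ _
    _ ≤ ∏ p ∈ P, (1 + (h p - GG g h p) / ((p : ℝ) - 1)) := by
        apply Finset.prod_le_prod
        · intro p _
          exact (Real.exp_pos _).le
        · intro p hp
          have hpp := hP p hp
          have h2 : (2 : ℝ) ≤ p := by exact_mod_cast hpp.two_le
          have hp1 : 0 < (p : ℝ) - 1 := by linarith
          have hp0 : 0 < (p : ℝ) := by linarith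
          set c := h p - GG g h p with hc
          have hc0 : 0 ≤ c := sub_nonneg.2 (GG_le hh p)
          have hc3 : c ≤ 3 := by
            have := GG_nonneg hg hh p
            linarith [h3 p]
          set a := c / ((p : ℝ) - 1) with ha
          have ha0 : 0 ≤ a := by positivity
          have ha3 : a ≤ 3 * (1 / ((p : ℝ) - 1)) := by
            rw [ha, mul_one_div]
            exact div_le_div_of_nonneg_right hc3 hp1.le
          have hlog := Real.le_log_one_add_of_nonneg ha0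
          have h4 : a - a ^ 2 / 2 ≤ 2 * a / (a + 2) := by
            rw [le_div_iff₀ (by linarith)]
            nlinarith [pow_nonneg ha0 3]
          have h5 : c / p ≤ a := div_le_div_of_nonneg_left hc0 hp1 (by linarith)
          have h6 : (h p - g p) / p - 9 * (1 / ((p : ℝ) - 1)) ^ 2 ≤ c / p := by
            have h7 := GG_lower hgh h3 hpp
            rw [← hc] at h7
            have h8 : ((h p - g p) - 9 / ((p : ℝ) - 1)) / p ≤ c / p :=
              div_le_div_of_nonneg_right h7 hp0.le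
            have h9 : 9 / ((p : ℝ) - 1) / p ≤ 9 * (1 / ((p : ℝ) - 1)) ^ 2 := by
              rw [div_div, one_div_pow, mul_one_div, sq]
              apply div_le_div_of_nonneg_left (by norm_num) (mul_pos hp1 hp1)
              apply mul_le_mul_of_nonneg_left _ hp1.le
              linarith
            rw [sub_div] at h8
            linarith
          have h10 : a ^ 2 / 2 ≤ 9 / 2 * (1 / ((p : ℝ) - 1)) ^ 2 := by
            have : a ^ 2 ≤ (3 * (1 / ((p : ℝ) - 1))) ^ 2 := by gcongr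
            rw [mul_pow] at this
            linarith
          rw [← Real.exp_log (by linarith : (0 : ℝ) < 1 + a)]
          apply Real.exp_le_exp.2
          linarith

theorem PR_split {z N : ℝ} (f : ℕ → ℝ) (hf : ∀ p, 0 ≤ f p) :
    ∑ p ∈ PR 1 N, f p ≤ ∑ p ∈ PR 1 z, f p + ∑ p ∈ PR z N, f p := by
  rw [← Finset.sum_filter_add_sum_filter_not (PR 1 N) (fun p : ℕ => p ≤ ⌊z⌋₊)]
  apply add_le_add
  · apply Finset.sum_le_sum_of_subset_of_nonneg
    · intro p hp
      rw [Finset.mem_filter, PR, Finset.mem_filter, Finset.mem_Icc] at hp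
      rw [PR, Finset.mem_filter, Finset.mem_Icc]
      exact ⟨⟨hp.1.1.1, hp.2⟩, hp.1.2⟩
    · intro p _ _
      exact hf p
  · apply Finset.sum_le_sum_of_subset_of_nonneg
    · intro p hp
      rw [Finset.mem_filter, PR, Finset.mem_filter, Finset.mem_Icc, not_le] at hp
      rw [PR, Finset.mem_filter, Finset.mem_Icc]
      refine ⟨hp.1.1, hp.1.2.1, ?_⟩
      exact (Nat.lt_of_floor_lt hp.2)
    · intro p _ _
      exact hf p

theorem PR_prime {A X : ℝ} : ∀ p ∈ PR A X, p.Prime := by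
  intro p hp
  rw [PR, Finset.mem_filter] at hp
  exact hp.2.1

/-- **monotonicity of the normalised sums** -/
theorem weights (α η : ℝ) (hα : 0 < α) (hη : 0 < η) (hαη : α + η ≤ 1) : ∃ C : ℝ, 0 < C ∧
    ∀ᶠ N : ℕ in atTop, ∀ g h : ℕ → ℝ, (∀ p, 0 ≤ g p) → (∀ p, g p ≤ h p) → (∀ p, h p ≤ 3) →
      Sg N g ((N : ℝ) ^ α) ≤
        C * Real.exp (-∑ p ∈ PR 1 N, (h p - g p) / (p : ℝ)) * Sg N h ((N : ℝ) ^ (α + η)) +
        (N : ℝ) ^ ((1 + α) / 2) := by
  have hα1 : α < 1 := by linarith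
  set δ : ℝ := η / 144 with hδ
  have hδ0 : 0 < δ := by positivity
  obtain ⟨C₂, hC₂, hsum⟩ := sum_wt_le ((1 - α) / 8) (by linarith)
  refine ⟨4 * Real.exp (27 + 72 / δ), by positivity, ?_⟩
  have e1 : ∀ᶠ x : ℝ in atTop, ‖Real.log x‖ ≤ (1 / (4 * C₂)) * ‖x ^ ((1 - α) / 8)‖ :=
    (isLittleO_log_rpow_atTop (r := (1 - α) / 8) (by linarith)).bound (by positivity)
  have e2 : ∀ᶠ N : ℕ in atTop, 144 / η ≤ Real.log N :=
    (Real.tendsto_log_atTop.comp tendsto_natCast_atTop_atTop).eventually_ge_atTop _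
  filter_upwards [sum_inv_large δ hδ0, tendsto_natCast_atTop_atTop.eventually e1, e2,
    eventually_ge_atTop 2] with N h1 h2 h3' hN g h hg hgh h3
  have hN1 : (1 : ℝ) < N := by exact_mod_cast hN
  have hN0 : (0 : ℝ) < N := by linarith
  have hlog : 0 < Real.log N := Real.log_pos hN1
  have hh : ∀ p, 0 ≤ h p := fun p => (hg p).trans (hgh p)
  rw [Real.norm_of_nonneg hlog.le, Real.norm_of_nonneg (by positivity)] at h2
  set X : ℝ := (N : ℝ) ^ α with hX
  set x : ℝ := (N : ℝ) ^ η with hx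
  set z : ℝ := (N : ℝ) ^ δ with hz
  have hX0 : 0 < X := by positivity
  have hx1 : 1 < x := Real.one_lt_rpow hN1 hη
  have hz1 : 1 ≤ z := (Real.one_lt_rpow hN1 hδ0).le
  have hxN : x ≤ N := by
    calc x ≤ (N : ℝ) ^ (1 : ℝ) := Real.rpow_le_rpow_of_exponent_le hN1.le (by linarith)
      _ = N := Real.rpow_one _
  have hXx : X * x = (N : ℝ) ^ (α + η) := by rw [hX, hx, ← Real.rpow_add hN0]
  have hXxN : X * x ≤ N := by
    rw [hXx]
    calc _ ≤ (N : ℝ) ^ (1 : ℝ) := Real.rpow_le_rpow_of_exponent_le hN1.le hαη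
      _ = N := Real.rpow_one _
  set G : ℕ → ℝ := GG g h with hG
  set c : ℕ → ℝ := fun p => h p - G p with hc
  have hG0 : ∀ p, 0 ≤ G p := GG_nonneg hg hh
  have hc0 : ∀ p, 0 ≤ c p := fun p => sub_nonneg.2 (GG_le hh p)
  have hc3 : ∀ p, c p ≤ 3 := fun p => by
    have := hG0 p
    have := h3 p
    simp only [hc]
    linarith
  have hGc : (fun p => G p + c p) = h := by
    funext p
    simp only [hc]
    ring
  set P := PR 1 z with hP
  -- the condition for the truncation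
  have hm : ∑ p ∈ P, Real.log p * (c p / ((p : ℝ) - 1)) ≤ 1 / 2 * Real.log x := by
    have h4 := sum_log_div hz1
    have h5 : Real.log z = δ * Real.log N := by rw [hz, Real.log_rpow hN0]
    have h6 : Real.log x = η * Real.log N := by rw [hx, Real.log_rpow hN0]
    rw [h5] at h4
    rw [h6]
    have h7 : ∑ p ∈ P, Real.log p * (c p / ((p : ℝ) - 1)) ≤ ∑ p ∈ P, 6 * (Real.log p / p) := by
      apply Finset.sum_le_sum
      intro p hp
      have hpp := PR_prime p hp
      have g2 : (2 : ℝ) ≤ p := by exact_mod_cast hpp.two_le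
      have hp1 : 0 < (p : ℝ) - 1 := by linarith
      have g3 : c p / ((p : ℝ) - 1) ≤ 6 / p := by
        rw [div_le_div_iff₀ hp1 (by linarith)]
        have := hc3 p
        have := hc0 p
        nlinarith
      have g4 : 0 ≤ Real.log p := Real.log_natCast_nonneg p
      calc Real.log p * (c p / ((p : ℝ) - 1)) ≤ Real.log p * (6 / p) := by gcongr
        _ = 6 * (Real.log p / p) := by ring
    rw [← Finset.mul_sum] at h7
    have h8 : 144 ≤ η * Real.log N := by
      rw [div_le_iff₀ hη] at h3'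
      linarith
    have h9 : δ * Real.log N = η * Real.log N / 144 := by rw [hδ]; ring
    rw [h9] at h4
    linarith
  set R₀ := ∏ p ∈ P, (1 + c p / ((p : ℝ) - 1)) with hR₀
  have hRpos : 0 < R₀ := by
    apply Finset.prod_pos
    intro p hp
    have hpp := PR_prime p hp
    have g2 : (2 : ℝ) ≤ p := by exact_mod_cast hpp.two_le
    have := div_nonneg (hc0 p) (by linarith : (0 : ℝ) ≤ (p : ℝ) - 1)
    linarith
  have hR : Real.exp (∑ p ∈ PR 1 N, (h p - g p) / (p : ℝ) - 27 - 72 / δ) ≤ R₀ := by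
    refine le_trans (Real.exp_le_exp.2 ?_) (prod_lower hg hgh h3 P PR_prime)
    have h4 := PR_split (z := z) (N := N) (fun p => (h p - g p) / (p : ℝ))
      (fun p => div_nonneg (sub_nonneg.2 (hgh p)) (Nat.cast_nonneg _))
    have h5 : ∑ p ∈ PR z N, (h p - g p) / (p : ℝ) ≤ 3 * (24 / δ) := by
      calc ∑ p ∈ PR z N, (h p - g p) / (p : ℝ) ≤ ∑ p ∈ PR z N, 3 * (1 / (p : ℝ)) := by
            apply Finset.sum_le_sum
            intro p _
            rw [mul_one_div]
            apply div_le_div_of_nonneg_right _ (Nat.cast_nonneg _)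
            linarith [h3 p, hg p]
        _ = 3 * ∑ p ∈ PR z N, 1 / (p : ℝ) := by rw [Finset.mul_sum]
        _ ≤ 3 * (24 / δ) := by gcongr
    have h6 : 3 * (24 / δ) = 72 / δ := by ring
    linarith
  -- the two parts
  have hgood : ∀ d ∈ sqf N X, (∏ p ∈ d.primeFactors, g p) * E N d ≤
      4 / R₀ * (∑ T ∈ TT P x d, (∏ p ∈ d.primeFactors, G p) * (∏ p ∈ T, c p) *
        E N (d * ∏ p ∈ T, p)) + 4 * Real.log N * wt d := by
    intro d hd
    rw [sqf, Finset.mem_filter, Finset.mem_filter, Finset.mem_Icc] at hd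
    have hd0 : 0 < d := by omega
    have hg0 : 0 ≤ ∏ p ∈ d.primeFactors, g p := Finset.prod_nonneg fun p _ => hg p
    have hG0' : 0 ≤ ∏ p ∈ d.primeFactors, G p := Finset.prod_nonneg fun p _ => hG0 p
    have hE0 := E_nonneg N d
    by_cases hE : 4 * Real.log N ≤ E N d
    · have h4 := inner_lower hN hx1 hxN c hc0 P PR_prime hm d hd0 hE
      rw [← hR₀] at h4
      have h5 : ∏ p ∈ d.primeFactors, g p ≤
          (∏ p ∈ d.primeFactors, G p) / ∏ p ∈ d.primeFactors, (1 + c p / ((p : ℝ) - 1)) := by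
        rw [← Finset.prod_div_distrib]
        apply Finset.prod_le_prod
        · intro p _
          exact hg p
        · intro p hp
          exact GG_key hg hgh h3 (Nat.prime_of_mem_primeFactors hp)
      have h6 : (∏ p ∈ d.primeFactors, g p) * E N d ≤ 4 / R₀ *
          ((∏ p ∈ d.primeFactors, G p) * (1 / 4 * E N d * (R₀ /
          ∏ p ∈ d.primeFactors, (1 + c p / ((p : ℝ) - 1))))) := by
        calc (∏ p ∈ d.primeFactors, g p) * E N d ≤
            ((∏ p ∈ d.primeFactors, G p) / ∏ p ∈ d.primeFactors, (1 + c p / ((p : ℝ) - 1))) *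
              E N d := by gcongr
          _ = _ := by field_simp
      have h7 : (∏ p ∈ d.primeFactors, G p) * (1 / 4 * E N d * (R₀ /
          ∏ p ∈ d.primeFactors, (1 + c p / ((p : ℝ) - 1)))) ≤
          ∑ T ∈ TT P x d, (∏ p ∈ d.primeFactors, G p) * (∏ p ∈ T, c p) *
        E N (d * ∏ p ∈ T, p) := by
        calc _ ≤ (∏ p ∈ d.primeFactors, G p) *
              ∑ T ∈ TT P x d, (∏ p ∈ T, c p) * E N (d * ∏ p ∈ T, p) := by gcongr
          _ = _ := by
              rw [Finset.mul_sum]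
              apply Finset.sum_congr rfl
              intro T _
              ring
      have h8 : 4 / R₀ * ((∏ p ∈ d.primeFactors, G p) * (1 / 4 * E N d * (R₀ /
          ∏ p ∈ d.primeFactors, (1 + c p / ((p : ℝ) - 1))))) ≤ 4 / R₀ *
          ∑ T ∈ TT P x d, (∏ p ∈ d.primeFactors, G p) * (∏ p ∈ T, c p) *
        E N (d * ∏ p ∈ T, p) := by gcongr
      have h9 : 0 ≤ 4 * Real.log N * wt d := mul_nonneg (by positivity) (wt_nonneg d)
      linarith
    · rw [not_le] at hE
      have h4 : ∏ p ∈ d.primeFactors, g p ≤ wt d := by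
        rw [wt_of_squarefree hd.2, ← Finset.prod_const]
        apply Finset.prod_le_prod
        · intro p _
          exact hg p
        · intro p _
          exact (hgh p).trans (h3 p)
      have h5 : 0 ≤ 4 / R₀ * (∑ T ∈ TT P x d, (∏ p ∈ d.primeFactors, G p) * (∏ p ∈ T, c p) *
        E N (d * ∏ p ∈ T, p)) := by
        apply mul_nonneg (by positivity)
        apply Finset.sum_nonneg
        intro T _
        exact mul_nonneg (mul_nonneg hG0' (Finset.prod_nonneg fun p _ => hc0 p)) (E_nonneg _ _)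
      have h6 : (∏ p ∈ d.primeFactors, g p) * E N d ≤ wt d * (4 * Real.log N) := by
        apply mul_le_mul h4 hE.le hE0 (wt_nonneg d)
      linarith
  rw [Sg_eq]
  refine (Finset.sum_le_sum hgood).trans ?_
  rw [Finset.sum_add_distrib, ← Finset.mul_sum, ← Finset.mul_sum]
  apply add_le_add
  · have h4 := pairs (N := N) (X := X) (x := x) G c hG0 hc0 P PR_prime (by linarith) hXxN
    rw [hGc, hXx] at h4
    have h5 : 0 ≤ Sg N h ((N : ℝ) ^ (α + η)) :=
      Finset.sum_nonneg fun d _ => mul_nonneg (gw_nonneg hh d) (E_nonneg _ _)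
    have h6 : 4 / R₀ ≤ 4 * Real.exp (27 + 72 / δ) *
        Real.exp (-∑ p ∈ PR 1 N, (h p - g p) / (p : ℝ)) := by
      rw [mul_assoc, ← Real.exp_add, div_le_iff₀ hRpos]
      have h7 : 1 ≤ Real.exp (27 + 72 / δ + -∑ p ∈ PR 1 N, (h p - g p) / (p : ℝ)) * R₀ := by
        calc (1 : ℝ) = Real.exp (27 + 72 / δ + -∑ p ∈ PR 1 N, (h p - g p) / (p : ℝ)) *
              Real.exp (∑ p ∈ PR 1 N, (h p - g p) / (p : ℝ) - 27 - 72 / δ) := by
              rw [← Real.exp_add]
              rw [show 27 + 72 / δ + -∑ p ∈ PR 1 (N : ℝ), (h p - g p) / (p : ℝ) +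
                (∑ p ∈ PR 1 (N : ℝ), (h p - g p) / (p : ℝ) - 27 - 72 / δ) = 0 by ring, Real.exp_zero]
          _ ≤ _ := by gcongr
      linarith
    calc 4 / R₀ * ∑ d ∈ sqf N X, ∑ T ∈ TT P x d, (∏ p ∈ d.primeFactors, G p) * (∏ p ∈ T, c p) *
        E N (d * ∏ p ∈ T, p) ≤ 4 / R₀ * Sg N h ((N : ℝ) ^ (α + η)) := by gcongr
      _ ≤ _ := by gcongr
  · have h4 := hsum N X hX0.le
    have h5 : ∑ d ∈ sqf N X, wt d ≤ ∑ d ∈ (Finset.Icc 1 N).filter (fun d : ℕ => (d : ℝ) ≤ X), wt d :=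
      Finset.sum_le_sum_of_subset_of_nonneg (Finset.filter_subset _ _) fun d _ _ => wt_nonneg d
    have h6 : X ^ ((1 - α) / 8) ≤ (N : ℝ) ^ ((1 - α) / 8) := by
      apply Real.rpow_le_rpow hX0.le _ (by linarith)
      calc X ≤ (N : ℝ) ^ (1 : ℝ) := Real.rpow_le_rpow_of_exponent_le hN1.le hα1.le
        _ = N := Real.rpow_one _
    have hC₂0 : 0 < C₂ := by linarith
    calc 4 * Real.log N * ∑ d ∈ sqf N X, wt d ≤ 4 * Real.log N * (C₂ * X ^ ((1 - α) / 8) * X) := by
          have := h5.trans h4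
          gcongr
      _ ≤ 4 * ((1 / (4 * C₂)) * (N : ℝ) ^ ((1 - α) / 8)) * (C₂ * (N : ℝ) ^ ((1 - α) / 8) * X) := by
          gcongr
      _ = (N : ℝ) ^ ((1 - α) / 8) * (N : ℝ) ^ ((1 - α) / 8) * X := by
          field_simp
      _ = (N : ℝ) ^ ((1 - α) / 8 + (1 - α) / 8 + α) := by
          rw [hX, ← Real.rpow_add hN0, ← Real.rpow_add hN0]
      _ ≤ (N : ℝ) ^ ((1 + α) / 2) := Real.rpow_le_rpow_of_exponent_le hN1.le (by linarith)

end EH60
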