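import Pool.Agent.EH60.WM4

/-!
# Consequences of Q1 for smaller weights
-/

noncomputable section

namespace EH60

open Finset Filter

theorem gw_three (d : ℕ) : gw (fun _ => 3) d = wt d := by
  by_cases hd : Squarefree d
  · rw [gw_of_squarefree hd, wt_of_squarefree hd, Finset.prod_const]
  · rw [gw_of_not_squarefree hd, wt_of_not_squarefree hd]

theorem sum_inv_small (δ : ℝ) (hδ : 0 < δ) : ∀ᶠ N : ℕ in atTop,
    ∑ p ∈ PR 1 N, 1 / (p : ℝ) ≤ 1 + δ * Real.log N + 24 / δ := by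
  filter_upwards [sum_inv_large δ hδ, eventually_ge_atTop 2] with N h1 hN
  have hN1 : (1 : ℝ) < N := by exact_mod_cast hN
  have hN0 : (0 : ℝ) < N := by linarith
  have h2 := PR_split (z := (N : ℝ) ^ δ) (N := N) (fun p => 1 / (p : ℝ)) (fun p => by positivity)
  have hz1 : 1 ≤ (N : ℝ) ^ δ := (Real.one_lt_rpow hN1 hδ).le
  have hfl : 1 ≤ ⌊(N : ℝ) ^ δ⌋₊ := by rw [Nat.one_le_floor_iff]; exact hz1
  have h3 : ∑ p ∈ PR 1 ((N : ℝ) ^ δ), 1 / (p : ℝ) ≤ 1 + Real.log ⌊(N : ℝ) ^ δ⌋₊ :=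
    harm_le' _ (Finset.filter_subset _ _)
  have h4 : Real.log ⌊(N : ℝ) ^ δ⌋₊ ≤ δ * Real.log N := by
    rw [← Real.log_rpow hN0]
    exact Real.log_le_log (by exact_mod_cast hfl) (Nat.floor_le (by positivity))
  linarith
where
  harm_le' {M : ℕ} (S : Finset ℕ) (hS : S ⊆ Finset.Icc 1 M) :
      ∑ e ∈ S, 1 / (e : ℝ) ≤ 1 + Real.log M := by
    calc ∑ e ∈ S, 1 / (e : ℝ) ≤ ∑ e ∈ Finset.Icc 1 M, 1 / (e : ℝ) := by
          apply Finset.sum_le_sum_of_subset_of_nonneg hS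
          intro d _ _
          positivity
      _ ≤ 1 + Real.log M := by
          have h1 := harmonic_le_one_add_log M
          rw [harmonic_eq_sum_Icc] at h1
          push_cast at h1
          simpa [one_div] using h1

/-- the power saving error is smaller than the main bound, for every weight -/
theorem err_small (α : ℝ) (hα1 : α < 1) : ∀ᶠ N : ℕ in atTop, ∀ g : ℕ → ℝ, (∀ p, 0 ≤ g p) →
    (N : ℝ) ^ ((1 + α) / 2) ≤ N / Real.log N ^ 3 *
      Real.exp (-∑ p ∈ PR 1 N, (3 - g p) / (p : ℝ)) := by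
  set δ : ℝ := (1 - α) / 24 with hδ
  have hδ0 : 0 < δ := by rw [hδ]; linarith
  set C : ℝ := Real.exp (3 + 72 / δ) with hC
  have hC0 : 0 < C := Real.exp_pos _
  have e1 : ∀ᶠ x : ℝ in atTop, ‖Real.log x‖ ≤ (1 / C) ^ (1 / 3 : ℝ) * ‖x ^ δ‖ :=
    (isLittleO_log_rpow_atTop (r := δ) hδ0).bound (by positivity)
  filter_upwards [sum_inv_small δ hδ0, tendsto_natCast_atTop_atTop.eventually e1,
    eventually_ge_atTop 2] with N h1 h2 hN g hg
  have hN1 : (1 : ℝ) < N := by exact_mod_cast hN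
  have hN0 : (0 : ℝ) < N := by linarith
  have hlog : 0 < Real.log N := Real.log_pos hN1
  rw [Real.norm_of_nonneg hlog.le, Real.norm_of_nonneg (by positivity)] at h2
  have h3 : ∑ p ∈ PR 1 N, (3 - g p) / (p : ℝ) ≤ 3 * ∑ p ∈ PR 1 N, 1 / (p : ℝ) := by
    rw [Finset.mul_sum]
    apply Finset.sum_le_sum
    intro p _
    rw [mul_one_div]
    apply div_le_div_of_nonneg_right _ (Nat.cast_nonneg _)
    linarith [hg p]
  have h4 : (C * (N : ℝ) ^ (3 * δ))⁻¹ ≤ Real.exp (-∑ p ∈ PR 1 N, (3 - g p) / (p : ℝ)) := by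
    rw [Real.exp_neg]
    apply inv_anti₀ (Real.exp_pos _)
    rw [hC, Real.rpow_def_of_pos hN0, ← Real.exp_add]
    apply Real.exp_le_exp.2
    have e : 3 * (24 / δ) = 72 / δ := by ring
    nlinarith
  have h5 : Real.log N ^ 3 ≤ (1 / C) * (N : ℝ) ^ (3 * δ) := by
    calc Real.log N ^ 3 ≤ ((1 / C) ^ (1 / 3 : ℝ) * (N : ℝ) ^ δ) ^ 3 := by gcongr
      _ = (1 / C) * (N : ℝ) ^ (3 * δ) := by
          rw [mul_pow, ← Real.rpow_natCast, ← Real.rpow_natCast, ← Real.rpow_mul (by positivity),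
            ← Real.rpow_mul hN0.le]
          norm_num
          left
          ring_nf
  have h6 : (N : ℝ) ^ ((1 + α) / 2) * (Real.log N ^ 3 * (C * (N : ℝ) ^ (3 * δ))) ≤ N := by
    calc (N : ℝ) ^ ((1 + α) / 2) * (Real.log N ^ 3 * (C * (N : ℝ) ^ (3 * δ)))
        ≤ (N : ℝ) ^ ((1 + α) / 2) * (((1 / C) * (N : ℝ) ^ (3 * δ)) * (C * (N : ℝ) ^ (3 * δ))) := by
          gcongr
      _ = (N : ℝ) ^ ((1 + α) / 2) * (N : ℝ) ^ (3 * δ) * (N : ℝ) ^ (3 * δ) := by field_simp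
      _ = (N : ℝ) ^ ((1 + α) / 2 + 3 * δ + 3 * δ) := by
          rw [← Real.rpow_add hN0, ← Real.rpow_add hN0]
      _ ≤ (N : ℝ) ^ (1 : ℝ) := by
          apply Real.rpow_le_rpow_of_exponent_le hN1.le
          rw [hδ]; linarith
      _ = N := Real.rpow_one _
  calc (N : ℝ) ^ ((1 + α) / 2) ≤ N / (Real.log N ^ 3 * (C * (N : ℝ) ^ (3 * δ))) := by
        rw [le_div_iff₀ (by positivity)]; exact h6
    _ = N / Real.log N ^ 3 * (C * (N : ℝ) ^ (3 * δ))⁻¹ := by field_simp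
    _ ≤ _ := by gcongr

/-- The bound for all weights `0 ≤ g ≤ 3`, uniformly. -/
def AllWeights (α : ℝ) : Prop :=
  ∃ K : ℝ, ∀ᶠ N : ℕ in atTop, ∀ g : ℕ → ℝ, (∀ p, 0 ≤ g p) → (∀ p, g p ≤ 3) →
    Sg N g ((N : ℝ) ^ α) ≤ K * (N / Real.log N ^ 3) *
      Real.exp (-∑ p ∈ PR 1 N, (3 - g p) / (p : ℝ))

theorem allWeights_of_admissible (α β : ℝ) (hα : 0 < α) (hαβ : α < β) (hβ : β ≤ 1)
    (h : Admissible β) : AllWeights α := by
  obtain ⟨C₁, K, hK⟩ := h
  set η : ℝ := (β - α) / 2 with hη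
  have hη0 : 0 < η := by rw [hη]; linarith
  obtain ⟨C, hC, hCN⟩ := weights α η hα hη0 (by rw [hη]; linarith)
  refine ⟨C * |K| + 1, ?_⟩
  have elog : ∀ᶠ x : ℝ in atTop, 2 * x ^ C₁ ≤ Real.exp x ^ η := by
    have h0 := (isLittleO_rpow_exp_pos_mul_atTop C₁ (b := η) hη0).bound
      (c := 1 / 2) (by norm_num)
    filter_upwards [h0, eventually_gt_atTop 0] with x hx hx0
    rw [Real.norm_of_nonneg (by positivity), Real.norm_of_nonneg (by positivity)] at hx
    rw [← Real.exp_mul, mul_comm x]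
    linarith
  have elog' := (Real.tendsto_log_atTop.comp tendsto_natCast_atTop_atTop).eventually elog
  filter_upwards [hK, hCN, err_small α (by linarith), elog', eventually_ge_atTop 2] with
    N h1 h2 h3 h4 hN g hg hg3
  have hN1 : (1 : ℝ) < N := by exact_mod_cast hN
  have hN0 : (0 : ℝ) < N := by linarith
  have hlog : 0 < Real.log N := Real.log_pos hN1
  have h5 := h2 g (fun _ => 3) hg hg3 (fun _ => le_rfl)
  have h6 : Sg N (fun _ => 3) ((N : ℝ) ^ (α + η)) ≤ K * N / Real.log N ^ 3 := by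
    refine le_trans ?_ h1
    unfold Sg
    rw [Finset.sum_congr rfl (fun d _ => by rw [gw_three])]
    apply Finset.sum_le_sum_of_subset_of_nonneg
    · intro d hd
      rw [Finset.mem_filter] at hd ⊢
      refine ⟨hd.1, lt_of_le_of_lt hd.2 ?_⟩
      simp only [Function.comp] at h4
      rw [Real.exp_log hN0] at h4
      rw [lt_div_iff₀ (by positivity)]
      have e : (N : ℝ) ^ β = (N : ℝ) ^ (α + η) * (N : ℝ) ^ η := by
        rw [← Real.rpow_add hN0]
        congr 1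
        rw [hη]; ring
      rw [e]
      apply mul_lt_mul_of_pos_left _ (by positivity)
      have : 0 < Real.log N ^ C₁ := by positivity
      linarith
    · intro d _ _
      exact mul_nonneg (wt_nonneg d) (E_nonneg _ _)
  have hexp : 0 < Real.exp (-∑ p ∈ PR 1 N, (3 - g p) / (p : ℝ)) := Real.exp_pos _
  calc Sg N g ((N : ℝ) ^ α) ≤ _ := h5
    _ ≤ C * Real.exp (-∑ p ∈ PR 1 N, (3 - g p) / (p : ℝ)) * (|K| * N / Real.log N ^ 3) +
        N / Real.log N ^ 3 * Real.exp (-∑ p ∈ PR 1 N, (3 - g p) / (p : ℝ)) := by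
        apply add_le_add _ (h3 g hg)
        apply mul_le_mul_of_nonneg_left _ (by positivity)
        refine h6.trans ?_
        gcongr
        exact le_abs_self K
    _ = _ := by ring

theorem admissible_of_allWeights (α : ℝ) (h : AllWeights α) : Admissible α := by
  obtain ⟨K, hK⟩ := h
  refine ⟨0, K, ?_⟩
  filter_upwards [hK] with N h1
  have h2 := h1 (fun _ => 3) (fun _ => by norm_num) (fun _ => le_rfl)
  have e : -∑ p ∈ PR 1 (N : ℝ), ((3 : ℝ) - 3) / (p : ℝ) = 0 := by simp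
  rw [e, Real.exp_zero, mul_one] at h2
  refine le_trans ?_ (h2.trans (le_of_eq (by ring)))
  unfold Sg
  have e2 : ∀ d ∈ (Finset.Icc 1 N).filter (fun d : ℕ => (d : ℝ) ≤ (N : ℝ) ^ α),
      gw (fun _ => 3) d * E N d = wt d * E N d := fun d _ => by rw [gw_three]
  rw [Finset.sum_congr rfl e2]
  apply Finset.sum_le_sum_of_subset_of_nonneg
  · intro d hd
    rw [Finset.mem_filter] at hd ⊢
    refine ⟨hd.1, ?_⟩
    rw [Real.rpow_zero, div_one] at hd
    exact hd.2.le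
  · intro d _ _
    exact mul_nonneg (wt_nonneg d) (E_nonneg _ _)

theorem q1_iff_allWeights : (∀ α : ℝ, 1 / 2 < α → α < 1 → Admissible α) ↔
    ∀ α : ℝ, 0 < α → α < 1 → AllWeights α := by
  constructor
  · intro h α hα hα1
    have h1 : max α (1 / 2) < 1 := max_lt hα1 (by norm_num)
    have h2 : α ≤ max α (1 / 2) := le_max_left _ _
    have h3 : (1 : ℝ) / 2 ≤ max α (1 / 2) := le_max_right _ _
    exact allWeights_of_admissible α ((max α (1 / 2) + 1) / 2) hα (by linarith) (by linarith)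
      (h _ (by linarith) (by linarith))
  · intro h α hα hα1
    exact admissible_of_allWeights α (h α (by linarith) hα1)

/-- constant weights -/
theorem const_weights (α : ℝ) (h : AllWeights α) : ∃ K : ℝ, ∀ᶠ N : ℕ in atTop, ∀ k : ℝ, 0 ≤ k → k ≤ 3 →
    ∑ d ∈ (Finset.Icc 1 N).filter (fun d : ℕ => (d : ℝ) ≤ (N : ℝ) ^ α),
      ((ArithmeticFunction.moebius d : ℤ) : ℝ) ^ 2 * k ^ d.primeFactors.card * E N d ≤
      K * N / Real.log N ^ (6 - k) := by
  obtain ⟨K, hK⟩ := h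
  refine ⟨|K| * Real.exp 6, ?_⟩
  filter_upwards [hK, eventually_ge_atTop 3] with N h1 hN k hk0 hk3
  have hN3 : (3 : ℝ) ≤ N := by exact_mod_cast hN
  have hN0 : (0 : ℝ) < N := by linarith
  have hlog : 1 ≤ Real.log N := by
    rw [Real.le_log_iff_exp_le (by linarith)]
    linarith [Real.exp_one_lt_d9]
  have hlog0 : 0 < Real.log N := by linarith
  have h2 := h1 (fun _ => k) (fun _ => hk0) (fun _ => hk3)
  have h3 : Sg N (fun _ => k) ((N : ℝ) ^ α) =
      ∑ d ∈ (Finset.Icc 1 N).filter (fun d : ℕ => (d : ℝ) ≤ (N : ℝ) ^ α),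
      ((ArithmeticFunction.moebius d : ℤ) : ℝ) ^ 2 * k ^ d.primeFactors.card * E N d := by
    unfold Sg gw
    apply Finset.sum_congr rfl
    intro d _
    rw [Finset.prod_const]
  rw [← h3]
  refine h2.trans ?_
  have h4 := sum_inv_ge N hN
  have h5 : Real.exp (-∑ p ∈ PR 1 (N : ℝ), (3 - k) / (p : ℝ)) ≤ Real.exp 6 * Real.log N ^ (-(3 - k)) := by
    rw [Real.rpow_def_of_pos hlog0, ← Real.exp_add]
    apply Real.exp_le_exp.2
    have h6 : ∑ p ∈ PR 1 (N : ℝ), (3 - k) / (p : ℝ) = (3 - k) * ∑ p ∈ PR 1 (N : ℝ), 1 / (p : ℝ) := by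
      rw [Finset.mul_sum]
      apply Finset.sum_congr rfl
      intro p _
      ring
    rw [h6]
    have h7 : 0 ≤ 3 - k := by linarith
    have h8 := mul_le_mul_of_nonneg_left h4 h7
    nlinarith
  have h9 : Real.log N ^ (6 - k) = Real.log N ^ 3 * Real.log N ^ (3 - k) := by
    rw [← Real.rpow_natCast, ← Real.rpow_add hlog0]
    congr 1
    push_cast
    ring
  calc K * (N / Real.log N ^ 3) * Real.exp (-∑ p ∈ PR 1 (N : ℝ), (3 - k) / (p : ℝ))
      ≤ |K| * (N / Real.log N ^ 3) * (Real.exp 6 * Real.log N ^ (-(3 - k))) := by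
        gcongr
        exact le_abs_self K
    _ = |K| * Real.exp 6 * N / Real.log N ^ (6 - k) := by
        rw [h9, Real.rpow_neg hlog0.le]
        field_simp

end EH60
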