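import Pool.Agent.EH60.Primes

noncomputable section

namespace EH60

open Finset Filter

theorem card_pf_mul {a b : ℕ} (h : a.Coprime b) :
    (a * b).primeFactors.card = a.primeFactors.card + b.primeFactors.card := by
  rw [Nat.Coprime.primeFactors_mul h, Finset.card_union_of_disjoint h.disjoint_primeFactors]

theorem wt_mul {a b : ℕ} (h : a.Coprime b) (ha : Squarefree a) (hb : Squarefree b) :
    wt (a * b) = wt a * wt b := by
  rw [wt_of_squarefree ha, wt_of_squarefree hb,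
    wt_of_squarefree ((Nat.squarefree_mul h).2 ⟨ha, hb⟩), card_pf_mul h, pow_add]

theorem wt_prime {p : ℕ} (hp : p.Prime) : wt p = 3 := by
  rw [wt_of_squarefree hp.squarefree, hp.primeFactors]
  simp

theorem wt_pos {d : ℕ} (hd : Squarefree d) : 0 < wt d := by
  rw [wt_of_squarefree hd]; positivity

/-- `3^{ν(d)} = O(d^ε)`. -/
theorem three_pow_le (ε : ℝ) (hε : 0 < ε) : ∃ C : ℝ, 1 ≤ C ∧ ∀ d : ℕ, 0 < d →
    (3 : ℝ) ^ d.primeFactors.card ≤ C * (d : ℝ) ^ ε := by
  set T : ℝ := (3 : ℝ) ^ (1 / ε) with hT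
  have hT0 : 0 < T := Real.rpow_pos_of_pos (by norm_num) _
  have hTε : T ^ ε = 3 := by
    rw [hT, ← Real.rpow_mul (by norm_num), one_div, inv_mul_cancel₀ hε.ne', Real.rpow_one]
  refine ⟨(3 : ℝ) ^ (⌈T⌉₊), one_le_pow₀ (by norm_num), fun d hd => ?_⟩
  set S1 := d.primeFactors.filter (fun p : ℕ => (p : ℝ) < T) with hS1
  set S2 := d.primeFactors.filter (fun p : ℕ => ¬ (p : ℝ) < T) with hS2
  have hcard : d.primeFactors.card = S1.card + S2.card :=
    (Finset.card_filter_add_card_filter_not (s := d.primeFactors)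
      (p := fun p : ℕ => (p : ℝ) < T)).symm
  rw [hcard, pow_add]
  have h1 : (3 : ℝ) ^ S1.card ≤ 3 ^ ⌈T⌉₊ := by
    apply pow_le_pow_right₀ (by norm_num)
    have : S1 ⊆ Finset.range ⌈T⌉₊ := by
      intro p hp
      rw [hS1, Finset.mem_filter] at hp
      rw [Finset.mem_range]
      exact Nat.lt_ceil.2 hp.2
    simpa using Finset.card_le_card this
  have h2 : (3 : ℝ) ^ S2.card ≤ (d : ℝ) ^ ε := by
    calc (3 : ℝ) ^ S2.card = ∏ _p ∈ S2, (3 : ℝ) := by rw [Finset.prod_const]
      _ ≤ ∏ p ∈ S2, (p : ℝ) ^ ε := by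
          apply Finset.prod_le_prod
          · intro p _; norm_num
          · intro p hp
            rw [hS2, Finset.mem_filter, not_lt] at hp
            rw [← hTε]
            exact Real.rpow_le_rpow hT0.le hp.2 hε.le
      _ = (∏ p ∈ S2, (p : ℝ)) ^ ε := by
          rw [Real.finset_prod_rpow]
          intro i _; exact Nat.cast_nonneg i
      _ ≤ (d : ℝ) ^ ε := by
          apply Real.rpow_le_rpow (Finset.prod_nonneg fun _ _ => Nat.cast_nonneg _) _ hε.le
          have h3 : ∏ p ∈ S2, p ∣ d :=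
            (Finset.prod_dvd_prod_of_subset _ _ _ (Finset.filter_subset _ _)).trans
              (Nat.prod_primeFactors_dvd d)
          have h4 : ∏ p ∈ S2, p ≤ d := Nat.le_of_dvd hd h3
          calc ∏ p ∈ S2, (p : ℝ) = ((∏ p ∈ S2, p : ℕ) : ℝ) := by push_cast; rfl
            _ ≤ (d : ℝ) := by exact_mod_cast h4
  exact mul_le_mul h1 h2 (by positivity) (by positivity)

theorem wt_le (d : ℕ) : wt d ≤ (3 : ℝ) ^ d.primeFactors.card := by
  by_cases hd : Squarefree d
  · rw [wt_of_squarefree hd]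
  · rw [wt_of_not_squarefree hd]; positivity

/-- The arithmetic function `φ(g) 3^{-ν(g)}`. -/
def fg : ArithmeticFunction ℝ :=
  ⟨fun g => (g.totient : ℝ) * (1 / 3 : ℝ) ^ g.primeFactors.card, by simp⟩

theorem fg_apply (g : ℕ) : fg g = (g.totient : ℝ) * (1 / 3 : ℝ) ^ g.primeFactors.card := rfl

theorem fg_mult : fg.IsMultiplicative := by
  refine ⟨by simp [fg_apply], ?_⟩
  intro a b h
  rw [fg_apply, fg_apply, fg_apply, Nat.totient_mul h, card_pf_mul h, pow_add]
  push_cast
  ring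

theorem share_pos (m : ℕ) : 0 < share m := by
  unfold share
  apply Finset.prod_pos
  intro p _
  positivity

theorem sum_fg {m : ℕ} (hm : Squarefree m) :
    (∑ g ∈ m.divisors, (g.totient : ℝ) / wt g) = 1 / share m := by
  have h1 : ∑ g ∈ m.divisors, (g.totient : ℝ) / wt g = ∑ g ∈ m.divisors, fg g := by
    apply Finset.sum_congr rfl
    intro g hg
    have hg' : Squarefree g := hm.squarefree_of_dvd (Nat.dvd_of_mem_divisors hg)
    rw [wt_of_squarefree hg', fg_apply, one_div, inv_pow, div_eq_mul_inv]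
  rw [h1, ← fg_mult.prodPrimeFactors_one_add_of_squarefree hm, share, one_div,
    ← Finset.prod_inv_distrib]
  apply Finset.prod_congr rfl
  intro p hp
  have hp' : p.Prime := Nat.prime_of_mem_primeFactors hp
  rw [fg_apply, hp'.primeFactors, Nat.totient_prime hp', Nat.cast_sub hp'.one_le]
  simp only [Finset.card_singleton, pow_one, Nat.cast_one, inv_div]
  ring

/-- The sum of the weights. -/
theorem sum_wt_le (ε : ℝ) (hε : 0 < ε) : ∃ C : ℝ, 1 ≤ C ∧ ∀ (N : ℕ) (X : ℝ), 0 ≤ X →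
    ∑ d ∈ (Finset.Icc 1 N).filter (fun d : ℕ => (d : ℝ) ≤ X), wt d ≤ C * X ^ ε * X := by
  obtain ⟨C, hC1, hC⟩ := three_pow_le ε hε
  refine ⟨C, hC1, fun N X hX => ?_⟩
  calc ∑ d ∈ (Finset.Icc 1 N).filter (fun d : ℕ => (d : ℝ) ≤ X), wt d
      ≤ ∑ _d ∈ (Finset.Icc 1 N).filter (fun d : ℕ => (d : ℝ) ≤ X), C * X ^ ε := by
        apply Finset.sum_le_sum
        intro d hd
        rw [Finset.mem_filter, Finset.mem_Icc] at hd
        refine (wt_le d).trans ((hC d (by omega)).trans ?_)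
        have : (d : ℝ) ^ ε ≤ X ^ ε := Real.rpow_le_rpow (Nat.cast_nonneg _) hd.2 hε.le
        gcongr
    _ = ((Finset.Icc 1 N).filter (fun d : ℕ => (d : ℝ) ≤ X)).card * (C * X ^ ε) := by
        rw [Finset.sum_const, nsmul_eq_mul]
    _ ≤ X * (C * X ^ ε) := by
        have h1 : (Finset.Icc 1 N).filter (fun d : ℕ => (d : ℝ) ≤ X) ⊆ Finset.Icc 1 ⌊X⌋₊ := by
          intro d hd
          rw [Finset.mem_filter, Finset.mem_Icc] at hd
          rw [Finset.mem_Icc]
          exact ⟨hd.1.1, Nat.le_floor hd.2⟩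
        have h2 : (((Finset.Icc 1 N).filter (fun d : ℕ => (d : ℝ) ≤ X)).card : ℝ) ≤ X := by
          have h3 := Finset.card_le_card h1
          rw [Nat.card_Icc, Nat.add_sub_cancel] at h3
          exact (by exact_mod_cast h3 : _ ≤ (⌊X⌋₊ : ℝ)).trans (Nat.floor_le hX)
        gcongr
    _ = C * X ^ ε * X := by ring

end EH60
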